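import Mathlib

/-! Definitions for unions of planes, characteristic angles and minimal sets. -/

namespace Pool.Agent.Lib.MP_b07a76_an

open MeasureTheory Module Metric

variable {V : Type} [NormedAddCommGroup V] [InnerProductSpace ℝ V] [FiniteDimensional ℝ V]

/-- `cos (a k)` is the `k`-th singular value of the orthogonal projection `P → Q`. -/
def HasAngles {d : ℕ} (P Q : Submodule ℝ V) (a : Fin d → ℝ) : Prop :=
  ∀ k : Fin d, (Q.orthogonalProjectionOnto.toLinearMap ∘ₗ P.subtype).singularValues k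
    = Real.cos (a k)

/-- The `d`-planes `P i` have characteristic angles `α i j` for `i < j`. -/
def Realises {d m : ℕ} (P : Fin m → Submodule ℝ V) (α : Fin m → Fin m → Fin d → ℝ) : Prop :=
  (∀ i, finrank ℝ (P i) = d) ∧ ∀ i j, i < j → HasAngles (P i) (P j) (α i j)

variable (V) in
/-- A realisable angle datum. -/
def IsAngleDatum {d m : ℕ} (α : Fin m → Fin m → Fin d → ℝ) : Prop :=
  (∀ i j, i < j → Monotone (α i j) ∧ ∀ k, α i j k ∈ Set.Icc 0 (Real.pi / 2)) ∧
    ∃ P : Fin m → Submodule ℝ V, Realises P α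

/-- A Euclidean `k`-sphere. -/
def IsRoundSphere (k : ℕ) (S : Set V) : Prop :=
  ∃ (c : V) (r : ℝ) (N : Submodule ℝ V), 0 < r ∧ finrank ℝ N = k + 1 ∧
    S = {x | x - c ∈ N ∧ ‖x - c‖ = r}

/-- `S ⊆ X` and the inclusion induces a nonzero map `H_k(S; ℤ) → H_k(X; ℤ)`. -/
def NonzeroIn (k : ℕ) (S X : Set V) : Prop :=
  ∃ h : S ⊆ X, ((AlgebraicTopology.singularHomologyFunctor (ModuleCat.{0} ℤ) k).obj
    (ModuleCat.of ℤ ℤ)).map (TopCat.ofHom ⟨Set.inclusion h, continuous_inclusion h⟩) ≠ 0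

/-- `F` is a topological competitor of the `d`-dimensional set `E`. -/
def TopCompetitor (d : ℕ) (E F : Set V) : Prop :=
  IsClosed F ∧ ∃ (c : V) (r : ℝ), 0 < r ∧ F \ ball c r = E \ ball c r ∧
    ∀ S, IsRoundSphere (finrank ℝ V - d - 1) S → S ⊆ (ball c r ∪ E)ᶜ →
      NonzeroIn (finrank ℝ V - d - 1) S Eᶜ → NonzeroIn (finrank ℝ V - d - 1) S Fᶜ

/-- `F` is an Almgren competitor of `E`. -/
def AlmgrenCompetitor (E F : Set V) : Prop :=
  ∃ (f : V → V) (K : NNReal) (c : V) (r : ℝ), LipschitzWith K f ∧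
    (∀ x, x ∉ closedBall c r → f x = x) ∧ Set.MapsTo f (closedBall c r) (closedBall c r) ∧
    F = f '' E

variable [MeasurableSpace V] [BorelSpace V]

/-- `E` is minimal of dimension `d` for the class `C` of competitors. -/
def IsMinimal (d : ℕ) (C : Set V → Set V → Prop) (E : Set V) : Prop :=
  IsClosed E ∧ (∀ c r, μH[d] (E ∩ ball c r) < ⊤) ∧
    ∀ F, C E F → μH[d] (E \ F) ≤ μH[d] (F \ E)

/-- `α` is an angle datum and every union of planes realising it is minimal for `C`. -/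
def MinimalAngle {d m : ℕ} (C : Set V → Set V → Prop) (α : Fin m → Fin m → Fin d → ℝ) : Prop :=
  IsAngleDatum V α ∧ ∀ P : Fin m → Submodule ℝ V, Realises P α → IsMinimal d C (⋃ i, (P i : Set V))

end Pool.Agent.Lib.MP_b07a76_an
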