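import Pool.Agent.Lib.MP_b07a76_an.Wedge
import Pool.Agent.Lib.MP_b07a76_an.Defs

/-! Principal vectors, adapted frames and disjointness of the wedges. -/

namespace Pool.Agent.Lib.MP_b07a76_an

noncomputable section
open Module Set Real

variable {V : Type} [NormedAddCommGroup V] [InnerProductSpace ℝ V] [FiniteDimensional ℝ V] {d : ℕ}

lemma exists_principal {P Q : Submodule ℝ V} (hP : finrank ℝ P = d) (hQ : finrank ℝ Q = d)
    {a : Fin d → ℝ} (h : HasAngles P Q a) :
    ∃ e f : Fin d → V, Orthonormal ℝ e ∧ Orthonormal ℝ f ∧ (∀ k, e k ∈ P) ∧ (∀ k, f k ∈ Q) ∧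
      ∀ k l, inner ℝ (e k) (f l) = if k = l then cos (a k) else 0 := by
  classical
  set T := Q.orthogonalProjectionOnto.toLinearMap ∘ₗ P.subtype with hT
  let eb := T.isSymmetric_adjoint_comp_self.eigenvectorBasis hP
  have h1 : ∀ k l, inner ℝ (T (eb k)) (T (eb l)) = if k = l then cos (a k) ^ 2 else 0 := by
    intro k l
    have h2 := T.isSymmetric_adjoint_comp_self.apply_eigenvectorBasis hP l
    rw [← LinearMap.adjoint_inner_right]
    change inner ℝ (eb k) ((LinearMap.adjoint T ∘ₗ T) (eb l)) = _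
    rw [h2, ← T.sq_singularValues_fin hP l, h l, inner_smul_right, eb.inner_eq_ite]
    split_ifs with hkl
    · simp [hkl]
    · simp
  let v : Fin d → Q := fun k => (cos (a k))⁻¹ • T (eb k)
  have hv : Orthonormal ℝ (Set.domRestrict {k | cos (a k) ≠ 0} v) := by
    rw [orthonormal_iff_ite]
    rintro ⟨k, hk⟩ ⟨l, hl⟩
    simp only [Set.domRestrict_apply, v, inner_smul_left, inner_smul_right, h1, conj_trivial,
      Subtype.mk.injEq]
    split_ifs with hkl
    · subst hkl
      have : cos (a k) ≠ 0 := hk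
      field_simp
    · simp
  obtain ⟨fb, hfb⟩ := hv.exists_orthonormalBasis_extension_of_card_eq (by simpa using hQ)
  refine ⟨fun k => eb k, fun k => fb k, P.subtypeₗᵢ.orthonormal_comp_iff.2 eb.orthonormal,
    Q.subtypeₗᵢ.orthonormal_comp_iff.2 fb.orthonormal, fun k => (eb k).2, fun k => (fb k).2, ?_⟩
  intro k l
  have h3 : inner ℝ (eb k : V) (fb l : V) = inner ℝ (T (eb k)) (fb l) :=
    (Q.inner_orthogonalProjectionOnto_eq_of_mem_right (fb l) (eb k)).symm
  rw [h3]
  by_cases hk : cos (a k) = 0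
  · have h4 : T (eb k) = 0 := by
      have := h1 k k
      rw [if_pos rfl, hk] at this
      simpa using this
    simp [h4, hk]
  · have h4 : T (eb k) = cos (a k) • fb k := by
      rw [hfb k hk]
      simp only [v, smul_smul]
      rw [mul_inv_cancel₀ hk, one_smul]
    rw [h4, inner_smul_left, fb.inner_eq_ite]
    split_ifs <;> simp

omit [FiniteDimensional ℝ V] in
lemma pair_ineq {e f : Fin d → V} (he : Orthonormal ℝ e) (hf : Orthonormal ℝ f) {c : Fin d → ℝ}
    (hc : ∀ k, 0 ≤ c k) (h : ∀ k l, inner ℝ (e k) (f l) = if k = l then c k else 0) (z : V) :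
    ∑ k, (1 + c k)⁻¹ * (inner ℝ (e k) z ^ 2 + inner ℝ (f k) z ^ 2) ≤ ‖z‖ ^ 2 := by
  set A := ∑ k, (1 + c k)⁻¹ * (inner ℝ (e k) z ^ 2 + inner ℝ (f k) z ^ 2) with hA
  let x : Fin d → ℝ := fun k => (1 + c k)⁻¹ * inner ℝ (e k) z
  let y : Fin d → ℝ := fun k => (1 + c k)⁻¹ * inner ℝ (f k) z
  let w := ∑ k, x k • e k + ∑ k, y k • f k
  have h1 : inner ℝ w z = A := by
    simp only [w, inner_add_left, sum_inner, inner_smul_left, conj_trivial, hA,
      ← Finset.sum_add_distrib, x, y]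
    exact Finset.sum_congr rfl fun k _ => by ring
  have h2 : ‖w‖ ^ 2 ≤ A := by
    have e1 : inner ℝ (∑ k, x k • e k) (∑ k, y k • f k) = ∑ k, x k * y k * c k := by
      rw [sum_inner]
      refine Finset.sum_congr rfl fun k _ => ?_
      simp only [inner_sum, inner_smul_left, inner_smul_right, h, conj_trivial, mul_ite, mul_zero,
        Finset.sum_ite_eq, Finset.mem_univ, if_true]
      ring
    rw [norm_add_sq_real, norm_sum_sq he, norm_sum_sq hf, e1, hA, Finset.mul_sum,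
      ← Finset.sum_add_distrib, ← Finset.sum_add_distrib]
    refine Finset.sum_le_sum fun k _ => ?_
    have h3 : 0 < 1 + c k := by linarith [hc k]
    have e2 : (1 + c k)⁻¹ * (inner ℝ (e k) z ^ 2 + inner ℝ (f k) z ^ 2)
        = (1 + c k) * (x k ^ 2 + y k ^ 2) := by
      simp only [x, y]; field_simp
    rw [e2]
    nlinarith [mul_nonneg (hc k) (sq_nonneg (x k - y k))]
  have h4 := real_inner_le_norm w z
  nlinarith [sq_nonneg (‖w‖ - ‖z‖)]

lemma exists_unit_orth (P : Submodule ℝ V) (S : Finset V) (h : S.card < finrank ℝ P) :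
    ∃ v ∈ P, ‖v‖ = 1 ∧ ∀ g ∈ S, inner ℝ g v = 0 := by
  let L : P →ₗ[ℝ] (S → ℝ) := LinearMap.pi fun g => (innerₗ V g.1) ∘ₗ P.subtype
  have := LinearMap.ker_ne_bot_of_finrank_lt (f := L) (by simpa using h)
  obtain ⟨v, hv, hv0⟩ := (Submodule.ne_bot_iff _).1 this
  have hn : ‖(v : V)‖ ≠ 0 := by simpa using hv0
  refine ⟨‖(v : V)‖⁻¹ • v, P.smul_mem _ v.2, by rw [norm_smul, norm_inv, norm_norm, inv_mul_cancel₀ hn],
    fun g hg => ?_⟩
  have := congrFun (LinearMap.mem_ker.1 hv) ⟨g, hg⟩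
  simp only [L, LinearMap.pi_apply, LinearMap.comp_apply, innerₗ_apply_apply,
    Submodule.subtype_apply, Pi.zero_apply] at this
  rw [inner_smul_right, this, mul_zero]

lemma exists_flag (P : Submodule ℝ V) (hP : finrank ℝ P = d) (c : Fin d → Finset V)
    (hc : ∀ r, (c r).card ≤ r) :
    ∃ b : Fin d → V, Orthonormal ℝ b ∧ (∀ r, b r ∈ P) ∧ ∀ r, ∀ g ∈ c r, inner ℝ g (b r) = 0 := by
  classical
  have key : ∀ n ≤ d, ∃ b : Fin d → V,
      (∀ r : Fin d, d - n ≤ r → b r ∈ P ∧ ‖b r‖ = 1 ∧ ∀ g ∈ c r, inner ℝ g (b r) = 0) ∧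
      ∀ r r' : Fin d, d - n ≤ r → d - n ≤ r' → r ≠ r' → inner ℝ (b r) (b r') = 0 := by
    intro n
    induction n with
    | zero => exact fun _ => ⟨0, fun r hr => absurd r.2 (by omega), fun r _ hr => absurd r.2 (by omega)⟩
    | succ n ih =>
      intro hn
      obtain ⟨b, h1, h2⟩ := ih (by omega)
      let r0 : Fin d := ⟨d - (n + 1), by omega⟩
      obtain ⟨v, hv1, hv2, hv3⟩ := exists_unit_orth P (c r0 ∪ (Finset.Ioi r0).image b) (by
        have h3 := Finset.card_union_le (c r0) ((Finset.Ioi r0).image b)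
        have h4 := Finset.card_image_le (s := Finset.Ioi r0) (f := b)
        have h5 := hc r0
        rw [Fin.card_Ioi] at h4
        simp only [r0] at h3 h4 h5 ⊢
        omega)
      have hlt : ∀ r : Fin d, d - (n + 1) ≤ r → r ≠ r0 → d - n ≤ r ∧ r0 < r := by
        intro r hr hne
        have : (r : ℕ) ≠ d - (n + 1) := fun h => hne (Fin.ext h)
        exact ⟨by omega, by rw [Fin.lt_def]; simp only [r0]; omega⟩
      refine ⟨Function.update b r0 v, fun r hr => ?_, fun r r' hr hr' hne => ?_⟩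
      · by_cases h : r = r0
        · subst h
          rw [Function.update_self]
          exact ⟨hv1, hv2, fun g hg => hv3 g (Finset.mem_union_left _ hg)⟩
        · rw [Function.update_of_ne h]
          exact h1 r (hlt r hr h).1
      · have hm : ∀ r : Fin d, r0 < r → inner ℝ (b r) v = 0 := fun r hr =>
          hv3 _ (Finset.mem_union_right _ (Finset.mem_image_of_mem _ (Finset.mem_Ioi.2 hr)))
        by_cases h : r = r0
        · subst h
          rw [Function.update_self, Function.update_of_ne hne.symm, real_inner_comm]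
          exact hm r' (hlt r' hr' hne.symm).2
        · by_cases h' : r' = r0
          · subst h'
            rw [Function.update_self, Function.update_of_ne h]
            exact hm r (hlt r hr h).2
          · rw [Function.update_of_ne h, Function.update_of_ne h']
            exact h2 r r' (hlt r hr h).1 (hlt r' hr' h').1 hne
  obtain ⟨b, h1, h2⟩ := key d le_rfl
  exact ⟨b, ⟨fun r => (h1 r (by omega)).2.1, fun r r' h => h2 r r' (by omega) (by omega) h⟩,
    fun r => (h1 r (by omega)).1, fun r => (h1 r (by omega)).2.2⟩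

lemma yc_eq_zero {P : Submodule ℝ V} (hP : finrank ℝ P = d) {b : Fin d → V} (hb : Orthonormal ℝ b)
    (hbP : ∀ r, b r ∈ P) {z : V} (hz : z ∈ P) : yc b z = 0 := by
  have h1 : Submodule.span ℝ (range b) = P := by
    apply Submodule.eq_of_le_of_finrank_eq
    · rw [Submodule.span_le]
      rintro _ ⟨r, rfl⟩
      exact hbP r
    · rw [finrank_span_eq_card hb.linearIndependent, hP, Fintype.card_fin]
  rw [← h1] at hz
  obtain ⟨c, rfl⟩ := (Submodule.mem_span_range_iff_exists_fun ℝ).1 hz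
  rw [yc_apply, sub_eq_zero]
  exact Finset.sum_congr rfl fun j _ => by rw [hb.inner_right_fintype]

lemma eq_sum_of_mem {P : Submodule ℝ V} (hP : finrank ℝ P = d) {b : Fin d → V}
    (hb : Orthonormal ℝ b) (hbP : ∀ r, b r ∈ P) {z : V} (hz : z ∈ P) :
    z = ∑ j, inner ℝ (b j) z • b j := by
  have := yc_eq_zero hP hb hbP hz
  rwa [yc_apply, sub_eq_zero] at this

lemma bessel_flag {P : Submodule ℝ V} (hP : finrank ℝ P = d) {b e : Fin d → V}
    (hb : Orthonormal ℝ b) (hbP : ∀ r, b r ∈ P) (he : Orthonormal ℝ e) (heP : ∀ r, e r ∈ P)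
    (φ : Fin d → ℕ) (h : ∀ r l : Fin d, (l : ℕ) < φ r → inner ℝ (e l) (b r) = 0) (z : V) (k : ℕ) :
    ∑ r, (if k ≤ φ r then inner ℝ (b r) z ^ 2 else 0)
      ≤ ∑ l : Fin d, if k ≤ l then inner ℝ (e l) z ^ 2 else 0 := by
  let z' := ∑ l : Fin d, (if k ≤ l then inner ℝ (e l) z else 0) • e l
  have h1 : ‖z'‖ ^ 2 = ∑ l : Fin d, if k ≤ l then inner ℝ (e l) z ^ 2 else 0 := by
    rw [norm_sum_sq he]
    exact Finset.sum_congr rfl fun l _ => by split_ifs <;> simp
  have h2 : ∀ r, k ≤ φ r → inner ℝ (b r) z = inner ℝ (b r) z' := by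
    intro r hr
    conv_lhs => rw [eq_sum_of_mem hP he heP (hbP r), sum_inner]
    simp only [z', inner_sum]
    refine Finset.sum_congr rfl fun l _ => ?_
    rw [inner_smul_left, inner_smul_right, real_inner_comm (e l) (b r), conj_trivial]
    split_ifs with hl
    · ring
    · rw [h r l (by omega)]; ring
  have h3 := hb.sum_inner_products_le (s := Finset.univ) z'
  rw [← h1]
  refine le_trans (Finset.sum_le_sum fun r _ => ?_) h3
  split_ifs with hr
  · rw [h2 r hr, Real.norm_eq_abs, sq_abs]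
  · positivity

lemma loewner {P : Submodule ℝ V} (hP : finrank ℝ P = d) {b e : Fin d → V}
    (hb : Orthonormal ℝ b) (hbP : ∀ r, b r ∈ P) (he : Orthonormal ℝ e) (heP : ∀ r, e r ∈ P)
    (φ : Fin d → Fin d) (h : ∀ r l : Fin d, l < φ r → inner ℝ (e l) (b r) = 0)
    (T : Fin d → ℝ) (hT : Monotone T) (hT0 : ∀ l, 0 ≤ T l) (z : V) :
    ∑ r, T (φ r) * inner ℝ (b r) z ^ 2 ≤ ∑ l, T l * inner ℝ (e l) z ^ 2 := by
  let G : ℕ → ℝ := fun n => if hn : 0 < n ∧ n - 1 < d then T ⟨n - 1, hn.2⟩ else 0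
  have hG : ∀ l : Fin d, T l = ∑ k ∈ Finset.range d, if k ≤ l then G (k + 1) - G k else 0 := by
    intro l
    rw [← Finset.sum_filter]
    have : (Finset.range d).filter (fun k : ℕ => k ≤ (l : ℕ)) = Finset.range (l + 1) := by
      ext k
      have := l.2
      simp only [Finset.mem_filter, Finset.mem_range]
      omega
    rw [this, Finset.sum_range_sub]
    simp [G]
  have hΔ : ∀ k ∈ Finset.range d, 0 ≤ G (k + 1) - G k := by
    intro k hk
    have hk' := Finset.mem_range.1 hk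
    simp only [G, Nat.add_sub_cancel, hk', Nat.zero_lt_succ, and_self, dif_pos]
    split_ifs with h1
    · exact sub_nonneg.2 (hT (by rw [Fin.le_def]; simp))
    · simpa using hT0 _
  have e1 : ∑ r, T (φ r) * inner ℝ (b r) z ^ 2 = ∑ k ∈ Finset.range d, (G (k + 1) - G k) *
      ∑ r, if k ≤ (φ r : ℕ) then inner ℝ (b r) z ^ 2 else 0 := by
    simp only [hG, Finset.sum_mul, Finset.mul_sum]
    rw [Finset.sum_comm]
    exact Finset.sum_congr rfl fun k _ => Finset.sum_congr rfl fun r _ => by split_ifs <;> simp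
  have e2 : ∑ l, T l * inner ℝ (e l) z ^ 2 = ∑ k ∈ Finset.range d, (G (k + 1) - G k) *
      ∑ l : Fin d, if k ≤ (l : ℕ) then inner ℝ (e l) z ^ 2 else 0 := by
    simp only [hG, Finset.sum_mul, Finset.mul_sum]
    rw [Finset.sum_comm]
    exact Finset.sum_congr rfl fun k _ => Finset.sum_congr rfl fun r _ => by split_ifs <;> simp
  rw [e1, e2]
  exact Finset.sum_le_sum fun k hk => mul_le_mul_of_nonneg_left
    (bessel_flag hP hb hbP he heP (fun r => φ r) h z k) (hΔ k hk)

/-- Principal vectors for all pairs, and frames adapted to them. -/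
lemma exists_frames {m : ℕ} {P : Fin m → Submodule ℝ V}
    {γ : Fin m → Fin m → Fin d → ℝ} (h : Realises P γ) :
    ∃ (g : Fin m → Fin m → Fin d → V) (b : Fin m → Fin d → V),
      (∀ i j, i ≠ j → Orthonormal ℝ (g i j) ∧ ∀ k, g i j k ∈ P i) ∧
      (∀ i j, i < j → ∀ k l, inner ℝ (g i j k) (g j i l) = if k = l then cos (γ i j k) else 0) ∧
      (∀ i, Orthonormal ℝ (b i) ∧ ∀ r, b i r ∈ P i) ∧
      ∀ i j, i ≠ j → ∀ r l : Fin d, (l : ℕ) < r / (m - 1) → inner ℝ (g i j l) (b i r) = 0 := by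
  classical
  have h1 := fun i j (hij : i < j) => exists_principal (h.1 i) (h.1 j) (h.2 i j hij)
  choose! e f h1 h2 h3 h4 h5 using h1
  let g : Fin m → Fin m → Fin d → V := fun i j => if i < j then e i j else f j i
  have h6 := fun i => exists_flag (P i) (h.1 i) (fun r =>
    ((Finset.univ.erase i) ×ˢ (Finset.univ.filter fun l : Fin d => (l : ℕ) < r / (m - 1))).image
      fun p => g i p.1 p.2) (by
    intro r
    refine Finset.card_image_le.trans ?_
    rw [Finset.card_product, Finset.card_erase_of_mem (Finset.mem_univ _), Finset.card_univ,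
      Fintype.card_fin]
    have : (Finset.univ.filter fun l : Fin d => (l : ℕ) < r / (m - 1)).card ≤ r / (m - 1) := by
      rw [Fin.card_filter_val_lt]; exact min_le_right _ _
    exact (Nat.mul_le_mul_left _ this).trans (Nat.mul_div_le _ _))
  choose b h6 h7 h8 using h6
  refine ⟨g, b, fun i j hij => ?_, fun i j hij k l => ?_, fun i => ⟨h6 i, h7 i⟩,
    fun i j hij r l hl => ?_⟩
  · rcases lt_or_gt_of_ne hij with hlt | hlt
    · simp only [g, if_pos hlt]
      exact ⟨h1 i j hlt, h3 i j hlt⟩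
    · simp only [g, if_neg hlt.not_gt]
      exact ⟨h2 j i hlt, h4 j i hlt⟩
  · simp only [g, if_pos hij, if_neg hij.not_gt]
    exact h5 i j hij k l
  · apply h8 i r
    exact Finset.mem_image.2 ⟨(j, l), by simp [hij.symm, hl], rfl⟩

lemma one_add_tan_half_sq {x : ℝ} (h0 : 0 ≤ x) (h1 : x ≤ π / 2) :
    1 + tan (x / 2) ^ 2 = 2 * (1 + cos x)⁻¹ := by
  have hc : 0 < cos (x / 2) := cos_pos_of_mem_Ioo ⟨by linarith [pi_pos], by linarith [pi_pos]⟩
  have h2 : cos x = 2 * cos (x / 2) ^ 2 - 1 := by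
    rw [← Real.cos_two_mul]; ring_nf
  rw [h2, tan_eq_sin_div_cos]
  have := sin_sq_add_cos_sq (x / 2)
  have h3 : 1 + (2 * cos (x / 2) ^ 2 - 1) = 2 * cos (x / 2) ^ 2 := by ring
  rw [h3]
  field_simp
  linarith

lemma tan_half_mono {x y : ℝ} (h0 : 0 ≤ x) (h1 : x ≤ y) (h2 : y ≤ π / 2) :
    0 ≤ tan (x / 2) ∧ tan (x / 2) ≤ tan (y / 2) :=
  ⟨tan_nonneg_of_nonneg_of_le_pi_div_two (by linarith) (by linarith [pi_pos]),
    strictMonoOn_tan.monotoneOn ⟨by linarith [pi_pos], by linarith [pi_pos]⟩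
      ⟨by linarith [pi_pos], by linarith [pi_pos]⟩ (by linarith)⟩

/-- Frames whose wedges are pairwise disjoint. -/
lemma exists_wedges {m : ℕ} {P : Fin m → Submodule ℝ V}
    {γ : Fin m → Fin m → Fin d → ℝ} (h : Realises P γ)
    (hγ : ∀ i j, i < j → Monotone (γ i j) ∧ ∀ k, γ i j k ∈ Set.Icc 0 (π / 2))
    (a : ℕ → ℝ) (ha : ∀ l, 0 ≤ a l) (hle : ∀ i j, i < j → ∀ k : Fin d, a k ≤ γ i j k) :
    ∃ b : Fin m → Fin d → V, (∀ i, Orthonormal ℝ (b i) ∧ ∀ r, b i r ∈ P i) ∧
      ∀ i j, i ≠ j → ∀ z,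
        ‖yc (b i) z‖ ^ 2 < Dd (b i) (fun r => tan (a (r / (m - 1)) / 2)) z →
        Dd (b j) (fun r => tan (a (r / (m - 1)) / 2)) z < ‖yc (b j) z‖ ^ 2 := by
  obtain ⟨g, b, h1, h2, h3, h4⟩ := exists_frames h
  refine ⟨b, h3, ?_⟩
  let φ : Fin d → Fin d := fun r => ⟨r / (m - 1), lt_of_le_of_lt (Nat.div_le_self _ _) r.2⟩
  have key : ∀ i j, i ≠ j → ∀ (c : Fin d → ℝ), Monotone c → (∀ k, c k ∈ Set.Icc 0 (π / 2)) →
      (∀ k : Fin d, a k ≤ c k) → ∀ z,
      ‖z‖ ^ 2 + Dd (b i) (fun r => tan (a (r / (m - 1)) / 2)) z - ‖yc (b i) z‖ ^ 2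
        ≤ 2 * ∑ k, (1 + cos (c k))⁻¹ * inner ℝ (g i j k) z ^ 2 := by
    intro i j hij c hc1 hc2 hc3 z
    have h5 := loewner (h.1 i) (h3 i).1 (h3 i).2 (h1 i j hij).1 (h1 i j hij).2 φ
      (fun r l hl => h4 i j hij r l hl) (fun l => 1 + tan (c l / 2) ^ 2) (by
        intro l l' hl
        have := tan_half_mono (hc2 l).1 (hc1 hl) (hc2 l').2
        simp only
        nlinarith [this.1, this.2]) (fun l => by positivity) z
    rw [norm_split (h3 i).1 z, Finset.mul_sum]
    have e1 : ∑ k, 2 * ((1 + cos (c k))⁻¹ * inner ℝ (g i j k) z ^ 2)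
        = ∑ l, (1 + tan (c l / 2) ^ 2) * inner ℝ (g i j l) z ^ 2 :=
      Finset.sum_congr rfl fun k _ => by rw [one_add_tan_half_sq (hc2 k).1 (hc2 k).2]; ring
    rw [e1]
    refine le_trans ?_ h5
    have h6 : ∑ r, inner ℝ (b i r) z ^ 2 + Dd (b i) (fun r => tan (a (r / (m - 1)) / 2)) z
        ≤ ∑ r, (1 + tan (c (φ r) / 2) ^ 2) * inner ℝ (b i r) z ^ 2 := by
      rw [Dd, ← Finset.sum_add_distrib]
      refine Finset.sum_le_sum fun r _ => ?_
      have := tan_half_mono (ha (r / (m - 1))) (hc3 (φ r)) (hc2 (φ r)).2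
      have h7 : tan (a (r / (m - 1)) / 2) ^ 2 ≤ tan (c (φ r) / 2) ^ 2 := by
        gcongr
        · exact this.1
        · exact this.2
      nlinarith [mul_le_mul_of_nonneg_right h7 (sq_nonneg (inner ℝ (b i r) z))]
    linarith
  have key2 : ∀ i j, i < j → ∀ z,
      Dd (b i) (fun r => tan (a (r / (m - 1)) / 2)) z - ‖yc (b i) z‖ ^ 2 +
      (Dd (b j) (fun r => tan (a (r / (m - 1)) / 2)) z - ‖yc (b j) z‖ ^ 2) ≤ 0 := by
    intro i j hij z
    obtain ⟨h5, h6⟩ := hγ i j hij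
    have h7 := key i j hij.ne _ h5 h6 (hle i j hij) z
    have h8 := key j i hij.ne' _ h5 h6 (hle i j hij) z
    have h9 := pair_ineq (h1 i j hij.ne).1 (h1 j i hij.ne').1 (c := fun k => cos (γ i j k))
      (fun k => cos_nonneg_of_mem_Icc ⟨by linarith [(h6 k).1, pi_pos], (h6 k).2⟩) (h2 i j hij) z
    simp only [mul_add, Finset.sum_add_distrib] at h9
    linarith
  intro i j hij z hz
  rcases lt_or_gt_of_ne hij with hlt | hlt
  · linarith [key2 i j hlt z]
  · linarith [key2 j i hlt z]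

end

end Pool.Agent.Lib.MP_b07a76_an
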