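import Pool.Agent.Lib.MP_b07a76_an.Chain

/-! A criterion for a map to be nonzero on singular homology. -/

namespace Pool.Agent.Lib.MP_b07a76_an

noncomputable section
open Classical CategoryTheory Limits AlgebraicTopology Simplicial Filter

abbrev ZZ : ModuleCat.{0} ℤ := ModuleCat.of ℤ ℤ

abbrev GG : Type := Filter.Germ (atTop : Filter ℕ) (ZMod 2)

abbrev MM : ModuleCat.{0} ℤ := ModuleCat.of ℤ GG

def ee (m : GG) : ZZ ⟶ MM := ModuleCat.ofHom (LinearMap.toSpanSingleton ℤ GG m)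

lemma ee_sum {n : ℕ} (m : Fin n → GG) : ∑ i, (-1) ^ i.val • ee (m i) = ee (∑ i, m i) := by
  have h2 : ∀ a : GG, -a = a := by
    intro a
    induction a using Filter.Germ.inductionOn with
    | h f =>
      rw [← Filter.Germ.coe_neg]
      congr 1
      funext n
      simp [CharTwo.neg_eq]
  have h3 : ∀ (j : ℕ) (a : GG), ((-1 : ℤ) ^ j) • a = a := by
    intro j a
    rcases neg_one_pow_eq_or ℤ j with h | h <;> simp [h, h2]
  apply ModuleCat.hom_ext
  apply LinearMap.ext_ring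
  simp only [ee, ModuleCat.hom_sum, ModuleCat.hom_zsmul, ModuleCat.hom_ofHom,
    LinearMap.coe_sum, Finset.sum_apply, LinearMap.smul_apply, LinearMap.toSpanSingleton_apply,
    one_smul, h3]

/-- The labels pulled back along a singular simplex. -/
def lab {Y : TopCat.{0}} (l : Y → ℕ) {k : ℕ} (σ : (TopCat.toSSet.obj Y) _⦋k⦌) :
    (Fin (k + 1) → ℝ) → ℕ := fun x =>
  if h : x ∈ stdSimplex ℝ (Fin (k + 1)) then l (TopCat.toSSetObjEquiv Y _ σ ⟨x, h⟩) else 0

lemma lab_δ {Y : TopCat.{0}} (l : Y → ℕ) {k : ℕ} (σ : (TopCat.toSSet.obj Y) _⦋k + 1⦌)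
    (i : Fin (k + 2)) (x : Fin (k + 1) → ℝ) (hx : x ∈ stdSimplex ℝ (Fin (k + 1))) :
    lab l ((TopCat.toSSet.obj Y).δ i σ) x = lab l σ (face k i x) := by
  simp only [lab, dif_pos hx, dif_pos (face_mem k i hx)]
  rfl

def coc {Y : TopCat.{0}} (l : Y → ℕ) (k : ℕ) :
    ((TopCat.toSSet.obj Y).chainComplex ZZ).X k ⟶ MM :=
  ((TopCat.toSSet.obj Y).isColimitChainComplexXCofan ZZ k).desc
    (Cofan.mk _ fun σ => ee (Filter.Germ.ofFun fun N => cnt k N (lab l σ)))

lemma ι_coc {Y : TopCat.{0}} (l : Y → ℕ) (k : ℕ) (σ : (TopCat.toSSet.obj Y) _⦋k⦌) :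
    (TopCat.toSSet.obj Y).ιChainComplex σ ≫ coc l k
      = ee (Filter.Germ.ofFun fun N => cnt k N (lab l σ)) :=
  ((TopCat.toSSet.obj Y).isColimitChainComplexXCofan ZZ k).fac _ ⟨σ⟩

lemma germ_sum {n : ℕ} (f : Fin n → ℕ → ZMod 2) :
    ∑ i, (Filter.Germ.ofFun (f i) : GG) = Filter.Germ.ofFun (fun N => ∑ i, f i N) := by
  have := map_sum (Filter.Germ.coeRingHom (atTop : Filter ℕ)) f Finset.univ
  simp only [Filter.Germ.coe_coeRingHom] at this
  rw [← this]
  congr 1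
  funext N
  simp

lemma d_coc {Y : TopCat.{0}} (l : Y → ℕ) (k : ℕ) (h1 : ∀ y, l y < k + 2)
    (h2 : ∀ y, ∃ j < k + 2, ∀ᶠ y' in nhds y, l y' ≠ j) :
    ((TopCat.toSSet.obj Y).chainComplex ZZ).d (k + 1) k ≫ coc l k = 0 := by
  apply SSet.chainComplex_hom_ext
  intro τ
  rw [← Category.assoc, SSet.ιChainComplex_d, Preadditive.sum_comp, comp_zero]
  simp only [Preadditive.zsmul_comp, ι_coc]
  rw [ee_sum, germ_sum]
  suffices h : (Filter.Germ.ofFun fun N => ∑ i, cnt k N (lab l ((TopCat.toSSet.obj Y).δ i τ)) : GG)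
      = 0 by
    rw [h]
    apply ModuleCat.hom_ext
    apply LinearMap.ext_ring
    simp [ee]
  have hs : ∀ N, ∑ i, cnt k N (lab l ((TopCat.toSSet.obj Y).δ i τ))
      = cnt (k + 1) N (lab l τ) := by
    intro N
    rw [cnt_succ]
    · apply Finset.sum_congr rfl
      intro i _
      exact cnt_congr k N (fun x hx => lab_δ l τ i x hx)
    · intro x hx
      simp only [lab, dif_pos hx]
      exact h1 _
  simp only [hs]
  let t := TopCat.toSSetObjEquiv Y _ τ
  choose j hj hj' using h2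
  have hU : ∀ x : stdSimplex ℝ (Fin (k + 2)), ∃ U, IsOpen U ∧ x ∈ U ∧
      ∀ x' ∈ U, l (t x') ≠ j (t x) := by
    intro x
    have := t.continuous.continuousAt.eventually (hj' (t x))
    obtain ⟨U, h3, h4, h5⟩ := eventually_nhds_iff.1 this
    exact ⟨U, h4, h5, h3⟩
  choose U hU1 hU2 hU3 using hU
  obtain ⟨δ, hδ, hδ'⟩ := lebesgue_number_lemma_of_metric (s := Set.univ) isCompact_univ hU1
    (fun x _ => Set.mem_iUnion.2 ⟨x, hU2 x⟩)
  have hlim : Tendsto (fun N : ℕ => (((k + 1 + 1 : ℕ) : ℝ) / ((k + 1 + 1 : ℕ) + 1)) ^ N)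
      atTop (nhds 0) := by
    apply tendsto_pow_atTop_nhds_zero_of_lt_one (by positivity)
    rw [div_lt_one (by positivity)]
    linarith
  change _ = ((0 : ℕ → ZMod 2) : GG)
  rw [Filter.Germ.coe_eq]
  filter_upwards [hlim.eventually (gt_mem_nhds hδ)] with N hN
  apply cnt_eq_zero
  intro s hs
  obtain ⟨x, hx⟩ := Multiset.card_pos_iff_exists_mem.1 (by rw [hs.1]; omega : 0 < Multiset.card s)
  obtain ⟨x0, hx0⟩ := hδ' ⟨x, hs.2.1 x hx⟩ (Set.mem_univ _)
  refine ⟨j (t x0), hj _, fun y hy => ?_⟩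
  simp only [lab, dif_pos (hs.2.1 y hy)]
  apply hU3 x0
  apply hx0
  rw [Metric.mem_ball, Subtype.dist_eq]
  exact (hs.2.2 y hy x hx).trans_lt (by simpa using hN)

/-- The boundary of the standard `(k+1)`-simplex. -/
def Bd (k : ℕ) : Set (stdSimplex ℝ (Fin (k + 2))) := {x | ∃ i, x.1 i = 0}

def faceBd (k : ℕ) (i : Fin (k + 2)) : C(stdSimplex ℝ (Fin (k + 1)), Bd k) :=
  ⟨fun x => ⟨stdSimplex.map i.succAbove x, i, face_self k i x.1⟩,
    (stdSimplex.continuous_map _).subtype_mk _⟩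

def zz (k : ℕ) : ZZ ⟶ ((TopCat.toSSet.obj (TopCat.of (Bd k))).chainComplex ZZ).X k :=
  ∑ i : Fin (k + 2), (-1) ^ i.val • (TopCat.toSSet.obj (TopCat.of (Bd k))).ιChainComplex
    ((TopCat.toSSetObjEquiv (TopCat.of (Bd k)) (Opposite.op ⦋k⦌)).symm (faceBd k i))

lemma zz_d (k j : ℕ) : zz k ≫ ((TopCat.toSSet.obj (TopCat.of (Bd k))).chainComplex ZZ).d k j
    = 0 := by
  let D : TopCat.{0} := TopCat.of (stdSimplex ℝ (Fin (k + 2)))
  let ι : TopCat.of (Bd k) ⟶ D := TopCat.ofHom ⟨Subtype.val, continuous_subtype_val⟩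
  have hm : Mono ι := (TopCat.mono_iff_injective _).2 Subtype.val_injective
  let F := SSet.chainComplexMap (TopCat.toSSet.map ι) ZZ
  have hF : Mono F :=
    inferInstanceAs (Mono (((singularChainComplexFunctor (ModuleCat.{0} ℤ)).obj ZZ).map ι))
  have hFj : Mono (F.f j) :=
    inferInstanceAs (Mono ((HomologicalComplex.eval _ _ j).map F))
  rw [← cancel_mono (F.f j), zero_comp, Category.assoc, ← F.comm, ← Category.assoc]
  have : zz k ≫ F.f k = (TopCat.toSSet.obj D).ιChainComplex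
      ((TopCat.toSSetObjEquiv D (Opposite.op ⦋k + 1⦌)).symm (ContinuousMap.id _))
      ≫ ((TopCat.toSSet.obj D).chainComplex ZZ).d (k + 1) k := by
    rw [SSet.ιChainComplex_d, zz, Preadditive.sum_comp]
    apply Finset.sum_congr rfl
    intro i _
    rw [Preadditive.zsmul_comp, SSet.ι_chainComplexMap_f]
    rfl
  rw [this, Category.assoc, HomologicalComplex.d_comp_d, comp_zero]

theorem homology_map_ne_zero (k : ℕ) {Y : TopCat.{0}} (f : TopCat.of (Bd k) ⟶ Y) (l : Y → ℕ)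
    (h1 : ∀ y, l y < k + 2) (h2 : ∀ y, ∃ j < k + 2, ∀ᶠ y' in nhds y, l y' ≠ j)
    (h3 : ∀ x : Bd k, ∃ j : Fin (k + 2), l (f x) = j ∧ x.1.1 j ≠ 0) :
    ((singularHomologyFunctor (ModuleCat.{0} ℤ) k).obj ZZ).map f ≠ 0 := by
  intro h
  let F := SSet.chainComplexMap (TopCat.toSSet.map f) ZZ
  have hF : HomologicalComplex.homologyMap F k = 0 := h
  have hz : zz k ≫ F.f k ≫ coc l k = ee 1 := by
    rw [zz, Preadditive.sum_comp]
    simp only [Preadditive.zsmul_comp, F, SSet.ι_chainComplexMap_f_assoc, ι_coc]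
    rw [ee_sum, germ_sum]
    congr 1
    change _ = ((1 : ℕ → ZMod 2) : GG)
    congr 1
    funext N
    apply cnt_faces k N (sperner k N)
    intro i x hx
    obtain ⟨j, h4, h5⟩ := h3 (faceBd k i ⟨x, hx⟩)
    refine ⟨j, ?_, h5⟩
    simp only [lab, dif_pos hx]
    exact h4
  have h0 : zz k ≫ F.f k ≫ coc l k = 0 := by
    set K := (TopCat.toSSet.obj (TopCat.of (Bd k))).chainComplex ZZ
    set L := (TopCat.toSSet.obj Y).chainComplex ZZ
    have e1 : zz k = K.liftCycles (zz k) _ rfl (zz_d k _) ≫ K.iCycles k := by simp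
    have e2 : coc l k = L.pOpcycles k ≫ L.descOpcycles (coc l k) (k + 1) (by simp)
      (d_coc l k h1 h2) := by simp
    rw [e1, e2, Category.assoc, ← HomologicalComplex.cyclesMap_i_assoc,
      ← HomologicalComplex.homology_π_ι_assoc, ← HomologicalComplex.homologyπ_naturality_assoc, hF]
    simp
  rw [h0] at hz
  have := congrArg (fun g => ModuleCat.Hom.hom g (1 : ℤ)) hz
  simp [ee] at this

end

end Pool.Agent.Lib.MP_b07a76_an
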