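import Pool.Agent.Lib.MP_b07a76_an.IFrame

/-! Families of planes with diagonal Gram data, and the induction on the angles. -/

namespace Pool.Agent.Lib.MP_b07a76_an

noncomputable section
open Module Set Real
open scoped NNReal

variable {V : Type} [NormedAddCommGroup V] [InnerProductSpace ℝ V] [FiniteDimensional ℝ V]
  {d m : ℕ}

/-- Every pair of planes has frames with diagonal Gram matrix `c i j`. -/
def Conf (P : Fin m → Submodule ℝ V) (c : Fin m → Fin m → Fin d → ℝ) : Prop :=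
  (∀ i, finrank ℝ (P i) = d) ∧ ∀ i j, i < j → ∃ e f, Fr (P i) (P j) e f (c i j)

/-- `p` represents `x` on `P i` and vanishes on the other planes. -/
def Dual (P : Fin m → Submodule ℝ V) (i : Fin m) (x p : V) : Prop :=
  (∀ v ∈ P i, inner ℝ p v = inner ℝ x v) ∧ ∀ l, l ≠ i → ∀ v ∈ P l, inner ℝ p v = 0

/-- One entry changed. -/
def upd (c : Fin m → Fin m → Fin d → ℝ) (i j : Fin m) (k : Fin d) (x : ℝ) :
    Fin m → Fin m → Fin d → ℝ :=
  fun a b l => if a = i ∧ b = j ∧ l = k then x else c a b l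

/-- The sum map of a family. -/
def sumMap (P : Fin m → Submodule ℝ V) : ((i : Fin m) → P i) →ₗ[ℝ] V :=
  ∑ i, (P i).subtype ∘ₗ LinearMap.proj i

variable {P : Fin m → Submodule ℝ V} {c : Fin m → Fin m → Fin d → ℝ}

omit [FiniteDimensional ℝ V] in
lemma sumMap_apply (v : (i : Fin m) → P i) : sumMap P v = ∑ i, (v i : V) := by
  simp [sumMap, LinearMap.sum_apply]

lemma dom_ineq (β : Fin m → Fin m → ℝ) (x : Fin m → ℝ) (κ : ℝ) (h0 : ∀ a b, β a b = β b a)
    (h1 : ∀ a, β a a = x a) (h2 : ∀ a b, a < b → -(κ * (x a + x b) / 2) ≤ β a b) :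
    (1 - (m - 1) * κ) * ∑ a, x a ≤ ∑ a, ∑ b, β a b := by
  have h3 : ∀ a b, (if a = b then (1 + κ) * x a else 0) - (κ / 2 * x a + κ / 2 * x b) ≤ β a b := by
    intro a b
    rcases lt_trichotomy a b with h | h | h
    · rw [if_neg h.ne]; linarith [h2 a b h]
    · subst h; rw [if_pos rfl, h1]; linarith
    · rw [if_neg h.ne', h0]; linarith [h2 b a h]
  refine le_trans (le_of_eq ?_) (Finset.sum_le_sum fun a _ => Finset.sum_le_sum fun b _ => h3 a b)
  simp only [Finset.sum_sub_distrib, Finset.sum_add_distrib, Finset.sum_ite_eq, Finset.mem_univ,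
    if_true, Finset.sum_const, Finset.card_univ, Fintype.card_fin, nsmul_eq_mul, ← Finset.mul_sum]
  ring

lemma Conf.bij (h : Conf P c) (hV : finrank ℝ V = d * m) {κ : ℝ} (hκ : 0 ≤ κ)
    (hc : ∀ i j, i < j → ∀ k, |c i j k| ≤ κ) (h1 : (m - 1) * κ < 1) :
    Function.Bijective (sumMap P) := by
  have hi : Function.Injective (sumMap P) := by
    rw [injective_iff_map_eq_zero]
    intro v hv
    have h2 := dom_ineq (fun a b => inner ℝ (v a : V) (v b : V)) (fun a => ‖(v a : V)‖ ^ 2) κ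
      (fun a b => real_inner_comm _ _) (fun a => real_inner_self_eq_norm_sq _) (fun a b hab => by
        obtain ⟨e, f, hf⟩ := h.2 a b hab
        rw [hf.inner_eq (h.1 a) (h.1 b) (v a).2 (v b).2]
        exact diag_bound hf.1 hf.2.1 hκ (hc a b hab) _ _)
    simp only [← inner_sum, ← sumMap_apply, hv, inner_zero_right, Finset.sum_const_zero] at h2
    have h3 : ∑ a, ‖(v a : V)‖ ^ 2 = 0 := by
      refine le_antisymm ?_ (Finset.sum_nonneg fun a _ => sq_nonneg _)
      by_contra hc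
      nlinarith [mul_pos (sub_pos.2 h1) (not_le.1 hc)]
    rw [Finset.sum_eq_zero_iff_of_nonneg fun a _ => sq_nonneg _] at h3
    funext a
    simpa using h3 a (Finset.mem_univ a)
  refine ⟨hi, (LinearMap.injective_iff_surjective_of_finrank_eq_finrank ?_).1 hi⟩
  rw [finrank_pi_fintype, hV]
  simp [h.1, mul_comm]

omit [FiniteDimensional ℝ V] in
lemma internal_of_bij (h : Function.Bijective (sumMap P)) : DirectSum.IsInternal P := by
  have : (DirectSum.coeAddMonoidHom P : _ → V)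
      = sumMap P ∘ DirectSum.linearEquivFunOnFintype ℝ (Fin m) fun i => P i := by
    funext x
    rw [Function.comp_apply, sumMap_apply]
    conv_lhs => rw [← DirectSum.sum_univ_of x]
    simp only [map_sum, DirectSum.coeAddMonoidHom_of]
    rfl
  unfold DirectSum.IsInternal
  rw [this]
  exact h.comp (LinearEquiv.bijective _)

lemma exists_dual (h : Function.Bijective (sumMap P)) (i : Fin m) (x : V) :
    ∃ p, Dual P i x p := by
  let S := LinearEquiv.ofBijective _ h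
  let T : V →ₗ[ℝ] V := (P i).subtype ∘ₗ LinearMap.proj i ∘ₗ S.symm.toLinearMap
  have h1 : ∀ l, ∀ v : P l, S.symm v = Pi.single l v := by
    intro l v
    rw [LinearEquiv.symm_apply_eq, LinearEquiv.ofBijective_apply, sumMap_apply,
      Finset.sum_eq_single l (fun b _ hb => by simp [Pi.single_eq_of_ne hb]) (by simp)]
    simp
  refine ⟨LinearMap.adjoint T x, fun v hv => ?_, fun l hl v hv => ?_⟩
  · rw [LinearMap.adjoint_inner_left]
    have := h1 i ⟨v, hv⟩
    simp only [T, LinearMap.comp_apply, LinearEquiv.coe_coe] at this ⊢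
    simp [this]
  · rw [LinearMap.adjoint_inner_left]
    have := h1 l ⟨v, hv⟩
    simp only [T, LinearMap.comp_apply, LinearEquiv.coe_coe] at this ⊢
    simp [this, Pi.single_eq_of_ne hl.symm]

variable {i j : Fin m} {k : Fin d} {e f : Fin d → V} {p q : V} {σ : ℝ}

omit [FiniteDimensional ℝ V] in
lemma Dual.same {x y : V} (hp : Dual P i x p) (hq : Dual P j y q) (hij : i ≠ j) (a : Fin m)
    {u v : V} (hu : u ∈ P a) (hv : v ∈ P a) : inner ℝ p u * inner ℝ q v = 0 := by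
  by_cases ha : a = i
  · rw [hq.2 a (ha ▸ hij) v hv, mul_zero]
  · rw [hp.2 a ha u hu, zero_mul]

lemma Conf.beta (h : Conf P c) (hij : i < j) (hf : Fr (P i) (P j) e f (c i j))
    (hp : Dual P i (e k) p) (hq : Dual P j (f k) q) (σ : ℝ) {a b : Fin m} (hab : a < b) :
    ∃ e' f', Fr (P a) (P b) e' f' (c a b) ∧ ∀ u ∈ P a, ∀ v ∈ P b,
      inner ℝ u v + σ * (inner ℝ p u * inner ℝ q v + inner ℝ q u * inner ℝ p v)
        = ∑ l, upd c i j k (c i j k + σ) a b l * (inner ℝ (e' l) u * inner ℝ (f' l) v) := by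
  have h2 : ∀ u ∈ P a, ∀ v ∈ P b, inner ℝ q u * inner ℝ p v = 0 := by
    intro u hu v hv
    by_cases ha : a = j
    · rw [hp.2 b (by subst ha; exact (hij.trans hab).ne') v hv, mul_zero]
    · rw [hq.2 a ha u hu, zero_mul]
  by_cases hc : a = i ∧ b = j
  · obtain ⟨rfl, rfl⟩ := hc
    refine ⟨e, f, hf, fun u hu v hv => ?_⟩
    rw [h2 u hu v hv, hp.1 u hu, hq.1 v hv, hf.inner_eq (h.1 a) (h.1 b) hu hv]
    have : ∀ l, upd c a b k (c a b k + σ) a b l = c a b l + if l = k then σ else 0 := by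
      intro l
      unfold upd
      by_cases hl : l = k <;> simp [hl]
    simp only [this, add_mul, Finset.sum_add_distrib, ite_mul, zero_mul, Finset.sum_ite_eq',
      Finset.mem_univ, if_true, add_zero]
  · obtain ⟨e', f', hf'⟩ := h.2 a b hab
    refine ⟨e', f', hf', fun u hu v hv => ?_⟩
    have h3 : inner ℝ p u * inner ℝ q v = 0 := by
      by_cases ha : a = i
      · rw [hq.2 b (fun hb => hc ⟨ha, hb⟩) v hv, mul_zero]
      · rw [hp.2 a ha u hu, zero_mul]
    have : ∀ l, upd c i j k (c i j k + σ) a b l = c a b l := fun l =>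
      if_neg fun h => hc ⟨h.1, h.2.1⟩
    rw [h2 u hu v hv, h3, hf'.inner_eq (h.1 a) (h.1 b) hu hv]
    simp [this]

lemma Conf.map (h : Conf P c) (hij : i < j) (hf : Fr (P i) (P j) e f (c i j))
    (hp : Dual P i (e k) p) (hq : Dual P j (f k) q) {L : V →L[ℝ] V} (hL : Form p q σ L) :
    Conf (mp L P) (upd c i j k (c i j k + σ)) := by
  have h1 : ∀ a, ∀ u ∈ P a, ∀ v ∈ P a, inner ℝ (L u) (L v) = inner ℝ u v := by
    intro a u hu v hv
    rw [hL.inner_eq, hp.same hq hij.ne a hu hv, mul_comm (inner ℝ q u), hp.same hq hij.ne a hv hu]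
    ring
  have h2 : ∀ a (g : Fin d → V), Orthonormal ℝ g → (∀ l, g l ∈ P a) →
      Orthonormal ℝ fun l => L (g l) := by
    intro a g hg hg'
    rw [orthonormal_iff_ite] at hg ⊢
    intro s t
    rw [h1 a _ (hg' s) _ (hg' t), hg]
  refine ⟨fun a => ?_, fun a b hab => ?_⟩
  · have h3 : Function.Injective ((L : V →ₗ[ℝ] V).domRestrict (P a)) := by
      rw [injective_iff_map_eq_zero]
      intro v hv
      have h4 := hL.iso (hp.same hq hij.ne a v.2 v.2)
      have h5 : L v = 0 := hv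
      rw [h5, norm_zero] at h4
      exact Subtype.ext (norm_eq_zero.1 h4.symm)
    have h4 := LinearMap.finrank_range_of_inj h3
    rw [LinearMap.range_domRestrict, h.1] at h4
    exact h4
  · obtain ⟨e', f', hf', h3⟩ := h.beta hij hf hp hq σ hab
    refine ⟨fun l => L (e' l), fun l => L (f' l), h2 a e' hf'.1 hf'.2.2.1,
      h2 b f' hf'.2.1 hf'.2.2.2.1, fun l => ⟨_, hf'.2.2.1 l, rfl⟩,
      fun l => ⟨_, hf'.2.2.2.1 l, rfl⟩, fun s t => ?_⟩
    rw [hL.inner_eq, h3 _ (hf'.2.2.1 s) _ (hf'.2.2.2.1 t)]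
    simp only [orthonormal_iff_ite.1 hf'.1, orthonormal_iff_ite.1 hf'.2.1]
    rw [Finset.sum_eq_single s (fun l _ hl => by simp [hl]) (by simp)]
    by_cases hst : s = t <;> simp [hst]

lemma Conf.psd (h : Conf P c) (hb : Function.Bijective (sumMap P)) (hij : i < j)
    (hf : Fr (P i) (P j) e f (c i j)) (hp : Dual P i (e k) p) (hq : Dual P j (f k) q) {κ : ℝ}
    (hκ : 0 ≤ κ) (hc : ∀ a b, a < b → ∀ l, |upd c i j k (c i j k + σ) a b l| ≤ κ)
    (h1 : (m - 1) * κ < 1) (v : V) : 0 ≤ ‖v‖ ^ 2 + 2 * σ * (inner ℝ p v * inner ℝ q v) := by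
  obtain ⟨w, rfl⟩ := hb.2 v
  have h2 := dom_ineq (fun a b => inner ℝ (w a : V) (w b : V) + σ * (inner ℝ p (w a : V)
      * inner ℝ q (w b : V) + inner ℝ q (w a : V) * inner ℝ p (w b : V)))
    (fun a => ‖(w a : V)‖ ^ 2) κ
    (fun a b => by rw [real_inner_comm (w a : V) (w b : V)]; ring)
    (fun a => by
      rw [mul_comm (inner ℝ q (w a : V)), hp.same hq hij.ne a (w a).2 (w a).2,
        real_inner_self_eq_norm_sq]
      ring)
    (fun a b hab => by
      obtain ⟨e', f', hf', h3⟩ := h.beta hij hf hp hq σ hab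
      rw [h3 _ (w a).2 _ (w b).2]
      exact diag_bound hf'.1 hf'.2.1 hκ (hc a b hab) _ _)
  simp only [Finset.sum_add_distrib, ← Finset.mul_sum, ← Finset.sum_mul, ← inner_sum, ← sum_inner,
    ← sumMap_apply, real_inner_self_eq_norm_sq] at h2
  have h3 := mul_nonneg (sub_pos.2 h1).le
    (Finset.sum_nonneg fun a (_ : a ∈ Finset.univ) => sq_nonneg ‖(w a : V)‖)
  linarith

lemma Fr.dual_two {P : Fin 2 → Submodule ℝ V} {c : Fin d → ℝ} {i j : Fin 2} (hij : i ≠ j)
    (hP : ∀ i, finrank ℝ (P i) = d) (hf : Fr (P i) (P j) e f c) (hk : |c k| < 1) :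
    Dual P i (e k) ((1 - c k ^ 2)⁻¹ • (e k - c k • f k)) := by
  have h3 : 0 < 1 - c k ^ 2 := sub_pos.2 ((sq_lt_one_iff_abs_lt_one _).2 hk)
  refine ⟨fun v hv => ?_, fun l hl v hv => ?_⟩
  · simp only [inner_smul_left, inner_sub_left, conj_trivial, hf.left (hP i) hv]
    field_simp
  · obtain rfl : l = j := by omega
    simp only [inner_smul_left, inner_sub_left, conj_trivial, hf.right (hP l) hv]
    ring

/-- The Gram data of `P` are dominated by the cosines of `α`. -/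
def Sub (α : Fin m → Fin m → Fin d → ℝ) (P : Fin m → Submodule ℝ V) : Prop :=
  ∃ c : Fin m → Fin m → Fin d → ℝ, Conf P c ∧ ∀ i j, i < j → ∀ k, |c i j k| ≤ cos (α i j k)

variable {α : Fin m → Fin m → Fin d → ℝ}

lemma exists_kappa (hm : 3 ≤ m)
    (hdom : ∀ i j, i < j → ∀ k, 2 * (m - 2 : ℝ) * cos (α i j k) < 1) :
    ∃ κ : ℝ, 0 ≤ κ ∧ (∀ i j, i < j → ∀ k, cos (α i j k) ≤ κ) ∧ (m - 1) * κ < 1 := by
  let g : Option (Fin m × Fin m × Fin d) → ℝ := fun o =>
    o.elim 0 fun x => if x.1 < x.2.1 then cos (α x.1 x.2.1 x.2.2) else 0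
  obtain ⟨o, ho⟩ := Finite.exists_max g
  have h0 : 0 ≤ g o := ho none
  refine ⟨g o, h0, fun i j hij k => ?_, ?_⟩
  · have := ho (some (i, j, k))
    simpa [g, hij] using this
  · have h1 : 2 * (m - 2 : ℝ) * g o < 1 := by
      rcases o with _ | ⟨i, j, k⟩
      · simp [g]
      · by_cases hij : i < j
        · simpa [g, hij] using hdom i j hij k
        · simp [g, hij]
    have h2 : (3 : ℝ) ≤ m := by exact_mod_cast hm
    nlinarith

lemma Sub.bij (h : Sub α P) (hV : finrank ℝ V = d * m) (hm : 3 ≤ m)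
    (hdom : ∀ i j, i < j → ∀ k, 2 * (m - 2 : ℝ) * cos (α i j k) < 1) :
    Function.Bijective (sumMap P) := by
  obtain ⟨κ, h0, h1, h2⟩ := exists_kappa hm hdom
  obtain ⟨c, hc, hc'⟩ := h
  exact hc.bij hV h0 (fun i j hij k => (hc' i j hij k).trans (h1 i j hij k)) h2

lemma Conf.split (h : Conf P c) (hm : 2 ≤ m) (hV : finrank ℝ V = d * m)
    (hdom : ∀ i j, i < j → ∀ k, 2 * (m - 2 : ℝ) * cos (α i j k) < 1)
    (hc : ∀ i j, i < j → ∀ k, |c i j k| ≤ cos (α i j k)) (hij : i < j)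
    (hk : |c i j k| < cos (α i j k)) :
    ∃ p q : V, (∀ a, ∀ v ∈ P a, inner ℝ p v * inner ℝ q v = 0) ∧
      ∀ σ : ℝ, |c i j k + σ| ≤ cos (α i j k) →
        ∃ L, Form p q σ L ∧ Conf (mp L P) (upd c i j k (c i j k + σ)) := by
  obtain ⟨e, f, hf⟩ := h.2 i j hij
  suffices ∃ p q : V, Dual P i (e k) p ∧ Dual P j (f k) q ∧ ∀ σ : ℝ,
      |c i j k + σ| ≤ cos (α i j k) → ∀ v, 0 ≤ ‖v‖ ^ 2 + 2 * σ * (inner ℝ p v * inner ℝ q v) by
    obtain ⟨p, q, hp, hq, h1⟩ := this
    refine ⟨p, q, fun a v hv => hp.same hq hij.ne a hv hv, fun σ hσ => ?_⟩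
    obtain ⟨L, hL⟩ := exists_form (h1 σ hσ)
    exact ⟨L, hL, h.map hij hf hp hq hL⟩
  rcases hm.eq_or_lt with rfl | hm3
  · have hk1 := hk.trans_le (cos_le_one _)
    exact ⟨_, _, hf.dual_two hij.ne h.1 hk1, hf.symm.dual_two hij.ne' h.1 hk1, fun σ hσ =>
      psd_two (hf.1.1 k) (hf.2.1.1 k) (by rw [hf.2.2.2.2, if_pos rfl]) hk1
        (hσ.trans (cos_le_one _))⟩
  · have hb := Sub.bij ⟨c, h, hc⟩ hV hm3 hdom
    obtain ⟨κ, h0, h1, h2⟩ := exists_kappa hm3 hdom
    obtain ⟨p, hp⟩ := exists_dual hb i (e k)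
    obtain ⟨q, hq⟩ := exists_dual hb j (f k)
    refine ⟨p, q, hp, hq, fun σ hσ => h.psd hb hij hf hp hq h0 (fun a b hab l => ?_) h2⟩
    unfold upd
    split_ifs with h3
    · exact hσ.trans (h1 i j hij k)
    · exact (hc a b hab l).trans (h1 a b hab l)

theorem interp (hm : 2 ≤ m) (hV : finrank ℝ V = d * m)
    (hα : ∀ i j, i < j → Monotone (α i j) ∧ ∀ k, α i j k ∈ Icc 0 (π / 2))
    (hdom : ∀ i j, i < j → ∀ k, 2 * (m - 2 : ℝ) * cos (α i j k) < 1)
    (M : (Fin m → Submodule ℝ V) → Prop) (base : ∀ P, Realises P α → M P)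
    (step : ∀ (P : Fin m → Submodule ℝ V) (p q : V) (σ₀ σ₁ : ℝ) (L₀ L₁ : V →L[ℝ] V) (t₀ t₁ : ℝ≥0),
      Sub α P → Form p q σ₀ L₀ → Form p q σ₁ L₁ → t₀ + t₁ = 1 → t₀ * σ₀ + t₁ * σ₁ = 0 →
      (∀ a, ∀ v ∈ P a, inner ℝ p v * inner ℝ q v = 0) → Sub α (mp L₀ P) → Sub α (mp L₁ P) →
      M (mp L₀ P) → M (mp L₁ P) → M P) :
    ∀ P, Sub α P → M P := by
  classical
  let J : (Fin m → Fin m → Fin d → ℝ) → Finset (Fin m × Fin m × Fin d) := fun c =>
    Finset.univ.filter fun x => x.1 < x.2.1 ∧ |c x.1 x.2.1 x.2.2| < cos (α x.1 x.2.1 x.2.2)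
  suffices ∀ n, ∀ (P : Fin m → Submodule ℝ V) (c : Fin m → Fin m → Fin d → ℝ), (J c).card = n →
      Conf P c → (∀ i j, i < j → ∀ k, |c i j k| ≤ cos (α i j k)) → M P by
    rintro P ⟨c, h, hc⟩
    exact this _ P c rfl h hc
  intro n
  induction n using Nat.strong_induction_on with
  | _ n ih =>
  intro P c hn h hc
  rcases (J c).eq_empty_or_nonempty with hJ | ⟨⟨i, j, k⟩, hx⟩
  · refine base P ⟨h.1, fun i j hij => ?_⟩
    obtain ⟨e, f, hf⟩ := h.2 i j hij
    refine hf.hasAngles (h.1 i) (h.1 j) (hα i j hij).1 (hα i j hij).2 fun k => ?_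
    refine (hc i j hij k).eq_of_not_lt fun hlt => ?_
    have : (i, j, k) ∈ J c := Finset.mem_filter.2 ⟨Finset.mem_univ _, hij, hlt⟩
    simp [hJ] at this
  obtain ⟨hij, hk⟩ := (Finset.mem_filter.1 hx).2
  simp only at hij hk
  obtain ⟨p, q, hpq, hL⟩ := h.split hm hV hdom hc hij hk
  set a := cos (α i j k) with ha
  have ha0 : 0 < a := (abs_nonneg _).trans_lt hk
  have hk' := abs_lt.1 hk
  have one : ∀ σ, |c i j k + σ| = a → ∃ L, Form p q σ L ∧ Sub α (mp L P) ∧ M (mp L P) := by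
    intro σ hσ
    obtain ⟨L, h1, h2⟩ := hL σ hσ.le
    have h3 : ∀ a' b, a' < b → ∀ l, |upd c i j k (c i j k + σ) a' b l| ≤ cos (α a' b l) := by
      intro a' b hab l
      unfold upd
      split_ifs with h3
      · obtain ⟨rfl, rfl, rfl⟩ := h3
        exact hσ.le
      · exact hc a' b hab l
    refine ⟨L, h1, ⟨_, h2, h3⟩, ih _ ?_ _ _ rfl h2 h3⟩
    rw [← hn]
    refine Finset.card_lt_card ⟨fun x hx => ?_, fun hs => ?_⟩
    · obtain ⟨h4, h5⟩ := (Finset.mem_filter.1 hx).2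
      refine Finset.mem_filter.2 ⟨Finset.mem_univ _, h4, ?_⟩
      unfold upd at h5
      split_ifs at h5 with h6
      · obtain ⟨rfl, rfl, rfl⟩ := h6
        exact hk
      · exact h5
    · have h5 := (Finset.mem_filter.1 (hs hx)).2.2
      simp only [upd, and_self, if_true] at h5
      exact h5.ne hσ
  obtain ⟨L₀, a1, a2, a3⟩ := one (a - c i j k) (by rw [add_sub_cancel, abs_of_pos ha0])
  obtain ⟨L₁, b1, b2, b3⟩ := one (-a - c i j k) (by rw [add_sub_cancel, abs_neg, abs_of_pos ha0])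
  refine step P p q _ _ L₀ L₁
    (NNReal.mk ((a + c i j k) / (2 * a)) (div_nonneg (by linarith) (by linarith)))
    (NNReal.mk ((a - c i j k) / (2 * a)) (div_nonneg (by linarith) (by linarith))) ⟨c, h, hc⟩ a1 b1 ?_ ?_ hpq
    a2 b2 a3 b3
  · ext
    simp only [NNReal.coe_add, NNReal.coe_mk, NNReal.coe_one]
    field_simp
    ring
  · simp only [NNReal.coe_mk]
    field_simp
    ring

end

end Pool.Agent.Lib.MP_b07a76_an
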