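import Pool.Agent.Lib.MP_b07a76_an.IDefs

/-! The area inequality for a convex combination of rank two perturbations of the metric. -/

namespace Pool.Agent.Lib.MP_b07a76_an

noncomputable section
open MeasureTheory Module Metric Set Filter
open scoped NNReal ENNReal Topology

variable {V : Type} [NormedAddCommGroup V] [InnerProductSpace ℝ V] [FiniteDimensional ℝ V] {d : ℕ}

lemma img_le {X Y Z : Type} [MetricSpace Y] [MetricSpace Z] [MeasurableSpace Y]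
    [BorelSpace Y] [MeasurableSpace Z] [BorelSpace Z] (g : X → Y) (k : X → Z) (T : Set X) (c : ℝ≥0)
    (h : ∀ x ∈ T, ∀ y ∈ T, dist (g x) (g y) ≤ c * dist (k x) (k y)) :
    μH[d] (g '' T) ≤ (c : ℝ≥0∞) ^ d * μH[d] (k '' T) := by
  rcases T.eq_empty_or_nonempty with rfl | ⟨x₀, hx₀⟩
  · simp
  have : Nonempty X := ⟨x₀⟩
  have h1 : LipschitzOnWith c (g ∘ Function.invFunOn k T) (k '' T) := by
    refine LipschitzOnWith.of_dist_le_mul fun a ha b hb => ?_
    have := h _ (Function.invFunOn_mem ha) _ (Function.invFunOn_mem hb)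
    rwa [Function.invFunOn_eq ha, Function.invFunOn_eq hb] at this
  have h2 : g '' T ⊆ (g ∘ Function.invFunOn k T) '' (k '' T) := by
    rintro _ ⟨x, hx, rfl⟩
    have ha : ∃ a ∈ T, k a = k x := ⟨x, hx, rfl⟩
    refine ⟨k x, ha, ?_⟩
    have := h _ (Function.invFunOn_mem ha) x hx
    rw [Function.invFunOn_eq ha, dist_self, mul_zero] at this
    exact dist_le_zero.1 this
  have h3 := h1.hausdorffMeasure_image_le (d := d) (by positivity)
  rw [ENNReal.rpow_natCast] at h3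
  exact (measure_mono h2).trans h3

lemma exists_sqrt (T : V →ₗ[ℝ] V) (hT : T.IsSymmetric) (h : ∀ v, 0 ≤ inner ℝ (T v) v) :
    ∃ L : V →L[ℝ] V, ∀ v, ‖L v‖ ^ 2 = inner ℝ (T v) v := by
  let b := hT.eigenvectorBasis rfl
  let e := hT.eigenvalues rfl
  have hb : ∀ i, T (b i) = e i • b i := fun i => hT.apply_eigenvectorBasis rfl i
  have he : ∀ i, 0 ≤ e i := fun i => by
    have := h (b i)
    rwa [hb, inner_smul_left, real_inner_self_eq_norm_sq, b.norm_eq_one, conj_trivial, one_pow,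
      mul_one] at this
  refine ⟨∑ i, √(e i) • (innerSL ℝ (b i)).smulRight (b i), fun v => ?_⟩
  have h1 : (∑ i, √(e i) • (innerSL ℝ (b i)).smulRight (b i)) v
      = ∑ i, (√(e i) * inner ℝ (b i) v) • b i := by
    simp [mul_smul]
  rw [h1, norm_sum_sq b.orthonormal, ← b.sum_inner_mul_inner (T v) v]
  refine Finset.sum_congr rfl fun i _ => ?_
  rw [mul_pow, Real.sq_sqrt (he i), hT v (b i), hb, inner_smul_right, real_inner_comm (b i) v]
  ring

lemma exists_form {p q : V} {σ : ℝ}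
    (h : ∀ v, 0 ≤ ‖v‖ ^ 2 + 2 * σ * (inner ℝ p v * inner ℝ q v)) : ∃ L, Form p q σ L := by
  let T : V →ₗ[ℝ] V := LinearMap.id + σ • (((innerSL ℝ p).smulRight q).toLinearMap
    + ((innerSL ℝ q).smulRight p).toLinearMap)
  have hT : ∀ u v, inner ℝ (T u) v = inner ℝ u v
      + σ * (inner ℝ p u * inner ℝ q v + inner ℝ q u * inner ℝ p v) := fun u v => by
    simp [T, inner_add_left, inner_smul_left, mul_add]
  have h2 : ∀ v, inner ℝ (T v) v = ‖v‖ ^ 2 + 2 * σ * (inner ℝ p v * inner ℝ q v) := fun v => by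
    rw [hT, real_inner_self_eq_norm_sq]; ring
  obtain ⟨L, hL⟩ := exists_sqrt T (fun u v => by
    rw [hT, real_inner_comm (T v) u, hT, real_inner_comm v u]; ring) (fun v => by rw [h2]; exact h v)
  exact ⟨L, fun v => by rw [hL, h2]⟩

omit [FiniteDimensional ℝ V] in
lemma Form.inner_eq {p q : V} {σ : ℝ} {L : V →L[ℝ] V} (h : Form p q σ L) (u v : V) :
    inner ℝ (L u) (L v) = inner ℝ u v
      + σ * (inner ℝ p u * inner ℝ q v + inner ℝ q u * inner ℝ p v) := by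
  have h1 := h (u + v)
  rw [map_add, norm_add_sq_real, norm_add_sq_real, h u, h v, inner_add_right, inner_add_right] at h1
  linarith

lemma jac_le (p q : V) (W : Submodule ℝ V) : ∃ τ : ℝ, ∀ (σ : ℝ) (L : V →L[ℝ] V), Form p q σ L →
    ((L : V →ₗ[ℝ] V).domRestrict W).normDet ≤ 1 + σ * τ := by
  let b := stdOrthonormalBasis ℝ W
  let P : Fin (finrank ℝ W) → ℝ := fun i => inner ℝ p (b i : V)
  let Q : Fin (finrank ℝ W) → ℝ := fun i => inner ℝ q (b i : V)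
  refine ⟨∑ i, P i * Q i, fun σ L hL => ?_⟩
  have h1 := ((L : V →ₗ[ℝ] V).domRestrict W).normDet_sq_eq_det_gram b
  let X : Matrix (Fin (finrank ℝ W)) (Fin 2) ℝ := Matrix.of fun i j => σ * ![P i, Q i] j
  let Y : Matrix (Fin 2) (Fin (finrank ℝ W)) ℝ := Matrix.of fun j i => ![Q i, P i] j
  have h2 : Matrix.gram ℝ (fun i => ((L : V →ₗ[ℝ] V).domRestrict W) (b i)) = 1 + X * Y := by
    ext i j
    have h3 : inner ℝ (b i : V) (b j : V) = (1 : Matrix _ _ ℝ) i j := by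
      rw [Matrix.one_apply, ← b.inner_eq_ite]; rfl
    simp only [Matrix.gram_apply, LinearMap.domRestrict_apply, ContinuousLinearMap.coe_coe,
      hL.inner_eq, h3, Matrix.add_apply, Matrix.mul_apply, Fin.sum_univ_two, X, Y, P, Q, Matrix.of_apply]
    simp
    ring
  rw [h2, Matrix.det_one_add_mul_comm, Matrix.det_fin_two] at h1
  simp only [Matrix.add_apply, Matrix.mul_apply, X, Y, Matrix.of_apply, Matrix.one_apply_eq, Matrix.cons_val_zero,
    Matrix.cons_val_one, ne_eq, zero_ne_one, one_ne_zero, not_false_eq_true, Matrix.one_apply_ne,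
    zero_add, RCLike.ofReal_real_eq_id, id_eq, Matrix.cons_val_fin_one] at h1
  have e1 : ∑ i, Q i * (σ * P i) = σ * ∑ i, P i * Q i := by
    rw [Finset.mul_sum]; exact Finset.sum_congr rfl fun i _ => by ring
  have e2 : ∑ i, P i * (σ * Q i) = σ * ∑ i, P i * Q i := by
    rw [Finset.mul_sum]; exact Finset.sum_congr rfl fun i _ => by ring
  have e3 : ∑ i, Q i * (σ * Q i) = σ * ∑ i, Q i ^ 2 := by
    rw [Finset.mul_sum]; exact Finset.sum_congr rfl fun i _ => by ring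
  have e4 : ∑ i, P i * (σ * P i) = σ * ∑ i, P i ^ 2 := by
    rw [Finset.mul_sum]; exact Finset.sum_congr rfl fun i _ => by ring
  rw [e1, e2, e3, e4] at h1
  have h4 := Finset.sum_mul_sq_le_sq_mul_sq Finset.univ P Q
  generalize ∑ i, P i * Q i = τ at *
  generalize ∑ i, P i ^ 2 = a at *
  generalize ∑ i, Q i ^ 2 = c at *
  have h5 := mul_le_mul_of_nonneg_left h4 (sq_nonneg σ)
  have h6 := sq_nonneg ((L : V →ₗ[ℝ] V).domRestrict W).normDet
  have h7 : 0 ≤ 1 + σ * τ := by nlinarith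
  refine (abs_le_of_sq_le_sq' ?_ h7).2
  nlinarith [sq_nonneg (σ * τ)]

variable [MeasurableSpace V] [BorelSpace V]

omit [FiniteDimensional ℝ V] in
lemma lin_img (M : Ed d →ₗ[ℝ] V) (T : Set (Ed d)) :
    μH[d] (M '' T) = ENNReal.ofReal M.normDet * μH[d] T := by
  have := M.hausdorffMeasure_image T
  rwa [finrank_euclideanSpace_fin] at this

omit [FiniteDimensional ℝ V] in
lemma sard_piece (A : Ed d →L[ℝ] V) (hA : ¬ Function.Injective A) {ε : ℝ≥0∞} (hε : 0 < ε) :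
    ∃ δ : ℝ≥0, δ ≠ 0 ∧ ∀ (f : Ed d → V) (T : Set (Ed d)), ApproximatesLinearOn f A T δ →
      μH[d] (f '' T) ≤ ε * μH[d] T := by
  borelize (WithLp 2 (V × Ed d))
  let M : ℝ → Ed d →ₗ[ℝ] WithLp 2 (V × Ed d) := fun η =>
    (WithLp.linearEquiv 2 ℝ (V × Ed d)).symm.toLinearMap ∘ₗ
      (A : Ed d →ₗ[ℝ] V).prod (η • LinearMap.id)
  let b := EuclideanSpace.basisFun (Fin d) ℝ
  have h1 : Continuous fun η => (M η).normDet := by
    have h2 : ∀ η, (M η).normDet = √(Matrix.gram ℝ fun i => M η (b i)).det := fun η => by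
      rw [← (M η).normDet_sq_eq_det_gram b]
      simp [Real.sqrt_sq (M η).normDet_nonneg]
    simp only [h2]
    refine (Continuous.matrix_det (continuous_matrix fun i j => ?_)).sqrt
    simp only [Matrix.gram_apply, M]
    simp only [LinearMap.comp_apply, LinearEquiv.coe_coe, WithLp.prod_inner_apply]
    simp
    fun_prop
  have h3 : (M 0).normDet = 0 := by
    rw [LinearMap.normDet_eq_zero_iff_ker_ne_bot]
    intro h
    apply hA
    intro x y hxy
    apply LinearMap.ker_eq_bot.1 h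
    simp [M, hxy]
  have h4 : Tendsto (fun η => (2 : ℝ≥0∞) ^ d * ENNReal.ofReal (M η).normDet) (𝓝[>] 0) (𝓝 0) := by
    have h5 := (ENNReal.continuous_ofReal.comp h1).tendsto 0
    simp only [Function.comp_apply, h3, ENNReal.ofReal_zero] at h5
    have := ENNReal.Tendsto.const_mul (a := (2 : ℝ≥0∞) ^ d) h5 (Or.inr (by simp))
    rw [mul_zero] at this
    exact this.mono_left nhdsWithin_le_nhds
  obtain ⟨η, h6, h7⟩ := ((h4.eventually (ge_mem_nhds hε)).and self_mem_nhdsWithin).exists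
  refine ⟨⟨η, le_of_lt h7⟩, fun h => (ne_of_gt h7) (congrArg NNReal.toReal h), fun f T hf => ?_⟩
  refine (img_le f (M η) T 2 fun x hx y hy => ?_).trans ?_
  · have h8 : ‖f x - f y - A (x - y)‖ ≤ η * ‖x - y‖ := hf x hx y hy
    rw [dist_eq_norm, dist_eq_norm, ← map_sub]
    have h9 : ‖M η (x - y)‖ ^ 2 = ‖A (x - y)‖ ^ 2 + (η * ‖x - y‖) ^ 2 := by
      rw [WithLp.prod_norm_sq_eq_of_L2]
      simp [M, norm_smul, mul_pow]
    have h10 := norm_le_insert' (f x - f y) (A (x - y))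
    have h11 : ‖A (x - y)‖ ≤ ‖M η (x - y)‖ :=
      (abs_le_of_sq_le_sq' (by nlinarith [sq_nonneg (η * ‖x - y‖)]) (norm_nonneg _)).2
    have h12 : η * ‖x - y‖ ≤ ‖M η (x - y)‖ :=
      (abs_le_of_sq_le_sq' (by nlinarith [sq_nonneg ‖A (x - y)‖]) (norm_nonneg _)).2
    simp only [NNReal.coe_ofNat]
    linarith
  · rw [lin_img, ← mul_assoc]
    gcongr
    simpa using h6

lemma sard (f : Ed d → V) :
    μH[d] (f '' {x | DifferentiableAt ℝ f x ∧ ¬ Function.Injective (fderiv ℝ f x)}) = 0 := by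
  set s := {x | DifferentiableAt ℝ f x ∧ ¬ Function.Injective (fderiv ℝ f x)}
  have h0 : f '' s = ⋃ R : ℕ, f '' (s ∩ ball 0 R) := by
    rw [← image_iUnion, ← inter_iUnion, iUnion_ball_nat, inter_univ]
  rw [h0]
  refine measure_iUnion_null fun R => ?_
  rcases (s ∩ ball 0 R).eq_empty_or_nonempty with h | h
  · simp [h]
  have h1 : ∀ ε : ℝ≥0∞, 0 < ε → μH[d] (f '' (s ∩ ball 0 R)) ≤ ε * μH[d] (ball (0 : Ed d) R) := by
    intro ε hε
    have h2 : ∀ A : Ed d →L[ℝ] V, ∃ δ : ℝ≥0, δ ≠ 0 ∧ (¬ Function.Injective A →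
        ∀ T, ApproximatesLinearOn f A T δ → μH[d] (f '' T) ≤ ε * μH[d] T) := fun A => by
      by_cases hA : Function.Injective A
      · exact ⟨1, one_ne_zero, fun h => absurd hA h⟩
      · obtain ⟨δ, h1, h2⟩ := sard_piece A hA hε
        exact ⟨δ, h1, fun _ => h2 f⟩
    choose r hr hr' using h2
    obtain ⟨t, A, h3, h4, h5, h6, h7⟩ := exists_partition_approximatesLinearOn_of_hasFDerivWithinAt
      f (s ∩ ball 0 R) (fderiv ℝ f) (fun x hx => hx.1.1.hasFDerivAt.hasFDerivWithinAt) r hr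
    calc μH[d] (f '' (s ∩ ball 0 R)) ≤ μH[d] (⋃ n, f '' (s ∩ ball 0 R ∩ t n)) := by
          rw [← image_iUnion, ← inter_iUnion, inter_eq_left.2 h5]
      _ ≤ ∑' n, μH[d] (f '' (s ∩ ball 0 R ∩ t n)) := measure_iUnion_le _
      _ ≤ ∑' n, ε * μH[d] (s ∩ ball 0 R ∩ t n) := ENNReal.tsum_le_tsum fun n => by
          obtain ⟨y, hy, e⟩ := h7 h n
          exact hr' _ (e ▸ hy.1.2) _ (h6 n)
      _ ≤ ε * μH[d] (ball (0 : Ed d) R) := by
          rw [ENNReal.tsum_mul_left]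
          gcongr
          exact (tsum_inter_le _ _ t h4 h3).trans (measure_mono inter_subset_right)
  have h8 : Tendsto (fun ε : ℝ≥0∞ => ε * μH[d] (ball (0 : Ed d) R)) (𝓝[>] 0) (𝓝 0) := by
    have := ENNReal.Tendsto.mul_const (b := μH[d] (ball (0 : Ed d) R)) (tendsto_id (x := 𝓝 0))
      (Or.inr measure_ball_lt_top.ne)
    rw [zero_mul] at this
    exact this.mono_left nhdsWithin_le_nhds
  exact le_zero_iff.1 (ge_of_tendsto h8 (eventually_nhdsWithin_of_forall h1))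

section Main

variable {p q : V} {σ₀ σ₁ : ℝ} {L₀ L₁ : V →L[ℝ] V} {t₀ t₁ : ℝ≥0}

/-- The weighted measure of the two images. -/
def Phi (d : ℕ) (t₀ t₁ : ℝ≥0) (L₀ L₁ : V →L[ℝ] V) (A : Set V) : ℝ≥0∞ :=
  t₀ * μH[d] (L₀ '' A) + t₁ * μH[d] (L₁ '' A)

omit [FiniteDimensional ℝ V] in
lemma Phi_iUnion {ι : Type} [Countable ι] (A : ι → Set V) :
    Phi d t₀ t₁ L₀ L₁ (⋃ n, A n) ≤ ∑' n, Phi d t₀ t₁ L₀ L₁ (A n) := by
  simp only [Phi, image_iUnion]
  rw [ENNReal.tsum_add, ENNReal.tsum_mul_left, ENNReal.tsum_mul_left]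
  gcongr <;> exact measure_iUnion_le _

omit [FiniteDimensional ℝ V] in
lemma Phi_le (ht : t₀ + t₁ = 1) (A : Set V) :
    Phi d t₀ t₁ L₀ L₁ A ≤ ((‖L₀‖₊ + ‖L₁‖₊ : ℝ≥0) : ℝ≥0∞) ^ d * μH[d] A := by
  have h : ∀ L : V →L[ℝ] V, ‖L‖₊ ≤ ‖L₀‖₊ + ‖L₁‖₊ →
      μH[d] (L '' A) ≤ ((‖L₀‖₊ + ‖L₁‖₊ : ℝ≥0) : ℝ≥0∞) ^ d * μH[d] A := fun L hL => by
    have := (L.lipschitz.weaken hL).hausdorffMeasure_image_le (d := d) (by positivity) A
    rwa [ENNReal.rpow_natCast] at this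
  refine (add_le_add (mul_le_mul_right (h L₀ le_self_add) _)
    (mul_le_mul_right (h L₁ le_add_self) _)).trans_eq ?_
  rw [← add_mul, ← ENNReal.coe_add t₀, ht, ENNReal.coe_one, one_mul]

omit [FiniteDimensional ℝ V] in
lemma Phi_cover {c : ℝ≥0∞} (R : ℕ → Set V) (hR : ∀ n, MeasurableSet (R n))
    (h : ∀ n, ∀ A ⊆ R n, Phi d t₀ t₁ L₀ L₁ A ≤ c * μH[d] A) (A : Set V) (hA : A ⊆ ⋃ n, R n) :
    Phi d t₀ t₁ L₀ L₁ A ≤ c * μH[d] A := by
  have h1 : A = ⋃ n, A ∩ disjointed R n := by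
    rw [← inter_iUnion, iUnion_disjointed, inter_eq_left.2 hA]
  calc Phi d t₀ t₁ L₀ L₁ A = Phi d t₀ t₁ L₀ L₁ (⋃ n, A ∩ disjointed R n) := by rw [← h1]
    _ ≤ ∑' n, c * μH[d] (A ∩ disjointed R n) := (Phi_iUnion _).trans
        (ENNReal.tsum_le_tsum fun n => h n _ (inter_subset_right.trans (disjointed_subset _ _)))
    _ ≤ c * μH[d] A := by
        rw [ENNReal.tsum_mul_left]
        gcongr
        exact tsum_inter_le _ _ _ (MeasurableSet.disjointed hR) (disjoint_disjointed _)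

omit [MeasurableSpace V] [BorelSpace V] in
lemma area_one {σ : ℝ} {L : V →L[ℝ] V} (h : Form p q σ L) {η : ℝ} (hη : 0 < η) :
    ∃ L', Form p q (σ / (1 + η)) L' ∧ ∀ u w : V, ‖L w - L u‖ ≤ η * ‖u‖ →
      ‖L w‖ ≤ (1 + η) * ‖L' u‖ := by
  have h1 : ∀ v, (1 + η) * (‖v‖ ^ 2 + 2 * (σ / (1 + η)) * (inner ℝ p v * inner ℝ q v))
      = ‖L v‖ ^ 2 + η * ‖v‖ ^ 2 := fun v => by
    rw [h v]; field_simp; ring
  obtain ⟨L', hL'⟩ := exists_form (p := p) (q := q) (σ := σ / (1 + η)) fun v => by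
    have := h1 v
    by_contra hc
    nlinarith [sq_nonneg ‖L v‖, mul_nonneg hη.le (sq_nonneg ‖v‖)]
  refine ⟨L', hL', fun u w huw => ?_⟩
  have h2 := h1 u
  rw [← hL' u] at h2
  have h3 := norm_le_insert' (L w) (L u)
  refine (h3.trans (add_le_add_right huw _)).trans (abs_le_of_sq_le_sq' ?_ (by positivity)).2
  have h4 : ((1 + η) * ‖L' u‖) ^ 2 = (1 + η) * (‖L u‖ ^ 2 + η * ‖u‖ ^ 2) := by
    rw [← h2]; ring
  rw [h4]
  nlinarith [mul_nonneg hη.le (sq_nonneg (‖L u‖ - ‖u‖))]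

lemma area_piece (h₀ : Form p q σ₀ L₀) (h₁ : Form p q σ₁ L₁) (ht : t₀ + t₁ = 1)
    (hσ : t₀ * σ₀ + t₁ * σ₁ = 0) (A : Ed d →L[ℝ] V) (hA : Function.Injective A) {c : ℝ≥0}
    (hc : 1 < c) : ∃ δ : ℝ≥0, δ ≠ 0 ∧ ∀ (f : Ed d → V) (T : Set (Ed d)),
      ApproximatesLinearOn f A T δ → InjOn f T ∧
        Phi d t₀ t₁ L₀ L₁ (f '' T) ≤ (c : ℝ≥0∞) ^ (2 * d) * μH[d] (f '' T) := by
  obtain ⟨κ, hκ0, hκ⟩ := (A : Ed d →ₗ[ℝ] V).exists_antilipschitzWith (LinearMap.ker_eq_bot.2 hA)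
  have hκ' : ∀ v, ‖v‖ ≤ κ * ‖A v‖ := fun v => by simpa using hκ.le_mul_dist v 0
  obtain ⟨η, hη, hc'⟩ : ∃ η : ℝ, 0 < η ∧ (c : ℝ) = 1 + η :=
    ⟨c - 1, by simpa using hc, by ring⟩
  obtain ⟨τ, hτ⟩ := jac_le p q (LinearMap.range (A : Ed d →ₗ[ℝ] V))
  have hκ1 : (0 : ℝ) < κ := hκ0
  let δ : ℝ := η / ((1 + η) * κ * (1 + ‖L₀‖ + ‖L₁‖))
  have hδ : 0 < δ := by positivity
  have hδ1 : δ * ((1 + η) * κ * (1 + ‖L₀‖ + ‖L₁‖)) = η := by
    simp only [δ]; field_simp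
  refine ⟨⟨δ, hδ.le⟩, fun h => hδ.ne' (congrArg NNReal.toReal h), fun f T hf => ?_⟩
  have hf' : ∀ x ∈ T, ∀ y ∈ T, ‖f x - f y - A (x - y)‖ ≤ δ * κ * ‖A (x - y)‖ := fun x hx y hy =>
    (show _ ≤ δ * ‖x - y‖ from hf x hx y hy).trans (by
      rw [mul_assoc]; exact mul_le_mul_of_nonneg_left (hκ' _) hδ.le)
  have hp : 0 < δ * κ := by positivity
  have n0 := norm_nonneg L₀
  have n1 := norm_nonneg L₁
  have hlow : ∀ x ∈ T, ∀ y ∈ T, dist (A x) (A y) ≤ c * dist (f x) (f y) := fun x hx y hy => by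
    rw [dist_eq_norm, dist_eq_norm, ← map_sub, hc']
    have h1 := hf' x hx y hy
    have h2 := norm_le_insert (f x - f y) (A (x - y))
    have h3 : (1 + η) * (δ * κ) ≤ η := by
      nlinarith [mul_nonneg (mul_pos hp (by linarith : 0 < 1 + η)).le (add_nonneg n0 n1)]
    have h4 := mul_le_mul_of_nonneg_right h3 (norm_nonneg (A (x - y)))
    nlinarith [mul_le_mul_of_nonneg_left (h2.trans (add_le_add_right h1 _))
      (by linarith : 0 ≤ 1 + η)]
  have hup : ∀ (σ : ℝ) (L : V →L[ℝ] V), Form p q σ L → ‖L‖ ≤ ‖L₀‖ + ‖L₁‖ → μH[d] (L '' (f '' T)) ≤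
      (c : ℝ≥0∞) ^ d * (ENNReal.ofReal (1 + σ / (1 + η) * τ) * μH[d] (A '' T)) ∧
      0 ≤ 1 + σ / (1 + η) * τ := by
    intro σ L hL hn
    obtain ⟨L', h1, h2⟩ := area_one hL hη
    have h3 := hτ _ _ h1
    refine ⟨?_, (LinearMap.normDet_nonneg _).trans h3⟩
    rw [image_image]
    refine (img_le _ ((L' : V →ₗ[ℝ] V) ∘ₗ (A : Ed d →ₗ[ℝ] V)) T c fun x hx y hy => ?_).trans ?_
    · rw [dist_eq_norm, dist_eq_norm, ← map_sub, ← map_sub, hc']
      refine h2 (A (x - y)) _ ?_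
      rw [← map_sub]
      refine (L.le_opNorm _).trans ((mul_le_mul_of_nonneg_left (hf' x hx y hy)
        (norm_nonneg _)).trans ?_)
      rw [← mul_assoc]
      refine mul_le_mul_of_nonneg_right ?_ (norm_nonneg _)
      nlinarith [mul_le_mul_of_nonneg_right hn hp.le, mul_nonneg hp.le hη.le,
        mul_nonneg (mul_nonneg hp.le hη.le) (add_nonneg n0 n1)]
    · gcongr
      have h4 := lin_img (A : Ed d →ₗ[ℝ] V) T
      rw [lin_img, LinearMap.normDet_comp, ENNReal.ofReal_mul (LinearMap.normDet_nonneg _),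
        mul_assoc, ← h4]
      gcongr
      exact le_rfl
  refine ⟨fun x hx y hy e => hA ?_, ?_⟩
  · have := hlow x hx y hy
    rw [e, dist_self, mul_zero] at this
    exact dist_le_zero.1 this
  obtain ⟨a0, b0⟩ := hup _ _ h₀ (by linarith)
  obtain ⟨a1, b1⟩ := hup _ _ h₁ (by linarith)
  have h5 : (t₀ : ℝ≥0∞) * ENNReal.ofReal (1 + σ₀ / (1 + η) * τ)
      + t₁ * ENNReal.ofReal (1 + σ₁ / (1 + η) * τ) = 1 := by
    rw [← ENNReal.ofReal_coe_nnreal, ← ENNReal.ofReal_coe_nnreal,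
      ← ENNReal.ofReal_mul t₀.coe_nonneg, ← ENNReal.ofReal_mul t₁.coe_nonneg,
      ← ENNReal.ofReal_add (mul_nonneg t₀.coe_nonneg b0) (mul_nonneg t₁.coe_nonneg b1), ← ENNReal.ofReal_one]
    congr 1
    have h6 : (t₀ : ℝ) + t₁ = 1 := by exact_mod_cast ht
    linear_combination h6 + τ / (1 + η) * hσ
  calc Phi d t₀ t₁ L₀ L₁ (f '' T) ≤ t₀ * _ + t₁ * _ :=
        add_le_add (mul_le_mul_right a0 _) (mul_le_mul_right a1 _)
    _ = (c : ℝ≥0∞) ^ d * ((t₀ * ENNReal.ofReal (1 + σ₀ / (1 + η) * τ)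
          + t₁ * ENNReal.ofReal (1 + σ₁ / (1 + η) * τ)) * μH[d] (A '' T)) := by ring
    _ ≤ (c : ℝ≥0∞) ^ d * ((c : ℝ≥0∞) ^ d * μH[d] (f '' T)) := by
        rw [h5, one_mul]
        gcongr
        exact img_le A f T c hlow
    _ = _ := by ring

theorem area (h₀ : Form p q σ₀ L₀) (h₁ : Form p q σ₁ L₁) (ht : t₀ + t₁ = 1)
    (hσ : t₀ * σ₀ + t₁ * σ₁ = 0) {A : Set V} (hA : Rect d A) :
    Phi d t₀ t₁ L₀ L₁ A ≤ μH[d] A := by
  obtain ⟨F, hF, hA⟩ := hA
  refine le_of_forall_pow_mul (2 * d) fun c hc => Phi_cover (fun j => range (F j))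
    (fun j => ?_) (fun j => ?_) A hA
  · obtain ⟨K, hK⟩ := hF j
    rw [← image_univ]
    obtain ⟨C, h1, h2⟩ := isSigmaCompact_univ.image hK.continuous
    rw [← h2]
    exact MeasurableSet.iUnion fun n => (h1 n).measurableSet
  obtain ⟨K, hK⟩ := hF j
  set f := F j
  let s := {x | DifferentiableAt ℝ f x ∧ Function.Injective (fderiv ℝ f x)}
  have hs : MeasurableSet s := (measurableSet_of_differentiableAt ℝ f).inter
    (measurable_fderiv ℝ f ContinuousLinearMap.isOpen_injective.measurableSet)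
  have hN : μH[d] (f '' sᶜ) = 0 := by
    have h1 : sᶜ ⊆ {x | ¬ DifferentiableAt ℝ f x} ∪
        {x | DifferentiableAt ℝ f x ∧ ¬ Function.Injective (fderiv ℝ f x)} := fun x hx => by
      simp only [s, mem_compl_iff, mem_ofPred_eq, mem_union] at hx ⊢
      tauto
    refine measure_mono_null (image_mono h1) ?_
    rw [image_union]
    refine measure_union_null ?_ (sard f)
    have h2 : μH[d] {x | ¬ DifferentiableAt ℝ f x} = 0 := hK.ae_differentiableAt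
    have := hK.hausdorffMeasure_image_le (d := d) (by positivity) {x | ¬ DifferentiableAt ℝ f x}
    rwa [h2, mul_zero, le_zero_iff] at this
  have h2 : ∀ B : Ed d →L[ℝ] V, ∃ δ : ℝ≥0, δ ≠ 0 ∧ (Function.Injective B →
      ∀ T, ApproximatesLinearOn f B T δ → InjOn f T ∧
        Phi d t₀ t₁ L₀ L₁ (f '' T) ≤ (c : ℝ≥0∞) ^ (2 * d) * μH[d] (f '' T)) := fun B => by
    by_cases hB : Function.Injective B
    · obtain ⟨δ, h1, h2⟩ := area_piece h₀ h₁ ht hσ B hB hc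
      exact ⟨δ, h1, fun _ => h2 f⟩
    · exact ⟨1, one_ne_zero, fun h => absurd h hB⟩
  choose r hr hr' using h2
  obtain ⟨t, B, -, h4, h5, h6, h7⟩ := exists_partition_approximatesLinearOn_of_hasFDerivWithinAt
    f s (fderiv ℝ f) (fun x hx => hx.1.hasFDerivAt.hasFDerivWithinAt) r hr
  have h8 : ∀ n, ∀ T ⊆ s ∩ t n, InjOn f T ∧
      Phi d t₀ t₁ L₀ L₁ (f '' T) ≤ (c : ℝ≥0∞) ^ (2 * d) * μH[d] (f '' T) := fun n T hT => by
    rcases T.eq_empty_or_nonempty with rfl | ⟨x, hx⟩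
    · simp [Phi]
    · obtain ⟨y, hy, e⟩ := h7 ⟨x, (hT hx).1⟩ n
      exact hr' _ (e ▸ hy.2) _ ((h6 n).mono_set hT)
  intro A' hA'
  refine Phi_cover (fun n => Nat.casesOn n (toMeasurable μH[d] (f '' sᶜ)) fun n => f '' (s ∩ t n))
    (fun n => ?_) (fun n => ?_) A' ?_
  · cases n with
    | zero => exact measurableSet_toMeasurable _ _
    | succ n =>
      exact (hs.inter (h4 n)).image_of_continuousOn_injOn hK.continuous.continuousOn
        (h8 n _ subset_rfl).1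
  · cases n with
    | zero =>
      intro A'' h
      have h9 : μH[d] A'' = 0 := measure_mono_null h ((measure_toMeasurable _).trans hN)
      refine (Phi_le ht A'').trans ?_
      simp [h9]
    | succ n =>
      intro A'' h
      obtain ⟨T, hT, rfl⟩ := subset_image_iff.1 h
      exact (h8 n T hT).2
  · intro z hz
    obtain ⟨x, rfl⟩ := hA' hz
    by_cases hx : x ∈ s
    · obtain ⟨n, hn⟩ := mem_iUnion.1 (h5 hx)
      exact mem_iUnion.2 ⟨n + 1, x, ⟨hx, hn⟩, rfl⟩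
    · exact mem_iUnion.2 ⟨0, subset_toMeasurable _ _ ⟨x, hx, rfl⟩⟩

end Main

end

end Pool.Agent.Lib.MP_b07a76_an
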