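import Pool.Agent.Lib.MP_b07a76_an.IDefs

/-! The Mickle-Rado alternative and the three alternatives of Besicovitch and Federer. -/

namespace Pool.Agent.Lib.MP_b07a76_an

noncomputable section
open MeasureTheory Module Metric Set Filter
open scoped NNReal ENNReal Topology

variable {n d : ℕ}

theorem IBF1_pow (k : ℕ) :
    (2⁻¹ : ℝ≥0∞) ^ (k * d) = ENNReal.ofReal (((2⁻¹ : ℝ) ^ k) ^ d) := by
  rw [← pow_mul, ENNReal.ofReal_pow (by norm_num), ENNReal.ofReal_inv_of_pos (by norm_num)]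
  simp

/-- Small balls near the set `D` carry controlled mass. -/
theorem IBF1_ball (Ψ : OuterMeasure (Fin d → ℝ)) {D : Set (Fin d → ℝ)} {j k₀ : ℕ}
    (hD : ∀ p ∈ D, ∀ k, k₀ ≤ k → Ψ (ball p (2⁻¹ ^ k)) ≤ (j : ℝ≥0∞) * 2⁻¹ ^ (k * d))
    (hne : D.Nonempty) {q : Fin d → ℝ} {ρ : ℝ} (hρ : 0 < ρ) (hq : infDist q D ≤ ρ)
    (hs : 7 * ρ ≤ 2⁻¹ ^ k₀) :
    Ψ (ball q (5 * ρ)) ≤ (j : ℝ≥0∞) * 7 ^ d * volume (ball q ρ) := by
  obtain ⟨p, hp, hpq⟩ := (infDist_lt_iff hne).1 (show infDist q D < 2 * ρ by linarith)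
  have h1 : (2⁻¹ : ℝ) ^ k₀ ≤ 1 := pow_le_one₀ (by norm_num) (by norm_num)
  obtain ⟨k, hk1, hk2⟩ := exists_nat_pow_near_of_lt_one (x := 7 * ρ) (y := (2⁻¹ : ℝ))
    (by linarith) (hs.trans h1) (by norm_num) (by norm_num)
  have hk : k₀ ≤ k := by
    have h2 : (2⁻¹ : ℝ) ^ (k + 1) < 2⁻¹ ^ k₀ := hk1.trans_le hs
    have h3 := (pow_lt_pow_iff_right_of_lt_one₀ (by norm_num : (0 : ℝ) < 2⁻¹)
      (by norm_num)).1 h2
    omega
  have hsub : ball q (5 * ρ) ⊆ ball p (2⁻¹ ^ k) := by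
    intro z hz
    rw [mem_ball] at hz ⊢
    have := dist_triangle z q p
    linarith
  refine (Ψ.mono hsub).trans ((hD p hp k hk).trans ?_)
  rw [mul_assoc]
  refine mul_le_mul_right ?_ _
  rw [IBF1_pow, Real.volume_pi_ball q hρ, Fintype.card_fin]
  have h7 : (7 : ℝ≥0∞) ^ d = ENNReal.ofReal (7 ^ d) := by
    rw [ENNReal.ofReal_pow (by norm_num)]
    simp
  rw [h7, ← ENNReal.ofReal_mul (by positivity), ← mul_pow]
  refine ENNReal.ofReal_le_ofReal (pow_le_pow_left₀ (by positivity) ?_ _)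
  rw [pow_succ] at hk1
  linarith

/-- The Vitali covering bound. -/
theorem IBF1_cover (Ψ : OuterMeasure (Fin d → ℝ)) {D : Set (Fin d → ℝ)} {j k₀ : ℕ}
    (hD : ∀ p ∈ D, ∀ k, k₀ ≤ k → Ψ (ball p (2⁻¹ ^ k)) ≤ (j : ℝ≥0∞) * 2⁻¹ ^ (k * d))
    (h0 : Ψ (closure D) = 0) {m : Fin d → ℝ} (hm : m ∈ closure D) {s : ℝ}
    (hs : 7 * s ≤ 2⁻¹ ^ k₀) :
    Ψ (ball m s) ≤ (j : ℝ≥0∞) * 7 ^ d * volume ((closure D)ᶜ ∩ closedBall m (2 * s)) := by
  have hne : D.Nonempty := closure_nonempty_iff.1 ⟨m, hm⟩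
  set C := closure D with hC
  have hCne : C.Nonempty := ⟨m, hm⟩
  have hle : ∀ q ∈ ball m s \ C, infDist q C ≤ s := fun q hq =>
    (infDist_le_dist_of_mem hm).trans (mem_ball.1 hq.1).le
  have hpos : ∀ q ∈ ball m s \ C, 0 < infDist q C := fun q hq =>
    (isClosed_closure.notMem_iff_infDist_pos hCne).1 hq.2
  obtain ⟨u, hu, hdisj, hcov⟩ := Vitali.exists_disjoint_subfamily_covering_enlargement_ball
    (ball m s \ C) (fun q => q) (fun q => infDist q C) s hle 5 (by norm_num)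
  have hcount : u.Countable := hdisj.countable_of_isOpen (fun _ _ => isOpen_ball)
    (fun q hq => nonempty_ball.2 (hpos q (hu hq)))
  have hsub : ball m s ⊆ C ∪ ⋃ b ∈ u, ball b (5 * infDist b C) := by
    intro q hq
    by_cases hqC : q ∈ C
    · exact Or.inl hqC
    · obtain ⟨b, hb, hbq⟩ := hcov q ⟨hq, hqC⟩
      exact Or.inr (mem_biUnion hb (hbq (mem_ball_self (hpos q ⟨hq, hqC⟩))))
  have hin : (⋃ b ∈ u, ball b (infDist b C)) ⊆ Cᶜ ∩ closedBall m (2 * s) := by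
    intro z hz
    obtain ⟨b, hb, hz⟩ := mem_iUnion₂.1 hz
    rw [mem_ball] at hz
    refine ⟨fun hzC => ?_, ?_⟩
    · have := infDist_le_dist_of_mem (x := b) hzC
      rw [dist_comm] at this
      linarith
    · have h1 := hle b (hu hb)
      have h2 := mem_ball.1 (hu hb).1
      have h3 := dist_triangle z b m
      rw [mem_closedBall]
      linarith
  calc Ψ (ball m s) ≤ Ψ (C ∪ ⋃ b ∈ u, ball b (5 * infDist b C)) := Ψ.mono hsub
    _ ≤ Ψ C + Ψ (⋃ b ∈ u, ball b (5 * infDist b C)) := measure_union_le _ _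
    _ ≤ ∑' b : u, Ψ (ball (b : Fin d → ℝ) (5 * infDist (b : Fin d → ℝ) C)) := by
      rw [h0, zero_add]
      exact measure_biUnion_le Ψ hcount _
    _ ≤ ∑' b : u, (j : ℝ≥0∞) * 7 ^ d *
        volume (ball (b : Fin d → ℝ) (infDist (b : Fin d → ℝ) C)) := by
      refine ENNReal.tsum_le_tsum fun b => IBF1_ball Ψ hD hne (hpos b (hu b.2)) ?_ ?_
      · rw [hC, infDist_closure]
      · have := hle b (hu b.2)
        linarith
    _ = (j : ℝ≥0∞) * 7 ^ d * volume (⋃ b ∈ u, ball b (infDist b C)) := by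
      rw [ENNReal.tsum_mul_left, measure_biUnion hcount hdisj (fun _ _ => measurableSet_ball)]
    _ ≤ _ := mul_le_mul_right (measure_mono hin) _

/-- The first alternative at density points of the closure of `D`. -/
theorem IBF1_dens (Ψ : OuterMeasure (Fin d → ℝ)) {D : Set (Fin d → ℝ)} {j k₀ : ℕ}
    (hD : ∀ p ∈ D, ∀ k, k₀ ≤ k → Ψ (ball p (2⁻¹ ^ k)) ≤ (j : ℝ≥0∞) * 2⁻¹ ^ (k * d))
    (h0 : Ψ (closure D) = 0) : ∀ᵐ m : Fin d → ℝ, m ∈ D →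
      ∀ J : ℕ, ∃ k₁ : ℕ, ∀ k, k₁ ≤ k → (J : ℝ≥0∞) * Ψ (ball m (2⁻¹ ^ k)) ≤ 2⁻¹ ^ (k * d) := by
  filter_upwards [Besicovitch.ae_tendsto_measure_inter_div_of_measurableSet
    (volume : Measure (Fin d → ℝ)) (isClosed_closure (s := D)).measurableSet.compl] with m hm hmD J
  have hmC : m ∈ closure D := subset_closure hmD
  rw [indicator_of_notMem (by simpa using hmC)] at hm
  have hlim0 : Tendsto (fun k : ℕ => (2⁻¹ : ℝ) ^ k) atTop (𝓝 0) :=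
    tendsto_pow_atTop_nhds_zero_of_lt_one (by norm_num) (by norm_num)
  have hlim : Tendsto (fun k : ℕ => 2 * (2⁻¹ : ℝ) ^ k) atTop (𝓝[>] 0) := by
    refine tendsto_nhdsWithin_iff.2 ⟨by simpa using hlim0.const_mul 2, ?_⟩
    exact Eventually.of_forall fun k => by
      show (0 : ℝ) < 2 * 2⁻¹ ^ k
      positivity
  set c : ℝ≥0∞ := (J : ℝ≥0∞) * ((j : ℝ≥0∞) * 7 ^ d) * 4 ^ d with hc
  have hct : c ≠ ∞ := by
    rw [hc]
    finiteness
  have hη : (0 : ℝ≥0∞) < c⁻¹ := ENNReal.inv_pos.2 hct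
  have h1 := (hm.comp hlim).eventually (gt_mem_nhds hη)
  have h2 : ∀ᶠ k : ℕ in atTop, 7 * (2⁻¹ : ℝ) ^ k ≤ 2⁻¹ ^ k₀ := by
    have h3 : Tendsto (fun k : ℕ => 7 * (2⁻¹ : ℝ) ^ k) atTop (𝓝 0) := by
      simpa using hlim0.const_mul 7
    exact (h3.eventually (gt_mem_nhds (by positivity))).mono fun k hk => hk.le
  obtain ⟨k₁, hk₁⟩ := eventually_atTop.1 (h1.and h2)
  refine ⟨k₁, fun k hk => ?_⟩
  obtain ⟨h3, h4⟩ := hk₁ k hk
  have hv : volume (closedBall m (2 * (2⁻¹ : ℝ) ^ k)) = 4 ^ d * 2⁻¹ ^ (k * d) := by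
    have h4' : (4 : ℝ≥0∞) ^ d = ENNReal.ofReal (4 ^ d) := by
      rw [ENNReal.ofReal_pow (by norm_num)]
      simp
    rw [Real.volume_pi_closedBall m (by positivity), Fintype.card_fin, IBF1_pow, h4',
      ← ENNReal.ofReal_mul (by positivity), ← mul_pow]
    congr 2
    ring
  have h5 : volume ((closure D)ᶜ ∩ closedBall m (2 * (2⁻¹ : ℝ) ^ k)) ≤
      c⁻¹ * (4 ^ d * 2⁻¹ ^ (k * d)) := by
    rw [← hv]
    refine (ENNReal.div_le_iff ?_ ?_).1 h3.le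
    · exact (measure_closedBall_pos _ _ (by positivity)).ne'
    · exact measure_closedBall_lt_top.ne
  calc (J : ℝ≥0∞) * Ψ (ball m (2⁻¹ ^ k))
      ≤ J * ((j : ℝ≥0∞) * 7 ^ d * (c⁻¹ * (4 ^ d * 2⁻¹ ^ (k * d)))) :=
        mul_le_mul_right ((IBF1_cover Ψ hD h0 hmC h4).trans (mul_le_mul_right h5 _)) _
    _ = c * c⁻¹ * 2⁻¹ ^ (k * d) := by
        rw [hc]
        ring
    _ ≤ 1 * 2⁻¹ ^ (k * d) := mul_le_mul_left (ENNReal.mul_inv_le_one c) _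
    _ = _ := one_mul _

/-- Inner regularity for almost everywhere statements. -/
theorem IBF1_reg {E : Set (Fin d → ℝ)} (hE : MeasurableSet E) {P : (Fin d → ℝ) → Prop}
    (h : ∀ F, F ⊆ E → IsClosed F → ∀ᵐ m : Fin d → ℝ, m ∈ F → P m) :
    ∀ᵐ m : Fin d → ℝ, m ∈ E → P m := by
  have key : ∀ N : ℕ, ∀ᵐ m : Fin d → ℝ, m ∈ E ∩ ball 0 N → P m := by
    intro N
    rw [ae_iff]
    refine le_antisymm (ENNReal.le_of_forall_pos_le_add fun ε hε _ => ?_) zero_le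
    obtain ⟨F, hF, hFc, hFε⟩ := (hE.inter (measurableSet_ball (x := 0) (ε := N))).exists_isClosed_sdiff_lt
      ((measure_mono inter_subset_right).trans_lt measure_ball_lt_top).ne
      (ENNReal.coe_pos.2 hε).ne' (μ := volume)
    have h1 := h F (hF.trans inter_subset_left) hFc
    rw [ae_iff] at h1
    calc volume {m : Fin d → ℝ | ¬(m ∈ E ∩ ball 0 N → P m)}
        ≤ volume ({m : Fin d → ℝ | ¬(m ∈ F → P m)} ∪ (E ∩ ball 0 N) \ F) := by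
          refine measure_mono fun m hm => ?_
          simp only [mem_ofPred_eq, Classical.not_imp] at hm
          by_cases hmF : m ∈ F
          · exact Or.inl fun h' => hm.2 (h' hmF)
          · exact Or.inr ⟨hm.1, hmF⟩
      _ ≤ _ := measure_union_le _ _
      _ ≤ 0 + ε := by
          rw [h1]
          exact add_le_add_right hFε.le _
  filter_upwards [ae_all_iff.2 key] with m hm hmE
  obtain ⟨N, hN⟩ := exists_nat_gt (dist m 0)
  exact hm N ⟨hmE, mem_ball.2 hN⟩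

/-- Sketch. By inner regularity it is enough to treat closed `E' ⊆ E`. If the second alternative
fails at `m`, then `m` lies in some `D j k₀ = {p ∈ E' | ∀ k ≥ k₀, Ψ (ball p (2⁻¹^k)) ≤ j * 2⁻¹^(k d)}`.
Let `C = closure (D j k₀) ⊆ E'`, so `Ψ C = 0`. Almost every `m ∈ C` is a Lebesgue density point of `C`
(`Besicovitch.ae_tendsto_measure_inter_div`). At such `m` and for small `s = 2⁻¹^k`, cover
`ball m s \ C` by the balls `ball q (ρ q)`, `ρ q = infDist q C ∈ (0, s]`, which lie in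
`ball m (2 s) \ C`; `Vitali.exists_disjoint_subfamily_covering_enlargement_ball` (τ = 5) gives a disjoint,
hence countable, subfamily; `ball q (5 ρ) ⊆ ball p (7 ρ)` with `p ∈ D j k₀`, and
`Ψ (ball p (7ρ)) ≤ j (14 ρ)^d = j 7^d volume (ball q ρ)`. So
`Ψ (ball m s) ≤ j 7^d volume (ball m (2s) \ C) = o(s^d)`. -/
theorem mickle_rado (Ψ : OuterMeasure (Fin d → ℝ)) {E : Set (Fin d → ℝ)} (hE : MeasurableSet E)
    (h0 : Ψ E = 0) : ∀ᵐ m : Fin d → ℝ, m ∈ E →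
      (∀ j : ℕ, ∃ k₀ : ℕ, ∀ k, k₀ ≤ k → (j : ℝ≥0∞) * Ψ (ball m (2⁻¹ ^ k)) ≤ 2⁻¹ ^ (k * d)) ∨
      (∀ j k₀ : ℕ, ∃ k, k₀ ≤ k ∧ (j : ℝ≥0∞) * 2⁻¹ ^ (k * d) < Ψ (ball m (2⁻¹ ^ k))) := by
  refine IBF1_reg hE fun F hF hFc => ?_
  have key : ∀ j k₀ : ℕ, ∀ᵐ m : Fin d → ℝ,
      m ∈ {p ∈ F | ∀ k, k₀ ≤ k → Ψ (ball p (2⁻¹ ^ k)) ≤ (j : ℝ≥0∞) * 2⁻¹ ^ (k * d)} →
      ∀ J : ℕ, ∃ k₁ : ℕ, ∀ k, k₁ ≤ k → (J : ℝ≥0∞) * Ψ (ball m (2⁻¹ ^ k)) ≤ 2⁻¹ ^ (k * d) := by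
    intro j k₀
    refine IBF1_dens Ψ (j := j) (k₀ := k₀) (fun p hp => hp.2) ?_
    refine le_antisymm ((Ψ.mono ?_).trans h0.le) zero_le
    exact (closure_minimal (fun p hp => hp.1) hFc).trans hF
  filter_upwards [ae_all_iff.2 fun j => ae_all_iff.2 (key j)] with m hm hmF
  by_cases hB : ∀ j k₀ : ℕ, ∃ k, k₀ ≤ k ∧ (j : ℝ≥0∞) * 2⁻¹ ^ (k * d) < Ψ (ball m (2⁻¹ ^ k))
  · exact Or.inr hB
  · push Not at hB
    obtain ⟨j, k₀, hB⟩ := hB
    exact Or.inl (hm j k₀ ⟨hmF, hB⟩)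

end

end Pool.Agent.Lib.MP_b07a76_an
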