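import Pool.Agent.Lib.MP_b07a76_an.IBF1

/-! The three alternatives for almost every value of one column. -/

namespace Pool.Agent.Lib.MP_b07a76_an

noncomputable section
open MeasureTheory Module Metric Set Filter
open scoped NNReal ENNReal Topology

variable {n d : ℕ}

/-- The value of the `i`-th column for which `z - a` lies in the kernel. -/
def IBF2_T (c : Fin n → Fin d → ℝ) (i : Fin n) (a z : Fin n → ℝ) : Fin d → ℝ :=
  -((z i - a i)⁻¹ • ∑ i' ∈ Finset.univ.erase i, (z i' - a i') • c i')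

lemma IBF2_pr (c : Fin n → Fin d → ℝ) (i : Fin n) (a z : Fin n → ℝ) (m : Fin d → ℝ)
    (hz : z i ≠ a i) :
    pr (Function.update c i m) (z - a) = (z i - a i) • (m - IBF2_T c i a z) := by
  have h0 : z i - a i ≠ 0 := sub_ne_zero.mpr hz
  unfold pr IBF2_T
  rw [← Finset.add_sum_erase _ _ (Finset.mem_univ i), sub_neg_eq_add, smul_add, smul_smul,
    mul_inv_cancel₀ h0, one_smul]
  congr 1
  · simp
  · refine Finset.sum_congr rfl fun i' hi' => ?_
    rw [Function.update_of_ne (Finset.ne_of_mem_erase hi')]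
    simp

lemma IBF2_cone (c : Fin n → Fin d → ℝ) (i : Fin n) (a : Fin n → ℝ) (m : Fin d → ℝ) (l k : ℕ)
    (A : Set (Fin n → ℝ)) :
    A ∩ Cone (Function.update c i m) i a l k =
      IBF2_T c i a ⁻¹' ball m (2⁻¹ ^ k) ∩ (A ∩ ball a (2⁻¹ ^ l) ∩ {z | z i ≠ a i}) := by
  ext z
  simp only [Cone, mem_inter_iff, mem_ofPred_eq, mem_preimage, mem_ball]
  by_cases hz : z i = a i
  · constructor
    · rintro ⟨-, -, h⟩
      rw [hz, sub_self, abs_zero, mul_zero] at h
      exact absurd h (not_lt.mpr (norm_nonneg _))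
    · rintro ⟨-, -, h⟩
      exact absurd hz h
  · have hpos : 0 < |z i - a i| := abs_pos.mpr (sub_ne_zero.mpr hz)
    rw [IBF2_pr c i a z m hz, norm_smul, Real.norm_eq_abs, mul_comm (|z i - a i|),
      mul_lt_mul_iff_left₀ hpos, dist_comm (IBF2_T c i a z), dist_eq_norm m]
    tauto

lemma IBF2_meas {A : Set (Fin n → ℝ)} (hA : IsCompact A) (c : Fin n → Fin d → ℝ) (i : Fin n)
    (a : Fin n → ℝ) (r : ℝ) :
    MeasurableSet (IBF2_T c i a '' (A ∩ closedBall a r ∩ {z | z i ≠ a i})) := by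
  have e : A ∩ closedBall a r ∩ {z | z i ≠ a i} =
      ⋃ j : ℕ, A ∩ closedBall a r ∩ {z | 1 / ((j : ℝ) + 1) ≤ |z i - a i|} := by
    ext z
    simp only [mem_inter_iff, mem_ofPred_eq, mem_iUnion]
    constructor
    · rintro ⟨h1, h2⟩
      obtain ⟨j, hj⟩ := exists_nat_one_div_lt (abs_pos.mpr (sub_ne_zero.mpr h2))
      exact ⟨j, h1, hj.le⟩
    · rintro ⟨j, h1, h2⟩
      refine ⟨h1, fun h => ?_⟩
      rw [h, sub_self, abs_zero] at h2
      exact absurd h2 (not_le.mpr (by positivity))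
  rw [e, image_iUnion]
  refine MeasurableSet.iUnion fun j => (IsCompact.isClosed ?_).measurableSet
  refine IsCompact.image_of_continuousOn ?_ ?_
  · refine (hA.inter_right isClosed_closedBall).inter_right ?_
    exact isClosed_le continuous_const (by fun_prop)
  · unfold IBF2_T
    refine ContinuousOn.neg (ContinuousOn.fun_smul (ContinuousOn.fun_inv₀ (by fun_prop) ?_)
      (by fun_prop))
    rintro z ⟨-, h2⟩ h
    have h2 : 1 / ((j : ℝ) + 1) ≤ |z i - a i| := h2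
    rw [h, abs_zero] at h2
    exact absurd h2 (not_le.mpr (by positivity))

lemma IBF2_pow (l k : ℕ) : (2⁻¹ : ℝ≥0∞) ^ ((l + k) * d) * 2 ^ (l * d) = 2⁻¹ ^ (k * d) := by
  rw [add_mul, pow_add, mul_right_comm, ← mul_pow,
    ENNReal.inv_mul_cancel two_ne_zero ENNReal.ofNat_ne_top, one_pow, one_mul]


/-- Sketch. For `z i ≠ a i` put `T z = -(z i - a i)⁻¹ • ∑ i' ∈ univ.erase i, (z i' - a i') • c i'`; then
`pr (update c i m) (z - a) = (z i - a i) • (m - T z)`, so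
`Cone (update c i m) i a l k = ball a (2⁻¹^l) ∩ {z | z i ≠ a i} ∩ T ⁻¹' ball m (2⁻¹^k)`.
For each `l₀` let `Ψ l₀ = ⨆ l ≥ l₀, 2^(l d) • OuterMeasure.map T (OuterMeasure.restrict
(A ∩ ball a (2⁻¹^l) ∩ {z i ≠ a i}) μH[d])` and `E l₀ = (T '' (A ∩ closedBall a (2⁻¹^l₀) ∩ {z i ≠ a i}))ᶜ`
(measurable: the image is a countable union of compact images, cut with `1/(j+1) ≤ |z i - a i|`);
`Ψ l₀ (E l₀) = 0`. Apply `mickle_rado` for all `l₀` (`ae_all_iff`). If `m` lies in no `E l₀` then `G3`;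
if `m ∈ E l₀`, the two alternatives give `G1` or `G2`. -/
theorem ae_trichotomy {A : Set (Fin n → ℝ)} (hA : IsCompact A) (c : Fin n → Fin d → ℝ) (i : Fin n)
    (a : Fin n → ℝ) : ∀ᵐ m : Fin d → ℝ, G1 A (Function.update c i m) i a ∨
      G2 A (Function.update c i m) i a ∨ G3 A (Function.update c i m) a := by
  set T := IBF2_T c i a with hT
  let Φ : ℕ → OuterMeasure (Fin d → ℝ) := fun l => (2 ^ (l * d) : ℝ≥0∞) • OuterMeasure.map T
    (OuterMeasure.restrict (A ∩ ball a (2⁻¹ ^ l) ∩ {z | z i ≠ a i})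
      (μH[d] : Measure (Fin n → ℝ)).toOuterMeasure)
  have hΦ : ∀ l S, Φ l S =
      2 ^ (l * d) * μH[d] (T ⁻¹' S ∩ (A ∩ ball a (2⁻¹ ^ l) ∩ {z | z i ≠ a i})) := by
    intro l S
    simp only [Φ, smul_apply, OuterMeasure.map_apply, OuterMeasure.restrict_apply,
      smul_eq_mul, Measure.toOuterMeasure_apply]
  let Ψ : ℕ → OuterMeasure (Fin d → ℝ) := fun l₀ => ⨆ l : ℕ, Φ (l₀ + l)
  have hΨ : ∀ l₀ S, Ψ l₀ S = ⨆ l : ℕ, Φ (l₀ + l) S := fun l₀ S => OuterMeasure.iSup_apply _ _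
  let E : ℕ → Set (Fin d → ℝ) := fun l₀ =>
    (T '' (A ∩ closedBall a (2⁻¹ ^ l₀) ∩ {z | z i ≠ a i}))ᶜ
  have hE : ∀ l₀, MeasurableSet (E l₀) := fun l₀ => (IBF2_meas hA c i a _).compl
  have h0 : ∀ l₀, Ψ l₀ (E l₀) = 0 := by
    intro l₀
    rw [hΨ, ENNReal.iSup_eq_zero]
    intro l
    have e : T ⁻¹' E l₀ ∩ (A ∩ ball a (2⁻¹ ^ (l₀ + l)) ∩ {z | z i ≠ a i}) = ∅ := by
      refine eq_empty_of_forall_notMem ?_
      rintro z ⟨h1, ⟨h2, h3⟩, h4⟩
      refine h1 ⟨z, ⟨⟨h2, ?_⟩, h4⟩, rfl⟩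
      refine mem_closedBall.mpr ((mem_ball.mp h3).le.trans ?_)
      exact pow_le_pow_of_le_one (by norm_num) (by norm_num) (Nat.le_add_right _ _)
    rw [hΦ, e, measure_empty, mul_zero]
  have h2 : ∀ l : ℕ, (2 ^ (l * d) : ℝ≥0∞) ≠ 0 := fun l => pow_ne_zero _ two_ne_zero
  have h3 : ∀ l : ℕ, (2 ^ (l * d) : ℝ≥0∞) ≠ ⊤ := fun l => ENNReal.pow_ne_top ENNReal.ofNat_ne_top
  filter_upwards [ae_all_iff.mpr fun l₀ => mickle_rado (Ψ l₀) (hE l₀) (h0 l₀)] with m hm
  by_cases hc : ∃ l₀, m ∈ E l₀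
  · obtain ⟨l₀, hl₀⟩ := hc
    rcases hm l₀ hl₀ with h | h
    · refine Or.inl fun j => ?_
      obtain ⟨k₀, hk₀⟩ := h j
      refine ⟨l₀, k₀, fun l hl k hk => ?_⟩
      obtain ⟨l', rfl⟩ := Nat.exists_eq_add_of_le hl
      have h4 : Φ (l₀ + l') (ball m (2⁻¹ ^ k)) ≤ Ψ l₀ (ball m (2⁻¹ ^ k)) := by
        rw [hΨ]
        exact le_iSup (fun l => Φ (l₀ + l) (ball m (2⁻¹ ^ k))) l'
      have h5 := (mul_le_mul_right h4 (j : ℝ≥0∞)).trans (hk₀ k hk)
      rw [hΦ, ← IBF2_pow (l₀ + l') k, mul_comm (2 ^ _ : ℝ≥0∞), ← mul_assoc,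
        ENNReal.mul_le_mul_iff_left (h2 _) (h3 _)] at h5
      rw [IBF2_cone]
      exact h5
    · refine Or.inr (Or.inl fun j k₀ => ?_)
      obtain ⟨k, hk, hlt⟩ := h j k₀
      rw [hΨ, lt_iSup_iff] at hlt
      obtain ⟨l, hl⟩ := hlt
      refine ⟨k, hk, l₀ + l, ?_⟩
      rw [hΦ, ← IBF2_pow (l₀ + l) k, mul_comm (2 ^ _ : ℝ≥0∞), ← mul_assoc,
        ENNReal.mul_lt_mul_iff_left (h2 _) (h3 _)] at hl
      rw [IBF2_cone]
      exact hl
  · refine Or.inr (Or.inr fun l => ?_)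
    have h4 : m ∈ T '' (A ∩ closedBall a (2⁻¹ ^ l) ∩ {z | z i ≠ a i}) := by
      by_contra h
      exact hc ⟨l, h⟩
    obtain ⟨z, ⟨⟨h5, h6⟩, h7⟩, h8⟩ := h4
    refine ⟨z, h5, fun h => h7 (by rw [h]), mem_closedBall.mp h6, ?_⟩
    rw [IBF2_pr c i a z m h7, ← hT, h8, sub_self, smul_zero]

/-- Sketch: `{(x, z) | z ∈ Cone x.1 i x.2 l k}` is open; `measurable_measure_prodMk_left` for the finite
measure `μH[d].restrict A`. -/
lemma measurable_cone {A : Set (Fin n → ℝ)} (hA : IsCompact A) (hf : μH[d] A ≠ ⊤) (i : Fin n)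
    (l k : ℕ) : Measurable fun x : (Fin n → Fin d → ℝ) × (Fin n → ℝ) =>
      μH[d] (A ∩ Cone x.1 i x.2 l k) := by
  have hU : IsOpen {p : ((Fin n → Fin d → ℝ) × (Fin n → ℝ)) × (Fin n → ℝ) |
      p.2 ∈ Cone p.1.1 i p.1.2 l k} := by
    simp only [Cone, ofPred_and]
    refine IsOpen.inter (isOpen_lt (by fun_prop) continuous_const) (isOpen_lt ?_ (by fun_prop))
    unfold pr
    fun_prop
  have : IsFiniteMeasure ((μH[d] : Measure (Fin n → ℝ)).restrict A) :=
    isFiniteMeasure_restrict.mpr hf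
  have h := measurable_measure_prodMk_left (ν := (μH[d] : Measure (Fin n → ℝ)).restrict A)
    hU.measurableSet
  convert h using 2 with x
  rw [Measure.restrict_apply' hA.isClosed.measurableSet, inter_comm]
  rfl

/-- Sketch: `G1`, `G2` by `measurable_cone` and countable operations; for `G3`, the set of `x` with some
`z ∈ A`, `1/(j+1) ≤ dist z a ≤ 2⁻¹^l`, `pr c (z - a) = 0` is closed (projection along the compact `A`). -/
lemma measurable_G {A : Set (Fin n → ℝ)} (hA : IsCompact A) (hf : μH[d] A ≠ ⊤) (i : Fin n) :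
    MeasurableSet {x : (Fin n → Fin d → ℝ) × (Fin n → ℝ) |
      G1 A x.1 i x.2 ∨ G2 A x.1 i x.2 ∨ G3 A x.1 x.2} := by
  have hc := measurable_cone hA hf i
  have h3 : ∀ l j : ℕ, MeasurableSet {x : (Fin n → Fin d → ℝ) × (Fin n → ℝ) | ∃ z ∈ A,
      1 / ((j : ℝ) + 1) ≤ dist z x.2 ∧ dist z x.2 ≤ 2⁻¹ ^ l ∧ pr x.1 (z - x.2) = 0} := by
    intro l j
    have : CompactSpace A := isCompact_iff_compactSpace.mp hA
    have hcl : IsClosed {p : ((Fin n → Fin d → ℝ) × (Fin n → ℝ)) × A |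
        1 / ((j : ℝ) + 1) ≤ dist p.2.1 p.1.2 ∧ dist p.2.1 p.1.2 ≤ 2⁻¹ ^ l ∧
          pr p.1.1 (p.2.1 - p.1.2) = 0} := by
      simp only [ofPred_and]
      refine (isClosed_le continuous_const (by fun_prop)).inter
        ((isClosed_le (by fun_prop) continuous_const).inter (isClosed_eq ?_ continuous_const))
      unfold pr
      fun_prop
    have h := (isClosedMap_fst_of_compactSpace _ hcl).measurableSet
    convert h using 1
    ext x
    simp only [mem_ofPred_eq, mem_image]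
    constructor
    · rintro ⟨z, hz, h1⟩
      exact ⟨(x, ⟨z, hz⟩), h1, rfl⟩
    · rintro ⟨⟨x', z⟩, h1, rfl⟩
      exact ⟨z.1, z.2, h1⟩
  rw [measurableSet_setOfPred]
  refine Measurable.or ?_ (Measurable.or ?_ ?_)
  · unfold G1
    refine Measurable.forall fun j => Measurable.exists fun l₀ => Measurable.exists fun k₀ =>
      Measurable.forall fun l => Measurable.imp measurable_const (Measurable.forall fun k =>
        Measurable.imp measurable_const ?_)
    exact measurableSet_setOfPred.mp (measurableSet_le ((hc l k).const_mul _) measurable_const)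
  · unfold G2
    refine Measurable.forall fun j => Measurable.forall fun k₀ => Measurable.exists fun k =>
      Measurable.and measurable_const (Measurable.exists fun l => ?_)
    exact measurableSet_setOfPred.mp (measurableSet_lt measurable_const (hc l k))
  · have e : (fun x : (Fin n → Fin d → ℝ) × (Fin n → ℝ) => G3 A x.1 x.2) = fun x =>
        ∀ l : ℕ, ∃ j : ℕ, ∃ z ∈ A, 1 / ((j : ℝ) + 1) ≤ dist z x.2 ∧ dist z x.2 ≤ 2⁻¹ ^ l ∧
          pr x.1 (z - x.2) = 0 := by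
      funext x
      unfold G3
      refine propext (forall_congr' fun l => ?_)
      constructor
      · rintro ⟨z, hz, h1, h2⟩
        obtain ⟨j, hj⟩ := exists_nat_one_div_lt (dist_pos.mpr h1)
        exact ⟨j, z, hz, hj.le, h2⟩
      · rintro ⟨j, z, hz, h1, h2⟩
        exact ⟨z, hz, dist_pos.mp (lt_of_lt_of_le (by positivity) h1), h2⟩
    rw [e]
    exact Measurable.forall fun l => Measurable.exists fun j => measurableSet_setOfPred.mp (h3 l j)

end

end Pool.Agent.Lib.MP_b07a76_an
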