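import Pool.Agent.Lib.MP_b07a76_an.IBF2

/-! Points of a purely unrectifiable set with light cones form a null set. -/

namespace Pool.Agent.Lib.MP_b07a76_an

noncomputable section
open MeasureTheory Module Metric Set Filter
open scoped NNReal ENNReal Topology

variable {n d : ℕ}

lemma IBF3_sub (c : Fin n → Fin d → ℝ) (x y : Fin n → ℝ) : pr c (x - y) = pr c x - pr c y := by
  simp [pr, sub_smul, Finset.sum_sub_distrib]

lemma IBF3_lip (c : Fin n → Fin d → ℝ) : ∃ Λ : ℕ, ∀ z, ‖pr c z‖ ≤ Λ * ‖z‖ := by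
  obtain ⟨Λ, h⟩ := exists_nat_ge (∑ i, ‖c i‖)
  refine ⟨Λ, fun z => (norm_sum_le _ _).trans (le_trans ?_
    (mul_le_mul_of_nonneg_right h (norm_nonneg z)))⟩
  rw [Finset.sum_mul]
  refine Finset.sum_le_sum fun i _ => ?_
  rw [norm_smul, mul_comm]
  exact mul_le_mul_of_nonneg_left (norm_le_pi_norm z i) (norm_nonneg _)

lemma IBF3_graph {A W : Set (Fin n → ℝ)} (hu : PU d A) (c : Fin n → Fin d → ℝ) (hW : W ⊆ A)
    {t : ℝ} (ht : 0 < t) (h : ∀ x ∈ W, ∀ y ∈ W, t * ‖y - x‖ ≤ ‖pr c (y - x)‖) : μH[d] W = 0 := by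
  have hi : InjOn (pr c) W := fun y hy x hx e => by
    have h1 := h x hx y hy
    rw [IBF3_sub, e, sub_self, norm_zero] at h1
    exact sub_eq_zero.1 (norm_le_zero_iff.1 (le_of_mul_le_mul_left (by simpa using h1) ht))
  have hl : LipschitzOnWith (Real.toNNReal t⁻¹) (Function.invFunOn (pr c) W) (pr c '' W) := by
    refine LipschitzOnWith.of_dist_le' ?_
    rintro _ ⟨y, hy, rfl⟩ _ ⟨x, hx, rfl⟩
    rw [hi.leftInvOn_invFunOn hy, hi.leftInvOn_invFunOn hx, dist_eq_norm, dist_eq_norm,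
      ← IBF3_sub, ← div_eq_inv_mul, le_div_iff₀' ht]
    exact h x hx y hy
  obtain ⟨g, hg, he⟩ := hl.extend_pi
  refine measure_mono_null (fun x hx => ?_)
    (hu _ _ (hg.comp (PiLp.lipschitzWith_ofLp 2 fun _ : Fin d => ℝ)))
  refine ⟨hW hx, WithLp.toLp 2 (pr c x), ?_⟩
  exact (he (mem_image_of_mem _ hx)).symm.trans (hi.leftInvOn_invFunOn hx)

/-- The cones at `a` are light from the level `l₀` on. -/
def IBF3_L (A : Set (Fin n → ℝ)) (c : Fin n → Fin d → ℝ) (j l₀ k : ℕ) (a : Fin n → ℝ) : Prop :=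
  ∀ i l, l₀ ≤ l → (j : ℝ≥0∞) * μH[d] (A ∩ Cone c i a l k) ≤ 2⁻¹ ^ ((l + k) * d)

/-- The full truncated cone. -/
def IBF3_X (c : Fin n → Fin d → ℝ) (k : ℕ) (a : Fin n → ℝ) (R : ℝ) : Set (Fin n → ℝ) :=
  {z | ‖z - a‖ < R ∧ ‖pr c (z - a)‖ < 2⁻¹ ^ k * ‖z - a‖}

lemma IBF3_cone {A : Set (Fin n → ℝ)} {c : Fin n → Fin d → ℝ} {j l₀ k : ℕ} {a : Fin n → ℝ}
    (h : IBF3_L A c j l₀ k a) {R : ℝ} (h0 : 0 < R) (h1 : R ≤ 2⁻¹ ^ l₀) :
    (j : ℝ≥0∞) * μH[d] (A ∩ IBF3_X c k a R) ≤ n * ENNReal.ofReal ((2 * R * 2⁻¹ ^ k) ^ d) := by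
  obtain ⟨l, h2, h3⟩ := exists_nat_pow_near_of_lt_one h0
    (h1.trans (pow_le_one₀ (by norm_num) (by norm_num))) (y := 2⁻¹) (by norm_num) (by norm_num)
  have h4 : l₀ ≤ l := Nat.lt_succ_iff.1
    ((pow_lt_pow_iff_right_of_lt_one₀ (by norm_num) (by norm_num)).1 (h2.trans_le h1))
  have hs : (0 : ℝ) < 2⁻¹ ^ k := by positivity
  have h5 : A ∩ IBF3_X c k a R ⊆ ⋃ i, A ∩ Cone c i a l k := fun z hz => by
    by_contra hn
    simp only [mem_iUnion, not_exists] at hn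
    have h6 : ‖z - a‖ ≤ ‖pr c (z - a)‖ / 2⁻¹ ^ k := by
      refine (pi_norm_le_iff_of_nonneg (by positivity)).2 fun i => ?_
      rw [le_div_iff₀' hs]
      exact not_lt.1 fun h7 => hn i ⟨hz.1, by rw [dist_eq_norm]; exact hz.2.1.trans_le h3, h7⟩
    exact absurd hz.2.2 (not_lt.2 ((le_div_iff₀' hs).1 h6))
  have h7 : (2⁻¹ : ℝ≥0∞) ^ ((l + k) * d) ≤ ENNReal.ofReal ((2 * R * 2⁻¹ ^ k) ^ d) := by
    have e : (2⁻¹ : ℝ≥0∞) = ENNReal.ofReal 2⁻¹ := by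
      rw [ENNReal.ofReal_inv_of_pos two_pos, ENNReal.ofReal_ofNat]
    rw [e, ← ENNReal.ofReal_pow (by norm_num), pow_mul, pow_add]
    refine ENNReal.ofReal_le_ofReal (pow_le_pow_left₀ (by positivity)
      (mul_le_mul_of_nonneg_right ?_ hs.le) d)
    rw [pow_succ] at h2
    linarith
  calc (j : ℝ≥0∞) * μH[d] (A ∩ IBF3_X c k a R)
      ≤ j * ∑ i, μH[d] (A ∩ Cone c i a l k) := by
        gcongr
        exact (measure_mono h5).trans (measure_iUnion_fintype_le _ _)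
    _ ≤ ∑ _i : Fin n, ENNReal.ofReal ((2 * R * 2⁻¹ ^ k) ^ d) := by
        rw [Finset.mul_sum]
        exact Finset.sum_le_sum fun i _ => (h i l h4).trans h7
    _ = _ := by simp

lemma IBF3_pos {v : Fin d → ℝ} {w : Fin n → ℝ} {t : ℝ} (h : ‖v‖ < t * ‖w‖) : 0 < ‖w‖ :=
  (norm_nonneg w).lt_of_ne' fun e => by
    rw [e, mul_zero] at h
    exact h.not_ge (norm_nonneg v)

lemma IBF3_cover {W : Set (Fin n → ℝ)} (c : Fin n → Fin d → ℝ) (k : ℕ) {x y z : Fin n → ℝ}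
    (hy : ‖pr c (y - x)‖ < 2⁻¹ ^ k / 4 * ‖y - x‖)
    (hm : ∀ y' ∈ W, ‖pr c (y' - x)‖ < 2⁻¹ ^ k / 4 * ‖y' - x‖ → ‖y' - x‖ ≤ 2 * ‖y - x‖)
    (hz : z ∈ W) (h : ‖pr c (z - x)‖ < 2⁻¹ ^ k / 4 * ‖y - x‖) :
    z ∈ IBF3_X c k x (3 * ‖y - x‖) ∪ IBF3_X c k y (3 * ‖y - x‖) := by
  have hs : (0 : ℝ) < 2⁻¹ ^ k := by positivity
  have hr : 0 < ‖y - x‖ := IBF3_pos hy
  have h1 : ‖z - x‖ ≤ 2 * ‖y - x‖ := by
    by_contra hn
    have h2 := not_lt.1 fun h' => hn (hm z hz h')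
    have h3 := lt_of_mul_lt_mul_left (h2.trans_lt h) (by positivity)
    linarith
  by_cases h2 : ‖pr c (z - x)‖ < 2⁻¹ ^ k * ‖z - x‖
  · exact Or.inl ⟨by linarith, h2⟩
  have h3 : ‖z - x‖ < ‖y - x‖ / 4 :=
    lt_of_mul_lt_mul_left (((not_lt.1 h2).trans_lt h).trans_eq (by ring)) hs.le
  have e : z - y = (z - x) - (y - x) := by ring
  have h4 : ‖z - y‖ ≤ ‖z - x‖ + ‖y - x‖ := e ▸ norm_sub_le _ _
  have h5 : ‖y - x‖ - ‖z - x‖ ≤ ‖z - y‖ := by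
    rw [e, norm_sub_rev (z - x)]
    exact norm_sub_norm_le _ _
  have h6 : ‖pr c (z - y)‖ ≤ ‖pr c (z - x)‖ + ‖pr c (y - x)‖ := by
    rw [e, IBF3_sub c (z - x)]
    exact norm_sub_le _ _
  refine Or.inr ⟨by linarith, ?_⟩
  have h7 := mul_le_mul_of_nonneg_left (show ‖y - x‖ / 2 ≤ ‖z - y‖ by linarith) hs.le
  linarith

lemma IBF3_ball {A W : Set (Fin n → ℝ)} (hu : PU d A) {c : Fin n → Fin d → ℝ} {Λ j l₀ k : ℕ}
    (hΛ : ∀ z, ‖pr c z‖ ≤ Λ * ‖z‖) (hW : W ⊆ A) (hL : ∀ a ∈ W, IBF3_L A c j l₀ k a)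
    {b : Fin n → ℝ} {ρ : ℝ} (h0 : 0 < ρ) (h1 : 6 * ρ ≤ 2⁻¹ ^ l₀) (hb : W ⊆ closedBall b ρ) :
    (j : ℝ≥0∞) * μH[d] W ≤ (2 * n * (120 * (Λ + 1)) ^ d : ℕ) * ENNReal.ofReal ρ ^ d := by
  have hs : (0 : ℝ) < 2⁻¹ ^ k := by positivity
  have hs1 : (2⁻¹ : ℝ) ^ k ≤ 1 := pow_le_one₀ (by norm_num) (by norm_num)
  have hd : ∀ x ∈ W, ∀ y ∈ W, ‖y - x‖ ≤ 2 * ρ := fun x hx y hy => by
    have h2 := dist_triangle_right y x b
    have h3 := mem_closedBall.1 (hb hx)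
    have h4 := mem_closedBall.1 (hb hy)
    rw [dist_eq_norm] at h2
    linarith
  obtain ⟨W1, hW1⟩ : ∃ W1, W1 = {x ∈ W | ∃ y ∈ W, ‖pr c (y - x)‖ < 2⁻¹ ^ k / 4 * ‖y - x‖} :=
    ⟨_, rfl⟩
  have hsub : W1 ⊆ W := hW1 ▸ sep_subset _ _
  have hnull : μH[d] (W \ W1) = 0 :=
    IBF3_graph hu c (sdiff_subset.trans hW) (t := 2⁻¹ ^ k / 4) (by positivity) fun x hx y hy =>
      not_lt.1 fun h => hx.2 (hW1 ▸ ⟨hx.1, y, hy.1, h⟩)
  have hch : ∀ x, ∃ y, x ∈ W1 → y ∈ W ∧ ‖pr c (y - x)‖ < 2⁻¹ ^ k / 4 * ‖y - x‖ ∧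
      ∀ y' ∈ W, ‖pr c (y' - x)‖ < 2⁻¹ ^ k / 4 * ‖y' - x‖ → ‖y' - x‖ ≤ 2 * ‖y - x‖ := fun x => by
    by_cases hx : x ∈ W1
    swap
    · exact ⟨x, fun h => absurd h hx⟩
    obtain ⟨hxW, y₀, hy₀, hy₁⟩ := hW1 ▸ hx
    have hB : BddAbove ((fun y => ‖y - x‖) ''
        {y ∈ W | ‖pr c (y - x)‖ < 2⁻¹ ^ k / 4 * ‖y - x‖}) :=
      ⟨2 * ρ, by rintro _ ⟨y, hy, rfl⟩; exact hd x hxW y hy.1⟩
    have hp : 0 < ‖y₀ - x‖ := IBF3_pos hy₁
    have hm := mem_image_of_mem (fun y => ‖y - x‖) (show y₀ ∈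
      {y ∈ W | ‖pr c (y - x)‖ < 2⁻¹ ^ k / 4 * ‖y - x‖} from ⟨hy₀, hy₁⟩)
    obtain ⟨_, ⟨y, hy, rfl⟩, h2⟩ := exists_lt_of_lt_csSup ⟨_, hm⟩
      (half_lt_self (hp.trans_le (le_csSup hB hm)))
    refine ⟨y, fun _ => ⟨hy.1, hy.2, fun y' h3 h4 => ?_⟩⟩
    have h5 := le_csSup hB ⟨y', ⟨h3, h4⟩, rfl⟩
    simp only at h2 h5
    linarith
  choose y hy using hch
  obtain ⟨δ, hδ⟩ : ∃ δ : (Fin n → ℝ) → ℝ, δ = fun x => 2⁻¹ ^ k / 20 * ‖y x - x‖ := ⟨_, rfl⟩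
  have hr : ∀ x ∈ W1, 0 < ‖y x - x‖ := fun x hx =>
    IBF3_pos (hy x hx).2.1
  have hδ0 : ∀ x ∈ W1, 0 < δ x := fun x hx => by
    have := hr x hx
    rw [hδ]
    positivity
  have hδ1 : ∀ x ∈ W1, δ x ≤ ρ := fun x hx => by
    have h2 := hd x (hsub hx) _ (hy x hx).1
    have h3 := mul_le_mul_of_nonneg_right hs1 (norm_nonneg (y x - x))
    simp only [hδ]
    linarith
  obtain ⟨u, hu1, hu2, hu3⟩ :=
    Vitali.exists_disjoint_subfamily_covering_enlargement_ball W1 (pr c) δ ρ hδ1 5 (by norm_num)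
  have hc : u.Countable := hu2.countable_of_isOpen (fun _ _ => isOpen_ball)
    fun x hx => nonempty_ball.2 (hδ0 x (hu1 hx))
  have hcov : W1 ⊆ ⋃ x ∈ u, (A ∩ IBF3_X c k x (3 * ‖y x - x‖) ∪
      A ∩ IBF3_X c k (y x) (3 * ‖y x - x‖)) := fun z hz => by
    obtain ⟨x, hx, h2⟩ := hu3 z hz
    have h3 := h2 (mem_ball_self (hδ0 z hz))
    rw [mem_ball, dist_eq_norm, ← IBF3_sub] at h3
    refine mem_biUnion hx ?_
    rw [← inter_union_distrib_left]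
    exact ⟨hW (hsub hz), IBF3_cover c k (hy x (hu1 hx)).2.1 (hy x (hu1 hx)).2.2 (hsub hz)
      (h3.trans_eq (by simp only [hδ]; ring))⟩
  have hone : ∀ x ∈ W1, (j : ℝ≥0∞) * μH[d] (A ∩ IBF3_X c k x (3 * ‖y x - x‖) ∪
      A ∩ IBF3_X c k (y x) (3 * ‖y x - x‖)) ≤
        (2 * n * 60 ^ d : ℕ) * volume (ball (pr c x) (δ x)) := fun x hx => by
    have h2 := hr x hx
    have h3 : 3 * ‖y x - x‖ ≤ 2⁻¹ ^ l₀ := by linarith [hd x (hsub hx) _ (hy x hx).1]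
    have h4 := IBF3_cone (hL x (hsub hx)) (by positivity) h3
    have h5 := IBF3_cone (hL _ (hy x hx).1) (by positivity) h3
    have e : ENNReal.ofReal ((2 * (3 * ‖y x - x‖) * 2⁻¹ ^ k) ^ d) =
        60 ^ d * volume (ball (pr c x) (δ x)) := by
      rw [Real.volume_pi_ball _ (hδ0 x hx), Fintype.card_fin, ← ENNReal.ofReal_ofNat 60,
        ← ENNReal.ofReal_pow (by norm_num), ← ENNReal.ofReal_mul (by positivity), ← mul_pow]
      congr 2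
      simp only [hδ]
      ring
    rw [e] at h4 h5
    refine (mul_le_mul_right (measure_union_le _ _) _).trans ?_
    rw [mul_add]
    refine (add_le_add h4 h5).trans_eq ?_
    push_cast
    ring
  have hvol : ∑' x : u, volume (ball (pr c x) (δ x)) ≤
      ((2 * (Λ + 1)) ^ d : ℕ) * ENNReal.ofReal ρ ^ d := by
    rw [← measure_biUnion hc hu2 fun _ _ => measurableSet_ball]
    refine (measure_mono (t := ball (pr c b) ((Λ + 1) * ρ))
      (iUnion₂_subset fun x hx => ball_subset_ball' ?_)).trans_eq ?_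
    · have h2 := hδ1 x (hu1 hx)
      have h3 := hΛ (x - b)
      have h4 := mul_le_mul_of_nonneg_left (mem_closedBall_iff_norm.1 (hb (hsub (hu1 hx))))
        (Nat.cast_nonneg (α := ℝ) Λ)
      rw [dist_eq_norm, ← IBF3_sub]
      linarith
    · rw [Real.volume_pi_ball _ (by positivity), Fintype.card_fin, ← mul_assoc, mul_pow,
        ENNReal.ofReal_mul (by positivity), ENNReal.ofReal_pow h0.le, ← ENNReal.ofReal_natCast]
      push_cast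
      rfl
  have := hc.to_subtype
  calc (j : ℝ≥0∞) * μH[d] W ≤ j * μH[d] W1 := by
        refine mul_le_mul_right ((measure_le_inter_add_sdiff _ W W1).trans ?_) _
        rw [hnull, add_zero]
        exact measure_mono inter_subset_right
    _ ≤ j * ∑' x : u, μH[d] (A ∩ IBF3_X c k x (3 * ‖y x - x‖) ∪
          A ∩ IBF3_X c k (y x) (3 * ‖y x - x‖)) := by
        gcongr
        exact (measure_mono hcov).trans (measure_biUnion_le _ hc _)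
    _ ≤ ∑' x : u, (2 * n * 60 ^ d : ℕ) * volume (ball (pr c x) (δ x)) := by
        rw [← ENNReal.tsum_mul_left]
        exact ENNReal.tsum_le_tsum fun x => hone x (hu1 x.2)
    _ ≤ (2 * n * 60 ^ d : ℕ) * (((2 * (Λ + 1)) ^ d : ℕ) * ENNReal.ofReal ρ ^ d) := by
        rw [ENNReal.tsum_mul_left]
        gcongr
    _ = _ := by
        rw [← mul_assoc, ← Nat.cast_mul, mul_assoc (2 * n), ← mul_pow,
          show 60 * (2 * (Λ + 1)) = 120 * (Λ + 1) by ring]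

/-- Sketch (Mattila, Lemma 15.14). Let `Λ ≥ ‖pr c‖`, `μ S = μH[d] (A ∩ S)`. Fix `j` large and `l₀, k₀`; let
`A'` be the set of `a ∈ A` with `j * μ (Cone c i a l k₀) ≤ 2⁻¹^((l+k₀) d)` for all `i` and `l ≥ l₀`
(measurable by `measurable_cone`); the set in question lies in the union of the `A'` over `l₀, k₀`.
Put `s = 2⁻¹^k₀`, `X a r = {z | ‖z - a‖ < r ∧ ‖pr c (z - a)‖ < s ‖z - a‖} ⊆ ⋃ i, Cone ..` (sup norm), so
`j μ (X a r) ≤ n (2 r s)^d` for `0 < r ≤ 2⁻¹^l₀`. Fix `b`, small `ρ`, `W = A' ∩ ball b ρ`. For `x ∈ W` let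
`h x` be the sup of `‖y - x‖` over `y ∈ W` with `‖pr c (y - x)‖ < s/4 * ‖y - x‖`. The points without such `y` form a set
on which `pr c` has a Lipschitz inverse (`LipschitzOnWith.extend_pi`, then compose with
`Ed d → (Fin d → ℝ)`), null by `PU`. For the others pick `y` with `‖y - x‖ > 3/4 h x`; then
`W ∩ pr c ⁻¹' ball (pr c x) (s h / 4) ⊆ X x (3h) ∪ X y (3h)`. Vitali (τ = 5) on the balls
`ball (pr c x) (s h / 20) ⊆ ball (pr c b) ((Λ+1) ρ)` gives `j μH[d] W ≤ C ρ^d`, `C = C(n, d, Λ)`.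
Then `Measure.le_hausdorffMeasure` for a multiple of `μH[d].restrict A'` gives
`j μH[d] A' ≤ C' μH[d] A'`, so `μH[d] A' = 0` once `j > C'`. -/
theorem null_G1 (hd : 1 ≤ d) {A : Set (Fin n → ℝ)} (hA : IsCompact A) (hf : μH[d] A ≠ ⊤)
    (hu : PU d A) (c : Fin n → Fin d → ℝ) : μH[d] {a | a ∈ A ∧ ∀ i, G1 A c i a} = 0 := by
  obtain ⟨Λ, hΛ⟩ := IBF3_lip c
  obtain ⟨C, hC⟩ : ∃ C : ℕ, C = 2 * n * (120 * (Λ + 1)) ^ d := ⟨_, rfl⟩
  have hd' : (0 : ℝ) < d := Nat.cast_pos.2 hd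
  have := Measure.nullSingletonClass_hausdorff (Fin n → ℝ) hd'
  refine measure_mono_null (t := ⋃ l₀, ⋃ k, {a ∈ A | IBF3_L A c (2 * (C + 1)) l₀ k a})
    (fun a ha => ?_) (measure_iUnion_null fun l₀ => measure_iUnion_null fun k => ?_)
  · choose l₀ k₀ h using fun i => ha.2 i (2 * (C + 1))
    exact mem_iUnion₂.2 ⟨Finset.univ.sup l₀, Finset.univ.sup k₀, ha.1, fun i l hl =>
      h i l ((Finset.le_sup (Finset.mem_univ i)).trans hl) _ (Finset.le_sup (Finset.mem_univ i))⟩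
  obtain ⟨A', hA'⟩ : ∃ A', A' = {a ∈ A | IBF3_L A c (2 * (C + 1)) l₀ k a} := ⟨_, rfl⟩
  rw [← hA']
  have hsub : A' ⊆ A := hA' ▸ sep_subset _ _
  have h1 : (2 : ℝ≥0∞) • (μH[d] : Measure (Fin n → ℝ)).restrict A' ≤ μH[d] := by
    refine Measure.le_hausdorffMeasure _ _ (ENNReal.ofReal (2⁻¹ ^ l₀ / 6))
      (ENNReal.ofReal_pos.2 (by positivity)) fun s hs => ?_
    rcases s.subsingleton_or_nontrivial with h2 | h2
    · rw [Measure.smul_apply, h2.measure_zero, smul_zero]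
      exact zero_le
    have h3 : ediam s ≠ ⊤ := ne_top_of_le_ne_top ENNReal.ofReal_ne_top hs
    have h4 : 0 < (ediam s).toReal :=
      ENNReal.toReal_pos (fun h => h2.not_subsingleton (ediam_eq_zero_iff.1 h)) h3
    obtain ⟨b, hb⟩ := h2.nonempty
    have h5 : s ⊆ closedBall b (ediam s).toReal := fun x hx => dist_le_diam_of_mem' h3 hx hb
    have h6 := ENNReal.toReal_le_of_le_ofReal (by positivity) hs
    have h7 := IBF3_ball hu hΛ (W := closedBall b (ediam s).toReal ∩ A') (j := 2 * (C + 1))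
      (l₀ := l₀) (k := k) (inter_subset_right.trans hsub) (fun a ha => (hA' ▸ ha.2).2) h4
      (by linarith) inter_subset_left
    rw [← hC, ENNReal.ofReal_toReal h3] at h7
    refine (measure_mono h5).trans ?_
    rw [Measure.smul_apply, Measure.restrict_apply measurableSet_closedBall, smul_eq_mul,
      ENNReal.rpow_natCast]
    refine (ENNReal.mul_le_mul_iff_right (a := ((C + 1 : ℕ) : ℝ≥0∞)) (by simp)
      (ENNReal.natCast_ne_top _)).1 (le_trans (le_of_eq ?_) (h7.trans ?_))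
    · push_cast
      ring
    · gcongr
      exact Nat.le_succ C
  have h2 := h1 A'
  rw [Measure.smul_apply, Measure.restrict_apply_self, smul_eq_mul, two_mul] at h2
  have h3 : μH[d] A' ≠ ⊤ := ne_top_of_le_ne_top hf (measure_mono hsub)
  exact nonpos_iff_eq_zero.1 ((ENNReal.add_le_add_iff_left h3).1 (h2.trans_eq (add_zero _).symm))

end

end Pool.Agent.Lib.MP_b07a76_an
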