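import Pool.Agent.Lib.MP_b07a76_an.IDefs

/-! Heavy cones and infinite fibres project to null sets. -/

namespace Pool.Agent.Lib.MP_b07a76_an

noncomputable section
open MeasureTheory Module Metric Set Filter
open scoped NNReal ENNReal Topology

variable {n d : ℕ}

lemma IBF4_pr_eq (c : Fin n → Fin d → ℝ) :
    pr c = LinearMap.toContinuousLinearMap (Fintype.linearCombination ℝ c) := by
  funext z
  simp [pr, Fintype.linearCombination_apply]

lemma IBF4_pr_sub (c : Fin n → Fin d → ℝ) (z a : Fin n → ℝ) :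
    pr c (z - a) = pr c z - pr c a := by
  rw [IBF4_pr_eq, map_sub]

lemma IBF4_pr_lip (c : Fin n → Fin d → ℝ) : ∃ K : ℝ≥0, LipschitzWith K (pr c) := by
  rw [IBF4_pr_eq]
  exact ⟨_, ContinuousLinearMap.lipschitz _⟩

lemma IBF4_cone_sub (c : Fin n → Fin d → ℝ) (i : Fin n) (a : Fin n → ℝ) (l k : ℕ) :
    Cone c i a l k ⊆ pr c ⁻¹' closedBall (pr c a) (2⁻¹ ^ (l + k)) := by
  rintro z ⟨h1, h2⟩
  rw [mem_preimage, mem_closedBall, dist_eq_norm, ← IBF4_pr_sub]
  have h3 : |z i - a i| ≤ dist z a := by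
    rw [← Real.dist_eq]
    exact dist_le_pi_dist z a i
  have h4 : (0 : ℝ) ≤ 2⁻¹ ^ k := by positivity
  calc ‖pr c (z - a)‖ ≤ 2⁻¹ ^ k * |z i - a i| := h2.le
    _ ≤ 2⁻¹ ^ k * 2⁻¹ ^ l := mul_le_mul_of_nonneg_left (h3.trans h1.le) h4
    _ = 2⁻¹ ^ (l + k) := by rw [pow_add, mul_comm]

lemma IBF4_vol_ball (y : Fin d → ℝ) (m : ℕ) :
    volume (closedBall y (2⁻¹ ^ m)) = 2 ^ d * (2⁻¹ : ℝ≥0∞) ^ (m * d) := by
  rw [Real.volume_pi_closedBall _ (by positivity), Fintype.card_fin,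
    ENNReal.ofReal_pow (by positivity), ENNReal.ofReal_mul (by norm_num),
    ENNReal.ofReal_pow (by norm_num), ENNReal.ofReal_inv_of_pos (by norm_num), mul_pow, ← pow_mul]
  simp

lemma IBF4_count {X Y : Type*} [MeasurableSpace Y] (ν : Measure Y) (f : X → Y) (A : Set X)
    (D : ℕ → Set X) (hD : ⋃ m, D m = univ) (y : Y) (t : Finset X) (ht : ∀ x ∈ t, x ∈ A ∧ f x = y)
    (hs : ∀ x ∈ t, ∀ z ∈ t, ∀ m, x ∈ D m → z ∈ D m → x = z) :
    (t.card : ℝ≥0∞) ≤ ∑' m, (toMeasurable ν (f '' (A ∩ D m))).indicator 1 y := by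
  classical
  have h1 : ∀ x, ∃ m, x ∈ D m := fun x => mem_iUnion.1 (hD ▸ mem_univ x)
  choose e he using h1
  have h2 : Set.InjOn e t := fun x hx z hz h => hs x hx z hz (e x) (he x) (h ▸ he z)
  calc (t.card : ℝ≥0∞) = ∑ m ∈ t.image e, 1 := by
        rw [Finset.sum_const, Finset.card_image_of_injOn h2]
        simp
    _ = ∑ m ∈ t.image e, (toMeasurable ν (f '' (A ∩ D m))).indicator 1 y := by
        refine Finset.sum_congr rfl fun m hm => ?_
        obtain ⟨x, hx, rfl⟩ := Finset.mem_image.1 hm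
        have h3 : y ∈ f '' (A ∩ D (e x)) := ⟨x, ⟨(ht x hx).1, he x⟩, (ht x hx).2⟩
        rw [indicator_of_mem (subset_toMeasurable _ _ h3)]
        rfl
    _ ≤ _ := ENNReal.sum_le_tsum _

/-- Sketch. `ν = (μH[d].restrict A).map (pr c)` is finite and
`Cone c i a l k ⊆ pr c ⁻¹' ball (pr c a) (2⁻¹^(l+k))`. For almost every `y` the quotient
`ν (closedBall y r) / volume (closedBall y r)` has a finite limit as `r → 0+`
(`Besicovitch.ae_tendsto_rnDeriv`, `Measure.rnDeriv_lt_top`), which `G2` excludes at `y = pr c a`. -/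
theorem null_G2 {A : Set (Fin n → ℝ)} (hA : IsCompact A) (hf : μH[d] A ≠ ⊤)
    (c : Fin n → Fin d → ℝ) (i : Fin n) : volume (pr c '' {a | G2 A c i a}) = 0 := by
  obtain ⟨K, hK⟩ := IBF4_pr_lip c
  have hm : Measurable (pr c) := hK.continuous.measurable
  have : IsFiniteMeasure ((μH[d] : Measure (Fin n → ℝ)).restrict A) :=
    isFiniteMeasure_restrict.2 hf
  set ν : Measure (Fin d → ℝ) := ((μH[d] : Measure (Fin n → ℝ)).restrict A).map (pr c) with hν
  have hcone : ∀ a l k, μH[d] (A ∩ Cone c i a l k) ≤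
      ν (closedBall (pr c a) (2⁻¹ ^ (l + k))) := by
    intro a l k
    rw [hν, Measure.map_apply hm measurableSet_closedBall,
      Measure.restrict_apply' hA.measurableSet, inter_comm]
    exact measure_mono (inter_subset_inter_left _ (IBF4_cone_sub c i a l k))
  rw [measure_eq_zero_iff_ae_notMem]
  filter_upwards [Besicovitch.ae_tendsto_rnDeriv ν volume, Measure.rnDeriv_lt_top ν volume]
    with y h1 h2
  rintro ⟨a, ha, rfl⟩
  set M := ν.rnDeriv volume (pr c a) + 1 with hM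
  have hM1 : M ≠ ⊤ := ENNReal.add_ne_top.2 ⟨h2.ne, ENNReal.one_ne_top⟩
  have hM2 : ν.rnDeriv volume (pr c a) < M := ENNReal.lt_add_right h2.ne one_ne_zero
  have h3 : Tendsto (fun m : ℕ => (2⁻¹ : ℝ) ^ m) atTop (𝓝[>] 0) :=
    tendsto_nhdsWithin_iff.2 ⟨tendsto_pow_atTop_nhds_zero_of_lt_one (by norm_num) (by norm_num),
      Eventually.of_forall fun m => mem_Ioi.2 (by positivity)⟩
  obtain ⟨k₀, hk₀⟩ := eventually_atTop.1 ((h1.comp h3).eventually (gt_mem_nhds hM2))
  obtain ⟨j, hj⟩ := ENNReal.exists_nat_gt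
    (ENNReal.mul_ne_top hM1 (ENNReal.pow_ne_top (n := d) ENNReal.ofNat_ne_top) : M * 2 ^ d ≠ ⊤)
  obtain ⟨k, hk, l, hl⟩ := ha j k₀
  have h4 := (hk₀ (l + k) (by omega)).le
  simp only [Function.comp] at h4
  have h6 : ν (closedBall (pr c a) (2⁻¹ ^ (l + k))) ≤
      M * volume (closedBall (pr c a) (2⁻¹ ^ (l + k))) := by
    refine (ENNReal.div_le_iff_le_mul (Or.inl ?_) (Or.inl ?_)).1 h4
    · exact (measure_closedBall_pos volume _ (by positivity)).ne'
    · exact measure_closedBall_lt_top.ne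
  rw [IBF4_vol_ball, ← mul_assoc] at h6
  exact absurd (hl.trans_le ((hcone a l k).trans (h6.trans (by gcongr)))) (lt_irrefl _)

/-- Sketch. Over such `y` the fibre `A ∩ pr c ⁻¹' {y}` is infinite. Cut the space into the half-open cubes
`Q k w = {z | ∀ i, ⌊2^k z i⌋ = w i}`, `w : Fin n → ℤ`. With `hausdorffMeasure_pi_real` and the Lipschitz bound,
`∑' w, volume (pr c '' (A ∩ Q k w)) ≤ Λ^d ∑' w, μH[d] (A ∩ Q k w) ≤ Λ^d μH[d] A` (`tsum_inter_le`). Let
`N k y = ∑' w, indicator (toMeasurable volume (pr c '' (A ∩ Q k w))) 1 y`; `N k y → ⊤` for such `y` (any `j` points of the fibre lie in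
different cubes for large `k`), and Fatou (`lintegral_liminf_le`) bounds the integral of `liminf N k`. -/
theorem null_G3 {A : Set (Fin n → ℝ)} (hf : μH[d] A ≠ ⊤)
    (c : Fin n → Fin d → ℝ) : volume (pr c '' {a | a ∈ A ∧ G3 A c a}) = 0 := by
  obtain ⟨K, hK⟩ := IBF4_pr_lip c
  have hp : ∀ k : ℕ, (0 : ℝ) < 2⁻¹ ^ k := fun k => by positivity
  choose D hD1 hD2 hD3 hD4 hD5 using fun k : ℕ =>
    SeparableSpace.exists_measurable_partition_diam_le (Fin n → ℝ) (hp k)
  set N : ℕ → (Fin d → ℝ) → ℝ≥0∞ := fun k y =>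
    ∑' m, (toMeasurable volume (pr c '' (A ∩ D k m))).indicator 1 y with hN
  have hNm : ∀ k, Measurable (N k) := fun k =>
    Measurable.tsum fun m => measurable_one.indicator (measurableSet_toMeasurable _ _)
  have hNi : ∀ k, ∫⁻ y, N k y ≤ (K : ℝ≥0∞) ^ d * μH[d] A := by
    intro k
    rw [hN, lintegral_tsum fun m =>
      (measurable_one.indicator (measurableSet_toMeasurable _ _)).aemeasurable]
    calc _ ≤ ∑' m, (K : ℝ≥0∞) ^ d * μH[d] (A ∩ D k m) := by
          refine ENNReal.tsum_le_tsum fun m => ?_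
          rw [lintegral_indicator_one (measurableSet_toMeasurable _ _), measure_toMeasurable,
            ← hausdorffMeasure_pi_real, Fintype.card_fin, ← ENNReal.rpow_natCast]
          exact hK.hausdorffMeasure_image_le (by positivity) _
      _ ≤ _ := by
          rw [ENNReal.tsum_mul_left]
          gcongr
          exact tsum_inter_le _ A (D k) (hD1 k) (hD5 k)
  have hfin : ∫⁻ y, liminf (fun k => N k y) atTop ≠ ⊤ := by
    refine ne_top_of_le_ne_top
      (ENNReal.mul_ne_top (ENNReal.pow_ne_top (n := d) (ENNReal.coe_ne_top (r := K))) hf) ?_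
    exact (lintegral_liminf_le hNm).trans
      (liminf_le_of_frequently_le' (Frequently.of_forall hNi))
  rw [measure_eq_zero_iff_ae_notMem]
  filter_upwards [ae_lt_top (Measurable.liminf hNm) hfin] with y hy
  rintro ⟨a, ⟨-, ha⟩, rfl⟩
  have hinf : {z | z ∈ A ∧ pr c z = pr c a}.Infinite := by
    refine Set.Infinite.of_accPt (x := a) (accPt_iff_nhds.2 fun U hU => ?_)
    obtain ⟨ε, hε, hU'⟩ := Metric.mem_nhds_iff.1 hU
    obtain ⟨l, hl⟩ := exists_pow_lt_of_lt_one hε (by norm_num : (2⁻¹ : ℝ) < 1)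
    obtain ⟨z, hz1, hz2, hz3, hz4⟩ := ha l
    rw [IBF4_pr_sub, sub_eq_zero] at hz4
    exact ⟨z, ⟨hU' (hz3.trans_lt hl), hz1, hz4⟩, hz2⟩
  obtain ⟨j, hj⟩ := ENNReal.exists_nat_gt hy.ne
  obtain ⟨t, ht, rfl⟩ := hinf.exists_subset_card_eq j
  refine absurd (le_liminf_of_le (by isBoundedDefault) ?_) hj.not_ge
  have h3 : Tendsto (fun m : ℕ => (2⁻¹ : ℝ) ^ m) atTop (𝓝 0) :=
    tendsto_pow_atTop_nhds_zero_of_lt_one (by norm_num) (by norm_num)
  have h4 : ∀ᶠ k : ℕ in atTop, ∀ x ∈ t, ∀ z ∈ t, x ≠ z → (2⁻¹ : ℝ) ^ k < dist x z := by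
    refine (t.eventually_all).2 fun x _ => (t.eventually_all).2 fun z _ => ?_
    by_cases hxz : x = z
    · exact Eventually.of_forall fun k h => absurd hxz h
    · exact (h3.eventually (gt_mem_nhds (dist_pos.2 hxz))).mono fun k h _ => h
  filter_upwards [h4] with k hk
  refine IBF4_count volume (pr c) A (D k) (hD4 k) _ t (fun x hx => ht hx) ?_
  intro x hx z hz m hxm hzm
  by_contra hxz
  exact absurd ((dist_le_diam_of_mem (hD2 k m) hxm hzm).trans (hD3 k m)) (hk x hx z hz hxz).not_ge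

end

end Pool.Agent.Lib.MP_b07a76_an
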