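import Pool.Agent.Lib.MP_b07a76_an.IBF3
import Pool.Agent.Lib.MP_b07a76_an.IBF4

/-! The Besicovitch-Federer projection theorem in matrix coordinates. -/

namespace Pool.Agent.Lib.MP_b07a76_an

noncomputable section
open MeasureTheory Module Metric Set Filter
open scoped NNReal ENNReal Topology

variable {n d : ℕ}

lemma IBF5_update {S : Set (Fin n → Fin d → ℝ)} (hS : MeasurableSet S) (i : Fin n)
    (h : ∀ c : Fin n → Fin d → ℝ, ∀ᵐ m : Fin d → ℝ, Function.update c i m ∈ S) :
    ∀ᵐ c : Fin n → Fin d → ℝ, c ∈ S := by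
  refine ae_mem_of_ae_add_linearMap_mem (LinearMap.single ℝ (fun _ : Fin n => Fin d → ℝ) i)
    volume volume hS fun c => ?_
  have h1 := (measurePreserving_add_left (volume : Measure (Fin d → ℝ))
    (c i)).quasiMeasurePreserving.ae (h c)
  refine h1.mono fun m hm => ?_
  convert hm using 1
  funext j
  by_cases hj : j = i
  · subst hj
    simp
  · simp [hj]

lemma IBF5_null (c : Fin n → Fin d → ℝ) {B : Set (Fin n → ℝ)} (hB : μH[d] B = 0) :
    volume (pr c '' B) = 0 := by
  have e : pr c = LinearMap.toContinuousLinearMap (Fintype.linearCombination ℝ c) := by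
    funext z
    simp [pr, Fintype.linearCombination_apply]
  have h := (LinearMap.toContinuousLinearMap (Fintype.linearCombination ℝ c)).lipschitz
    |>.hausdorffMeasure_image_le (d := d) (Nat.cast_nonneg d) B
  rw [hB, mul_zero, ← e] at h
  have e2 := hausdorffMeasure_pi_real (ι := Fin d)
  rw [Fintype.card_fin] at e2
  rw [← e2]
  exact le_antisymm h zero_le

/-- Sketch. For a measurable `S ⊆ (Fin n → Fin d → ℝ)`: if for all `c` almost every `m` has
`update c i m ∈ S` then almost every `c` lies in `S` (Fubini: `measurePreserving_piFinSuccAbove` or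
`lmarginal`). With `ae_trichotomy` and `measurable_G`: for all `a`, `i`, almost every `c` is good; swap with
`Measure.ae_ae_comm` for `μH[d].restrict A`; for such `c`, `A` is covered by a null set, the `G1` set,
the `G2` sets and the `G3` set; `pr c` is Lipschitz and `μH[d] = volume` on `Fin d → ℝ`. -/
theorem besicovitch_federer (hd : 1 ≤ d) {A : Set (Fin n → ℝ)} (hA : IsCompact A)
    (hf : μH[d] A ≠ ⊤) (hu : PU d A) : ∀ᵐ c : Fin n → Fin d → ℝ, volume (pr c '' A) = 0 := by
  have : IsFiniteMeasure ((μH[d] : Measure (Fin n → ℝ)).restrict A) :=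
    ⟨by rw [Measure.restrict_apply_univ]; exact hf.lt_top⟩
  have h1 : ∀ i : Fin n, ∀ᵐ c : Fin n → Fin d → ℝ,
      ∀ᵐ a ∂(μH[d] : Measure (Fin n → ℝ)).restrict A, G1 A c i a ∨ G2 A c i a ∨ G3 A c a := by
    intro i
    refine (Measure.ae_ae_comm (p := fun c a => G1 A c i a ∨ G2 A c i a ∨ G3 A c a)
      (measurable_G hA hf i)).2 (Eventually.of_forall fun a => ?_)
    exact IBF5_update (S := {c | G1 A c i a ∨ G2 A c i a ∨ G3 A c a})
      (measurable_prodMk_right (measurable_G hA hf i)) i fun c => ae_trichotomy hA c i a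
  filter_upwards [ae_all_iff.2 h1] with c hc
  have h2 := (ae_restrict_iff' hA.measurableSet).1 (ae_all_iff.2 hc)
  have h3 : A ⊆ ({a | ¬(a ∈ A → ∀ i, G1 A c i a ∨ G2 A c i a ∨ G3 A c a)} ∪
      {a | a ∈ A ∧ ∀ i, G1 A c i a}) ∪ ((⋃ i, {a | G2 A c i a}) ∪ {a | a ∈ A ∧ G3 A c a}) := by
    intro a ha
    by_cases h4 : a ∈ A → ∀ i, G1 A c i a ∨ G2 A c i a ∨ G3 A c a
    · by_cases h5 : ∀ i, G1 A c i a
      · exact Or.inl (Or.inr ⟨ha, h5⟩)
      · obtain ⟨i, hi⟩ := not_forall.1 h5
        rcases (h4 ha i).resolve_left hi with h6 | h6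
        · exact Or.inr (Or.inl (mem_iUnion.2 ⟨i, h6⟩))
        · exact Or.inr (Or.inr ⟨ha, h6⟩)
    · exact Or.inl (Or.inl h4)
  refine measure_mono_null (image_mono h3) ?_
  rw [image_union, image_union (pr c) (⋃ _, _), image_iUnion]
  exact measure_union_null (IBF5_null c (measure_union_null h2 (null_G1 hd hA hf hu c)))
    (measure_union_null (measure_iUnion_null fun i => null_G2 hA hf c i) (null_G3 hf c))

/-- Sketch. For `G : Fin n → Fin n → ℝ` let `g z = pr G z`. For injective `I` the linear map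
`G ↦ fun i k => G i (I k)` is onto, so it pulls null sets back to null sets (`ae_comp_linearMap_mem_iff` with
`toMeasurable`). The invertible `G` form a nonempty open set, which has positive measure. -/
theorem exists_good_frame (hd : 1 ≤ d) (U : ℕ → Set (Fin n → ℝ)) (hA : ∀ j, IsCompact (U j))
    (hf : ∀ j, μH[d] (U j) ≠ ⊤) (hu : ∀ j, PU d (U j)) :
    ∃ g : (Fin n → ℝ) ≃L[ℝ] (Fin n → ℝ), ∀ j, ∀ I : Fin d → Fin n, Function.Injective I →
      volume ((fun z k => g z (I k)) '' U j : Set (Fin d → ℝ)) = 0 := by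
  have h1 : ∀ j, ∀ I : Fin d → Fin n, ∀ᵐ G : Fin n → Fin n → ℝ, Function.Injective I →
      volume (pr (fun i k => G i (I k)) '' U j) = 0 := by
    intro j I
    by_cases hI : Function.Injective I
    · let L : (Fin n → Fin n → ℝ) →ₗ[ℝ] (Fin n → Fin d → ℝ) :=
        { toFun := fun G i k => G i (I k), map_add' := fun _ _ => rfl, map_smul' := fun _ _ => rfl }
      have hL : Function.Surjective L := fun c =>
        ⟨fun i => Function.extend I (c i) 0, by
          funext i k
          exact hI.extend_apply _ _ _⟩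
      obtain ⟨N, hN, hm, h0⟩ := exists_measurable_superset_of_null
        (besicovitch_federer hd (hA j) (hf j) (hu j))
      have h2 := (ae_comp_linearMap_mem_iff L volume volume hL hm.compl).2
        (compl_mem_ae_iff.2 h0)
      exact h2.mono fun G hG _ => by_contra fun h3 => hG (hN h3)
    · exact Eventually.of_forall fun _ h => absurd h hI
  have h2 := Measure.dense_of_ae (ae_all_iff.2 fun j => ae_all_iff.2 (h1 j))
  have ho : IsOpen {G : Fin n → Fin n → ℝ | (Matrix.of G).det ≠ 0} :=
    isOpen_ne_fun (Continuous.matrix_det continuous_id) continuous_const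
  obtain ⟨G, hG, hG'⟩ := h2.exists_mem_open ho
    ⟨(1 : Matrix (Fin n) (Fin n) ℝ), (Matrix.det_one (n := Fin n)).trans_ne one_ne_zero⟩
  have hU : IsUnit (Matrix.of G) := (Matrix.isUnit_iff_isUnit_det _).2 (isUnit_iff_ne_zero.2 hG')
  refine ⟨(LinearEquiv.ofBijective (Matrix.of G).vecMulLinear
    ⟨Matrix.vecMul_injective_iff_isUnit.2 hU,
      Matrix.vecMul_surjective_iff_isUnit.2 hU⟩).toContinuousLinearEquiv, fun j I hI => ?_⟩
  convert hG j I hI using 3
  funext k
  rw [pr, Finset.sum_apply]
  rfl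

end

end Pool.Agent.Lib.MP_b07a76_an
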