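import Pool.Agent.Lib.MP_b07a76_an.ICollA

/-! A grid collapse that kills a set with null coordinate projections. -/

namespace Pool.Agent.Lib.MP_b07a76_an

noncomputable section
open MeasureTheory Module Metric Set Filter
open scoped NNReal ENNReal Topology

variable {n d : ℕ}

lemma IColl_lam_lip {A : Set (Fin n → ℝ)} {ρ : ℝ} (hρ : 0 < ρ) {N : ℕ} (hN : 1 ≤ N)
    (x y : Fin n → ℝ) :
    |(1 + ((N : ℝ) - 1) * max 0 (1 - infDist x A / ρ)) -
      (1 + ((N : ℝ) - 1) * max 0 (1 - infDist y A / ρ))| ≤ ‖x - y‖ / (ρ / N) := by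
  have hN' : (1 : ℝ) ≤ N := by exact_mod_cast hN
  have h1 : |max 0 (1 - infDist x A / ρ) - max 0 (1 - infDist y A / ρ)| ≤ ‖x - y‖ / ρ := by
    refine (abs_max_sub_max_le_max _ _ _ _).trans ?_
    refine max_le (by simp; positivity) ?_
    have h2 : |infDist x A - infDist y A| ≤ ‖x - y‖ := by
      have := (lipschitz_infDist_pt A).dist_le_mul x y
      simpa [Real.dist_eq, dist_eq_norm] using this
    have h3 : 1 - infDist x A / ρ - (1 - infDist y A / ρ) = -((infDist x A - infDist y A) / ρ) := by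
      ring
    rw [h3, abs_neg, abs_div, abs_of_pos hρ]
    exact div_le_div_of_nonneg_right h2 hρ.le
  have h4 : (1 + ((N : ℝ) - 1) * max 0 (1 - infDist x A / ρ)) -
      (1 + ((N : ℝ) - 1) * max 0 (1 - infDist y A / ρ)) =
      ((N : ℝ) - 1) * (max 0 (1 - infDist x A / ρ) - max 0 (1 - infDist y A / ρ)) := by ring
  rw [h4, abs_mul, abs_of_nonneg (by linarith : (0 : ℝ) ≤ (N : ℝ) - 1)]
  have h5 : ‖x - y‖ / (ρ / N) = N * (‖x - y‖ / ρ) := by field_simp
  rw [h5]
  exact mul_le_mul (by linarith) h1 (abs_nonneg _) (by linarith)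

lemma IColl_exists_coord (hn : 0 < n) (v : Fin n → ℝ) : ∃ i, |v i| = ‖v‖ := by
  have : Nonempty (Fin n) := ⟨⟨0, hn⟩⟩
  obtain ⟨i, hi⟩ := Finite.exists_max (fun i => |v i|)
  refine ⟨i, le_antisymm ?_ ?_⟩
  · simpa [Real.norm_eq_abs] using norm_le_pi_norm v i
  · exact (pi_norm_le_iff_of_nonneg (abs_nonneg _)).2 fun j => by
      simpa [Real.norm_eq_abs] using hi j

lemma IColl_expand {ψ : (Fin n → ℝ) → Fin n → ℝ}
    (hψ : ∀ x y i, x i - y i = ‖x - y‖ → ψ y i ≤ ψ x i) (η : ℝ) (_h0 : 0 ≤ η) (h1 : η ≤ 1)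
    (x y : Fin n → ℝ) :
    η * ‖x - y‖ ≤ ‖(η • x + (1 - η) • ψ x) - (η • y + (1 - η) • ψ y)‖ := by
  rcases Nat.eq_zero_or_pos n with hn | hn
  · subst hn
    have : x - y = 0 := Subsingleton.elim _ _
    rw [this, norm_zero, mul_zero]
    exact norm_nonneg _
  obtain ⟨i, hi⟩ := IColl_exists_coord hn (x - y)
  have key := norm_le_pi_norm ((η • x + (1 - η) • ψ x) - (η • y + (1 - η) • ψ y)) i
  refine le_trans ?_ key
  simp only [Pi.sub_apply, Pi.add_apply, Pi.smul_apply, smul_eq_mul, Real.norm_eq_abs] at hi ⊢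
  have h2 : 0 ≤ 1 - η := by linarith
  rcases abs_cases (x i - y i) with ⟨h3, -⟩ | ⟨h3, -⟩
  · have h4 : x i - y i = ‖x - y‖ := by rw [← hi, h3]
    have h5 := hψ x y i h4
    refine le_trans ?_ (le_abs_self _)
    rw [← h4]
    nlinarith [mul_nonneg h2 (sub_nonneg.2 h5)]
  · have h4 : y i - x i = ‖y - x‖ := by rw [norm_sub_rev, ← hi, h3]; ring
    have h5 := hψ y x i h4
    refine le_trans ?_ (neg_le_abs _)
    rw [norm_sub_rev, ← h4]
    nlinarith [mul_nonneg h2 (sub_nonneg.2 h5)]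

/-- Sketch. Take `ρ > 0` with `cthickening (2ρ) A ⊆ O`, `K = cthickening ρ A`,
`lam x = 1 + (N - 1) * max 0 (1 - infDist x A / ρ)` (if `A` is empty take `ψ = id`), `δ = ρ / N`, `τ` from
`exists_offset`, `ψ x i = δ * (Hs (x i / δ - τ i) (lam x) + τ i)`. For the last part take `i` with
`|x i - y i| = ‖x - y‖` and use `Hs_mono` (`|lam x - lam y| ≤ ‖x - y‖ / δ`). -/
theorem collapse (hd : d ≤ n) {A O : Set (Fin n → ℝ)} (hA : IsCompact A) (hO : IsOpen O)
    (hAO : A ⊆ O) (h : ∀ I : Fin d → Fin n, Function.Injective I →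
      volume ((fun z k => z (I k)) '' A : Set (Fin d → ℝ)) = 0) {N : ℕ} (hN : 1 ≤ N) :
    ∃ (ψ : (Fin n → ℝ) → Fin n → ℝ) (K : Set (Fin n → ℝ)), IsCompact K ∧ K ⊆ O ∧
      LipschitzWith (N + 1) ψ ∧ (∀ x, x ∉ K → ψ x = x) ∧ MapsTo ψ O O ∧
      (N : ℝ≥0∞) * μH[d] (ψ '' A) ≤ 2 ^ n * μH[d] A ∧
      ∀ η : ℝ, 0 ≤ η → η ≤ 1 → ∀ x y,
        η * ‖x - y‖ ≤ ‖(η • x + (1 - η) • ψ x) - (η • y + (1 - η) • ψ y)‖ := by
  have hN' : (1 : ℝ) ≤ N := by exact_mod_cast hN
  rcases A.eq_empty_or_nonempty with hE | hne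
  · refine ⟨id, ∅, isCompact_empty, empty_subset _, ?_, fun _ _ => rfl, mapsTo_id _, ?_, ?_⟩
    · exact LipschitzWith.id.weaken (by simp)
    · simp [hE]
    · exact IColl_expand (ψ := id) fun x y i hi => by
        have := norm_nonneg (x - y)
        simp only [id]
        linarith
  obtain ⟨ρ₀, hρ₀, hsub⟩ := hA.exists_cthickening_subset_open hO hAO
  set ρ : ℝ := ρ₀ / 2 with hρdef
  have hρ : 0 < ρ := by positivity
  set δ : ℝ := ρ / N with hδdef
  have hδ : 0 < δ := by positivity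
  have hδρ : δ ≤ ρ := div_le_self hρ.le hN'
  obtain ⟨τ, hτ⟩ := exists_offset hd hA.measurableSet h hN hδ
  set lam : (Fin n → ℝ) → ℝ := fun x => 1 + ((N : ℝ) - 1) * max 0 (1 - infDist x A / ρ)
    with hlam
  have hl1 : ∀ x, 1 ≤ lam x := fun x => by
    have : 0 ≤ ((N : ℝ) - 1) * max 0 (1 - infDist x A / ρ) :=
      mul_nonneg (by linarith) (le_max_left _ _)
    simp only [hlam]
    linarith
  have hlN : ∀ x, lam x ≤ N := fun x => by
    have h1 : max 0 (1 - infDist x A / ρ) ≤ 1 := by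
      refine max_le zero_le_one ?_
      have : 0 ≤ infDist x A / ρ := div_nonneg infDist_nonneg hρ.le
      linarith
    have : ((N : ℝ) - 1) * max 0 (1 - infDist x A / ρ) ≤ ((N : ℝ) - 1) * 1 :=
      mul_le_mul_of_nonneg_left h1 (by linarith)
    simp only [hlam]
    linarith
  have hlip : ∀ x y, |lam x - lam y| ≤ ‖x - y‖ / δ := fun x y => IColl_lam_lip hρ hN x y
  set ψ : (Fin n → ℝ) → Fin n → ℝ := fun x i => δ * (Hs (x i / δ - τ i) (lam x) + τ i) with hψ
  have hout : ∀ x, x ∉ cthickening ρ A → ψ x = x := by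
    intro x hx
    have h1 : ρ ≤ infDist x A := by
      by_contra hc
      exact hx (thickening_subset_cthickening _ _
        ((mem_thickening_iff_infDist_lt hne).2 (not_le.1 hc)))
    have h2 : lam x = 1 := by
      have : 1 - infDist x A / ρ ≤ 0 := by
        have : 1 ≤ infDist x A / ρ := (one_le_div hρ).2 h1
        linarith
      simp only [hlam, max_eq_left this, mul_zero, add_zero]
    funext i
    simp only [hψ, h2, Hs_one]
    field_simp
    ring
  have hnear : ∀ x, dist (ψ x) x ≤ δ := by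
    intro x
    refine (dist_pi_le_iff hδ.le).2 fun i => ?_
    have h1 := Hs_dist (x i / δ - τ i) (hl1 x)
    have h2 : ψ x i - x i = δ * (Hs (x i / δ - τ i) (lam x) - (x i / δ - τ i)) := by
      simp only [hψ]
      field_simp
      ring
    rw [Real.dist_eq, h2, abs_mul, abs_of_pos hδ]
    nlinarith
  refine ⟨ψ, cthickening ρ A, hA.cthickening, ?_, ?_, hout, ?_, ?_, ?_⟩
  · exact (cthickening_mono (by rw [hρdef]; linarith) A).trans hsub
  · refine LipschitzWith.of_dist_le_mul fun x y => ?_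
    have hc : (((N : ℝ≥0) + 1 : ℝ≥0) : ℝ) = N + 1 := by simp
    rw [hc]
    refine (dist_pi_le_iff (by positivity)).2 fun i => ?_
    have h1 := Hs_lip (x i / δ - τ i) (y i / δ - τ i) (hl1 x) (hl1 y) (hlN x) (hlN y)
    have h2 : ψ x i - ψ y i =
        δ * (Hs (x i / δ - τ i) (lam x) - Hs (y i / δ - τ i) (lam y)) := by
      simp only [hψ]
      ring
    have h3 : |x i / δ - τ i - (y i / δ - τ i)| ≤ ‖x - y‖ / δ := by
      have : x i / δ - τ i - (y i / δ - τ i) = (x i - y i) / δ := by ring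
      rw [this, abs_div, abs_of_pos hδ]
      refine div_le_div_of_nonneg_right ?_ hδ.le
      simpa [Real.norm_eq_abs] using norm_le_pi_norm (x - y) i
    have h4 := hlip x y
    have h5 : |Hs (x i / δ - τ i) (lam x) - Hs (y i / δ - τ i) (lam y)| ≤
        (N + 1) * (‖x - y‖ / δ) := by
      have := mul_le_mul_of_nonneg_left h3 (by linarith : (0 : ℝ) ≤ N)
      linarith
    rw [Real.dist_eq, h2, abs_mul, abs_of_pos hδ, dist_eq_norm]
    calc δ * |Hs (x i / δ - τ i) (lam x) - Hs (y i / δ - τ i) (lam y)|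
        ≤ δ * ((N + 1) * (‖x - y‖ / δ)) := mul_le_mul_of_nonneg_left h5 hδ.le
      _ = (N + 1) * ‖x - y‖ := by field_simp
  · intro x hx
    by_cases hK : x ∈ cthickening ρ A
    · refine hsub ?_
      have h1 : ψ x ∈ cthickening δ (cthickening ρ A) :=
        mem_cthickening_of_dist_le _ x δ _ hK (hnear x)
      refine cthickening_mono ?_ A (cthickening_cthickening_subset hδ.le hρ.le A h1)
      rw [hρdef] at hδρ ⊢
      linarith
    · rw [hout x hK]
      exact hx
  · have : ψ '' A = (fun x i => δ * (Hs (x i / δ - τ i) N + τ i)) '' A := by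
      refine image_congr fun x hx => ?_
      have h2 : lam x = N := by
        simp only [hlam, infDist_zero_of_mem hx, zero_div, sub_zero, max_eq_right zero_le_one]
        ring
      simp only [hψ, h2]
    rw [this]
    exact hτ
  · refine IColl_expand fun x y i hi => ?_
    have h1 : |lam y - lam x| ≤ x i / δ - τ i - (y i / δ - τ i) := by
      have : x i / δ - τ i - (y i / δ - τ i) = ‖x - y‖ / δ := by rw [← hi]; ring
      rw [this, abs_sub_comm]
      exact hlip x y
    have h2 := Hs_mono (hl1 x) (hl1 y) (by rwa [abs_sub_comm] at h1)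
    simp only [hψ]
    exact mul_le_mul_of_nonneg_left (by linarith) hδ.le

end

end Pool.Agent.Lib.MP_b07a76_an
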