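import Pool.Agent.Lib.MP_b07a76_an.IDefs

/-! A grid collapse that kills a set with null coordinate projections. -/

namespace Pool.Agent.Lib.MP_b07a76_an

noncomputable section
open MeasureTheory Module Metric Set Filter
open scoped NNReal ENNReal Topology

variable {n d : ℕ}

/-- On each `[k, k+1]` stretch by `lam` and cut at `k + 1`. -/
def Hs (u lam : ℝ) : ℝ := ⌊u⌋ + min (Int.fract u * lam) 1

/-- Sketch: for `k ≤ ⌊u⌋` use `1 ≤ lam`; for `k ≥ ⌊u⌋ + 1` use the cut. -/
lemma Hs_le (u : ℝ) {lam : ℝ} (h : 1 ≤ lam) (k : ℤ) : Hs u lam ≤ k + lam * max (u - k) 0 := by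
  unfold Hs
  have h0 := Int.fract_nonneg u
  have hu : (⌊u⌋ : ℝ) + Int.fract u = u := Int.floor_add_fract u
  rcases le_or_gt k ⌊u⌋ with hk | hk
  · have hk' : (k : ℝ) ≤ ⌊u⌋ := by exact_mod_cast hk
    have hm : max (u - k) 0 = u - k := max_eq_left (by linarith)
    have h1 := min_le_left (Int.fract u * lam) 1
    have h2 : ((⌊u⌋ : ℝ) - k) * 1 ≤ ((⌊u⌋ : ℝ) - k) * lam :=
      mul_le_mul_of_nonneg_left h (by linarith)
    have h3 : lam * (u - k) = ((⌊u⌋ : ℝ) - k) * lam + Int.fract u * lam := by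
      rw [← add_mul, mul_comm]; congr 1; linarith
    rw [hm, h3]; linarith
  · have hk' : (⌊u⌋ : ℝ) + 1 ≤ k := by exact_mod_cast hk
    have h1 := min_le_right (Int.fract u * lam) 1
    have h2 : 0 ≤ lam * max (u - k) 0 := mul_nonneg (by linarith) (le_max_right _ _)
    linarith

/-- Sketch: `k = ⌊u⌋` or `k = ⌊u⌋ + 1`. -/
lemma Hs_eq (u lam : ℝ) : ∃ k : ℤ, u - k ≤ 1 ∧ Hs u lam = k + lam * max (u - k) 0 := by
  unfold Hs
  have h0 := Int.fract_nonneg u
  have h1 := Int.fract_lt_one u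
  have hu : (⌊u⌋ : ℝ) + Int.fract u = u := Int.floor_add_fract u
  rcases le_total (Int.fract u * lam) 1 with h | h
  · refine ⟨⌊u⌋, by linarith, ?_⟩
    have h2 : u - ⌊u⌋ = Int.fract u := by linarith
    rw [min_eq_left h, h2, max_eq_left h0, mul_comm]
  · refine ⟨⌊u⌋ + 1, by push_cast; linarith, ?_⟩
    rw [min_eq_right h, max_eq_right (by push_cast; linarith)]
    push_cast; ring

lemma Hs_dist (u : ℝ) {lam : ℝ} (h : 1 ≤ lam) : |Hs u lam - u| ≤ 1 := by
  unfold Hs
  have h0 := Int.fract_nonneg u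
  have h1 := Int.fract_lt_one u
  have hu : (⌊u⌋ : ℝ) + Int.fract u = u := Int.floor_add_fract u
  have h2 := min_le_right (Int.fract u * lam) 1
  have h3 : 0 ≤ min (Int.fract u * lam) 1 :=
    le_min (mul_nonneg h0 (by linarith)) zero_le_one
  rw [abs_le]; constructor <;> linarith

lemma Hs_one (u : ℝ) : Hs u 1 = u := by
  unfold Hs
  rw [mul_one, min_eq_left (Int.fract_lt_one u).le, Int.floor_add_fract]

lemma ICollA_lip (u u' : ℝ) {lam lam' N : ℝ} (h : 1 ≤ lam) (_h' : 1 ≤ lam') (hN : lam ≤ N) :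
    Hs u lam - Hs u' lam' ≤ N * |u - u'| + |lam - lam'| := by
  obtain ⟨k, hk, he⟩ := Hs_eq u' lam'
  have h1 := Hs_le u h k
  have h2 : max (u - k) 0 - max (u' - k) 0 ≤ |u - u'| := by
    have := abs_max_sub_max_le_abs (u - k) (u' - k) 0
    have h3 : u - k - (u' - k) = u - u' := by ring
    rw [h3] at this
    exact (le_abs_self _).trans this
  have h3 : max (u' - k) 0 ≤ 1 := max_le hk zero_le_one
  have h4 : 0 ≤ max (u' - k) 0 := le_max_right _ _
  have h5 : lam * (max (u - k) 0 - max (u' - k) 0) ≤ N * |u - u'| :=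
    (mul_le_mul_of_nonneg_left h2 (by linarith)).trans
      (mul_le_mul_of_nonneg_right hN (abs_nonneg _))
  have h6 : (lam - lam') * max (u' - k) 0 ≤ |lam - lam'| * 1 :=
    (mul_le_mul_of_nonneg_right (le_abs_self _) h4).trans
      (mul_le_mul_of_nonneg_left h3 (abs_nonneg _))
  rw [he]
  nlinarith

/-- Sketch: `Hs_eq` at one point and `Hs_le` at the other, in both orders. -/
lemma Hs_lip (u u' : ℝ) {lam lam' N : ℝ} (h : 1 ≤ lam) (h' : 1 ≤ lam') (hN : lam ≤ N)
    (hN' : lam' ≤ N) : |Hs u lam - Hs u' lam'| ≤ N * |u - u'| + |lam - lam'| := by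
  have h1 := ICollA_lip u u' h h' hN
  have h2 := ICollA_lip u' u h' h hN'
  rw [abs_sub_comm u' u, abs_sub_comm lam' lam] at h2
  rw [abs_le]; constructor <;> linarith

/-- Sketch: take `k` from `Hs_eq u lam`; cases `u' ≤ k` and `k < u'`. -/
lemma Hs_mono {u u' lam lam' : ℝ} (h : 1 ≤ lam) (h' : 1 ≤ lam') (hu : |lam - lam'| ≤ u - u') :
    Hs u' lam' ≤ Hs u lam := by
  obtain ⟨k, hk, he⟩ := Hs_eq u lam
  have h1 := Hs_le u' h' k
  have h0 : 0 ≤ u - u' := (abs_nonneg _).trans hu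
  rw [he]
  refine h1.trans ?_
  rcases le_total u' k with hc | hc
  · rw [max_eq_right (by linarith : u' - k ≤ 0), mul_zero]
    have : 0 ≤ lam * max (u - k) 0 := mul_nonneg (by linarith) (le_max_right _ _)
    linarith
  · rw [max_eq_left (by linarith : 0 ≤ u' - k), max_eq_left (by linarith : 0 ≤ u - k)]
    have h2 : (lam' - lam) * (u' - k) ≤ |lam - lam'| * 1 := by
      refine (mul_le_mul_of_nonneg_right (le_abs_self _) (by linarith)).trans ?_
      rw [abs_sub_comm]
      exact mul_le_mul_of_nonneg_left (by linarith) (abs_nonneg _)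
    have h3 : 1 * (u - u') ≤ lam * (u - u') := mul_le_mul_of_nonneg_right h h0
    nlinarith

lemma ICollA_floor {N a : ℕ} (ha : a < N) (y : ℝ) (h : Int.fract (y - (a : ℝ) / N) * N < 1) :
    ⌊(N : ℝ) * Int.fract y⌋₊ = a := by
  have hN0 : (0 : ℝ) < N := by exact_mod_cast (Nat.zero_le a).trans_lt ha
  have ha' : (a : ℝ) + 1 ≤ N := by exact_mod_cast ha
  set r := Int.fract (y - (a : ℝ) / N) with hr
  have h0 : 0 ≤ r := Int.fract_nonneg _
  have hu : (⌊y - (a : ℝ) / N⌋ : ℝ) + r = y - a / N := Int.floor_add_fract _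
  have hm : (N : ℝ) * (a / N + r) = a + r * N := by field_simp
  have h1 : (a : ℝ) / N + r < 1 := by
    refine lt_of_mul_lt_mul_left ?_ hN0.le
    rw [hm]; linarith
  have h2 : Int.fract y = a / N + r := by
    rw [Int.fract_eq_iff]
    exact ⟨by positivity, h1, ⌊y - (a : ℝ) / N⌋, by linarith⟩
  have h3 : 0 ≤ r * N := by positivity
  rw [h2, hm, Nat.floor_eq_iff (by positivity)]
  constructor <;> linarith

lemma ICollA_meas (N : ℕ) (δ : ℝ) : Measurable fun y : ℝ => ⌊(N : ℝ) * Int.fract (y / δ)⌋₊ := by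
  have h1 : Measurable fun y : ℝ => y / δ := measurable_id.div_const δ
  have h2 : Measurable fun y : ℝ => (N : ℝ) * Int.fract (y / δ) := h1.fract.const_mul _
  exact h2.nat_floor

lemma ICollA_dist {N : ℕ} (hN : 1 ≤ N) {δ : ℝ} (hδ : 0 < δ) (a b t : ℝ) :
    dist (δ * (Hs (a / δ - t) N + t)) (δ * (Hs (b / δ - t) N + t)) ≤ N * dist a b := by
  have hN' : (1 : ℝ) ≤ N := by exact_mod_cast hN
  have h1 := Hs_lip (a / δ - t) (b / δ - t) hN' hN' le_rfl le_rfl
  have h2 : a / δ - t - (b / δ - t) = (a - b) / δ := by ring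
  rw [sub_self, abs_zero, add_zero, h2, abs_div, abs_of_pos hδ] at h1
  rw [Real.dist_eq, Real.dist_eq, ← mul_sub, add_sub_add_right_eq_sub, abs_mul, abs_of_pos hδ]
  refine (mul_le_mul_of_nonneg_left h1 hδ.le).trans (le_of_eq ?_)
  field_simp

lemma ICollA_count {N : ℕ} (e : ℕ) (σ : Fin n → Fin N) :
    N ^ e * (Finset.univ.filter fun τ : Fin n → Fin N =>
      e ≤ (Finset.univ.filter fun i => τ i = σ i).card).card ≤ N ^ n * 2 ^ n := by
  classical
  have h1 : (Finset.univ.filter fun τ : Fin n → Fin N =>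
      e ≤ (Finset.univ.filter fun i => τ i = σ i).card) ⊆
      (Finset.univ.powersetCard e).biUnion fun I : Finset (Fin n) =>
        Fintype.piFinset fun i => if i ∈ I then {σ i} else Finset.univ := by
    intro τ hτ
    obtain ⟨I, hI, hIc⟩ := Finset.exists_subset_card_eq (Finset.mem_filter.1 hτ).2
    refine Finset.mem_biUnion.2 ⟨I, by simp [hIc], Fintype.mem_piFinset.2 fun i => ?_⟩
    split_ifs with hi
    · simpa using hI hi
    · exact Finset.mem_univ _
  refine (Nat.mul_le_mul_left _ ((Finset.card_le_card h1).trans Finset.card_biUnion_le)).trans ?_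
  rw [Finset.mul_sum]
  have h2 : ∀ I ∈ (Finset.univ : Finset (Fin n)).powersetCard e,
      N ^ e * (Fintype.piFinset fun i => if i ∈ I then {σ i} else Finset.univ).card ≤ N ^ n := by
    intro I hI
    have hIc : I.card = e := (Finset.mem_powersetCard.1 hI).2
    rw [Fintype.card_piFinset, ← hIc, ← Finset.prod_const, ← Finset.prod_ite_mem_eq I,
      ← Finset.prod_mul_distrib]
    refine le_of_eq ?_
    rw [Finset.prod_congr rfl (g := fun _ => N) fun i _ => by split_ifs <;> simp]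
    simp
  refine (Finset.sum_le_card_nsmul _ _ _ h2).trans ?_
  rw [smul_eq_mul, mul_comm]
  refine Nat.mul_le_mul_left _ ?_
  calc _ ≤ ((Finset.univ : Finset (Fin n)).powerset).card :=
        Finset.card_le_card fun I hI => Finset.mem_powerset.2 (Finset.subset_univ _)
    _ = 2 ^ n := by simp

/-- Sketch. For `τ : Fin n → Fin N` put `u x i = x i / δ - τ i / N` and `J x = {i | fract (u x i) < 1/N}`.
For fixed `x`, `i` exactly one value of `τ i` has `i ∈ J x` (it is `⌊N x i / δ⌋ mod N`), so for `I` of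
size `d + 1` exactly `N^(n-d-1)` of the `τ` have `I ⊆ J x`; integrating over `A` and summing over `I` gives
`τ` with `N^(d+1) μH[d] (A ∩ {d + 1 ≤ card (J x)}) ≤ 2^n μH[d] A`. The map is `N`-Lipschitz (`Hs_lip`).
On `{x | J x = J, ⌊u x i⌋ = w i}` with `card J ≤ d` the image is contained in the image of
`(fun z k => z (I k)) '' A` under a Lipschitz map, for an injective `I` with range `⊇ J`; there are countably
many such pieces, and `μH[d] = volume` on `Fin d → ℝ` (`hausdorffMeasure_pi_real`). -/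
lemma exists_offset (hd : d ≤ n) {A : Set (Fin n → ℝ)} (hA : MeasurableSet A)
    (h : ∀ I : Fin d → Fin n, Function.Injective I →
      volume ((fun z k => z (I k)) '' A : Set (Fin d → ℝ)) = 0)
    {N : ℕ} (hN : 1 ≤ N) {δ : ℝ} (hδ : 0 < δ) : ∃ τ : Fin n → ℝ,
      (N : ℝ≥0∞) * μH[d] ((fun x i => δ * (Hs (x i / δ - τ i) N + τ i)) '' A : Set (Fin n → ℝ))
        ≤ 2 ^ n * μH[d] A := by
  classical
  have hN0 : (0 : ℝ) < N := by exact_mod_cast hN
  have hlt : ∀ y : ℝ, ⌊(N : ℝ) * Int.fract y⌋₊ < N := fun y => by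
    rw [Nat.floor_lt (mul_nonneg hN0.le (Int.fract_nonneg y))]
    have := mul_lt_mul_of_pos_left (Int.fract_lt_one y) hN0
    simpa using this
  let c : (Fin n → ℝ) → Fin n → Fin N := fun x i => ⟨⌊(N : ℝ) * Int.fract (x i / δ)⌋₊, hlt _⟩
  have hc : ∀ σ : Fin n → Fin N, MeasurableSet (c ⁻¹' {σ}) := fun σ => by
    have : c ⁻¹' {σ} = ⋂ i, (fun x : Fin n → ℝ => ⌊(N : ℝ) * Int.fract (x i / δ)⌋₊) ⁻¹' {(σ i : ℕ)} := by
      ext x
      simp only [mem_preimage, mem_singleton_iff, mem_iInter, funext_iff, Fin.ext_iff, c]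
    rw [this]
    refine MeasurableSet.iInter fun i => ?_
    have hm : Measurable (fun x : Fin n → ℝ => ⌊(N : ℝ) * Int.fract (x i / δ)⌋₊) :=
      (ICollA_meas N δ).comp (measurable_pi_apply i)
    exact hm (measurableSet_singleton _)
  set μ : Measure (Fin n → ℝ) := μH[d] with hμ
  let B : (Fin n → Fin N) → Set (Fin n → ℝ) := fun τ =>
    A ∩ {x | d + 1 ≤ (Finset.univ.filter fun i => τ i = c x i).card}
  have hB : ∀ τ, μ (B τ) ≤ ∑ σ : Fin n → Fin N,
      (if d + 1 ≤ (Finset.univ.filter fun i => τ i = σ i).card then 1 else 0 : ℝ≥0∞) *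
        μ.restrict A (c ⁻¹' {σ}) := fun τ => by
    have h1 : B τ ⊆ ⋃ σ ∈ (Finset.univ.filter fun σ : Fin n → Fin N =>
        d + 1 ≤ (Finset.univ.filter fun i => τ i = σ i).card), (c ⁻¹' {σ} ∩ A) := by
      rintro x ⟨hx, hx'⟩
      simp only [mem_iUnion]
      exact ⟨c x, by simpa using hx', rfl, hx⟩
    refine (measure_mono h1).trans ((measure_biUnion_finset_le _ _).trans (le_of_eq ?_))
    rw [Finset.sum_filter]
    refine Finset.sum_congr rfl fun σ _ => ?_
    rw [Measure.restrict_apply (hc σ)]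
    split_ifs <;> simp
  have hsum : ∑ τ : Fin n → Fin N, (N : ℝ≥0∞) ^ (d + 1) * μ (B τ) ≤
      ∑ _τ : Fin n → Fin N, 2 ^ n * μ A := by
    calc ∑ τ : Fin n → Fin N, (N : ℝ≥0∞) ^ (d + 1) * μ (B τ)
        ≤ ∑ τ : Fin n → Fin N, (N : ℝ≥0∞) ^ (d + 1) * ∑ σ : Fin n → Fin N,
          (if d + 1 ≤ (Finset.univ.filter fun i => τ i = σ i).card then 1 else 0 : ℝ≥0∞) *
            μ.restrict A (c ⁻¹' {σ}) :=
          Finset.sum_le_sum fun τ _ => by gcongr; exact hB τ
      _ = ∑ σ : Fin n → Fin N, ((N : ℝ≥0∞) ^ (d + 1) *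
          ((Finset.univ.filter fun τ : Fin n → Fin N =>
            d + 1 ≤ (Finset.univ.filter fun i => τ i = σ i).card).card : ℝ≥0∞)) *
            μ.restrict A (c ⁻¹' {σ}) := by
          rw [← Finset.mul_sum, Finset.sum_comm, Finset.mul_sum]
          refine Finset.sum_congr rfl fun σ _ => ?_
          rw [← Finset.sum_mul, Finset.sum_boole, mul_assoc]
      _ ≤ ∑ σ : Fin n → Fin N, ((N : ℝ≥0∞) ^ n * 2 ^ n) * μ.restrict A (c ⁻¹' {σ}) := by
          refine Finset.sum_le_sum fun σ _ => ?_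
          refine mul_le_mul' ?_ le_rfl
          exact_mod_cast ICollA_count (d + 1) σ
      _ = ∑ _τ : Fin n → Fin N, 2 ^ n * μ A := by
          rw [← Finset.mul_sum, sum_measure_preimage_singleton _ (fun σ _ => hc σ)]
          simp [mul_assoc]
  have : Nonempty (Fin N) := ⟨⟨0, hN⟩⟩
  obtain ⟨τ, -, hτ⟩ := ENNReal.exists_le_of_sum_le Finset.univ_nonempty hsum
  refine ⟨fun i => ((τ i : ℕ) : ℝ) / N, le_trans ?_ hτ⟩
  set t : Fin n → ℝ := fun i => ((τ i : ℕ) : ℝ) / N with ht
  set Φ : (Fin n → ℝ) → Fin n → ℝ := fun x i => δ * (Hs (x i / δ - t i) N + t i) with hΦ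
  have hL : LipschitzWith (N : ℝ≥0) Φ := by
    refine LipschitzWith.of_dist_le_mul fun x y => ?_
    refine (dist_pi_le_iff (by positivity)).2 fun i => ?_
    refine (ICollA_dist hN hδ _ _ _).trans ?_
    exact mul_le_mul_of_nonneg_left (dist_le_pi_dist x y i) (by positivity)
  let Ψ : (Fin d → Fin n) → (Fin n → ℤ) → (Fin d → ℝ) → Fin n → ℝ := fun I w y =>
    Function.extend I (fun k => δ * (Hs (y k / δ - t (I k)) N + t (I k)))
      (fun i => δ * ((w i : ℝ) + 1 + t i))
  have hΨ : ∀ I w, Function.Injective I → LipschitzWith (N : ℝ≥0) (Ψ I w) := fun I w hI => by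
    refine LipschitzWith.of_dist_le_mul fun x y => ?_
    refine (dist_pi_le_iff (by positivity)).2 fun i => ?_
    by_cases hi : ∃ k, I k = i
    · obtain ⟨k, rfl⟩ := hi
      simp only [Ψ, hI.extend_apply]
      refine (ICollA_dist hN hδ _ _ _).trans ?_
      exact mul_le_mul_of_nonneg_left (dist_le_pi_dist x y k) (by positivity)
    · simp only [Ψ, Function.extend_apply' _ _ _ hi, dist_self]
      positivity
  have hnull : μ (⋃ I : {I : Fin d → Fin n // Function.Injective I}, ⋃ w : Fin n → ℤ,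
      Ψ I.1 w '' ((fun z k => z (I.1 k)) '' A)) = 0 := by
    refine measure_iUnion_null fun I => measure_iUnion_null fun w => ?_
    have h1 := (hΨ I.1 w I.2).hausdorffMeasure_image_le (d := d) (by positivity)
      ((fun z k => z (I.1 k)) '' A)
    have h2 : (μH[d] : Measure (Fin d → ℝ)) = volume := by
      have := hausdorffMeasure_pi_real (ι := Fin d)
      rwa [Fintype.card_fin] at this
    rw [h2, h I.1 I.2, mul_zero] at h1
    exact le_zero_iff.1 h1
  have hsub : Φ '' A ⊆ Φ '' B τ ∪ ⋃ I : {I : Fin d → Fin n // Function.Injective I},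
      ⋃ w : Fin n → ℤ, Ψ I.1 w '' ((fun z k => z (I.1 k)) '' A) := by
    rintro _ ⟨x, hx, rfl⟩
    by_cases hb : d + 1 ≤ (Finset.univ.filter fun i => τ i = c x i).card
    · exact Or.inl ⟨x, ⟨hx, hb⟩, rfl⟩
    · right
      obtain ⟨J, hJ, hJc⟩ := Finset.exists_superset_card_eq
        (s := Finset.univ.filter fun i => τ i = c x i) (n := d) (by omega) (by simpa using hd)
      simp only [mem_iUnion]
      refine ⟨⟨J.orderEmbOfFin hJc, (J.orderEmbOfFin hJc).injective⟩,
        fun i => ⌊x i / δ - t i⌋, _, ⟨x, hx, rfl⟩, ?_⟩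
      funext i
      by_cases hi : ∃ k, J.orderEmbOfFin hJc k = i
      · obtain ⟨k, rfl⟩ := hi
        simp only [Ψ, (J.orderEmbOfFin hJc).injective.extend_apply, hΦ]
      · have hiJ : i ∉ J := fun hiJ => hi (by
          have : i ∈ range (J.orderEmbOfFin hJc) := by
            rw [Finset.range_orderEmbOfFin]; exact hiJ
          exact this)
        have hne : τ i ≠ c x i := fun he => hiJ (hJ (by simpa using he))
        have hf : 1 ≤ Int.fract (x i / δ - t i) * N := by
          by_contra hf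
          exact hne (Fin.ext (ICollA_floor (τ i).2 _ (not_le.1 hf)).symm)
        simp only [Ψ, Function.extend_apply' _ _ _ hi, hΦ, Hs, min_eq_right hf]
  calc (N : ℝ≥0∞) * μ (Φ '' A) ≤ N * (μ (Φ '' B τ) + 0) := by
        gcongr
        rw [← hnull]
        exact (measure_mono hsub).trans (measure_union_le _ _)
    _ ≤ N * ((N : ℝ≥0∞) ^ d * μ (B τ)) := by
        rw [add_zero]
        gcongr
        have h1 := hL.hausdorffMeasure_image_le (d := d) (by positivity) (B τ)
        rwa [ENNReal.rpow_natCast, ENNReal.coe_natCast] at h1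
    _ = (N : ℝ≥0∞) ^ (d + 1) * μ (B τ) := by rw [pow_succ', mul_assoc]

end

end Pool.Agent.Lib.MP_b07a76_an
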