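import Pool.Agent.Lib.MP_b07a76_an.TopMain

/-! Auxiliary notions for the interpolation theorems. -/

namespace Pool.Agent.Lib.MP_b07a76_an

noncomputable section
open MeasureTheory Module Metric Set
open scoped NNReal ENNReal

abbrev Ed (d : ℕ) : Type := EuclideanSpace ℝ (Fin d)

/-- `A` is covered by countably many Lipschitz images of `ℝ^d`. -/
def Rect {X : Type} [PseudoEMetricSpace X] (d : ℕ) (A : Set X) : Prop :=
  ∃ f : ℕ → Ed d → X, (∀ j, ∃ K, LipschitzWith K (f j)) ∧ A ⊆ ⋃ j, range (f j)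

/-- `A` is purely `d`-unrectifiable. -/
def PU {X : Type} [EMetricSpace X] [MeasurableSpace X] [BorelSpace X] (d : ℕ) (A : Set X) : Prop :=
  ∀ (f : Ed d → X) (K : ℝ≥0), LipschitzWith K f → μH[d] (A ∩ range f) = 0

section
variable {V : Type} [NormedAddCommGroup V] [InnerProductSpace ℝ V]

/-- `L` changes the quadratic form by the rank two form `2 σ ⟪p, v⟫ ⟪q, v⟫`. -/
def Form (p q : V) (σ : ℝ) (L : V →L[ℝ] V) : Prop :=
  ∀ v, ‖L v‖ ^ 2 = ‖v‖ ^ 2 + 2 * σ * (inner ℝ p v * inner ℝ q v)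

/-- The round sphere with centre `c`, radius `r` and direction `N`. -/
def Sph (c : V) (r : ℝ) (N : Submodule ℝ V) : Set V := {x | x - c ∈ N ∧ ‖x - c‖ = r}

/-- The closed disc bounded by `Sph c r N`. -/
def Dsc (c : V) (r : ℝ) (N : Submodule ℝ V) : Set V := {x | x - c ∈ N ∧ ‖x - c‖ ≤ r}

/-- The region between the ellipsoid `A '' Sph c ρ N` and the round sphere `Sph p r (N.map A)`. -/
def Btw (A : V ≃L[ℝ] V) (c : V) (ρ : ℝ) (N : Submodule ℝ V) (p : V) (r : ℝ) : Set V :=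
  {z | A.symm z - c ∈ N ∧ ((‖A.symm z - c‖ ≤ ρ ∧ r ≤ ‖z - p‖) ∨
    (ρ ≤ ‖A.symm z - c‖ ∧ ‖z - p‖ ≤ r))}

/-- Two planes, or planes whose direct sum is the whole space. -/
def Fam {m : ℕ} (P : Fin m → Submodule ℝ V) : Prop :=
  m = 2 ∨ DirectSum.IsInternal P

end

/-- The map `σ : T → Y` is continuous and nonzero on `H_k`. -/
def NZ {V : Type} [TopologicalSpace V] (k : ℕ) {T : Type} [TopologicalSpace T] (σ : T → V)
    (Y : Set V) : Prop :=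
  ∃ (hc : Continuous σ) (h : ∀ x, σ x ∈ Y),
    ((AlgebraicTopology.singularHomologyFunctor (ModuleCat.{0} ℤ) k).obj (ModuleCat.of ℤ ℤ)).map
      (TopCat.ofHom ⟨fun x => (⟨σ x, h x⟩ : Y), hc.subtype_mk h⟩) ≠ 0

section
variable {n d : ℕ}

/-- The linear map with columns `c i`. -/
def pr (c : Fin n → Fin d → ℝ) (z : Fin n → ℝ) : Fin d → ℝ := ∑ i, z i • c i

/-- A truncated cone at `a` around the kernel of `pr c`. -/
def Cone (c : Fin n → Fin d → ℝ) (i : Fin n) (a : Fin n → ℝ) (l k : ℕ) : Set (Fin n → ℝ) :=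
  {z | dist z a < 2⁻¹ ^ l ∧ ‖pr c (z - a)‖ < 2⁻¹ ^ k * |z i - a i|}

/-- The cones at `a` carry little mass. -/
def G1 (A : Set (Fin n → ℝ)) (c : Fin n → Fin d → ℝ) (i : Fin n) (a : Fin n → ℝ) : Prop :=
  ∀ j : ℕ, ∃ l₀ k₀ : ℕ, ∀ l, l₀ ≤ l → ∀ k, k₀ ≤ k →
    (j : ℝ≥0∞) * μH[d] (A ∩ Cone c i a l k) ≤ 2⁻¹ ^ ((l + k) * d)

/-- The cones at `a` carry much mass. -/
def G2 (A : Set (Fin n → ℝ)) (c : Fin n → Fin d → ℝ) (i : Fin n) (a : Fin n → ℝ) : Prop :=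
  ∀ j k₀ : ℕ, ∃ k, k₀ ≤ k ∧ ∃ l : ℕ,
    (j : ℝ≥0∞) * 2⁻¹ ^ ((l + k) * d) < μH[d] (A ∩ Cone c i a l k)

/-- The fibre through `a` accumulates at `a`. -/
def G3 (A : Set (Fin n → ℝ)) (c : Fin n → Fin d → ℝ) (a : Fin n → ℝ) : Prop :=
  ∀ l : ℕ, ∃ z ∈ A, z ≠ a ∧ dist z a ≤ 2⁻¹ ^ l ∧ pr c (z - a) = 0

end

end

end Pool.Agent.Lib.MP_b07a76_an
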