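import Pool.Agent.Lib.MP_b07a76_an.IDefs

/-! Images of Almgren competitors. -/

namespace Pool.Agent.Lib.MP_b07a76_an

noncomputable section
open MeasureTheory Module Metric Set Filter
open scoped NNReal ENNReal Topology

variable {V : Type} [NormedAddCommGroup V] [InnerProductSpace ℝ V] [FiniteDimensional ℝ V]
  {d : ℕ}

lemma IExt_smul {X W : Type} [PseudoMetricSpace X] [NormedAddCommGroup W] [NormedSpace ℝ W]
    {φ : X → ℝ} {h : X → W} {A B : ℝ≥0} (hφ : LipschitzWith A φ) (hh : LipschitzWith B h)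
    (h1 : ∀ x, |φ x| ≤ 1) {M : ℝ} (hM : ∀ x, φ x ≠ 0 → ‖h x‖ ≤ M) :
    ∃ C, LipschitzWith C (fun x => φ x • h x) := by
  have key : ∀ x y, φ y ≠ 0 →
      dist (φ x • h x) (φ y • h y) ≤ ((B + A * M.toNNReal : ℝ≥0) : ℝ) * dist x y := by
    intro x y hy
    have e : φ x • h x - φ y • h y = φ x • (h x - h y) + (φ x - φ y) • h y := by
      rw [smul_sub, sub_smul]; abel
    have a1 : ‖h x - h y‖ ≤ B * dist x y := by
      rw [← dist_eq_norm]; exact hh.dist_le_mul x y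
    have a2 : |φ x - φ y| ≤ A * dist x y := by
      rw [← Real.dist_eq]; exact hφ.dist_le_mul x y
    have a3 : ‖h y‖ ≤ (M.toNNReal : ℝ) := (hM y hy).trans (Real.le_coe_toNNReal M)
    rw [dist_eq_norm, e]
    calc _ ≤ ‖φ x • (h x - h y)‖ + ‖(φ x - φ y) • h y‖ := norm_add_le _ _
      _ = |φ x| * ‖h x - h y‖ + |φ x - φ y| * ‖h y‖ := by
          rw [norm_smul, norm_smul, Real.norm_eq_abs, Real.norm_eq_abs]
      _ ≤ 1 * (B * dist x y) + (A * dist x y) * (M.toNNReal : ℝ) := by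
          gcongr
          exact h1 x
      _ = _ := by push_cast; ring
  refine ⟨B + A * M.toNNReal, LipschitzWith.of_dist_le_mul fun x y => ?_⟩
  by_cases hy : φ y = 0
  · by_cases hx : φ x = 0
    · rw [hx, hy, zero_smul, zero_smul, dist_self]; positivity
    · rw [dist_comm, dist_comm x y]; exact key y x hx
  · exact key x y hy

lemma IExt_bound {X W : Type} [NormedAddCommGroup X] [NormedAddCommGroup W] {h : X → W} {B : ℝ≥0}
    (hh : LipschitzWith B h) {R : ℝ} {x : X} (hx : ‖x‖ ≤ R) : ‖h x‖ ≤ ‖h 0‖ + B * R := by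
  have a := hh.dist_le_mul x 0
  rw [dist_eq_norm, dist_zero_right] at a
  have b : ‖h x‖ ≤ ‖h 0‖ + ‖h x - h 0‖ := norm_le_insert' _ _
  have c : (B : ℝ) * ‖x‖ ≤ B * R := by gcongr
  linarith

/-- Sketch. `u = g - id` is Lipschitz and bounded on `E`, zero on `E \ ball 0 R`. On
`s = E ∪ {x | |R| + 1 ≤ ‖x‖}` the function equal to `u` on `E` and `0` elsewhere is Lipschitz; extend it
(`LipschitzOnWith.extend_finite_dimension`), add `id`, and take a closed ball at `0` that contains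
`closedBall 0 (|R|+1)` and its image. -/
lemma almgren_of_lipschitzOn {E : Set V} {g : V → V} {K : ℝ≥0} (hg : LipschitzOnWith K g E) {R : ℝ}
    (h : ∀ x ∈ E, R ≤ ‖x‖ → g x = x) : AlmgrenCompetitor E (g '' E) := by
  classical
  obtain ⟨M, hM0, hM⟩ : ∃ M : ℝ, 0 ≤ M ∧ ∀ x ∈ E, ‖x‖ < R → ‖g x - x‖ ≤ M := by
    by_cases hne : ∃ x0 ∈ E, ‖x0‖ < R
    · obtain ⟨x0, h0, h0R⟩ := hne
      have hR : 0 ≤ R := (norm_nonneg _).trans h0R.le
      refine ⟨‖g x0‖ + K * (2 * R) + R, by positivity, fun x hx hxR => ?_⟩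
      have a := hg.dist_le_mul x hx x0 h0
      rw [dist_eq_norm, dist_eq_norm] at a
      have b : ‖x - x0‖ ≤ 2 * R := (norm_sub_le _ _).trans (by linarith)
      have c : (K : ℝ) * ‖x - x0‖ ≤ K * (2 * R) := by gcongr
      have e : ‖g x‖ ≤ ‖g x0‖ + ‖g x - g x0‖ := norm_le_insert' _ _
      have e' : ‖g x - x‖ ≤ ‖g x‖ + ‖x‖ := norm_sub_le _ _
      linarith
    · exact ⟨0, le_rfl, fun x hx hxR => absurd ⟨x, hx, hxR⟩ hne⟩
  set w : V → V := fun x => if x ∈ E then g x - x else 0 with hw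
  have hw0 : ∀ x, |R| + 1 ≤ ‖x‖ → w x = 0 := by
    intro x hx
    by_cases hE : x ∈ E
    · have := h x hE (by linarith [le_abs_self R])
      simp [hw, hE, this]
    · simp [hw, hE]
  have key : ∀ x ∈ E, ∀ y, |R| + 1 ≤ ‖y‖ →
      dist (w x) (w y) ≤ ((K + 1 + M.toNNReal : ℝ≥0) : ℝ) * dist x y := by
    intro x hx y hy
    rw [hw0 y hy, dist_zero_right]
    by_cases hxR : R ≤ ‖x‖
    · have : w x = 0 := by simp [hw, hx, h x hx hxR]
      rw [this, norm_zero]; positivity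
    · push Not at hxR
      have a : ‖w x‖ ≤ M := by simpa [hw, hx] using hM x hx hxR
      have b : 1 ≤ dist x y := by
        rw [dist_comm, dist_eq_norm]
        have := norm_sub_norm_le y x
        linarith [le_abs_self R]
      have c : M ≤ ((K + 1 + M.toNNReal : ℝ≥0) : ℝ) := by
        push_cast
        have := Real.le_coe_toNNReal M
        have := K.2
        have e : (K : ℝ) = K.1 := rfl
        linarith
      calc ‖w x‖ ≤ ((K + 1 + M.toNNReal : ℝ≥0) : ℝ) * 1 := by linarith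
        _ ≤ _ := by gcongr
  have hwL : LipschitzOnWith (K + 1 + M.toNNReal) w (E ∪ {x | |R| + 1 ≤ ‖x‖}) := by
    refine LipschitzOnWith.of_dist_le_mul fun x hx y hy => ?_
    rcases hx with hx | hx
    · rcases hy with hy | hy
      · have a := hg.dist_le_mul x hx y hy
        have e : w x - w y = (g x - g y) - (x - y) := by simp only [hw, hx, hy, if_true]; abel
        rw [dist_eq_norm, e]
        rw [dist_eq_norm, dist_eq_norm] at *
        have b := norm_sub_le (g x - g y) (x - y)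
        have c : 0 ≤ (M.toNNReal : ℝ) * ‖x - y‖ := by positivity
        push_cast
        linarith
      · exact key x hx y hy
    · rcases hy with hy | hy
      · rw [dist_comm, dist_comm x y]; exact key y hy x hx
      · rw [hw0 x hx, hw0 y hy, dist_self]; positivity
  obtain ⟨w', hw', heq⟩ := hwL.extend_finite_dimension
  have hf : LipschitzWith (1 + lipschitzExtensionConstant V * (K + 1 + M.toNNReal))
      (fun x => x + w' x) := LipschitzWith.id.add hw'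
  generalize 1 + lipschitzExtensionConstant V * (K + 1 + M.toNNReal) = C at hf
  have hid : ∀ x, |R| + 1 ≤ ‖x‖ → x + w' x = x := by
    intro x hx
    rw [← heq (Or.inr hx), hw0 x hx, add_zero]
  have hpos : 0 ≤ ‖(0 : V) + w' 0‖ + C * (|R| + 1) := by positivity
  refine ⟨fun x => x + w' x, C, 0, |R| + 1 + (‖(0 : V) + w' 0‖ + C * (|R| + 1)), hf, ?_, ?_, ?_⟩
  · intro x hx
    rw [mem_closedBall_zero_iff, not_le] at hx
    exact hid x (by linarith)
  · intro x hx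
    by_cases hxR : |R| + 1 ≤ ‖x‖
    · show x + w' x ∈ _
      rw [hid x hxR]; exact hx
    · rw [mem_closedBall_zero_iff]
      have := IExt_bound hf (not_le.1 hxR).le
      have := abs_nonneg R
      linarith
  · refine image_congr fun x hx => ?_
    rw [← heq (Or.inl hx)]
    simp [hw, hx]

/-- Sketch. The map `P × Q → P ⊔ Q`, `(x, y) ↦ x - y` is onto, so (`ContinuousLinearMap.exists_preimage_norm_le`)
`x - y = x' - y'` with `‖x'‖, ‖y'‖ ≤ C ‖x - y‖`, and `x - x' = y - y' ∈ P ⊓ Q`. -/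
lemma lipschitzOn_union {P Q : Submodule ℝ V} {g : V → V} {K : ℝ≥0} (h1 : LipschitzOnWith K g P)
    (h2 : LipschitzOnWith K g Q) : ∃ K', LipschitzOnWith K' g ((P : Set V) ∪ Q) := by
  let T : (P × Q) →ₗ[ℝ] V := P.subtype ∘ₗ LinearMap.fst ℝ P Q - Q.subtype ∘ₗ LinearMap.snd ℝ P Q
  have hT : ∀ p : P × Q, T p = (p.1 : V) - p.2 := fun p => rfl
  obtain ⟨S, hS⟩ := T.rangeRestrict.exists_rightInverse_of_surjective T.range_rangeRestrict
  let S' := LinearMap.toContinuousLinearMap S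
  have key : ∀ x ∈ P, ∀ y ∈ Q,
      dist (g x) (g y) ≤ ((K + 2 * K * ‖S'‖₊ : ℝ≥0) : ℝ) * dist x y := by
    intro x hx y hy
    let v : LinearMap.range T := ⟨x - y, ⟨(⟨x, hx⟩, ⟨y, hy⟩), rfl⟩⟩
    have e1 : T (S v) = x - y := by
      have := congrArg Subtype.val (LinearMap.congr_fun hS v)
      simpa using this
    rw [hT] at e1
    have n0 : ‖S v‖ ≤ ‖S'‖ * ‖x - y‖ := S'.le_opNorm v
    have n1 : ‖((S v).1 : V)‖ ≤ ‖S'‖ * ‖x - y‖ := (norm_fst_le (S v)).trans n0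
    have n2 : ‖((S v).2 : V)‖ ≤ ‖S'‖ * ‖x - y‖ := (norm_snd_le (S v)).trans n0
    have e2 : x - (S v).1 = y - (S v).2 := by
      rw [sub_eq_sub_iff_sub_eq_sub, e1]
    have zP : x - (S v).1 ∈ P := P.sub_mem hx (S v).1.2
    have zQ : x - (S v).1 ∈ Q := by rw [e2]; exact Q.sub_mem hy (S v).2.2
    have a1 := h1.dist_le_mul x hx _ zP
    have a2 := h2.dist_le_mul _ zQ y hy
    have d1 : dist x (x - (S v).1) = ‖((S v).1 : V)‖ := by rw [dist_eq_norm]; simp
    have d2 : dist (x - (S v).1) y = ‖((S v).2 : V)‖ := by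
      rw [e2, dist_comm, dist_eq_norm]; simp
    rw [d1] at a1
    rw [d2] at a2
    have t := dist_triangle (g x) (g (x - (S v).1)) (g y)
    have b1 : (K : ℝ) * ‖((S v).1 : V)‖ ≤ K * (‖S'‖ * ‖x - y‖) := by gcongr
    have b2 : (K : ℝ) * ‖((S v).2 : V)‖ ≤ K * (‖S'‖ * ‖x - y‖) := by gcongr
    have b3 : 0 ≤ (K : ℝ) * ‖x - y‖ := by positivity
    rw [dist_eq_norm x y]
    push_cast
    linarith
  have hle : K ≤ K + 2 * K * ‖S'‖₊ := le_self_add
  refine ⟨K + 2 * K * ‖S'‖₊, LipschitzOnWith.of_dist_le_mul fun x hx y hy => ?_⟩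
  rcases hx with hx | hx
  · rcases hy with hy | hy
    · exact (h1.weaken hle).dist_le_mul x hx y hy
    · exact key x hx y hy
  · rcases hy with hy | hy
    · rw [dist_comm, dist_comm x y]; exact key y hy x hx
    · exact (h2.weaken hle).dist_le_mul x hx y hy

/-- Sketch: conjugate `f` by `L`; use a closed ball at `0` containing `L '' closedBall c r`. -/
lemma alm_transfer_equiv (L : V ≃L[ℝ] V) {E F : Set V} (hF : AlmgrenCompetitor E F) :
    AlmgrenCompetitor (L '' E) (L '' F) := by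
  obtain ⟨f, K, c, r, hf, hid, hm, rfl⟩ := hF
  have hb : ∀ y ∈ closedBall c r, L y ∈ closedBall (0 : V) (‖(L : V →L[ℝ] V)‖ * (‖c‖ + r)) := by
    intro y hy
    rw [mem_closedBall_zero_iff]
    rw [mem_closedBall, dist_eq_norm] at hy
    have a : ‖y‖ ≤ ‖c‖ + r := by
      have := norm_le_insert' y c
      linarith
    calc ‖L y‖ ≤ ‖(L : V →L[ℝ] V)‖ * ‖y‖ := (L : V →L[ℝ] V).le_opNorm y
      _ ≤ _ := by gcongr
  refine ⟨L ∘ f ∘ L.symm, _, 0, ‖(L : V →L[ℝ] V)‖ * (‖c‖ + r),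
    L.lipschitz.comp (hf.comp L.symm.lipschitz), ?_, ?_, ?_⟩
  · intro x hx
    have : L.symm x ∉ closedBall c r := fun hh => hx (by simpa using hb _ hh)
    simp [hid _ this]
  · intro x hx
    by_cases hh : L.symm x ∈ closedBall c r
    · exact hb _ (hm hh)
    · simpa [hid _ hh] using hx
  · rw [image_image, image_image]
    simp

variable [MeasurableSpace V] [BorelSpace V]

omit [MeasurableSpace V] [BorelSpace V] in
lemma IExt_sec {P : Submodule ℝ V} (L : V →L[ℝ] V) (hP : ∀ v ∈ P, ‖L v‖ = ‖v‖) {f : V → V}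
    {K : ℝ≥0} (hf : LipschitzWith K f) {R : ℝ} (hid : ∀ x, R ≤ ‖x‖ → f x = x) :
    ∃ (g : V → V) (C : ℝ≥0), LipschitzWith C g ∧ (∀ z, ∃ v ∈ P, g z = L (f v)) ∧
      ∀ z ∈ P.map (L : V →ₗ[ℝ] V), R ≤ ‖z‖ → g z = z := by
  have hinj : LinearMap.ker ((L : V →ₗ[ℝ] V) ∘ₗ P.subtype) = ⊥ := by
    rw [LinearMap.ker_eq_bot']
    intro v hv
    have := hP v v.2
    have hv' : L v = 0 := hv
    rw [hv', norm_zero] at this
    exact Subtype.ext (norm_eq_zero.1 this.symm)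
  obtain ⟨s, hs⟩ := LinearMap.exists_leftInverse_of_injective _ hinj
  let s' : V →L[ℝ] V := LinearMap.toContinuousLinearMap (P.subtype ∘ₗ s)
  refine ⟨L ∘ f ∘ s', _, L.lipschitz.comp (hf.comp s'.lipschitz),
    fun z => ⟨s z, (s z).2, rfl⟩, ?_⟩
  rintro z ⟨v, hv, rfl⟩ hz
  have e : s' (L v) = v := congrArg Subtype.val (LinearMap.congr_fun hs ⟨v, hv⟩)
  have hz' : R ≤ ‖v‖ := by rw [← hP v hv]; exact hz
  show L (f (s' (L v))) = L v
  rw [e, hid v hz']

/-- Sketch. `F = f '' (P ∪ Q)`, `f = id` where `R ≤ ‖x‖`. Let `P' = P.map L`, `Q' = Q.map L`, `K = P' ⊓ Q'`, `π` the orthogonal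
projection onto `K`, and `s₁, s₂ : V →L V` with `s₁ (L v) = v` on `P`, `s₂ (L v) = v` on `Q`, `s₁ V ⊆ P`, `s₂ V ⊆ Q`;
`g₁ = L ∘ f ∘ s₁`, `g₂ = L ∘ f ∘ s₂` are Lipschitz, equal to `id` on `P'` (resp. `Q'`) where `R ≤ ‖z‖`. `Δ κ = g₂ κ - g₁ κ` is bounded Lipschitz on `K` and vanishes
for `R ≤ ‖κ‖`. Take a Lipschitz `r : P' → P'` with `r z = π z` if `‖π z‖ ≤ R ∧ ‖z - π z‖ ≤ 1` and `r z = z` if `|R| + 2 ≤ ‖z‖`
(`extend_finite_dimension`). Put `g z = g₁ (r z) + max 0 (1 - ‖z - π z‖) • Δ (π z)` on `P'` and `g = g₂` on `Q'`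
(they agree on `K`). Then `g '' (P' ∪ Q') ⊆ L '' F ∪ N`, `N` the image of `K × ℝ` under the Lipschitz map
`(κ, t) ↦ g₁ κ + max 0 (min t 1) • Δ κ`, of dimension `< d` (`LipschitzWith.dimH_range_le`, `hausdorffMeasure_of_dimH_lt`). Note that `r z = z` on `K` is needed where `Δ = 0`:
so prescribe `r` on the set `{‖π z‖ ≤ R ∧ ‖z - π z‖ ≤ 1} ∪ K ∪ {|R| + 2 ≤ ‖z‖}` (there `r z = z - 1_{..} (z - π z)`). -/
theorem alm_transfer_two {P Q : Submodule ℝ V} (L : V →L[ℝ] V) (hP : ∀ v ∈ P, ‖L v‖ = ‖v‖)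
    (hQ : ∀ v ∈ Q, ‖L v‖ = ‖v‖)
    (hK : finrank ℝ (P.map (L : V →ₗ[ℝ] V) ⊓ Q.map (L : V →ₗ[ℝ] V) : Submodule ℝ V) + 2 ≤ d)
    {F : Set V} (hF : AlmgrenCompetitor ((P : Set V) ∪ Q) F) :
    ∃ F' N : Set V, AlmgrenCompetitor (L '' ((P : Set V) ∪ Q)) F' ∧ μH[d] N = 0 ∧
      F' ⊆ L '' F ∪ N := by
  classical
  obtain ⟨f, K0, c, r, hf, hid0, -, rfl⟩ := hF
  obtain ⟨R, hR0, hid⟩ : ∃ R : ℝ, 0 ≤ R ∧ ∀ x, R ≤ ‖x‖ → f x = x := by
    refine ⟨‖c‖ + |r| + 1, by positivity, fun x hx => hid0 x fun hh => ?_⟩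
    rw [mem_closedBall, dist_eq_norm] at hh
    have := norm_le_insert' x c
    linarith [le_abs_self r]
  obtain ⟨g₁, C₁, hg₁, im₁, id₁⟩ := IExt_sec L hP hf hid
  obtain ⟨g₂, C₂, hg₂, im₂, id₂⟩ := IExt_sec L hQ hf hid
  have himg : L '' ((P : Set V) ∪ Q) =
      (P.map (L : V →ₗ[ℝ] V) : Set V) ∪ (Q.map (L : V →ₗ[ℝ] V) : Set V) := by
    rw [image_union, Submodule.map_coe, Submodule.map_coe]; rfl
  rw [himg]
  generalize P.map (L : V →ₗ[ℝ] V) = P' at *
  generalize Q.map (L : V →ₗ[ℝ] V) = Q' at *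
  set K : Submodule ℝ V := P' ⊓ Q' with hKdef
  let π : V →L[ℝ] V := K.starProjection
  have hπK : ∀ z, π z ∈ K := fun z => K.starProjection_apply_mem z
  have hπid : ∀ z ∈ K, π z = z := fun z hz => Submodule.starProjection_eq_self_iff.2 hz
  -- the difference
  let Δ : V → V := fun z => g₂ z - g₁ z
  have hΔ : LipschitzWith (C₂ + C₁) Δ := hg₂.sub hg₁
  have hΔ0 : ∀ z ∈ K, R ≤ ‖z‖ → Δ z = 0 := fun z hz hR => by
    show g₂ z - g₁ z = 0
    rw [id₁ z hz.1 hR, id₂ z hz.2 hR, sub_self]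
  have hΔb : ∀ z ∈ K, ‖Δ z‖ ≤ ‖Δ 0‖ + (C₂ + C₁ : ℝ≥0) * R := fun z hz => by
    by_cases hR : R ≤ ‖z‖
    · rw [hΔ0 z hz hR, norm_zero]; positivity
    · exact IExt_bound hΔ (not_le.1 hR).le
  -- the retraction
  let q : V →L[ℝ] V := ContinuousLinearMap.id ℝ V - π
  have hq : ∀ z, q z = z - π z := fun z => rfl
  let ψ : V → ℝ := fun z => max 0 (min (R + 2 - ‖z‖) 1)
  have hψ : LipschitzWith (0 + 1) ψ :=
    (((LipschitzWith.const (R + 2)).sub lipschitzWith_one_norm).min_const 1).const_max 0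
  have hψ1 : ∀ z, |ψ z| ≤ 1 := fun z => by
    rw [abs_of_nonneg (le_max_left _ _)]
    exact max_le zero_le_one (min_le_right _ _)
  have hψ0 : ∀ z, R + 2 ≤ ‖z‖ → ψ z = 0 := fun z hz =>
    max_eq_left ((min_le_left _ _).trans (by linarith))
  have hψe : ∀ z, ‖z‖ ≤ R + 1 → ψ z = 1 := fun z hz => by
    show max 0 (min (R + 2 - ‖z‖) 1) = 1
    rw [min_eq_right (by linarith), max_eq_right zero_le_one]
  obtain ⟨Cr, hCr⟩ := IExt_smul hψ q.lipschitz hψ1 (M := ‖q‖ * (R + 2)) fun z hz => by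
    have : ‖z‖ ≤ R + 2 := (not_le.1 fun hh => hz (hψ0 z hh)).le
    calc ‖q z‖ ≤ ‖q‖ * ‖z‖ := q.le_opNorm z
      _ ≤ _ := by gcongr
  let ρ : V → V := fun z => z - ψ z • q z
  have hρ : LipschitzWith (1 + Cr) ρ := LipschitzWith.id.sub hCr
  -- the interpolation
  let φ : V → ℝ := fun z => max 0 (1 - ‖q z‖)
  have hφ : LipschitzWith (0 + 1 * ‖q‖₊) φ :=
    ((LipschitzWith.const 1).sub (lipschitzWith_one_norm.comp q.lipschitz)).const_max 0
  have hφ0 : ∀ z, 0 ≤ φ z := fun z => le_max_left _ _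
  have hφ1 : ∀ z, φ z ≤ 1 := fun z => max_le zero_le_one (by linarith [norm_nonneg (q z)])
  obtain ⟨Cs, hCs⟩ := IExt_smul hφ (hΔ.comp π.lipschitz)
    (fun z => by rw [abs_of_nonneg (hφ0 z)]; exact hφ1 z) fun z _ => hΔb _ (hπK z)
  let G : V → V := fun z => g₁ (ρ z) + φ z • Δ (π z)
  have hG : LipschitzWith (C₁ * (1 + Cr) + Cs) G := (hg₁.comp hρ).add hCs
  have hGK : ∀ z ∈ K, G z = g₂ z := fun z hz => by
    have e : q z = 0 := by rw [hq, hπid z hz, sub_self]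
    show g₁ (z - ψ z • q z) + max 0 (1 - ‖q z‖) • (g₂ (π z) - g₁ (π z)) = g₂ z
    rw [e, hπid z hz]; simp
  have hsmall : ∀ z, φ z • Δ (π z) ≠ 0 → ‖z‖ ≤ R + 1 := fun z hz => by
    have a : ‖π z‖ < R := not_le.1 fun hh => hz (by rw [hΔ0 _ (hπK z) hh, smul_zero])
    have b : ‖q z‖ < 1 := not_le.1 fun hh => hz (by
      have : φ z = 0 := max_eq_left (by linarith)
      rw [this, zero_smul])
    have e : ‖z‖ ≤ ‖π z‖ + ‖z - π z‖ := norm_le_insert' _ _
    rw [hq] at b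
    linarith
  let g : V → V := fun z => if z ∈ Q' then g₂ z else G z
  have hgP : ∀ z ∈ P', g z = G z := fun z hz => by
    by_cases h : z ∈ Q'
    · simp only [g, h, if_true]; exact (hGK z ⟨hz, h⟩).symm
    · simp only [g, h, if_false]
  have hgQ : ∀ z ∈ Q', g z = g₂ z := fun z hz => by simp only [g, hz, if_true]
  obtain ⟨K', hK'⟩ := lipschitzOn_union (P := P') (Q := Q') (g := g)
    (K := C₁ * (1 + Cr) + Cs + C₂)
    (LipschitzOnWith.of_dist_le_mul fun x hx y hy => by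
      rw [hgP x hx, hgP y hy]; exact (hG.weaken le_self_add).dist_le_mul x y)
    (LipschitzOnWith.of_dist_le_mul fun x hx y hy => by
      rw [hgQ x hx, hgQ y hy]; exact (hg₂.weaken le_add_self).dist_le_mul x y)
  -- the null set
  let ι : K × ℝ → V := fun p => p.1
  have hι : LipschitzWith (1 * 1) ι :=
    (LipschitzWith.subtype_val (fun v => v ∈ K)).comp LipschitzWith.prod_fst
  have ht : LipschitzWith 1 (fun p : K × ℝ => max 0 (min p.2 1)) :=
    (LipschitzWith.prod_snd.min_const 1).const_max 0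
  obtain ⟨Cn, hCn⟩ := IExt_smul ht (hΔ.comp hι)
    (fun z => by
      rw [abs_of_nonneg (le_max_left _ _)]
      exact max_le zero_le_one (min_le_right _ _)) fun z _ => hΔb _ z.1.2
  have hν := (hg₁.comp hι).add hCn
  refine ⟨g '' ((P' : Set V) ∪ Q'),
    range fun p : K × ℝ => (g₁ ∘ ι) p + max 0 (min p.2 1) • (Δ ∘ ι) p,
    almgren_of_lipschitzOn hK' (R := R + 2) ?_, ?_, ?_⟩
  · rintro z (hz | hz) hR
    · rw [hgP z hz]
      have a : φ z • Δ (π z) = 0 := by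
        by_contra hh
        linarith [hsmall z hh]
      have b : ρ z = z := by
        show z - ψ z • q z = z
        rw [hψ0 z hR, zero_smul, sub_zero]
      show g₁ (ρ z) + φ z • Δ (π z) = z
      rw [a, b, add_zero, id₁ z hz (by linarith)]
    · rw [hgQ z hz, id₂ z hz (by linarith)]
  · have a := hν.dimH_range_le
    rw [Real.dimH_univ_eq_finrank, Module.finrank_prod, Module.finrank_self] at a
    have b : ((finrank ℝ K + 1 : ℕ) : ℝ≥0∞) < ((d : ℝ≥0) : ℝ≥0∞) := by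
      rw [ENNReal.coe_natCast]
      exact_mod_cast (by omega : finrank ℝ K + 1 < d)
    have := hausdorffMeasure_of_dimH_lt (a.trans_lt b)
    rwa [NNReal.coe_natCast] at this
  · rintro _ ⟨z, hz | hz, rfl⟩
    · rw [hgP z hz]
      by_cases a : φ z • Δ (π z) = 0
      · obtain ⟨v, hv, e⟩ := im₁ (ρ z)
        refine Or.inl ⟨f v, ⟨v, Or.inl hv, rfl⟩, ?_⟩
        show _ = g₁ (ρ z) + φ z • Δ (π z)
        rw [a, add_zero, e]
      · refine Or.inr ⟨(⟨π z, hπK z⟩, φ z), ?_⟩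
        have b : ρ z = π z := by
          show z - ψ z • q z = π z
          rw [hψe z (hsmall z a), one_smul, hq, sub_sub_cancel]
        show g₁ (π z) + max 0 (min (φ z) 1) • Δ (π z) = g₁ (ρ z) + φ z • Δ (π z)
        rw [b, min_eq_left (hφ1 z), max_eq_right (hφ0 z)]
    · rw [hgQ z hz]
      obtain ⟨v, hv, e⟩ := im₂ z
      exact Or.inl ⟨f v, ⟨v, Or.inr hv, rfl⟩, e.symm⟩

end

end Pool.Agent.Lib.MP_b07a76_an
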