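import Pool.Agent.Lib.MP_b07a76_an.IStep

/-! Pairs of orthonormal frames with diagonal Gram matrix. -/

namespace Pool.Agent.Lib.MP_b07a76_an

noncomputable section
open Module Set Real

variable {V : Type} [NormedAddCommGroup V] [InnerProductSpace ℝ V] [FiniteDimensional ℝ V]
  {d : ℕ}

lemma eig_eq {S : V →ₗ[ℝ] V} (hS : S.IsSymmetric) (hn : finrank ℝ V = d)
    (b : OrthonormalBasis (Fin d) ℝ V) {x : Fin d → ℝ} (hx : Antitone x)
    (h : ∀ i, S (b i) = x i • b i) : hS.eigenvalues hn = x := by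
  have h1 : S.toMatrix b.toBasis b.toBasis = Matrix.diagonal x := by
    ext i j
    simp only [LinearMap.toMatrix_apply, OrthonormalBasis.coe_toBasis, h, map_smul,
      OrthonormalBasis.coe_toBasis_repr_apply, Finsupp.smul_apply, OrthonormalBasis.repr_self,
      Matrix.diagonal_apply, smul_eq_mul]
    by_cases hij : i = j
    · simp [hij]
    · simp [hij]
  have h2 : S.charpoly.roots = Multiset.map x Finset.univ.val := by
    rw [← LinearMap.charpoly_toMatrix _ b.toBasis, h1,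
      Matrix.charpoly_diagonal, Polynomial.roots_prod _ _ (by
        simp [Finset.prod_ne_zero_iff, Polynomial.X_sub_C_ne_zero])]
    simp
  have h3 := hS.sort_roots_charpoly_eq_eigenvalues hn
  rw [h2] at h3
  simp only [Fin.univ_val_map, Multiset.map_coe, List.map_ofFn, Multiset.coe_sort] at h3
  rw [List.mergeSort_of_pairwise] at h3
  · exact (List.ofFn_inj.1 h3).symm
  · simp_rw [decide_eq_true_eq, ← List.sortedGE_iff_pairwise]
    exact hx.sortedGE_ofFn

/-- Orthonormal frames of `P` and `Q` with diagonal Gram matrix `c`. -/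
def Fr (P Q : Submodule ℝ V) (e f : Fin d → V) (c : Fin d → ℝ) : Prop :=
  Orthonormal ℝ e ∧ Orthonormal ℝ f ∧ (∀ k, e k ∈ P) ∧ (∀ k, f k ∈ Q) ∧
    ∀ k l, inner ℝ (e k) (f l) = if k = l then c k else 0

variable {P Q : Submodule ℝ V} {e f : Fin d → V} {c : Fin d → ℝ}

omit [FiniteDimensional ℝ V] in
lemma Fr.symm (h : Fr P Q e f c) : Fr Q P f e c := by
  refine ⟨h.2.1, h.1, h.2.2.2.1, h.2.2.1, fun k l => ?_⟩
  rw [real_inner_comm, h.2.2.2.2]
  by_cases hkl : k = l
  · simp [hkl]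
  · simp [hkl, Ne.symm hkl]

lemma Fr.right (h : Fr P Q e f c) (hQ : finrank ℝ Q = d) {v : V} (hv : v ∈ Q) (k : Fin d) :
    inner ℝ (e k) v = c k * inner ℝ (f k) v := by
  conv_lhs => rw [eq_sum_of_mem hQ h.2.1 h.2.2.2.1 hv]
  simp only [inner_sum, inner_smul_right, h.2.2.2.2, mul_ite, mul_zero, Finset.sum_ite_eq,
    Finset.mem_univ, if_true]
  ring

lemma Fr.left (h : Fr P Q e f c) (hP : finrank ℝ P = d) {v : V} (hv : v ∈ P) (k : Fin d) :
    inner ℝ (f k) v = c k * inner ℝ (e k) v := h.symm.right hP hv k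

lemma Fr.inner_eq (h : Fr P Q e f c) (hP : finrank ℝ P = d) (hQ : finrank ℝ Q = d) {u v : V}
    (hu : u ∈ P) (hv : v ∈ Q) :
    inner ℝ u v = ∑ k, c k * (inner ℝ (e k) u * inner ℝ (f k) v) := by
  conv_lhs => rw [eq_sum_of_mem hP h.1 h.2.2.1 hu]
  simp only [sum_inner, inner_smul_left, conj_trivial, h.right hQ hv]
  exact Finset.sum_congr rfl fun k _ => by ring

omit [FiniteDimensional ℝ V] in
lemma diag_bound (he : Orthonormal ℝ e) (hf : Orthonormal ℝ f) {κ : ℝ} (hκ : 0 ≤ κ)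
    (hc : ∀ k, |c k| ≤ κ) (u v : V) :
    -(κ * (‖u‖ ^ 2 + ‖v‖ ^ 2) / 2) ≤ ∑ k, c k * (inner ℝ (e k) u * inner ℝ (f k) v) := by
  have h1 := he.sum_inner_products_le (s := Finset.univ) u
  have h2 := hf.sum_inner_products_le (s := Finset.univ) v
  simp only [Real.norm_eq_abs, sq_abs] at h1 h2
  have h3 : ∑ k, -(κ * (inner ℝ (e k) u ^ 2 + inner ℝ (f k) v ^ 2) / 2)
      ≤ ∑ k, c k * (inner ℝ (e k) u * inner ℝ (f k) v) := by
    refine Finset.sum_le_sum fun k _ => ?_
    have h4 := abs_le.1 (hc k)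
    nlinarith [mul_nonneg (sub_nonneg.2 h4.2) (sq_nonneg (inner ℝ (e k) u - inner ℝ (f k) v)),
      mul_nonneg (sub_nonneg.2 h4.1) (sq_nonneg (inner ℝ (e k) u + inner ℝ (f k) v))]
  refine le_trans ?_ h3
  rw [Finset.sum_neg_distrib, ← Finset.sum_div, ← Finset.mul_sum, Finset.sum_add_distrib]
  have := mul_le_mul_of_nonneg_left (add_le_add h1 h2) hκ
  linarith

lemma Fr.hasAngles (h : Fr P Q e f c) (hP : finrank ℝ P = d) (hQ : finrank ℝ Q = d)
    {a : Fin d → ℝ} (hm : Monotone a) (ha : ∀ k, a k ∈ Icc 0 (π / 2))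
    (hc : ∀ k, |c k| = cos (a k)) : HasAngles P Q a := by
  classical
  set T := Q.orthogonalProjectionOnto.toLinearMap ∘ₗ P.subtype with hT
  let e' : Fin d → P := fun k => ⟨e k, h.2.2.1 k⟩
  have he' : Orthonormal ℝ e' := P.subtypeₗᵢ.orthonormal_comp_iff.1 h.1
  obtain ⟨b, hb⟩ := Orthonormal.exists_orthonormalBasis_extension_of_card_eq (v := e') (s := univ)
    (by simpa using hP) (he'.comp _ Subtype.val_injective)
  have hb' : ∀ k, b k = e' k := fun k => hb k trivial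
  have hcos : ∀ k, 0 ≤ cos (a k) := fun k =>
    cos_nonneg_of_mem_Icc ⟨by linarith [(ha k).1, pi_pos], (ha k).2⟩
  have h1 : ∀ k, T (b k) = c k • (⟨f k, h.2.2.2.1 k⟩ : Q) := by
    intro k
    refine ext_inner_right ℝ fun v => ?_
    have h3 : inner ℝ (T (b k)) v = inner ℝ (b k : V) (v : V) :=
      Q.inner_orthogonalProjectionOnto_eq_of_mem_right v (b k)
    rw [h3, hb', inner_smul_left]
    exact h.right hQ v.2 k
  have h2 : ∀ k, (LinearMap.adjoint T ∘ₗ T) (b k) = cos (a k) ^ 2 • b k := by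
    intro k
    refine ext_inner_right ℝ fun u => ?_
    have h3 : inner ℝ (T u) (⟨f k, h.2.2.2.1 k⟩ : Q) = inner ℝ (u : V) (f k) :=
      Q.inner_orthogonalProjectionOnto_eq_of_mem_right ⟨f k, h.2.2.2.1 k⟩ u
    rw [LinearMap.comp_apply, LinearMap.adjoint_inner_left, h1, inner_smul_left,
      real_inner_comm, h3, real_inner_comm, h.left hP u.2, inner_smul_left, hb', ← hc, sq_abs]
    simp only [conj_trivial, e', Submodule.coe_inner]
    ring
  have h4 := eig_eq T.isSymmetric_adjoint_comp_self hP b (x := fun k => cos (a k) ^ 2)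
    (fun k l hkl => pow_le_pow_left₀ (hcos l) (cos_le_cos_of_nonneg_of_le_pi (ha k).1
      (by linarith [(ha l).2, pi_pos]) (hm hkl)) 2) h2
  intro k
  rw [T.singularValues_fin hP k, h4, sqrt_sq (hcos k)]

lemma Fr.zero (h : Fr P Q e f c) (hP : finrank ℝ P = d) (hQ : finrank ℝ Q = d) {k : Fin d}
    (hk : |c k| < 1) {v : V} (h1 : v ∈ P) (h2 : v ∈ Q) : inner ℝ (e k) v = 0 := by
  have h3 := h.right hQ h2 k
  rw [h.left hP h1 k] at h3
  have h4 : c k ^ 2 < 1 := (sq_lt_one_iff_abs_lt_one _).2 hk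
  have h5 : (1 - c k ^ 2) * inner ℝ (e k) v = 0 := by linarith
  exact (mul_eq_zero.1 h5).resolve_left (by linarith)

lemma Fr.ne (h : Fr P Q e f c) (hP : finrank ℝ P = d) (hQ : finrank ℝ Q = d) {k : Fin d}
    (hk : |c k| < 1) : P ≠ Q := by
  rintro rfl
  have := h.zero hP hQ hk (h.2.2.1 k) (h.2.2.1 k)
  rw [real_inner_self_eq_norm_sq, h.1.1 k] at this
  norm_num at this

lemma Fr.inf_two (h : Fr P Q e f c) (hP : finrank ℝ P = d) (hQ : finrank ℝ Q = d) {k l : Fin d}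
    (hkl : k ≠ l) (hk : |c k| < 1) (hl : |c l| < 1) :
    finrank ℝ (P ⊓ Q : Submodule ℝ V) + 2 ≤ d := by
  classical
  let s : Finset V := ((Finset.univ.erase k).erase l).image e
  have h1 : P ⊓ Q ≤ Submodule.span ℝ (s : Set V) := by
    intro v hv
    rw [eq_sum_of_mem hP h.1 h.2.2.1 hv.1]
    refine Submodule.sum_mem _ fun j _ => ?_
    by_cases hj : j = k
    · rw [hj, h.zero hP hQ hk hv.1 hv.2, zero_smul]; exact Submodule.zero_mem _
    by_cases hj' : j = l
    · rw [hj', h.zero hP hQ hl hv.1 hv.2, zero_smul]; exact Submodule.zero_mem _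
    exact Submodule.smul_mem _ _ (Submodule.subset_span
      (Finset.mem_coe.2 (Finset.mem_image_of_mem _ (by simp [hj, hj']))))
  have h2 := (Submodule.finrank_mono h1).trans (finrank_span_finset_le_card s)
  have h3 : s.card ≤ ((Finset.univ.erase k).erase l).card := Finset.card_image_le
  rw [Finset.card_erase_of_mem (by simp [hkl.symm]), Finset.card_erase_of_mem (by simp),
    Finset.card_univ, Fintype.card_fin] at h3
  have h4 : (k : ℕ) ≠ l := fun h => hkl (Fin.ext h)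
  have := k.2
  have := l.2
  omega

lemma Fr.inf_one (h : Fr P Q e f c) (hP : finrank ℝ P = d) (hQ : finrank ℝ Q = d) {k : Fin d}
    (hk : |c k| < 1) (hl : ∀ l, l ≠ k → |c l| = 1) :
    finrank ℝ (P ⊓ Q : Submodule ℝ V) + 1 = d := by
  have h1 := finrank_inf_lt hP hQ (h.ne hP hQ hk)
  have h2 : ∀ l, l ≠ k → e l ∈ Q := by
    intro l hlk
    have h3 : ‖e l - c l • f l‖ ^ 2 = 0 := by
      rw [norm_sub_sq_real, inner_smul_right, h.2.2.2.2, if_pos rfl, norm_smul, h.1.1, h.2.1.1,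
        Real.norm_eq_abs, hl l hlk, ← sq, ← sq_abs (c l), hl l hlk]
      norm_num
    rw [sq_eq_zero_iff, norm_eq_zero, sub_eq_zero] at h3
    rw [h3]
    exact Q.smul_mem _ (h.2.2.2.1 l)
  let v : {l // l ≠ k} → (P ⊓ Q : Submodule ℝ V) := fun l => ⟨e l, h.2.2.1 l, h2 l l.2⟩
  have hv : Orthonormal ℝ v :=
    (P ⊓ Q).subtypeₗᵢ.orthonormal_comp_iff.1 (h.1.comp _ Subtype.val_injective)
  have h4 := hv.linearIndependent.fintype_card_le_finrank
  simp only [ne_eq, Fintype.card_subtype_compl, Fintype.card_fin, Fintype.card_unique] at h4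
  omega

omit [FiniteDimensional ℝ V] in
lemma psd_two {x y : V} (hx : ‖x‖ = 1) (hy : ‖y‖ = 1) {t σ : ℝ} (ht : inner ℝ x y = t)
    (h1 : |t| < 1) (h2 : |t + σ| ≤ 1) (v : V) :
    0 ≤ ‖v‖ ^ 2 + 2 * σ * (inner ℝ ((1 - t ^ 2)⁻¹ • (x - t • y)) v
      * inner ℝ ((1 - t ^ 2)⁻¹ • (y - t • x)) v) := by
  have h3 : 0 < 1 - t ^ 2 := sub_pos.2 ((sq_lt_one_iff_abs_lt_one _).2 h1)
  set a := inner ℝ ((1 - t ^ 2)⁻¹ • (x - t • y)) v with ha
  set b := inner ℝ ((1 - t ^ 2)⁻¹ • (y - t • x)) v with hb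
  simp only [inner_smul_left, inner_sub_left, conj_trivial] at ha hb
  have e1 : inner ℝ x v = a + t * b := by rw [ha, hb]; field_simp; ring
  have e2 : inner ℝ y v = b + t * a := by rw [ha, hb]; field_simp; ring
  have e3 : ‖v - (a • x + b • y)‖ ^ 2 = ‖v‖ ^ 2 - (a ^ 2 + b ^ 2 + 2 * t * a * b) := by
    rw [norm_sub_sq_real, norm_add_sq_real, norm_smul, norm_smul, hx, hy, inner_add_right,
      inner_smul_right, inner_smul_right, inner_smul_left, inner_smul_right, real_inner_comm x v,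
      real_inner_comm y v, ht, e1, e2]
    simp only [Real.norm_eq_abs, mul_one, sq_abs, conj_trivial]
    ring
  have h4 := abs_le.1 h2
  nlinarith [sq_nonneg ‖v - (a • x + b • y)‖, mul_nonneg (sub_nonneg.2 h4.2) (sq_nonneg (a - b)),
    mul_nonneg (sub_nonneg.2 h4.1) (sq_nonneg (a + b))]

end

end Pool.Agent.Lib.MP_b07a76_an
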