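import Pool.Agent.Lib.MP_b07a76_an.IDefs

/-! Maps that are nonzero on singular homology. -/

namespace Pool.Agent.Lib.MP_b07a76_an

noncomputable section
open MeasureTheory Module Metric Set Filter
open scoped NNReal ENNReal Topology

variable {V W : Type} [TopologicalSpace V] [TopologicalSpace W] {k : ℕ}
  {T T' : Type} [TopologicalSpace T] [TopologicalSpace T']

section
open CategoryTheory Limits AlgebraicTopology Simplicial

/-- The singular chain complex. -/
abbrev IHom_C (A : TopCat.{0}) : ChainComplex (ModuleCat.{0} ℤ) ℕ :=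
  (TopCat.toSSet.obj A).chainComplex ZZ

/-- The chain map of a continuous map. -/
abbrev IHom_F {A B : TopCat.{0}} (f : A ⟶ B) : IHom_C A ⟶ IHom_C B :=
  SSet.chainComplexMap (TopCat.toSSet.map f) ZZ

/-- The map on homology. -/
abbrev IHom_H (k : ℕ) {A B : TopCat.{0}} (f : A ⟶ B) :=
  ((singularHomologyFunctor (ModuleCat.{0} ℤ) k).obj ZZ).map f

lemma IHom_F_comp {A B D : TopCat.{0}} (f : A ⟶ B) (g : B ⟶ D) :
    IHom_F (f ≫ g) = IHom_F f ≫ IHom_F g :=
  ((singularChainComplexFunctor (ModuleCat.{0} ℤ)).obj ZZ).map_comp f g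

lemma IHom_F_inj {A B : TopCat.{0}} (f : A ⟶ B) (hf : Function.Injective f) (j : ℕ) :
    Function.Injective ((IHom_F f).f j) := by
  have hm : Mono f := (TopCat.mono_iff_injective _).2 hf
  have hF : Mono (IHom_F f) :=
    inferInstanceAs (Mono (((singularChainComplexFunctor (ModuleCat.{0} ℤ)).obj ZZ).map f))
  have hFj : Mono ((IHom_F f).f j) :=
    inferInstanceAs (Mono ((HomologicalComplex.eval _ _ j).map (IHom_F f)))
  exact (ModuleCat.mono_iff_injective _).1 hFj

/-- The class of a cycle vanishes iff it is a boundary. -/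
lemma IHom_pi_zero (L : ChainComplex (ModuleCat.{0} ℤ) ℕ) (k : ℕ) (x : L.cycles k) :
    L.homologyπ k x = 0 ↔ ∃ c : L.X (k + 1), L.d (k + 1) k c = L.iCycles k x := by
  have hinj : Function.Injective (L.iCycles k) := (ModuleCat.mono_iff_injective _).1 inferInstance
  have e : ∀ c : L.X (k + 1), L.iCycles k (L.toCycles (k + 1) k c) = L.d (k + 1) k c := by
    intro c
    rw [← ConcreteCategory.comp_apply, HomologicalComplex.toCycles_i]
  constructor
  · intro hx
    have hex := ShortComplex.exact_of_g_is_cokernel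
      (ShortComplex.mk (L.toCycles (k + 1) k) (L.homologyπ k) (L.toCycles_comp_homologyπ _ _))
      (L.homologyIsCokernel (k + 1) k (by simp))
    obtain ⟨c, hc⟩ := (ShortComplex.moduleCat_exact_iff _).1 hex x hx
    refine ⟨c, ?_⟩
    rw [← e]
    exact congrArg _ hc
  · rintro ⟨c, hc⟩
    have : L.toCycles (k + 1) k c = x := hinj (by rw [e, hc])
    rw [← this, ← ConcreteCategory.comp_apply, HomologicalComplex.toCycles_comp_homologyπ]
    rfl

/-- The image of the class of the cycle `x` vanishes iff the image of `x` is a boundary. -/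
lemma IHom_map_zero {A B : TopCat.{0}} (f : A ⟶ B) (k : ℕ) (x : (IHom_C A).cycles k) :
    IHom_H k f ((IHom_C A).homologyπ k x) = 0 ↔
      ∃ c : (IHom_C B).X (k + 1),
        (IHom_C B).d (k + 1) k c = (IHom_F f).f k ((IHom_C A).iCycles k x) := by
  have e1 : IHom_H k f ((IHom_C A).homologyπ k x)
      = (IHom_C B).homologyπ k (HomologicalComplex.cyclesMap (IHom_F f) k x) := by
    rw [← ConcreteCategory.comp_apply, ← HomologicalComplex.homologyπ_naturality]
    rfl
  have e2 : (IHom_C B).iCycles k (HomologicalComplex.cyclesMap (IHom_F f) k x)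
      = (IHom_F f).f k ((IHom_C A).iCycles k x) := by
    rw [← ConcreteCategory.comp_apply, HomologicalComplex.cyclesMap_i]
    rfl
  rw [e1, ← e2]
  exact IHom_pi_zero _ _ _

/-- The inclusion of a subset. -/
abbrev IHom_inc {A B : Set V} (h : A ⊆ B) : TopCat.of A ⟶ TopCat.of B :=
  TopCat.ofHom ⟨Set.inclusion h, continuous_inclusion h⟩

/-- A directed family of images containing jointly epimorphic maps is everything. -/
lemma IHom_gen {R : Type} [Ring R] {M N : ModuleCat.{0} R} {I J : Type} [Nonempty J]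
    (ι : I → (N ⟶ M)) (hext : ∀ (Q : ModuleCat.{0} R) (f : M ⟶ Q), (∀ i, ι i ≫ f = 0) → f = 0)
    (D : J → ModuleCat.{0} R) (F : ∀ j, D j ⟶ M)
    (hdir : ∀ j j', ∃ j'', (∀ c, ∃ c', F j'' c' = F j c) ∧ ∀ c, ∃ c', F j'' c' = F j' c)
    (hι : ∀ i, ∃ j, ∃ g : N ⟶ D j, g ≫ F j = ι i) (c : M) : ∃ j c', F j c' = c := by
  let S : Submodule R M :=
    { carrier := {c | ∃ j c', F j c' = c}
      zero_mem' := ⟨Classical.arbitrary J, 0, map_zero _⟩
      add_mem' := by
        rintro _ _ ⟨j, c1, rfl⟩ ⟨j', c2, rfl⟩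
        obtain ⟨j'', h1, h2⟩ := hdir j j'
        obtain ⟨d1, h1⟩ := h1 c1
        obtain ⟨d2, h2⟩ := h2 c2
        exact ⟨j'', d1 + d2, by rw [map_add, h1, h2]⟩
      smul_mem' := by
        rintro a _ ⟨j, c1, rfl⟩
        exact ⟨j, a • c1, map_smul _ _ _⟩ }
  have hq := hext (ModuleCat.of R (M ⧸ S)) (ModuleCat.ofHom S.mkQ) (by
    intro i
    obtain ⟨j, g, e⟩ := hι i
    apply ModuleCat.hom_ext
    apply LinearMap.ext
    intro a
    change S.mkQ (ι i a) = 0
    rw [Submodule.mkQ_apply, Submodule.Quotient.mk_eq_zero]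
    refine ⟨j, g a, ?_⟩
    rw [← e]
    rfl)
  have : S.mkQ c = 0 := by
    have := congrArg (fun g => ModuleCat.Hom.hom g c) hq
    simpa using this
  rw [Submodule.mkQ_apply, Submodule.Quotient.mk_eq_zero] at this
  exact this

/-- Chains have compact support. -/
lemma IHom_supp {A X : Set V} (hA : A ⊆ X) (j : ℕ) (c : (IHom_C (TopCat.of X)).X j) :
    ∃ (K : Set V) (_ : IsCompact K) (hK : K ⊆ X) (c' : (IHom_C (TopCat.of ↥(A ∪ K))).X j),
      (IHom_F (IHom_inc (union_subset hA hK))).f j c' = c := by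
  have mono : ∀ (K K' : Set V) (hK : K ⊆ X) (hK' : K' ⊆ X) (_ : K ⊆ K')
      (c' : (IHom_C (TopCat.of ↥(A ∪ K))).X j), ∃ c'' : (IHom_C (TopCat.of ↥(A ∪ K'))).X j,
        (IHom_F (IHom_inc (union_subset hA hK'))).f j c''
          = (IHom_F (IHom_inc (union_subset hA hK))).f j c' := by
    intro K K' hK hK' h c'
    refine ⟨(IHom_F (IHom_inc (union_subset_union_right A h))).f j c', ?_⟩
    rw [← ConcreteCategory.comp_apply, ← HomologicalComplex.comp_f, ← IHom_F_comp]
    rfl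
  have : Nonempty {K : Set V // IsCompact K ∧ K ⊆ X} := ⟨⟨∅, isCompact_empty, empty_subset _⟩⟩
  obtain ⟨K, c', h⟩ := IHom_gen (J := {K : Set V // IsCompact K ∧ K ⊆ X})
    (fun τ : (TopCat.toSSet.obj (TopCat.of X)) _⦋j⦌ =>
      (TopCat.toSSet.obj (TopCat.of X)).ιChainComplex (R := ZZ) τ)
    (fun Q f hf => SSet.chainComplex_hom_ext fun τ => by rw [hf τ, comp_zero])
    (fun K => (IHom_C (TopCat.of ↥(A ∪ K.1))).X j)
    (fun K => (IHom_F (IHom_inc (union_subset hA K.2.2))).f j)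
    (fun K K' => ⟨⟨K.1 ∪ K'.1, K.2.1.union K'.2.1, union_subset K.2.2 K'.2.2⟩,
      mono _ _ K.2.2 (union_subset K.2.2 K'.2.2) subset_union_left,
      mono _ _ K'.2.2 (union_subset K.2.2 K'.2.2) subset_union_right⟩)
    (by
      intro τ
      let t := TopCat.toSSetObjEquiv (TopCat.of X) _ τ
      have hK : IsCompact (range fun y => (t y : V)) :=
        isCompact_range (continuous_subtype_val.comp t.continuous)
      have hKX : (range fun y => (t y : V)) ⊆ X := by
        rintro _ ⟨y, rfl⟩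
        exact (t y).2
      let t' : C(stdSimplex ℝ (Fin (j + 1)), ↥(A ∪ range fun y => (t y : V))) :=
        ⟨fun y => ⟨t y, Or.inr ⟨y, rfl⟩⟩, (continuous_subtype_val.comp t.continuous).subtype_mk _⟩
      let τ' : (TopCat.toSSet.obj (TopCat.of ↥(A ∪ range fun y => (t y : V)))) _⦋j⦌ :=
        (TopCat.toSSetObjEquiv (TopCat.of ↥(A ∪ range fun y => (t y : V)))
          (Opposite.op ⦋j⦌)).symm t'
      refine ⟨⟨_, hK, hKX⟩, (TopCat.toSSet.obj _).ιChainComplex (R := ZZ) τ', ?_⟩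
      rw [SSet.ι_chainComplexMap_f]
      congr 1) c
  exact ⟨K.1, K.2.1, K.2.2, c', h⟩

/-- The map into a subset. -/
abbrev IHom_to {σ : T → V} {Y : Set V} (hc : Continuous σ) (h : ∀ x, σ x ∈ Y) :
    TopCat.of T ⟶ TopCat.of Y :=
  TopCat.ofHom ⟨fun x => (⟨σ x, h x⟩ : Y), hc.subtype_mk h⟩

lemma IHom_homotopy {σ σ' : T → V} {Y : Set V} (H : unitInterval × T → V) (hH : Continuous H)
    (hY : ∀ z, H z ∈ Y) (h0 : ∀ x, H (0, x) = σ x) (h1 : ∀ x, H (1, x) = σ' x)
    (hc : Continuous σ) (h : ∀ x, σ x ∈ Y) (hc' : Continuous σ') (h' : ∀ x, σ' x ∈ Y) :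
    IHom_H k (IHom_to hc h) = IHom_H k (IHom_to hc' h') := by
  let M : TopCat.Homotopy (IHom_to hc h) (IHom_to hc' h') :=
    { toFun := fun z => ⟨H z, hY z⟩
      continuous_toFun := hH.subtype_mk _
      map_zero_left := fun x => Subtype.ext (h0 x)
      map_one_left := fun x => Subtype.ext (h1 x) }
  exact M.congr_homologyMap_singularChainComplexFunctor ZZ k

end

lemma nonzeroIn_iff_NZ {V : Type} [NormedAddCommGroup V] {S X : Set V} :
    NonzeroIn k S X ↔ NZ k (Subtype.val : S → V) X := by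
  constructor
  · rintro ⟨h, hne⟩
    exact ⟨continuous_subtype_val, fun x => h x.2, hne⟩
  · rintro ⟨_, h, hne⟩
    exact ⟨fun x hx => h ⟨x, hx⟩, hne⟩

/-- Sketch: `TopCat.Homotopy.congr_homologyMap_singularChainComplexFunctor`, as in `not_nonzeroIn`. -/
lemma NZ.homotopy {σ σ' : T → V} {Y : Set V} (H : unitInterval × T → V) (hH : Continuous H)
    (hY : ∀ z, H z ∈ Y) (h0 : ∀ x, H (0, x) = σ x) (h1 : ∀ x, H (1, x) = σ' x) (h : NZ k σ Y) :
    NZ k σ' Y := by
  obtain ⟨hc, hm, hne⟩ := h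
  have hc' : Continuous σ' := by
    have : σ' = fun x => H (1, x) := funext fun x => (h1 x).symm
    rw [this]
    fun_prop
  have hm' : ∀ x, σ' x ∈ Y := fun x => h1 x ▸ hY _
  refine ⟨hc', hm', fun h0' => hne ?_⟩
  exact (IHom_homotopy H hH hY h0 h1 hc hm hc' hm').trans h0'

lemma NZ.of_comp_right {σ : T → V} {Y : Set V} (hc : Continuous σ) (hY : ∀ x, σ x ∈ Y)
    {ρ : T' → T} (hρ : Continuous ρ) (h : NZ k (σ ∘ ρ) Y) : NZ k σ Y := by
  obtain ⟨hc', hm, hne⟩ := h
  refine ⟨hc, hY, fun h0 => hne ?_⟩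
  have e : IHom_to hc' hm = CategoryTheory.CategoryStruct.comp
      (TopCat.ofHom ⟨ρ, hρ⟩ : TopCat.of T' ⟶ TopCat.of T) (IHom_to hc hY) := rfl
  change IHom_H k (IHom_to hc' hm) = 0
  change IHom_H k (IHom_to hc hY) = 0 at h0
  rw [e, IHom_H, CategoryTheory.Functor.map_comp]
  rw [IHom_H] at h0
  rw [h0, CategoryTheory.Limits.comp_zero]

lemma NZ.of_comp_left {σ : T → V} {X : Set V} {Y : Set W} (hc : Continuous σ) (hX : ∀ x, σ x ∈ X)
    {g : V → W} (hg : ContinuousOn g X) (hXY : MapsTo g X Y) (h : NZ k (g ∘ σ) Y) : NZ k σ X := by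
  obtain ⟨hc', hm, hne⟩ := h
  refine ⟨hc, hX, fun h0 => hne ?_⟩
  have e : IHom_to hc' hm = CategoryTheory.CategoryStruct.comp (IHom_to hc hX)
      (TopCat.ofHom ⟨hXY.restrict, hg.mapsToRestrict hXY⟩ : TopCat.of X ⟶ TopCat.of Y) := rfl
  change IHom_H k (IHom_to hc' hm) = 0
  change IHom_H k (IHom_to hc hX) = 0 at h0
  rw [e, IHom_H, CategoryTheory.Functor.map_comp]
  rw [IHom_H] at h0
  rw [h0, CategoryTheory.Limits.zero_comp]

/-- Null-homologies have compact support. Sketch. Suppose `H_k σ = 0` into `X`. Take a cycle `z` of `T` whose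
class is not killed by `σ'`. Then `σ z = ∂ c` for a chain `c` of `X`. Every chain of `X` comes from the chain
group of `range σ ∪ K` for some compact `K ⊆ X` (these ranges form a directed family of submodules containing
all `ιChainComplex τ`, take `K = range τ`; use `SSet.chainComplex_hom_ext` for the quotient map). The chain map of
the inclusion `range σ ∪ K → X` is mono (as in `zz_d`), so the class of `z` dies in `range σ ∪ K`, hence under
`g ∘ σ`, which is homotopic to `σ'`. -/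
theorem NZ.of_compact {σ : T → V} {X : Set V} (hc : Continuous σ) (hX : ∀ x, σ x ∈ X)
    {σ' : T → W} {Y : Set W} (h : NZ k σ' Y)
    (hK : ∀ K, IsCompact K → K ⊆ X → ∃ (g : V → W) (H : unitInterval × T → W),
      ContinuousOn g (range σ ∪ K) ∧ MapsTo g (range σ ∪ K) Y ∧ Continuous H ∧ (∀ z, H z ∈ Y) ∧
      (∀ x, H (0, x) = σ' x) ∧ ∀ x, H (1, x) = g (σ x)) : NZ k σ X := by
  obtain ⟨hc', hm', hne⟩ := h
  refine ⟨hc, hX, fun h0 => hne ?_⟩
  change IHom_H k (IHom_to hc' hm') = 0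
  change IHom_H k (IHom_to hc hX) = 0 at h0
  apply ModuleCat.hom_ext
  apply LinearMap.ext
  intro y
  obtain ⟨x, rfl⟩ : ∃ x, (IHom_C (TopCat.of T)).homologyπ k x = y :=
    (ModuleCat.epi_iff_surjective ((IHom_C (TopCat.of T)).homologyπ k)).1 inferInstance y
  have hA : range σ ⊆ X := by
    rintro _ ⟨y, rfl⟩
    exact hX y
  obtain ⟨c, hcx⟩ := (IHom_map_zero (IHom_to hc hX) k x).1 (by rw [h0]; rfl)
  obtain ⟨K, hKc, hKX, c', rfl⟩ := IHom_supp hA (k + 1) c
  obtain ⟨g, H, hg, hgY, hH, hHY, hH0, hH1⟩ := hK K hKc hKX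
  have hm : ∀ y, σ y ∈ range σ ∪ K := fun y => Or.inl ⟨y, rfl⟩
  have e0 : IHom_to hc hX = CategoryTheory.CategoryStruct.comp (IHom_to hc hm)
      (IHom_inc (union_subset hA hKX)) := rfl
  have h1 : IHom_H k (IHom_to hc hm) ((IHom_C (TopCat.of T)).homologyπ k x) = 0 := by
    rw [IHom_map_zero]
    refine ⟨c', IHom_F_inj (IHom_inc (union_subset hA hKX)) 
      (inclusion_injective (union_subset hA hKX)) k ?_⟩
    rw [← CategoryTheory.ConcreteCategory.comp_apply, ← (IHom_F _).comm,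
      CategoryTheory.ConcreteCategory.comp_apply, hcx, e0, IHom_F_comp]
    rfl
  have hgc : Continuous (g ∘ σ) := hg.comp_continuous hc hm
  have hgm : ∀ y, (g ∘ σ) y ∈ Y := fun y => hgY (hm y)
  have e1 : IHom_H k (IHom_to hc' hm') = IHom_H k (IHom_to hgc hgm) :=
    IHom_homotopy H hH hHY hH0 hH1 hc' hm' hgc hgm
  have e2 : IHom_to hgc hgm = CategoryTheory.CategoryStruct.comp (IHom_to hc hm)
      (TopCat.ofHom ⟨hgY.restrict, hg.mapsToRestrict hgY⟩ :
        TopCat.of ↥(range σ ∪ K) ⟶ TopCat.of Y) := rfl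
  change IHom_H k (IHom_to hc' hm') ((IHom_C (TopCat.of T)).homologyπ k x) = 0
  rw [e1, e2, IHom_H, CategoryTheory.Functor.map_comp, CategoryTheory.ConcreteCategory.comp_apply]
  rw [IHom_H] at h1
  rw [h1, map_zero]

end

end Pool.Agent.Lib.MP_b07a76_an
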