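import Pool.Agent.Lib.MP_b07a76_an.IAng

/-! The interpolation theorems. -/

namespace Pool.Agent.Lib.MP_b07a76_an

noncomputable section
open Module Set Real MeasureTheory
open scoped NNReal

variable {V : Type} [NormedAddCommGroup V] [InnerProductSpace ℝ V] [FiniteDimensional ℝ V]
  {d m : ℕ} {α γ : Fin m → Fin m → Fin d → ℝ} {P : Fin m → Submodule ℝ V}

lemma cos_lt_one' {x : ℝ} (h : x ∈ Icc 0 (π / 2)) (h0 : x ≠ 0) : cos x < 1 := by
  have := cos_lt_cos_of_nonneg_of_le_pi le_rfl (by linarith [h.2, pi_pos])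
    (lt_of_le_of_ne h.1 h0.symm)
  rwa [cos_zero] at this

lemma cos_nonneg' {x : ℝ} (h : x ∈ Icc 0 (π / 2)) : 0 ≤ cos x :=
  cos_nonneg_of_mem_Icc ⟨by linarith [h.1, pi_pos], h.2⟩

lemma Sub.of_realises (hP : Realises P γ)
    (hα : ∀ i j, i < j → Monotone (α i j) ∧ ∀ k, α i j k ∈ Icc 0 (π / 2))
    (hγ : ∀ i j, i < j → Monotone (γ i j) ∧ ∀ k, γ i j k ∈ Icc 0 (π / 2))
    (hle : ∀ i j, i < j → ∀ k, α i j k ≤ γ i j k) : Sub α P := by
  refine ⟨fun i j k => cos (γ i j k), ⟨hP.1, fun i j hij => ?_⟩, fun i j hij k => ?_⟩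
  · exact exists_principal (hP.1 i) (hP.1 j) (hP.2 i j hij)
  · rw [abs_of_nonneg (cos_nonneg' ((hγ i j hij).2 k))]
    exact cos_le_cos_of_nonneg_of_le_pi ((hα i j hij).2 k).1
      (by linarith [((hγ i j hij).2 k).2, pi_pos]) (hle i j hij k)

omit [FiniteDimensional ℝ V] in
lemma Sub.rank (h : Sub α P) (i : Fin m) : finrank ℝ (P i) = d := h.choose_spec.1.1 i

lemma Sub.ne (h : Sub α P)
    (hα : ∀ i j, i < j → Monotone (α i j) ∧ ∀ k, α i j k ∈ Icc 0 (π / 2))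
    (hne : ∀ i j, i < j → α i j ≠ 0) : Pairwise fun i j => P i ≠ P j := by
  obtain ⟨c, hc, hc'⟩ := h
  have key : ∀ i j, i < j → P i ≠ P j := by
    intro i j hij
    obtain ⟨k, hk⟩ := Function.ne_iff.1 (hne i j hij)
    obtain ⟨e, f, hf⟩ := hc.2 i j hij
    exact hf.ne (hc.1 i) (hc.1 j) ((hc' i j hij k).trans_lt (cos_lt_one' ((hα i j hij).2 k) hk))
  intro i j hij
  rcases hij.lt_or_gt with h | h
  · exact key i j h
  · exact (key j i h).symm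

variable [MeasurableSpace V] [BorelSpace V]

theorem top_interp (hd : 2 ≤ d) (hm : 2 ≤ m) (hV : finrank ℝ V = d * m)
    (hα : MinimalAngle (V := V) (TopCompetitor d) α) (hγ : IsAngleDatum V γ)
    (hle : ∀ i j, i < j → ∀ k, α i j k ≤ γ i j k) (hne : ∀ i j, i < j → α i j ≠ 0)
    (hdom : ∀ i j, i < j → ∀ k, 2 * (m - 2 : ℝ) * cos (α i j k) < 1) :
    MinimalAngle (V := V) (TopCompetitor d) γ := by
  refine ⟨hγ, fun P hP => ?_⟩
  refine interp hm hV hα.1.1 hdom (fun P => IsMinimal d (TopCompetitor d) (⋃ i, (P i : Set V)))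
    hα.2 ?_ P (Sub.of_realises hP hα.1.1 hγ.1 hle)
  intro P p q σ₀ σ₁ L₀ L₁ t₀ t₁ h h₀ h₁ ht hσ hpq s₀ s₁ m₀ m₁
  refine top_step (by omega) (by rw [hV]; nlinarith) ?_ h.rank h₀ h₁ ht hσ hpq s₀.rank s₁.rank
    (s₀.ne hα.1.1 hne) (s₁.ne hα.1.1 hne) m₀ m₁
  rcases hm.eq_or_lt with h2 | h3
  · exact Or.inl h2.symm
  · exact Or.inr (internal_of_bij (h.bij hV h3 hdom))

omit [NormedAddCommGroup V] [InnerProductSpace ℝ V] [FiniteDimensional ℝ V] [MeasurableSpace V]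
  [BorelSpace V] in
lemma union_two (A : Fin 2 → Set V) : ⋃ i, A i = A 0 ∪ A 1 := by
  ext x
  simp [Fin.exists_fin_two]

lemma alm_two_angles {α : Fin 2 → Fin 2 → Fin d → ℝ}
    (hα : MinimalAngle (V := V) AlmgrenCompetitor α) (hne : α 0 1 ≠ 0) :
    ∃ k l, k ≠ l ∧ cos (α 0 1 k) < 1 ∧ cos (α 0 1 l) < 1 := by
  have h01 : (0 : Fin 2) < 1 := by decide
  have hr := (hα.1.1 0 1 h01).2
  obtain ⟨k, hk⟩ := Function.ne_iff.1 hne
  have hk1 := cos_lt_one' (hr k) hk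
  by_contra hc
  obtain ⟨P, hP⟩ := hα.1.2
  obtain ⟨e, f, hf⟩ := exists_principal (hP.1 0) (hP.1 1) (hP.2 0 1 h01)
  have h1 := Fr.inf_one (c := fun k => cos (α 0 1 k)) (k := k) hf (hP.1 0) (hP.1 1)
    (by rw [abs_of_nonneg (cos_nonneg' (hr k))]; exact hk1) (fun l hl => by
      rw [abs_of_nonneg (cos_nonneg' (hr l))]
      exact (cos_le_one _).eq_of_not_lt fun h => hc ⟨k, l, hl.symm, hk1, h⟩)
  have h2 := hα.2 P hP
  rw [union_two fun i => (P i : Set V)] at h2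
  exact not_minimal_codim_one (hP.1 0) (hP.1 1) h1 h2

theorem alm_interp (hm : 2 ≤ m) (hV : finrank ℝ V = d * m)
    (hα : MinimalAngle (V := V) AlmgrenCompetitor α) (hγ : IsAngleDatum V γ)
    (hle : ∀ i j, i < j → ∀ k, α i j k ≤ γ i j k) (hne : ∀ i j, i < j → α i j ≠ 0)
    (hdom : ∀ i j, i < j → ∀ k, 2 * (m - 2 : ℝ) * cos (α i j k) < 1) :
    MinimalAngle (V := V) AlmgrenCompetitor γ := by
  refine ⟨hγ, fun P hP => ?_⟩
  refine interp hm hV hα.1.1 hdom (fun P => IsMinimal d AlmgrenCompetitor (⋃ i, (P i : Set V)))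
    hα.2 ?_ P (Sub.of_realises hP hα.1.1 hγ.1 hle)
  intro P p q σ₀ σ₁ L₀ L₁ t₀ t₁ h h₀ h₁ ht hσ hpq s₀ s₁ m₀ m₁
  have tr : ∀ {σ : ℝ} {L : V →L[ℝ] V}, Form p q σ L → Sub α (mp L P) →
      ∀ F, AlmgrenCompetitor (⋃ i, (P i : Set V)) F → ∃ F' N : Set V,
        AlmgrenCompetitor (L '' ⋃ i, (P i : Set V)) F' ∧ μH[d] N = 0 ∧ F' ⊆ L '' F ∪ N := by
    intro σ L hL s F hF
    rcases hm.eq_or_lt with rfl | h3
    · have h01 : (0 : Fin 2) < 1 := by decide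
      obtain ⟨k, l, hkl, hk, hl⟩ := alm_two_angles hα (hne 0 1 h01)
      obtain ⟨c, hc, hc'⟩ := s
      obtain ⟨e, f, hf⟩ := hc.2 0 1 h01
      have h1 := hf.inf_two (hc.1 0) (hc.1 1) hkl ((hc' 0 1 h01 k).trans_lt hk)
        ((hc' 0 1 h01 l).trans_lt hl)
      rw [union_two fun i => (P i : Set V)] at hF ⊢
      exact alm_transfer_two L (fun v hv => hL.iso (hpq 0 v hv)) (fun v hv => hL.iso (hpq 1 v hv))
        h1 hF
    · have h1 : Function.Surjective (L : V →ₗ[ℝ] V) := by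
        intro v
        obtain ⟨w, rfl⟩ := (s.bij hV h3 hdom).2 v
        choose u _ hu using fun a => (w a).2
        exact ⟨∑ a, u a, by rw [map_sum, sumMap_apply]; exact Finset.sum_congr rfl fun a _ => hu a⟩
      let T := (LinearEquiv.ofBijective (L : V →ₗ[ℝ] V)
        ⟨LinearMap.injective_iff_surjective.2 h1, h1⟩).toContinuousLinearEquiv
      exact ⟨_, ∅, alm_transfer_equiv T hF, measure_empty, subset_union_left⟩
  exact alm_step h.rank h₀ h₁ ht hσ hpq s₀.rank s₁.rank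
    (s₀.ne hα.1.1 hne) (s₁.ne hα.1.1 hne) (tr h₀ s₀) (tr h₁ s₁) m₀ m₁

end

end Pool.Agent.Lib.MP_b07a76_an
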