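import Pool.Agent.Lib.MP_b07a76_an.IExt

/-! Two planes crossing along a hyperplane are not minimal. -/

namespace Pool.Agent.Lib.MP_b07a76_an

noncomputable section
open MeasureTheory Module Metric Set Filter
open scoped NNReal ENNReal Topology

variable {V : Type} [NormedAddCommGroup V] [InnerProductSpace ℝ V] [FiniteDimensional ℝ V]
  [MeasurableSpace V] [BorelSpace V] {d : ℕ}

/-- Sketch: `h = g ∘ invFunOn k T` is `c`-Lipschitz on `k '' T` with image `g '' T`. -/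
lemma image_le_image {X Y Z : Type} [MetricSpace Y] [MetricSpace Z] [MeasurableSpace Y]
    [BorelSpace Y] [MeasurableSpace Z] [BorelSpace Z] (g : X → Y) (k : X → Z) (T : Set X) (c : ℝ≥0)
    (h : ∀ x ∈ T, ∀ y ∈ T, dist (g x) (g y) ≤ c * dist (k x) (k y)) :
    μH[d] (g '' T) ≤ (c : ℝ≥0∞) ^ d * μH[d] (k '' T) := by
  rcases T.eq_empty_or_nonempty with rfl | ⟨x₀, -⟩
  · simp
  have : Nonempty X := ⟨x₀⟩
  have hm : ∀ z ∈ k '' T, Function.invFunOn k T z ∈ T ∧ k (Function.invFunOn k T z) = z :=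
    fun z hz => Function.invFunOn_pos hz
  have hL : LipschitzOnWith c (fun z => g (Function.invFunOn k T z)) (k '' T) :=
    LipschitzOnWith.of_dist_le_mul fun z hz w hw => by
      simpa only [(hm z hz).2, (hm w hw).2] using h _ (hm z hz).1 _ (hm w hw).1
  have h2 := hL.hausdorffMeasure_image_le (d := d) (by positivity)
  rw [ENNReal.rpow_natCast] at h2
  refine le_trans (measure_mono ?_) h2
  rintro _ ⟨x, hx, rfl⟩
  refine ⟨k x, ⟨x, hx, rfl⟩, ?_⟩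
  have h3 := h _ (hm _ ⟨x, hx, rfl⟩).1 _ hx
  rw [(hm _ ⟨x, hx, rfl⟩).2, dist_self, mul_zero] at h3
  exact dist_le_zero.1 h3

/-- A cylinder over a ball of `K`. -/
def INon_box (K : Submodule ℝ V) (r : ℝ) (p v : V) : Set V :=
  {z | ∃ κ ∈ K, ‖κ‖ ≤ r ∧ ∃ s ∈ Icc (0 : ℝ) 1, z = κ + p + s • v}

omit [MeasurableSpace V] [BorelSpace V] in
lemma INon_compact (K : Submodule ℝ V) (r : ℝ) (p v : V) : IsCompact (INon_box K r p v) := by
  have e : INon_box K r p v =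
      (fun x : K × ℝ => (x.1 : V) + p + x.2 • v) '' (closedBall 0 r ×ˢ Icc 0 1) := by
    ext z
    constructor
    · rintro ⟨κ, h1, h2, s, h3, rfl⟩
      exact ⟨(⟨κ, h1⟩, s), ⟨mem_closedBall_zero_iff.2 h2, h3⟩, rfl⟩
    · rintro ⟨x, ⟨h1, h2⟩, rfl⟩
      exact ⟨x.1, x.1.2, mem_closedBall_zero_iff.1 h1, x.2, h2, rfl⟩
  rw [e]
  exact ((isCompact_closedBall _ _).prod isCompact_Icc).image (by fun_prop)

lemma INon_meas (K : Submodule ℝ V) {n : ℕ} (hK : finrank ℝ K = n) : ∃ m : ℝ, 0 < m ∧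
    ∀ r, 0 < r → ∀ p, ∀ v ∈ Kᗮ,
      μH[(n + 1 : ℕ)] (INon_box K r p v) = ENNReal.ofReal (r ^ n * ‖v‖ * m) := by
  let e := WithLp.linearEquiv 2 ℝ (K × ℝ)
  have hU : finrank ℝ (WithLp 2 (K × ℝ)) = n + 1 := by
    rw [e.finrank_eq, finrank_prod, hK, finrank_self]
  let D : Set (WithLp 2 (K × ℝ)) := WithLp.homeomorphProd 2 K ℝ ⁻¹' (closedBall 0 1 ×ˢ Icc 0 1)
  have hD : IsCompact D := (Homeomorph.isCompact_preimage _).2
    ((isCompact_closedBall _ _).prod isCompact_Icc)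
  have hH : (μH[(n + 1 : ℕ)] : Measure (WithLp 2 (K × ℝ))).IsAddHaarMeasure :=
    hU ▸ isAddHaarMeasure_hausdorffMeasure
  have h0 : μH[(n + 1 : ℕ)] D ≠ 0 := by
    have ho : IsOpen (WithLp.homeomorphProd 2 K ℝ ⁻¹' (ball 0 1 ×ˢ Ioo 0 1)) :=
      (isOpen_ball.prod isOpen_Ioo).preimage (Homeomorph.continuous _)
    refine ((ho.measure_pos _ ⟨WithLp.toLp 2 (0, 1 / 2), mem_ball_self one_pos, ?_⟩).trans_le
      (measure_mono (preimage_mono (prod_mono ball_subset_closedBall Ioo_subset_Icc_self)))).ne'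
    change (1 / 2 : ℝ) ∈ Ioo (0 : ℝ) 1
    norm_num
  refine ⟨(μH[(n + 1 : ℕ)] D).toReal, ENNReal.toReal_pos h0 hD.measure_lt_top.ne,
    fun r hr p v hv => ?_⟩
  let Δ : WithLp 2 (K × ℝ) →ₗ[ℝ] WithLp 2 (K × ℝ) := e.symm.toLinearMap ∘ₗ
    LinearMap.prodMap (r • LinearMap.id) (‖v‖ • LinearMap.id) ∘ₗ e.symm.symm.toLinearMap
  have hΔ : LinearMap.det Δ = r ^ n * ‖v‖ := by
    rw [LinearMap.det_conj, LinearMap.det_prodMap, LinearMap.det_smul, LinearMap.det_smul, hK]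
    simp
  let T : WithLp 2 (K × ℝ) → V := fun x => r • (x.fst : V) + p + x.snd • v
  have hT : INon_box K r p v = T '' D := by
    ext z
    constructor
    · rintro ⟨κ, h1, h2, s, h3, rfl⟩
      refine ⟨WithLp.toLp 2 (r⁻¹ • ⟨κ, h1⟩, s), ⟨mem_closedBall_zero_iff.2 ?_, h3⟩, ?_⟩
      · change ‖r⁻¹ • κ‖ ≤ 1
        rw [norm_smul, Real.norm_of_nonneg (by positivity), inv_mul_le_iff₀ hr, mul_one]
        exact h2
      · change r • r⁻¹ • κ + p + s • v = _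
        rw [smul_inv_smul₀ hr.ne']
    · rintro ⟨x, ⟨h1, h2⟩, rfl⟩
      refine ⟨_, K.smul_mem r x.fst.2, ?_, x.snd, h2, rfl⟩
      rw [norm_smul, Real.norm_of_nonneg hr.le]
      exact mul_le_of_le_one_right hr.le (mem_closedBall_zero_iff.1 h1)
  have hd : ∀ x y, dist (T x) (T y) = dist (Δ x) (Δ y) := fun x y => by
    have e1 : T x - T y = ((r • (x - y).fst : K) : V) + (x - y).snd • v := by
      simp only [T, WithLp.sub_fst, WithLp.sub_snd, Submodule.coe_smul, Submodule.coe_sub]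
      module
    have e2 : inner ℝ ((r • (x - y).fst : K) : V) ((x - y).snd • v) = 0 :=
      Submodule.inner_right_of_mem_orthogonal (Subtype.prop _) (Kᗮ.smul_mem _ hv)
    rw [dist_eq_norm, dist_eq_norm, ← map_sub, ← sq_eq_sq₀ (norm_nonneg _) (norm_nonneg _),
      WithLp.prod_norm_sq_eq_of_L2, e1, norm_add_sq_real, e2]
    change _ = ‖r • (x - y).fst‖ ^ 2 + ‖‖v‖ • (x - y).snd‖ ^ 2
    rw [norm_smul ‖v‖, norm_smul _ v, norm_norm, Submodule.coe_norm]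
    ring
  have h1 := image_le_image (d := n + 1) T Δ D 1 fun x _ y _ => by simp [hd]
  have h2 := image_le_image (d := n + 1) Δ T D 1 fun x _ y _ => by simp [hd]
  simp only [ENNReal.coe_one, one_pow, one_mul] at h1 h2
  rw [hT, le_antisymm h1 h2, Measure.addHaar_image_linearMap, hΔ, abs_of_nonneg (by positivity),
    ENNReal.ofReal_mul (p := r ^ n * ‖v‖) (q := ENNReal.toReal _) (by positivity),
    ENNReal.ofReal_toReal hD.measure_lt_top.ne]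

omit [MeasurableSpace V] [BorelSpace V] in
lemma INon_unit {K P : Submodule ℝ V} (h : K ≤ P) (hK : finrank ℝ K + 1 = finrank ℝ P) :
    ∃ u ∈ Kᗮ, ‖u‖ = 1 ∧ ∀ z, z ∈ P ↔ ∃ κ ∈ K, ∃ s : ℝ, z = κ + s • u := by
  obtain ⟨v, hv, hs⟩ := finrank_eq_one_iff'.1 (Submodule.finrank_add_inf_finrank_orthogonal' h hK)
  have h0 : ‖(v : V)‖ ≠ 0 := norm_ne_zero_iff.2 fun h => hv (Subtype.ext h)
  refine ⟨‖(v : V)‖⁻¹ • v, Kᗮ.smul_mem _ v.2.1, norm_smul_inv_norm (norm_ne_zero_iff.1 h0),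
    fun z => ⟨fun hz => ?_, ?_⟩⟩
  · obtain ⟨c, hc⟩ := hs ⟨z - K.starProjection z, K.sub_starProjection_mem_orthogonal z,
      P.sub_mem hz (h (K.starProjection_apply_mem z))⟩
    refine ⟨_, K.starProjection_apply_mem z, c * ‖(v : V)‖, ?_⟩
    have hc' : c • (v : V) = z - K.starProjection z := congrArg Subtype.val hc
    rw [smul_smul, mul_inv_cancel_right₀ h0, hc', add_sub_cancel]
  · rintro ⟨κ, hκ, s, rfl⟩
    exact P.add_mem (h hκ) (P.smul_mem _ (P.smul_mem _ v.2.2))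

omit [MeasurableSpace V] [BorelSpace V] in
lemma INon_map (K : Submodule ℝ V) {a b : V} (ha : a ∈ Kᗮ) (hb : b ∈ Kᗮ) (hab : inner ℝ a b = 0)
    (a0 : a ≠ 0) (b0 : b ≠ 0) : (∀ κ ∈ K, ∀ κ' ∈ K, ∀ s t s' t' : ℝ,
      κ + s • a + t • b = κ' + s' • a + t' • b → s = s' ∧ t = t') ∧
    ∃ L : ℝ≥0, ∀ R : ℝ, ∃ g : V → V, LipschitzWith L g ∧ ∀ κ ∈ K, ∀ s σ : ℝ, σ = 1 ∨ σ = -1 →
      g (κ + s • a + (σ * s) • b) =
        κ + s • a + (σ * (s - max 0 (min (min s (1 - s)) (R + 1 - ‖κ‖)))) • b := by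
  let α : V →L[ℝ] ℝ := (‖a‖ ^ 2)⁻¹ • innerSL ℝ a
  let β : V →L[ℝ] ℝ := (‖b‖ ^ 2)⁻¹ • innerSL ℝ b
  have hα : ∀ κ ∈ K, ∀ s t : ℝ, α (κ + s • a + t • b) = s := fun κ hκ s t => by
    simp [α, inner_add_right, inner_smul_right, hab, Submodule.inner_left_of_mem_orthogonal hκ ha]
    field_simp
  have hβ : ∀ κ ∈ K, ∀ s t : ℝ, β (κ + s • a + t • b) = t := fun κ hκ s t => by
    simp [β, inner_add_right, inner_smul_right, real_inner_comm a b, hab,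
      Submodule.inner_left_of_mem_orthogonal hκ hb]
    field_simp
  have hπ : ∀ κ ∈ K, ∀ s t : ℝ, K.starProjection (κ + s • a + t • b) = κ := fun κ hκ s t => by
    simp [Submodule.starProjection_eq_self_iff.2 hκ, (K.starProjection_apply_eq_zero_iff).2 ha,
      (K.starProjection_apply_eq_zero_iff).2 hb]
  refine ⟨fun κ h κ' h' s t s' t' e => ⟨?_, ?_⟩, ?_⟩
  · rw [← hα κ h s t, e, hα κ' h']
  · rw [← hβ κ h s t, e, hβ κ' h']
  have hψ := fun R : ℝ => ((α.lipschitz.min ((LipschitzWith.const (1 : ℝ)).sub α.lipschitz)).min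
    ((LipschitzWith.const (R + 1)).sub
      (lipschitzWith_one_norm.comp K.starProjection.lipschitz))).const_max 0
  refine ⟨_, fun R => ⟨_, LipschitzWith.id.sub ((ContinuousLinearMap.toSpanSingleton ℝ b).lipschitz.comp
    ((hψ R).neg.max (β.lipschitz.min (hψ R)))), fun κ hκ s σ hσ => ?_⟩⟩
  simp only [Function.comp, id, Pi.neg_apply, hα κ hκ, hβ κ hκ, hπ κ hκ,
    ContinuousLinearMap.toSpanSingleton_apply]
  rw [add_sub_assoc, ← sub_smul]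
  congr 2
  rcases hσ with rfl | rfl <;> simp only [max_def, min_def] <;> split_ifs <;> linarith

lemma INon_main (K : Submodule ℝ V) {n : ℕ} (hK : finrank ℝ K = n) {a b : V} (ha : a ∈ Kᗮ)
    (hb : b ∈ Kᗮ) (hab : inner ℝ a b = 0) (h1 : ‖a‖ ^ 2 + ‖b‖ ^ 2 = 1) (h2 : ‖b‖ ^ 2 ≤ ‖a‖ ^ 2)
    (b0 : b ≠ 0) {E : Set V} (hE : ∀ z, z ∈ E ↔
      ∃ σ : ℝ, (σ = 1 ∨ σ = -1) ∧ ∃ κ ∈ K, ∃ s : ℝ, z = κ + s • a + (σ * s) • b) :
    ¬ IsMinimal (n + 1) AlmgrenCompetitor E := by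
  intro hm
  have hC : 7 / 10 ≤ ‖a‖ := by nlinarith [norm_nonneg a]
  obtain ⟨hu, L, hL⟩ := INon_map K ha hb hab (norm_pos_iff.1 (by linarith)) b0
  obtain ⟨m, m0, hbox⟩ := INon_meas K hK
  have hn : ∀ x σ : ℝ, σ = 1 ∨ σ = -1 → ‖x • a + σ • b‖ ^ 2 = x ^ 2 * ‖a‖ ^ 2 + ‖b‖ ^ 2 := by
    intro x σ hσ
    rw [norm_add_sq_real, inner_smul_left, inner_smul_right, hab, norm_smul, norm_smul, mul_pow,
      mul_pow, Real.norm_eq_abs, Real.norm_eq_abs, sq_abs, sq_abs]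
    rcases hσ with rfl | rfl <;> simp
  have hn1 : ∀ σ : ℝ, σ = 1 ∨ σ = -1 → ‖(1 : ℝ) • a + σ • b‖ = 1 := fun σ hσ => by
    rw [← sq_eq_sq₀ (norm_nonneg _) zero_le_one, hn 1 σ hσ]
    linarith
  have hn2 : ∀ σ : ℝ, σ = 1 ∨ σ = -1 → ‖(1 / 2 : ℝ) • a + σ • b‖ ≤ 1 - ‖a‖ / 4 - 1 / 100 :=
    fun σ hσ => abs_le_of_sq_le_sq' (by rw [hn _ σ hσ]; nlinarith [norm_nonneg b])
      (by nlinarith [norm_nonneg b]) |>.2
  obtain ⟨x, hx, x0⟩ : ∃ x : ℝ, (L : ℝ) ^ (n + 1) * ((1 + x) ^ n - 1) < 1 / 100 ∧ 0 < x := by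
    have hc : Continuous fun x : ℝ => (L : ℝ) ^ (n + 1) * ((1 + x) ^ n - 1) := by fun_prop
    have h3 := (hc.tendsto 0).eventually_lt_const (u := 1 / 100) (by simp)
    exact ((h3.filter_mono nhdsWithin_le_nhds).and self_mem_nhdsWithin (f := 𝓝[>] 0)).exists
  obtain ⟨R, hR, R0⟩ : ∃ R : ℝ, R * x = 1 ∧ 0 < R := ⟨x⁻¹, inv_mul_cancel₀ x0.ne', inv_pos.2 x0⟩
  obtain ⟨g, hg, hgE⟩ := hL R
  let D : ℝ → ℝ → Set V := fun σ r => INon_box K r 0 ((1 : ℝ) • a + σ • b)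
  have hD : ∀ σ r z, z ∈ D σ r ↔
      ∃ κ ∈ K, ‖κ‖ ≤ r ∧ ∃ s ∈ Icc (0 : ℝ) 1, z = κ + s • a + (σ * s) • b := fun σ r z => by
    have : ∀ (κ : V) (s : ℝ), κ + 0 + s • ((1 : ℝ) • a + σ • b) = κ + s • a + (σ * s) • b :=
      fun κ s => by module
    simp only [D, INon_box, this, mem_ofPred_eq]
  have mD : ∀ σ : ℝ, σ = 1 ∨ σ = -1 → ∀ r, 0 < r →
      μH[(n + 1 : ℕ)] (D σ r) = ENNReal.ofReal (r ^ n * m) := fun σ hσ r hr => by
    rw [hbox r hr _ _ (Kᗮ.add_mem (Kᗮ.smul_mem _ ha) (Kᗮ.smul_mem _ hb)), hn1 σ hσ, mul_one]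
  have cD : ∀ σ r, MeasurableSet (D σ r) := fun σ r => (INon_compact _ _ _ _).measurableSet
  let D' := D 1 (R + 1) ∪ D (-1) (R + 1)
  have hfix : ∀ z ∈ E, z ∉ D' → g z = z := fun z hz hz' => by
    obtain ⟨σ, hσ, κ, hκ, s, rfl⟩ := (hE z).1 hz
    have h3 : ¬ (‖κ‖ ≤ R + 1 ∧ 0 ≤ s ∧ s ≤ 1) := fun h => hz' (by
      have := (hD σ (R + 1) _).2 ⟨κ, hκ, h.1, s, h.2, rfl⟩
      rcases hσ with rfl | rfl
      exacts [Or.inl this, Or.inr this])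
    rw [hgE κ hκ s σ hσ, max_eq_left, sub_zero]
    by_contra h4
    simp only [not_le, lt_min_iff] at h4
    exact h3 ⟨by linarith, by linarith, by linarith⟩
  have hfar : ∀ z ∈ E, R + 4 ≤ ‖z‖ → g z = z := fun z hz h => hfix z hz fun h' => by
    have : ∀ σ : ℝ, σ = 1 ∨ σ = -1 → z ∉ D σ (R + 1) := by
      rintro σ hσ ⟨κ, -, h3, s, h4, rfl⟩
      have h5 := norm_add_le (κ + 0) (s • ((1 : ℝ) • a + σ • b))
      rw [norm_smul, hn1 σ hσ, Real.norm_of_nonneg h4.1, add_zero] at h5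
      rw [add_zero] at h
      linarith [h4.2]
    exact h'.elim (this _ (Or.inl rfl)) (this _ (Or.inr rfl))
  have key : μH[(n + 1 : ℕ)] D' ≤ μH[(n + 1 : ℕ)] (g '' D') := by
    have h3 := hm.2.2 _ (almgren_of_lipschitzOn hg.lipschitzOnWith hfar)
    have hDE : D' ⊆ E := by
      rintro z (hz | hz) <;> obtain ⟨κ, hκ, -, s, -, rfl⟩ := (hD _ _ _).1 hz
      exacts [(hE _).2 ⟨_, Or.inl rfl, κ, hκ, s, rfl⟩, (hE _).2 ⟨_, Or.inr rfl, κ, hκ, s, rfl⟩]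
    have s1 : D' ⊆ g '' D' ∩ E ∪ E \ g '' E := fun z hz => by
      by_cases h : z ∈ g '' E
      · obtain ⟨y, hy, rfl⟩ := h
        by_cases hy' : y ∈ D'
        · exact Or.inl ⟨⟨y, hy', rfl⟩, hDE hz⟩
        · exact absurd (hfix y hy hy' ▸ hz) hy'
      · exact Or.inr ⟨hDE hz, h⟩
    have s2 : g '' E \ E ⊆ g '' D' \ E := by
      rintro _ ⟨⟨y, hy, rfl⟩, h⟩
      by_cases hy' : y ∈ D'
      · exact ⟨⟨y, hy', rfl⟩, h⟩
      · exact absurd ((hfix y hy hy').symm ▸ hy) h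
    rw [← measure_inter_add_sdiff (g '' D') hm.1.measurableSet]
    exact (measure_mono s1).trans ((measure_union_le _ _).trans
      (add_le_add le_rfl (h3.trans (measure_mono s2))))
  have low : μH[(n + 1 : ℕ)] D' = ENNReal.ofReal (2 * ((R + 1) ^ n * m)) := by
    have h0 : μH[(n + 1 : ℕ)] (D 1 (R + 1) ∩ D (-1) (R + 1)) = 0 := by
      refine measure_mono_null (t := INon_box K (R + 1) 0 0) ?_ (by
        rw [hbox _ (by linarith) _ _ Kᗮ.zero_mem]; simp)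
      rintro z ⟨h3, h4⟩
      obtain ⟨κ, hκ, h5, s, h6, rfl⟩ := (hD _ _ _).1 h3
      obtain ⟨κ', hκ', -, s', -, e⟩ := (hD _ _ _).1 h4
      obtain ⟨e1, e2⟩ := hu κ hκ κ' hκ' _ _ _ _ e
      obtain rfl : s = 0 := by linarith
      exact ⟨κ, hκ, h5, 0, h6, by simp⟩
    have h3 := measure_union_add_inter (μ := μH[(n + 1 : ℕ)]) (D 1 (R + 1)) (cD (-1) (R + 1))
    rw [h0, add_zero, mD _ (Or.inl rfl) _ (by linarith), mD _ (Or.inr rfl) _ (by linarith),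
      ← ENNReal.ofReal_add (by positivity) (by positivity), ← two_mul] at h3
    exact h3
  have hp : R ^ n ≤ (R + 1) ^ n := by gcongr; linarith
  let B : ℝ → Set V := fun σ =>
    INon_box K R ((1 / 2 : ℝ) • a) ((1 / 2 : ℝ) • a + σ • b) ∪ g '' (D σ (R + 1) \ D σ R)
  have mB : ∀ σ : ℝ, σ = 1 ∨ σ = -1 → μH[(n + 1 : ℕ)] (B σ) ≤ ENNReal.ofReal
      (R ^ n * (1 - ‖a‖ / 4 - 1 / 100) * m + L ^ (n + 1) * ((R + 1) ^ n * m - R ^ n * m)) := by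
    intro σ hσ
    have h3 := hg.hausdorffMeasure_image_le (d := (n + 1 : ℕ)) (by positivity)
      (D σ (R + 1) \ D σ R)
    have h4 : D σ R ⊆ D σ (R + 1) := fun z ⟨κ, h5, h6, h7⟩ => ⟨κ, h5, by linarith, h7⟩
    rw [ENNReal.rpow_natCast, measure_sdiff h4 (cD σ R).nullMeasurableSet
      (by rw [mD σ hσ R R0]; simp), mD σ hσ R R0, mD σ hσ _ (by linarith),
      ← ENNReal.ofReal_sub _ (by positivity), ← ENNReal.ofReal_coe_nnreal,
      ← ENNReal.ofReal_pow L.coe_nonneg, ← ENNReal.ofReal_mul (by positivity)] at h3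
    have h5 := (norm_nonneg _).trans (hn2 σ hσ)
    rw [ENNReal.ofReal_add (by positivity) (mul_nonneg (by positivity) (by nlinarith))]
    refine (measure_union_le _ _).trans (add_le_add ?_ h3)
    rw [hbox R R0 _ _ (Kᗮ.add_mem (Kᗮ.smul_mem _ ha) (Kᗮ.smul_mem _ hb))]
    gcongr
    exact hn2 σ hσ
  have sB : ∀ σ : ℝ, σ = 1 ∨ σ = -1 →
      g '' D σ (R + 1) ⊆ INon_box K R 0 ((1 / 2 : ℝ) • a) ∪ B σ := by
    rintro σ hσ _ ⟨z, hz, rfl⟩
    by_cases h : z ∈ D σ R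
    · obtain ⟨κ, hκ, h3, s, h4, rfl⟩ := (hD _ _ _).1 h
      rw [hgE κ hκ s σ hσ]
      rcases le_total s (1 / 2) with h5 | h5
      · rw [min_eq_left (by linarith : s ≤ 1 - s), min_eq_left (by linarith), max_eq_right h4.1]
        exact Or.inl ⟨κ, hκ, h3, 2 * s, ⟨by linarith [h4.1], by linarith⟩, by module⟩
      · rw [min_eq_right (by linarith : 1 - s ≤ s), min_eq_left (by linarith),
          max_eq_right (by linarith [h4.2])]
        exact Or.inr (Or.inl ⟨κ, hκ, h3, 2 * s - 1, ⟨by linarith, by linarith [h4.2]⟩, by module⟩)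
    · exact Or.inr (Or.inr ⟨z, ⟨hz, h⟩, rfl⟩)
  have up : g '' D' ⊆ INon_box K R 0 ((1 / 2 : ℝ) • a) ∪ (B 1 ∪ B (-1)) := by
    rw [image_union, union_union_distrib_left]
    exact union_subset_union (sB _ (Or.inl rfl)) (sB _ (Or.inr rfl))
  have h3 := key.trans ((measure_mono up).trans ((measure_union_le _ _).trans (add_le_add le_rfl
    ((measure_union_le _ _).trans (add_le_add (mB _ (Or.inl rfl)) (mB _ (Or.inr rfl)))))))
  have h4 := (norm_nonneg _).trans (hn2 _ (Or.inl rfl))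
  have h5 : 0 ≤ R ^ n * (1 - ‖a‖ / 4 - 1 / 100) * m + L ^ (n + 1) * ((R + 1) ^ n * m - R ^ n * m) :=
    add_nonneg (by positivity) (mul_nonneg (by positivity) (by nlinarith))
  rw [low, hbox R R0 _ _ (Kᗮ.smul_mem _ ha), ← ENNReal.ofReal_add h5 h5,
    ← ENNReal.ofReal_add (by positivity) (by positivity),
    ENNReal.ofReal_le_ofReal_iff (by positivity), norm_smul,
    Real.norm_of_nonneg (by norm_num)] at h3
  have e : (R + 1) ^ n = R ^ n * (1 + x) ^ n := by rw [← mul_pow, mul_add, hR, mul_one]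
  have h6 := mul_lt_mul_of_pos_left hx (mul_pos (pow_pos R0 n) m0)
  have h7 := mul_le_mul_of_nonneg_right hp m0.le
  rw [e] at h3 h7
  linarith

/-- Sketch. `K = P ⊓ Q`, unit `u₁ ∈ P ⊓ Kᗮ`, `u₂ ∈ Q ⊓ Kᗮ` with `0 ≤ ⟪u₁,u₂⟫ < 1`; `u₁ = a + b`, `u₂ = a - b`,
`a = (u₁+u₂)/2 ⊥ b = (u₁-u₂)/2`, `C = ‖a‖`, `S = ‖b‖`, `C² + S² = 1`, `C² ≥ 1/2`. Parametrise `P` and `Q` isometrically by
`W = WithLp 2 (K × ℝ)` (or by `P` itself), `ι± (κ, s) = κ + s a ± s b`. Put `h (κ, s) = (1/10) max 0 (min (1 - s) (ε (R - ‖κ‖)))` and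
`g (ι± (κ, s)) = κ + s a ± t b` with `t = s` for `s ≤ 0`, `t = max 0 (s - h)` for `s ≥ 0` (that is `t = s - min (max s 0) h`). `g` is Lipschitz on `P ∪ Q`
(`lipschitzOn_union`), the identity outside `D± = ι± D`, `D = {‖κ‖ ≤ R, 0 ≤ s ≤ 1}`; `almgren_of_lipschitzOn`.
With `M = {(κ,s) ∈ D | s ≤ h} ⊇ {‖κ‖ ≤ R - 1/ε, 0 ≤ s ≤ 1/11}`, `g D₊ ∪ g D₋ ⊆ g M₊ ∪ g (D₊ \ M₊) ∪ g (D₋ \ M₋)`;
`image_le_image` against the diagonal linear maps `(κ, s) ↦ (x κ, y s)` and `LinearMap.hausdorffMeasure_image` give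
`μ (g M₊) ≤ C μ M` and `μ (g (D± \ M±)) ≤ J μ (D \ M)`, `J = x^(d-1) y`, `x² = 1 + 2ε`, `y² = 1 + S² (21/100) + ε`;
`μ M ≥ (1 - 1/(εR))^(d-1) μ D / 11` by scaling. Since `(2 - C)/11 - (21/100) S² ≥ 1/100` for `C ≥ 7/10`, small `ε` and large `R` give
`C μ M + 2 J (μ D - μ M) < 2 μ D = μ (D₊ ∪ D₋)`. Minimality gives `μ (D₊ ∪ D₋) ≤ μ (g D₊ ∪ g D₋)`:
`E \ F ⊇ (D₊ ∪ D₋) \ G`, `F \ E ⊆ G \ E` for `G = g D₊ ∪ g D₋` up to the part of `G` inside `E`; compare as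
`μ D' ≤ μ (E \ F) + μ (D' ∩ G) ≤ μ (G \ E) + μ (G ∩ E) = μ G` (points of `D'` in `F` lie in `G`, since `g` fixes `E \ D'`). -/
theorem not_minimal_codim_one {P Q : Submodule ℝ V} (hP : finrank ℝ P = d) (hQ : finrank ℝ Q = d)
    (hK : finrank ℝ (P ⊓ Q : Submodule ℝ V) + 1 = d) :
    ¬ IsMinimal d AlmgrenCompetitor ((P : Set V) ∪ Q) := by
  obtain ⟨u, hu, u1, eP⟩ := INon_unit (inf_le_left : P ⊓ Q ≤ P) (hK.trans hP.symm)
  obtain ⟨w, hw, w1, h0, eQ⟩ : ∃ w ∈ (P ⊓ Q)ᗮ, ‖w‖ = 1 ∧ 0 ≤ inner ℝ u w ∧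
      ∀ z, z ∈ Q ↔ ∃ κ ∈ P ⊓ Q, ∃ s : ℝ, z = κ + s • w := by
    obtain ⟨w, hw, w1, eQ⟩ := INon_unit (inf_le_right : P ⊓ Q ≤ Q) (hK.trans hQ.symm)
    rcases le_total 0 (inner ℝ u w) with h | h
    · exact ⟨w, hw, w1, h, eQ⟩
    · refine ⟨-w, neg_mem hw, by rw [norm_neg, w1], by rw [inner_neg_right]; linarith, fun z => ?_⟩
      rw [eQ]
      exact ⟨fun ⟨κ, h1, s, e⟩ => ⟨κ, h1, -s, by rw [e]; module⟩,
        fun ⟨κ, h1, s, e⟩ => ⟨κ, h1, -s, by rw [e]; module⟩⟩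
  have na : ‖(1 / 2 : ℝ) • (u + w)‖ ^ 2 = (1 + inner ℝ u w) / 2 := by
    rw [norm_smul, mul_pow, norm_add_sq_real, u1, w1, Real.norm_of_nonneg (by norm_num)]
    ring
  have nb : ‖(1 / 2 : ℝ) • (u - w)‖ ^ 2 = (1 - inner ℝ u w) / 2 := by
    rw [norm_smul, mul_pow, norm_sub_sq_real, u1, w1, Real.norm_of_nonneg (by norm_num)]
    ring
  subst hK
  refine INon_main (P ⊓ Q) rfl (a := (1 / 2 : ℝ) • (u + w)) (b := (1 / 2 : ℝ) • (u - w))
    (Submodule.smul_mem _ _ (add_mem hu hw)) (Submodule.smul_mem _ _ (sub_mem hu hw)) ?_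
    (by rw [na, nb]; ring) (by rw [na, nb]; linarith) (fun h => ?_) fun z => ?_
  · rw [inner_smul_left, inner_smul_right, inner_add_left, inner_sub_right, inner_sub_right,
      real_inner_self_eq_norm_sq, real_inner_self_eq_norm_sq, u1, w1, real_inner_comm]
    simp
  · obtain rfl : u = w := sub_eq_zero.1 ((smul_eq_zero_iff_right (by norm_num)).1 h)
    have h1 := Submodule.inner_right_of_mem_orthogonal (K := P ⊓ Q)
      ⟨(eP u).2 ⟨0, zero_mem _, 1, by simp⟩, (eQ u).2 ⟨0, zero_mem _, 1, by simp⟩⟩ hu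
    rw [real_inner_self_eq_norm_sq, u1] at h1
    norm_num at h1
  · rw [mem_union, SetLike.mem_coe, SetLike.mem_coe, eP, eQ]
    constructor
    · rintro (⟨κ, h1, s, rfl⟩ | ⟨κ, h1, s, rfl⟩)
      · exact ⟨1, Or.inl rfl, κ, h1, s, by module⟩
      · exact ⟨-1, Or.inr rfl, κ, h1, s, by module⟩
    · rintro ⟨σ, rfl | rfl, κ, h1, s, rfl⟩
      · exact Or.inl ⟨κ, h1, s, by module⟩
      · exact Or.inr ⟨κ, h1, s, by module⟩

end

end Pool.Agent.Lib.MP_b07a76_an
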