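import Pool.Agent.Lib.MP_b07a76_an.ITopC
import Pool.Agent.Lib.MP_b07a76_an.IBF5
import Pool.Agent.Lib.MP_b07a76_an.IColl

/-! Removing the purely unrectifiable part of a topological competitor. -/

namespace Pool.Agent.Lib.MP_b07a76_an

noncomputable section
open MeasureTheory Module Metric Set Filter
open scoped NNReal ENNReal Topology

variable {V : Type} [NormedAddCommGroup V] [InnerProductSpace ℝ V] [FiniteDimensional ℝ V]
  [MeasurableSpace V] [BorelSpace V] {d : ℕ}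

/-- Sketch. Ranges of continuous maps on `Ed d` are σ-compact, hence measurable. Maximise `μH[d] (B ∩ R)` over
countable unions `R` of Lipschitz ranges (take a maximising sequence and merge it with `Nat.unpair`); adding one more range cannot increase the
measure (`measure_inter_add_diff`). -/
lemma decomp {B : Set V} (hB : μH[d] B ≠ ⊤) :
    ∃ R : Set V, MeasurableSet R ∧ Rect d R ∧ PU d (B \ R) := by
  have hm : ∀ (f : Ed d → V), Continuous f → MeasurableSet (range f) := by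
    intro f hf
    obtain ⟨K, hK, e⟩ := isSigmaCompact_range hf
    rw [← e]
    exact MeasurableSet.iUnion fun n => (hK n).measurableSet
  have : IsFiniteMeasure ((μH[d] : Measure V).restrict B) := isFiniteMeasure_restrict.2 hB
  let C : Set (Set V) := {s | ∃ (f : Ed d → V) (K : ℝ≥0), LipschitzWith K f ∧ s = range f}
  have hC : ∀ s ∈ C, MeasurableSet s := by
    rintro s ⟨f, K, hf, rfl⟩
    exact hm f hf.continuous
  obtain ⟨D, hDC, hDc, hD⟩ :=
    Measure.exists_ae_subset_biUnion_countable ((μH[d] : Measure V).restrict B) hC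
  have hR : MeasurableSet (⋃₀ D) := MeasurableSet.sUnion hDc fun s hs => hC s (hDC hs)
  refine ⟨⋃₀ D, hR, ?_, ?_⟩
  · have h0 : range (fun _ : Ed d => (0 : V)) ∈ C := ⟨_, 0, LipschitzWith.const _, rfl⟩
    obtain ⟨g, hg⟩ := (hDc.insert (range (fun _ : Ed d => (0 : V)))).exists_eq_range
      (insert_nonempty _ _)
    have hgC : ∀ j, g j ∈ C := by
      intro j
      have : g j ∈ insert (range (fun _ : Ed d => (0 : V))) D := hg ▸ mem_range_self j
      rcases this with h | h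
      · rw [h]
        exact h0
      · exact hDC h
    choose f K hf e using hgC
    refine ⟨f, fun j => ⟨K j, hf j⟩, ?_⟩
    rintro x ⟨s, hs, hx⟩
    obtain ⟨j, rfl⟩ : s ∈ range g := hg ▸ mem_insert_of_mem _ hs
    exact mem_iUnion.2 ⟨j, e j ▸ hx⟩
  · intro f K hf
    have h1 := ae_le_set.1 (hD _ ⟨f, K, hf, rfl⟩)
    rw [Measure.restrict_apply ((hm f hf.continuous).diff hR)] at h1
    refine measure_mono_null ?_ h1
    rintro x ⟨⟨h2, h3⟩, h4⟩
    exact ⟨⟨h4, h3⟩, h2⟩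

omit [MeasurableSpace V] [BorelSpace V] in
/-- A compactly supported map whose interpolations with the identity expand distances is a uniform
limit of homeomorphisms with the same support. -/
lemma IRed_homeo (hV : 2 ≤ finrank ℝ V) {φ : V → V} (hφ : Continuous φ) {K : Set V}
    (hK : IsCompact K) (h1 : ∀ x, x ∉ K → φ x = x) {c : ℝ} (hc : 0 ≤ c)
    (h2 : ∀ η : ℝ, 0 ≤ η → η ≤ 1 → ∀ x y,
      η * ‖x - y‖ ≤ c * ‖(η • x + (1 - η) • φ x) - (η • y + (1 - η) • φ y)‖)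
    (ε : ℝ) (hε : 0 < ε) :
    ∃ h : V ≃ₜ V, (∀ x, x ∉ K → h x = x) ∧ ∀ x, dist (h x) (φ x) ≤ ε := by
  obtain ⟨M, hM⟩ := hK.exists_bound_of_continuousOn (f := fun x => x - φ x) (by fun_prop)
  have hM' : ∀ x, ‖x - φ x‖ ≤ |M| + 1 := by
    intro x
    by_cases hx : x ∈ K
    · linarith [hM x hx, le_abs_self M]
    · rw [h1 x hx, sub_self, norm_zero]
      positivity
  have hM0 : 0 < |M| + 1 := by positivity
  let η : ℝ := min 1 (ε / (|M| + 1))
  have hη0 : 0 < η := lt_min one_pos (div_pos hε hM0)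
  have hη1 : η ≤ 1 := min_le_left _ _
  have hη2 : η * (|M| + 1) ≤ ε := (le_div_iff₀ hM0).1 (min_le_right _ _)
  let g : V → V := fun x => η • x + (1 - η) • φ x
  have hg : Continuous g := by fun_prop
  have hg1 : ∀ x, x ∉ K → g x = x := by
    intro x hx
    simp only [g, h1 x hx, ← add_smul, add_sub_cancel, one_smul]
  have ha : AntilipschitzWith ⟨c / η, by positivity⟩ g := by
    apply AntilipschitzWith.of_le_mul_dist
    intro x y
    rw [dist_eq_norm, dist_eq_norm]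
    change _ ≤ c / η * _
    rw [div_mul_eq_mul_div, le_div_iff₀ hη0, mul_comm]
    exact h2 η hη0.le hη1 x y
  obtain ⟨R, hR⟩ := hK.isBounded.subset_ball (0 : V)
  have hs : Function.Surjective g := surj_of_eq_id hV g hg R fun x hx => hg1 x fun h => by
    have := hR h
    rw [mem_ball_zero_iff] at this
    linarith
  refine ⟨(Equiv.ofBijective g ⟨ha.injective, hs⟩).toHomeomorphOfIsInducing (ha.isInducing hg),
    hg1, fun x => ?_⟩
  change dist (g x) (φ x) ≤ ε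
  have e : g x - φ x = η • (x - φ x) := by
    simp only [g]
    module
  rw [dist_eq_norm, e, norm_smul, Real.norm_of_nonneg hη0.le]
  exact (mul_le_mul_of_nonneg_left (hM' x) hη0.le).trans hη2

/-- Lipschitz images, with a natural exponent. -/
lemma IRed_lip {X Y : Type} [EMetricSpace X] [MeasurableSpace X] [BorelSpace X] [EMetricSpace Y]
    [MeasurableSpace Y] [BorelSpace Y] {f : X → Y} {K : ℝ≥0} (hf : LipschitzWith K f) (d : ℕ)
    (s : Set X) : μH[d] (f '' s) ≤ (K : ℝ≥0∞) ^ d * μH[d] s := by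
  have := hf.hausdorffMeasure_image_le (d := d) (by positivity) s
  rwa [ENNReal.rpow_natCast] at this

/-- The collapse, transported to `V`. -/
lemma IRed_collapse (hd : 1 ≤ d) (hV : d + 1 ≤ finrank ℝ V) (U : ℕ → Set V)
    (hU : ∀ j, IsCompact (U j)) {m : ℝ≥0∞} (hm : m ≠ ⊤) (hUm : ∀ j, μH[d] (U j) ≤ m)
    (hu : ∀ j, PU d (U j)) {δ : ℝ≥0∞} (hδ : δ ≠ 0) :
    ∃ L : ℝ≥0, ∀ j, ∀ O : Set V, IsOpen O → U j ⊆ O → ∃ (φ : V → V) (K : Set V), IsCompact K ∧
      K ⊆ O ∧ LipschitzWith L φ ∧ (∀ x, x ∉ K → φ x = x) ∧ MapsTo φ O O ∧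
      μH[d] (φ '' U j) ≤ δ ∧
      ∀ ε : ℝ, 0 < ε → ∃ h : V ≃ₜ V, (∀ x, x ∉ K → h x = x) ∧ ∀ x, dist (h x) (φ x) ≤ ε := by
  let n := finrank ℝ V
  let e₀ : V ≃L[ℝ] (Fin n → ℝ) := ContinuousLinearEquiv.ofFinrankEq (by simp [n])
  obtain ⟨g, hg⟩ := exists_good_frame hd (fun j => e₀ '' U j) (fun j => (hU j).image e₀.continuous)
    (fun j => ne_top_of_le_ne_top (ENNReal.mul_ne_top (ENNReal.pow_ne_top ENNReal.coe_ne_top)
      (ne_top_of_le_ne_top hm (hUm j))) (IRed_lip e₀.lipschitz d (U j)))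
    (by
      intro j f K hf
      have h1 := hu j (e₀.symm ∘ f) _ (e₀.symm.lipschitz.comp hf)
      have h2 := IRed_lip e₀.lipschitz d (U j ∩ range (e₀.symm ∘ f))
      rw [h1, mul_zero] at h2
      refine measure_mono_null ?_ (le_zero_iff.1 h2)
      rintro _ ⟨⟨x, hx, rfl⟩, y, hy⟩
      exact ⟨x, ⟨hx, y, by simp [hy]⟩, rfl⟩)
  let e : V ≃L[ℝ] (Fin n → ℝ) := e₀.trans g
  let a : ℝ≥0 := ‖(e : V →L[ℝ] (Fin n → ℝ))‖₊
  let b : ℝ≥0 := ‖(e.symm : (Fin n → ℝ) →L[ℝ] V)‖₊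
  have ha : LipschitzWith a e := e.lipschitz
  have hb : LipschitzWith b e.symm := e.symm.lipschitz
  obtain ⟨N, hN, hNδ⟩ := ENNReal.exists_nat_pos_mul_gt
    (b := (b : ℝ≥0∞) ^ d * (2 ^ n * ((a : ℝ≥0∞) ^ d * m))) hδ (by finiteness)
  refine ⟨b * ((N + 1) * a), fun j O hO hUO => ?_⟩
  obtain ⟨ψ, K, hK, hKO, hψ, h1, h2, h3, h4⟩ := collapse (d := d) (n := n) (A := e '' U j)
    (O := e '' O) (by omega) ((hU j).image e.continuous) (e.toHomeomorph.isOpenMap _ hO)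
    (image_mono hUO) (by
      intro I hI
      have := hg j I hI
      rw [image_image] at this ⊢
      exact this) hN
  have hφ : LipschitzWith (b * ((N + 1) * a)) (e.symm ∘ ψ ∘ e) := hb.comp (hψ.comp ha)
  have hid : ∀ x, x ∉ e.symm '' K → (e.symm ∘ ψ ∘ e) x = x := by
    intro x hx
    have : e x ∉ K := fun h => hx ⟨e x, h, by simp⟩
    simp [h1 _ this]
  refine ⟨e.symm ∘ ψ ∘ e, e.symm '' K, hK.image e.symm.continuous, ?_, hφ, hid, ?_, ?_, ?_⟩
  · rintro _ ⟨y, hy, rfl⟩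
    obtain ⟨x, hx, rfl⟩ := hKO hy
    simpa using hx
  · intro x hx
    obtain ⟨y, hy, e1⟩ := h2 (mem_image_of_mem e hx)
    simpa [← e1] using hy
  · have h5 : (N : ℝ≥0∞) * μH[d] ((e.symm ∘ ψ ∘ e) '' U j) < N * δ := by
      refine lt_of_le_of_lt ?_ hNδ
      calc (N : ℝ≥0∞) * μH[d] ((e.symm ∘ ψ ∘ e) '' U j)
          ≤ N * ((b : ℝ≥0∞) ^ d * μH[d] (ψ '' (e '' U j))) := by
            gcongr
            rw [image_comp, image_comp]
            exact IRed_lip hb d _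
        _ = (b : ℝ≥0∞) ^ d * (N * μH[d] (ψ '' (e '' U j))) := by ring
        _ ≤ (b : ℝ≥0∞) ^ d * (2 ^ n * μH[d] (e '' U j)) := by gcongr
        _ ≤ _ := by
            gcongr
            exact (IRed_lip ha d _).trans (by gcongr; exact hUm j)
    exact (lt_of_mul_lt_mul_left' h5).le
  · apply IRed_homeo (by omega) hφ.continuous (hK.image e.symm.continuous) hid
      (c := b * a) (by positivity)
    intro η h0 h1 x y
    have h5 := h4 η h0 h1 (e x) (e y)
    have h6 : ‖x - y‖ ≤ b * ‖e x - e y‖ := by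
      have := hb.norm_sub_le (e x) (e y)
      simpa using this
    have h7 := ha.norm_sub_le (η • x + (1 - η) • (e.symm ∘ ψ ∘ e) x)
      (η • y + (1 - η) • (e.symm ∘ ψ ∘ e) y)
    simp only [map_add, map_smul, Function.comp_apply, ContinuousLinearEquiv.apply_symm_apply]
      at h7
    calc η * ‖x - y‖ ≤ η * (b * ‖e x - e y‖) := by gcongr
      _ = b * (η * ‖e x - e y‖) := by ring
      _ ≤ b * (a * _) := mul_le_mul_of_nonneg_left (h5.trans h7) b.coe_nonneg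
      _ = _ := by
          simp only [Function.comp_apply]
          ring

/-- Sketch. `B = F \ E` is measurable, `R` from `decomp`, `U = B \ R`, compact `U j ⊆ U` with
`μH[d] (U \ U j) ≤ 1/(j+1)` (inner regularity of the finite measure `μH[d].restrict U`). With a linear equivalence `e₀ : V ≃L (Fin n → ℝ)`, the sets `e₀ '' U j` are compact, finite, `PU`;
`exists_good_frame` gives `g`; put `e = e₀.trans g`, `a = ‖e‖₊`, `b = ‖e.symm‖₊`. Choose `N` with
`b^d 2^n a^d μH[d] U / N ≤ ε/3`, then `j` and an open `O ⊇ U j`, `O ⊆ Eᶜ`, with `μH[d] (U \ U j)` and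
`μH[d] (B ∩ R ∩ O)` at most `ε / (3 (1 + (b (N+1) a)^d))` (outer regularity of `μH[d].restrict (B ∩ R)` at the null set `U j`).
`collapse` for `e '' U j ⊆ e '' O` gives `ψ`; `φ = e.symm ∘ ψ ∘ e`, `F₁ = φ '' F`, `A = B ∩ R`,
`Z = (U \ U j) ∪ φ '' (B ∩ O)` (the first set has measure `≤ ε/3`, so split `ε` suitably). The maps `η x + (1-η) φ x` are antilipschitz, onto
(`surj_of_eq_id`), hence homeomorphisms, and tend to `φ` uniformly: `top_collapse`. -/
theorem top_reduce (hd : 1 ≤ d) (hV : d + 1 ≤ finrank ℝ V) {E F : Set V} (hE : IsClosed E)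
    (hF : TopCompetitor d E F) (hf : μH[d] (F \ E) ≠ ⊤) {ε : ℝ≥0∞} (hε : 0 < ε) :
    ∃ F₁ A Z : Set V, TopCompetitor d E F₁ ∧ E \ F ⊆ E \ F₁ ∧ F₁ \ E ⊆ A ∪ Z ∧ A ⊆ F \ E ∧
      Rect d A ∧ μH[d] Z ≤ ε := by
  have hB : MeasurableSet (F \ E) := hF.1.measurableSet.diff hE.measurableSet
  obtain ⟨R, hR, hR1, hR2⟩ := decomp hf
  have hU : MeasurableSet ((F \ E) \ R) := hB.diff hR
  have hUf : μH[d] ((F \ E) \ R) ≠ ⊤ := ne_top_of_le_ne_top hf (measure_mono sdiff_subset)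
  have hAf : μH[d] ((F \ E) ∩ R) ≠ ⊤ := ne_top_of_le_ne_top hf (measure_mono inter_subset_left)
  have hin : ∀ j : ℕ, ∃ K ⊆ (F \ E) \ R, IsCompact K ∧
      μH[d] (((F \ E) \ R) \ K) < (j : ℝ≥0∞)⁻¹ := by
    intro j
    have : IsFiniteMeasure ((μH[d] : Measure V).restrict ((F \ E) \ R)) :=
      isFiniteMeasure_restrict.2 hUf
    obtain ⟨K, h1, h2, h3⟩ := hU.exists_isCompact_sdiff_lt
      (μ := (μH[d] : Measure V).restrict ((F \ E) \ R)) (measure_ne_top _ _)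
      (ε := (j : ℝ≥0∞)⁻¹) (by simp)
    rw [Measure.restrict_eq_self _ sdiff_subset] at h3
    exact ⟨K, h1, h2, h3⟩
  choose U hU1 hU2 hU3 using hin
  have hδ : ε / 2 / 2 ≠ 0 := by simp [hε.ne']
  obtain ⟨L, hL⟩ := IRed_collapse hd hV U hU2 hUf (fun j => measure_mono (hU1 j))
    (fun j f K hf => measure_mono_null (inter_subset_inter_left _ (hU1 j)) (hR2 f K hf)) hδ
  obtain ⟨η, hη0, hη⟩ := ENNReal.exists_nnreal_pos_mul_lt (a := 1 + (L : ℝ≥0∞) ^ d)
    (by finiteness) hδ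
  have hη1 : (η : ℝ≥0∞) ≤ ε / 2 / 2 := le_trans (le_mul_of_one_le_right' le_self_add) hη.le
  have hη2 : (L : ℝ≥0∞) ^ d * η ≤ ε / 2 / 2 := by
    refine le_trans ?_ hη.le
    rw [mul_comm]
    gcongr
    exact le_add_self
  have hη3 : (η : ℝ≥0∞) ≠ 0 := by exact_mod_cast hη0.ne'
  obtain ⟨j, hj⟩ := ENNReal.exists_inv_nat_lt hη3
  have hj' : μH[d] (((F \ E) \ R) \ U j) ≤ η := ((hU3 j).trans hj).le
  obtain ⟨O, hO1, hO2, hO3⟩ : ∃ O, U j ⊆ O ∧ IsOpen O ∧ μH[d] (O ∩ ((F \ E) ∩ R)) < η := by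
    have : IsFiniteMeasure ((μH[d] : Measure V).restrict ((F \ E) ∩ R)) :=
      isFiniteMeasure_restrict.2 hAf
    obtain ⟨O, h1, h2, h3⟩ := (U j).exists_isOpen_lt_of_lt
      (μ := (μH[d] : Measure V).restrict ((F \ E) ∩ R)) η (by
        rw [Measure.restrict_apply (hU2 j).measurableSet]
        have : U j ∩ ((F \ E) ∩ R) = ∅ :=
          eq_empty_of_forall_notMem fun x hx => (hU1 j hx.1).2 hx.2.2
        rw [this, measure_empty]
        exact pos_iff_ne_zero.2 hη3)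
    rw [Measure.restrict_apply h2.measurableSet] at h3
    exact ⟨O, h1, h2, h3⟩
  obtain ⟨φ, K, hK, hKO, hφ, h1, h2, h3, h4⟩ := hL j (O ∩ Eᶜ) (hO2.inter hE.isOpen_compl)
    (fun x hx => ⟨hO1 hx, (hU1 j hx).1.2⟩)
  refine ⟨φ '' F, (F \ E) ∩ R, ((((F \ E) \ R) \ U j) ∪ φ '' U j) ∪
    (φ '' (((F \ E) \ R) \ U j) ∪ φ '' (O ∩ ((F \ E) ∩ R))),
    top_collapse hF hφ.continuous hK h1 h4, ?_, ?_, inter_subset_left, ?_, ?_⟩
  · rintro x ⟨hx1, hx2⟩
    refine ⟨hx1, ?_⟩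
    rintro ⟨y, hy, rfl⟩
    by_cases h : y ∈ O ∩ Eᶜ
    · exact (h2 h).2 hx1
    · rw [h1 y fun h' => h (hKO h')] at hx2
      exact hx2 hy
  · rintro _ ⟨⟨y, hy, rfl⟩, hx⟩
    by_cases h : y ∈ O ∩ Eᶜ
    · right
      by_cases hR : y ∈ R
      · exact Or.inr (Or.inr ⟨y, ⟨h.1, ⟨hy, h.2⟩, hR⟩, rfl⟩)
      · by_cases hj : y ∈ U j
        · exact Or.inl (Or.inr ⟨y, hj, rfl⟩)
        · exact Or.inr (Or.inl ⟨y, ⟨⟨⟨hy, h.2⟩, hR⟩, hj⟩, rfl⟩)
    · rw [h1 y fun h' => h (hKO h')] at hx ⊢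
      by_cases hR : y ∈ R
      · exact Or.inl ⟨⟨hy, hx⟩, hR⟩
      · exact Or.inr (Or.inl (Or.inl ⟨⟨⟨hy, hx⟩, hR⟩, fun hj => h ⟨hO1 hj, hx⟩⟩))
  · obtain ⟨f, hf1, hf2⟩ := hR1
    exact ⟨f, hf1, inter_subset_right.trans hf2⟩
  · have h5 : μH[d] (φ '' (((F \ E) \ R) \ U j)) ≤ ε / 2 / 2 :=
      (IRed_lip hφ d _).trans (le_trans (by gcongr) hη2)
    have h6 : μH[d] (φ '' (O ∩ ((F \ E) ∩ R))) ≤ ε / 2 / 2 :=
      (IRed_lip hφ d _).trans (le_trans (by gcongr) hη2)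
    calc _ ≤ _ := measure_union_le _ _
      _ ≤ (ε / 2 / 2 + ε / 2 / 2) + (ε / 2 / 2 + ε / 2 / 2) :=
          add_le_add ((measure_union_le _ _).trans (add_le_add (hj'.trans hη1) h3))
            ((measure_union_le _ _).trans (add_le_add h5 h6))
      _ = ε := by simp only [ENNReal.add_halves]

end

end Pool.Agent.Lib.MP_b07a76_an
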