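import Pool.Agent.Lib.MP_b07a76_an.IArea
import Pool.Agent.Lib.MP_b07a76_an.IRed
import Pool.Agent.Lib.MP_b07a76_an.INon

/-! The two point interpolation step. -/

namespace Pool.Agent.Lib.MP_b07a76_an

noncomputable section
open MeasureTheory Module Metric Set Filter
open scoped NNReal ENNReal Topology

variable {V : Type} [NormedAddCommGroup V] [InnerProductSpace ℝ V] [FiniteDimensional ℝ V]
  {d m : ℕ}

/-- The image of a family of planes. -/
def mp (L : V →L[ℝ] V) (P : Fin m → Submodule ℝ V) : Fin m → Submodule ℝ V :=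
  fun i => (P i).map (L : V →ₗ[ℝ] V)

omit [FiniteDimensional ℝ V] in
lemma mp_union (L : V →L[ℝ] V) (P : Fin m → Submodule ℝ V) :
    (⋃ i, (mp L P i : Set V)) = L '' ⋃ i, (P i : Set V) := by
  rw [image_iUnion]
  rfl

omit [FiniteDimensional ℝ V] in
lemma Form.iso {p q : V} {σ : ℝ} {L : V →L[ℝ] V} (h : Form p q σ L) {v : V}
    (hv : inner ℝ p v * inner ℝ q v = 0) : ‖L v‖ = ‖v‖ := by
  have := h v
  rw [hv, mul_zero, add_zero] at this
  exact (sq_eq_sq₀ (norm_nonneg _) (norm_nonneg _)).1 this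

lemma finrank_inf_lt {P Q : Submodule ℝ V} (hP : finrank ℝ P = d) (hQ : finrank ℝ Q = d)
    (h : P ≠ Q) : finrank ℝ (P ⊓ Q : Submodule ℝ V) < d := by
  by_contra hc
  have h1 : P ⊓ Q = P :=
    Submodule.eq_of_le_of_finrank_le inf_le_left (by omega)
  have h2 : P ⊓ Q = Q :=
    Submodule.eq_of_le_of_finrank_le inf_le_right (by omega)
  exact h (h1.symm.trans h2)

variable [MeasurableSpace V] [BorelSpace V]

lemma null_sub {K : Submodule ℝ V} (hK : finrank ℝ K < d) : μH[d] (K : Set V) = 0 := by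
  have h1 : dimH (range (K.subtypeL : K → V)) ≤ dimH (univ : Set K) :=
    K.subtypeL.lipschitz.dimH_range_le
  have h2 : range (K.subtypeL : K → V) = K := by
    ext x; simp
  rw [h2, Real.dimH_univ_eq_finrank] at h1
  have h3 : dimH (K : Set V) < ((d : ℝ≥0) : ℝ≥0∞) := by
    refine h1.trans_lt ?_
    exact_mod_cast hK
  simpa using hausdorffMeasure_of_dimH_lt h3

lemma null_cross {Q : Fin m → Submodule ℝ V} (hQ : ∀ i, finrank ℝ (Q i) = d)
    (hne : Pairwise fun i j => Q i ≠ Q j) :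
    μH[d] {x : V | ∃ i j, i ≠ j ∧ x ∈ Q i ∧ x ∈ Q j} = 0 := by
  have : {x : V | ∃ i j, i ≠ j ∧ x ∈ Q i ∧ x ∈ Q j}
      = ⋃ i, ⋃ j, ⋃ _ : i ≠ j, ((Q i ⊓ Q j : Submodule ℝ V) : Set V) := by
    ext x
    simp only [mem_ofPred_eq, mem_iUnion, SetLike.mem_coe, Submodule.mem_inf, exists_prop]
  rw [this]
  exact measure_iUnion_null fun i => measure_iUnion_null fun j => measure_iUnion_null fun h =>
    null_sub (finrank_inf_lt (hQ i) (hQ j) (hne h))

lemma le_img {P : Fin m → Submodule ℝ V} (L : V →L[ℝ] V) (hL : ∀ i, ∀ v ∈ P i, ‖L v‖ = ‖v‖)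
    (hQ : ∀ i, finrank ℝ (mp L P i) = d) (hne : Pairwise fun i j => mp L P i ≠ mp L P j)
    {A : Set V} (hA : A ⊆ ⋃ i, (P i : Set V)) : μH[d] A ≤ μH[d] (L '' A) := by
  set Q := mp L P with hQd
  let D : Fin m → Set V := fun i => (Q i : Set V) \ ⋃ j, ⋃ _ : j ≠ i, (Q j : Set V)
  have hm : ∀ i, MeasurableSet (Q i : Set V) := fun i =>
    (Q i).closed_of_finiteDimensional.measurableSet
  have hD : ∀ i, MeasurableSet (D i) := fun i =>
    (hm i).diff (MeasurableSet.iUnion fun j => MeasurableSet.iUnion fun _ => hm j)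
  have hdis : Pairwise (Function.onFun Disjoint D) := by
    intro i j hij
    refine Set.disjoint_left.2 fun x hx hy => hx.2 ?_
    exact mem_iUnion₂.2 ⟨j, hij.symm, hy.1⟩
  calc μH[d] A ≤ μH[d] (⋃ i, A ∩ P i) := measure_mono fun x hx => by
        obtain ⟨i, hi⟩ := mem_iUnion.1 (hA hx)
        exact mem_iUnion.2 ⟨i, hx, hi⟩
    _ ≤ ∑' i, μH[d] (A ∩ P i) := measure_iUnion_le _
    _ ≤ ∑' i, μH[d] (L '' A ∩ D i) := by
        refine ENNReal.tsum_le_tsum fun i => ?_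
        have h1 := img_le (d := d) id L (A ∩ P i) 1 (fun x hx y hy => by
          rw [dist_eq_norm, dist_eq_norm, ← map_sub, hL i _ ((P i).sub_mem hx.2 hy.2)]
          simp)
        rw [image_id] at h1
        simp only [ENNReal.coe_one, one_pow, one_mul] at h1
        refine h1.trans ?_
        calc μH[d] (L '' (A ∩ P i))
            ≤ μH[d] ((L '' A ∩ D i) ∪ {x : V | ∃ i j, i ≠ j ∧ x ∈ Q i ∧ x ∈ Q j}) := by
              refine measure_mono ?_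
              rintro _ ⟨x, hx, rfl⟩
              have hx2 : L x ∈ Q i := ⟨x, hx.2, rfl⟩
              by_cases hc : L x ∈ D i
              · exact Or.inl ⟨⟨x, hx.1, rfl⟩, hc⟩
              · right
                have : L x ∈ ⋃ j, ⋃ _ : j ≠ i, (Q j : Set V) := by
                  by_contra h; exact hc ⟨hx2, h⟩
                obtain ⟨j, hj, hj2⟩ := mem_iUnion₂.1 this
                exact ⟨j, i, hj, hj2, hx2⟩
          _ ≤ _ := measure_union_le _ _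
          _ = _ := by rw [null_cross hQ hne, add_zero]
    _ ≤ _ := tsum_inter_le _ _ D hD hdis

lemma key_le {P : Fin m → Submodule ℝ V} (L : V →L[ℝ] V) (hL : ∀ i, ∀ v ∈ P i, ‖L v‖ = ‖v‖)
    (hQ : ∀ i, finrank ℝ (mp L P i) = d) (hne : Pairwise fun i j => mp L P i ≠ mp L P j)
    {F F' N : Set V} (hN : μH[d] N = 0) (hF : F' ⊆ L '' F ∪ N)
    (hmin : μH[d] ((⋃ i, (mp L P i : Set V)) \ F') ≤ μH[d] (F' \ ⋃ i, (mp L P i : Set V))) :
    μH[d] ((⋃ i, (P i : Set V)) \ F) ≤ μH[d] (L '' (F \ ⋃ i, (P i : Set V))) := by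
  set E := ⋃ i, (P i : Set V) with hE
  set E' := ⋃ i, (mp L P i : Set V) with hE'
  have hEE : E' = L '' E := mp_union L P
  set X := L '' (F \ E) with hX
  have hm : MeasurableSet E' := (union_closed_finite hQ).1.measurableSet
  have h1 : μH[d] (E' \ L '' F) ≤ μH[d] (X \ E') := by
    calc μH[d] (E' \ L '' F) ≤ μH[d] ((E' \ F') ∪ N) := by
          refine measure_mono fun x hx => ?_
          by_cases h : x ∈ F'
          · exact Or.inr ((hF h).resolve_left hx.2)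
          · exact Or.inl ⟨hx.1, h⟩
      _ ≤ _ := measure_union_le _ _
      _ = μH[d] (E' \ F') := by rw [hN, add_zero]
      _ ≤ _ := hmin
      _ ≤ μH[d] ((X \ E') ∪ N) := by
          refine measure_mono fun x hx => ?_
          rcases hF hx.1 with ⟨y, hy, rfl⟩ | h
          · exact Or.inl ⟨⟨y, ⟨hy, fun h => hx.2 (hEE ▸ ⟨y, h, rfl⟩)⟩, rfl⟩, hx.2⟩
          · exact Or.inr h
      _ ≤ _ := measure_union_le _ _
      _ = _ := by rw [hN, add_zero]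
  calc μH[d] (E \ F) ≤ μH[d] (L '' (E \ F)) := le_img L hL hQ hne sdiff_subset
    _ ≤ μH[d] ((X ∩ E') ∪ (E' \ L '' F) ∪
        {x : V | ∃ i j, i ≠ j ∧ x ∈ mp L P i ∧ x ∈ mp L P j}) := by
        refine measure_mono ?_
        rintro _ ⟨x, hx, rfl⟩
        have hx' : L x ∈ E' := hEE ▸ ⟨x, hx.1, rfl⟩
        by_cases h : L x ∈ L '' F
        · obtain ⟨y, hy, hxy⟩ := h
          by_cases hyE : y ∈ E
          · obtain ⟨i, hi⟩ := mem_iUnion.1 hx.1
            obtain ⟨j, hj⟩ := mem_iUnion.1 hyE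
            by_cases hij : i = j
            · subst hij
              have h2 := hL i _ ((P i).sub_mem hj hi)
              rw [map_sub, hxy, sub_self, norm_zero, eq_comm, norm_eq_zero, sub_eq_zero] at h2
              exact absurd (h2 ▸ hy) hx.2
            · exact Or.inr ⟨i, j, hij, ⟨x, hi, rfl⟩, ⟨y, hj, hxy⟩⟩
          · exact Or.inl (Or.inl ⟨⟨y, ⟨hy, hyE⟩, hxy⟩, hx'⟩)
        · exact Or.inl (Or.inr ⟨hx', h⟩)
    _ ≤ _ := measure_union_le _ _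
    _ = μH[d] ((X ∩ E') ∪ (E' \ L '' F)) := by rw [null_cross hQ hne, add_zero]
    _ ≤ _ := measure_union_le _ _
    _ ≤ μH[d] (X ∩ E') + μH[d] (X \ E') := by gcongr
    _ = _ := measure_inter_add_sdiff X hm

variable {p q : V} {σ₀ σ₁ : ℝ} {L₀ L₁ : V →L[ℝ] V} {t₀ t₁ : ℝ≥0}

omit [FiniteDimensional ℝ V] in
lemma le_Phi (ht : t₀ + t₁ = 1) {x : ℝ≥0∞} {A : Set V} (h₀ : x ≤ μH[d] (L₀ '' A))
    (h₁ : x ≤ μH[d] (L₁ '' A)) : x ≤ Phi d t₀ t₁ L₀ L₁ A := by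
  calc x = (t₀ : ℝ≥0∞) * x + t₁ * x := by
        rw [← add_mul, ← ENNReal.coe_add, ht, ENNReal.coe_one, one_mul]
    _ ≤ _ := by unfold Phi; gcongr

omit [FiniteDimensional ℝ V] in
lemma Phi_union (A B : Set V) :
    Phi d t₀ t₁ L₀ L₁ (A ∪ B) ≤ Phi d t₀ t₁ L₀ L₁ A + Phi d t₀ t₁ L₀ L₁ B := by
  unfold Phi
  rw [image_union, image_union]
  calc _ ≤ (t₀ : ℝ≥0∞) * (μH[d] (L₀ '' A) + μH[d] (L₀ '' B))
        + t₁ * (μH[d] (L₁ '' A) + μH[d] (L₁ '' B)) := by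
        gcongr <;> exact measure_union_le _ _
    _ = _ := by ring

theorem top_step {P : Fin m → Submodule ℝ V} (hd : 1 ≤ d) (hk : d + 2 ≤ finrank ℝ V)
    (hfam : Fam P) (hP : ∀ i, finrank ℝ (P i) = d) (h₀ : Form p q σ₀ L₀) (h₁ : Form p q σ₁ L₁)
    (ht : t₀ + t₁ = 1) (hσ : t₀ * σ₀ + t₁ * σ₁ = 0)
    (hpq : ∀ i, ∀ v ∈ P i, inner ℝ p v * inner ℝ q v = 0)
    (f₀ : ∀ i, finrank ℝ (mp L₀ P i) = d) (f₁ : ∀ i, finrank ℝ (mp L₁ P i) = d)
    (n₀ : Pairwise fun i j => mp L₀ P i ≠ mp L₀ P j) (n₁ : Pairwise fun i j => mp L₁ P i ≠ mp L₁ P j)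
    (m₀ : IsMinimal d (TopCompetitor d) (⋃ i, (mp L₀ P i : Set V)))
    (m₁ : IsMinimal d (TopCompetitor d) (⋃ i, (mp L₁ P i : Set V))) :
    IsMinimal d (TopCompetitor d) (⋃ i, (P i : Set V)) := by
  refine ⟨(union_closed_finite hP).1, (union_closed_finite hP).2, fun F hF => ?_⟩
  set E := ⋃ i, (P i : Set V) with hE
  by_cases hf : μH[d] (F \ E) = ⊤
  · rw [hf]; exact le_top
  set C : ℝ≥0 := (‖L₀‖₊ + ‖L₁‖₊) ^ d + 1 with hC
  have hC0 : C ≠ 0 := by positivity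
  refine ENNReal.le_of_forall_pos_le_add fun ε hε _ => ?_
  obtain ⟨F₁, A, Z, c1, c2, c3, c4, c5, c6⟩ := top_reduce hd (by omega)
    (union_closed_finite hP).1 hF hf (ε := ((ε / C : ℝ≥0) : ℝ≥0∞)) (by
      rw [ENNReal.coe_pos]; positivity)
  have one : ∀ {σ : ℝ} {L : V →L[ℝ] V}, Form p q σ L → (∀ i, finrank ℝ (mp L P i) = d) →
      (Pairwise fun i j => mp L P i ≠ mp L P j) →
      IsMinimal d (TopCompetitor d) (⋃ i, (mp L P i : Set V)) →
      μH[d] (E \ F) ≤ μH[d] (L '' (A ∪ Z)) := by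
    intro σ L h f n mm
    have hL : ∀ i, ∀ v ∈ P i, ‖L v‖ = ‖v‖ := fun i v hv => h.iso (hpq i v hv)
    have h2 := top_transfer hfam hP hk L hL c1
    rw [← mp_union] at h2
    have h3 := key_le L hL f n (N := ∅) measure_empty subset_union_left (mm.2.2 _ h2)
    exact (measure_mono c2).trans (h3.trans (measure_mono (image_mono c3)))
  calc μH[d] (E \ F) ≤ Phi d t₀ t₁ L₀ L₁ (A ∪ Z) := le_Phi ht (one h₀ f₀ n₀ m₀) (one h₁ f₁ n₁ m₁)
    _ ≤ _ := Phi_union A Z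
    _ ≤ μH[d] (F \ E) + (C : ℝ≥0∞) * ((ε / C : ℝ≥0) : ℝ≥0∞) := by
        refine add_le_add ((area h₀ h₁ ht hσ c5).trans (measure_mono c4))
          ((Phi_le ht Z).trans ?_)
        gcongr
        rw [hC]
        push_cast
        exact le_self_add
    _ = _ := by rw [← ENNReal.coe_mul, mul_div_cancel₀ _ hC0]

omit [MeasurableSpace V] [BorelSpace V] in
lemma alm_rect {P : Fin m → Submodule ℝ V} (hP : ∀ i, finrank ℝ (P i) = d) {F : Set V}
    (hF : AlmgrenCompetitor (⋃ i, (P i : Set V)) F) : Rect d F := by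
  obtain ⟨f, K, c, r, hf, -, -, rfl⟩ := hF
  choose b hb hbP using fun i => exists_frame (P i) (hP i)
  refine ⟨fun j => if h : j < m then f ∘ emb (b ⟨j, h⟩) else fun _ => 0, fun j => ?_, ?_⟩
  · by_cases h : j < m
    · simp only [dif_pos h]
      exact ⟨_, hf.comp (isometry_emb (hb _)).lipschitz⟩
    · simp only [dif_neg h]
      exact ⟨0, LipschitzWith.const _⟩
  · rintro _ ⟨x, hx, rfl⟩
    obtain ⟨i, hi⟩ := mem_iUnion.1 hx
    refine mem_iUnion.2 ⟨i, xc (b i) x, ?_⟩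
    simp only [dif_pos i.2, Function.comp]
    rw [emb_xc (hP i) (hb i) (hbP i) hi]

theorem alm_step {P : Fin m → Submodule ℝ V}
    (hP : ∀ i, finrank ℝ (P i) = d) (h₀ : Form p q σ₀ L₀) (h₁ : Form p q σ₁ L₁)
    (ht : t₀ + t₁ = 1) (hσ : t₀ * σ₀ + t₁ * σ₁ = 0)
    (hpq : ∀ i, ∀ v ∈ P i, inner ℝ p v * inner ℝ q v = 0)
    (f₀ : ∀ i, finrank ℝ (mp L₀ P i) = d) (f₁ : ∀ i, finrank ℝ (mp L₁ P i) = d)
    (n₀ : Pairwise fun i j => mp L₀ P i ≠ mp L₀ P j) (n₁ : Pairwise fun i j => mp L₁ P i ≠ mp L₁ P j)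
    (r₀ : ∀ F, AlmgrenCompetitor (⋃ i, (P i : Set V)) F → ∃ F' N : Set V,
      AlmgrenCompetitor (L₀ '' ⋃ i, (P i : Set V)) F' ∧ μH[d] N = 0 ∧ F' ⊆ L₀ '' F ∪ N)
    (r₁ : ∀ F, AlmgrenCompetitor (⋃ i, (P i : Set V)) F → ∃ F' N : Set V,
      AlmgrenCompetitor (L₁ '' ⋃ i, (P i : Set V)) F' ∧ μH[d] N = 0 ∧ F' ⊆ L₁ '' F ∪ N)
    (m₀ : IsMinimal d AlmgrenCompetitor (⋃ i, (mp L₀ P i : Set V)))
    (m₁ : IsMinimal d AlmgrenCompetitor (⋃ i, (mp L₁ P i : Set V))) :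
    IsMinimal d AlmgrenCompetitor (⋃ i, (P i : Set V)) := by
  refine ⟨(union_closed_finite hP).1, (union_closed_finite hP).2, fun F hF => ?_⟩
  set E := ⋃ i, (P i : Set V) with hE
  have one : ∀ {σ : ℝ} {L : V →L[ℝ] V}, Form p q σ L → (∀ i, finrank ℝ (mp L P i) = d) →
      (Pairwise fun i j => mp L P i ≠ mp L P j) →
      (∃ F' N : Set V, AlmgrenCompetitor (L '' E) F' ∧ μH[d] N = 0 ∧ F' ⊆ L '' F ∪ N) →
      IsMinimal d AlmgrenCompetitor (⋃ i, (mp L P i : Set V)) →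
      μH[d] (E \ F) ≤ μH[d] (L '' (F \ E)) := by
    rintro σ L h f n ⟨F', N, c1, c2, c3⟩ mm
    have hL : ∀ i, ∀ v ∈ P i, ‖L v‖ = ‖v‖ := fun i v hv => h.iso (hpq i v hv)
    rw [hE, ← mp_union] at c1
    exact key_le L hL f n c2 c3 (mm.2.2 _ c1)
  obtain ⟨g, hg, hc⟩ := alm_rect hP hF
  exact (le_Phi ht (one h₀ f₀ n₀ (r₀ F hF) m₀) (one h₁ f₁ n₁ (r₁ F hF) m₁)).trans
    (area h₀ h₁ ht hσ ⟨g, hg, sdiff_subset.trans hc⟩)

end

end Pool.Agent.Lib.MP_b07a76_an
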