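import Pool.Agent.Lib.MP_b07a76_an.IHom

/-! Ellipsoids and round spheres. -/

namespace Pool.Agent.Lib.MP_b07a76_an

noncomputable section
open MeasureTheory Module Metric Set Filter
open scoped NNReal ENNReal Topology

variable {V : Type} [NormedAddCommGroup V] [InnerProductSpace ℝ V] [FiniteDimensional ℝ V]
  {k d m : ℕ}

omit [FiniteDimensional ℝ V] in
/-- Sketch: a nonzero `v ∈ N ⊓ P` gives a line `x + t v` in `P` which leaves the disc, so it meets the sphere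
(intermediate value theorem). -/
lemma inf_eq_bot_of_disc {c : V} {ρ : ℝ} {N P : Submodule ℝ V} (h1 : Disjoint (Sph c ρ N) P)
    {x : V} (hx : x ∈ Dsc c ρ N) (hxP : x ∈ P) : N ⊓ P = ⊥ := by
  rw [Submodule.eq_bot_iff]
  rintro v ⟨hvN, hvP⟩
  by_contra hv
  have hv' : 0 < ‖v‖ := norm_pos_iff.2 hv
  have hf : Continuous fun t : ℝ => ‖x + t • v - c‖ := by fun_prop
  have hρ : 0 ≤ ρ := (norm_nonneg _).trans hx.2
  have h2 : ρ ≤ ‖x + ((ρ + ‖x - c‖) / ‖v‖) • v - c‖ := by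
    have h3 := norm_sub_le (x + ((ρ + ‖x - c‖) / ‖v‖) • v - c) (x - c)
    rw [show x + ((ρ + ‖x - c‖) / ‖v‖) • v - c - (x - c) = ((ρ + ‖x - c‖) / ‖v‖) • v by abel,
      norm_smul, Real.norm_of_nonneg (by positivity), div_mul_cancel₀ _ hv'.ne'] at h3
    linarith
  obtain ⟨t, ht⟩ := intermediate_value_univ 0 ((ρ + ‖x - c‖) / ‖v‖) hf
    (⟨by simpa using hx.2, h2⟩ : ρ ∈ Icc _ _)
  refine Set.disjoint_right.1 h1 (P.add_mem hxP (P.smul_mem t hvP)) ⟨?_, ht⟩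
  rw [add_sub_right_comm]
  exact N.add_mem hx.1 (N.smul_mem t hvN)

/-- Sketch. `N` and `P` are complementary; let `π` be the projection onto `N` along `P`, `x` the point of the disc
in `P` (`‖x - c‖ < ρ`), `g z = c + π (z - x)`, which maps `X` into `Y = {y | y - c ∉ Nᗮ}`. On the sphere
`g z = z + (c - x)`, homotopic to `z` in `Y` through `z + t (c - x)`. Use `nonzeroIn_sphere` for `Y`,
`NZ.homotopy`, `NZ.of_comp_left`. -/
lemma nonzeroIn_of_disc {c : V} {ρ : ℝ} (hρ : 0 < ρ) {N P : Submodule ℝ V} (hN : finrank ℝ N = k + 1)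
    (hP : finrank ℝ P + (k + 1) = finrank ℝ V) {X : Set V} (hS : Sph c ρ N ⊆ X)
    (hX : Disjoint X P) {x : V} (hx : x ∈ Dsc c ρ N) (hxP : x ∈ P) : NonzeroIn k (Sph c ρ N) X := by
  have hd : Disjoint (Sph c ρ N) P := hX.mono_left hS
  have hc : IsCompl N P := by
    have h1 : Disjoint N P := disjoint_iff.2 (inf_eq_bot_of_disc hd hx hxP)
    exact ⟨h1, codisjoint_iff.2 (Submodule.eq_top_of_disjoint N P (by omega) h1)⟩
  have hlt : ‖x - c‖ < ρ := lt_of_le_of_ne hx.2 fun h => Set.disjoint_left.1 hd ⟨hx.1, h⟩ hxP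
  have hN0 : ∀ v ∈ N, v ≠ 0 → v ∉ Nᗮ := fun v hv h0 h =>
    h0 (Submodule.disjoint_def.1 N.orthogonal_disjoint v hv h)
  have hπ : Continuous (N.projection P hc) := LinearMap.continuous_of_finiteDimensional _
  have h0 : NZ k (Subtype.val : Sph c ρ N → V) {y | y - c ∉ Nᗮ} :=
    nonzeroIn_iff_NZ.1 (nonzeroIn_sphere k c ρ hρ N hN _ (fun z hz => hN0 _ hz.1 fun h => by
      have h2 := hz.2
      rw [h, norm_zero] at h2
      exact hρ.ne h2) fun _ h => h)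
  refine nonzeroIn_iff_NZ.2 (NZ.of_comp_left (g := fun z => c + N.projection P hc (z - x))
    (Y := {y | y - c ∉ Nᗮ}) continuous_subtype_val (fun z => hS z.2) (by fun_prop)
    (fun z hz => ?_) (h0.homotopy (fun z => z.2.1 + (z.1 : ℝ) • (c - x)) (by fun_prop)
      ?_ (by simp) fun z => ?_))
  · show c + _ - c ∉ Nᗮ
    rw [add_sub_cancel_left]
    refine hN0 _ (Submodule.projection_apply_mem hc _) fun h => Set.disjoint_left.1 hX hz ?_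
    have h2 := P.add_mem ((Submodule.projection_apply_eq_zero_iff hc).1 h) hxP
    rwa [sub_add_cancel] at h2
  · rintro ⟨t, z, hz⟩
    show z + (t : ℝ) • (c - x) - c ∉ Nᗮ
    rw [show z + (t : ℝ) • (c - x) - c = (z - c) - (t : ℝ) • (x - c) by module]
    refine hN0 _ (N.sub_mem hz.1 (N.smul_mem _ hx.1)) fun h => ?_
    have h2 := congrArg norm (sub_eq_zero.1 h)
    rw [hz.2, norm_smul, Real.norm_of_nonneg t.2.1] at h2
    nlinarith [t.2.2, norm_nonneg (x - c)]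
  · have h2 : z.1 - x ∈ N := by
      have h3 := N.sub_mem z.2.1 hx.1
      rwa [sub_sub_sub_cancel_right] at h3
    show z.1 + (1 : ℝ) • (c - x) = c + N.projection P hc (z.1 - x)
    rw [(Submodule.projection_eq_self_iff hc _).2 h2, one_smul]
    abel

/-- The positive root of `‖θ + t v‖ = ρ`. -/
def ITopA_lam (θ : V) (ρ : ℝ) (v : V) : ℝ :=
  (-inner ℝ θ v + √(inner ℝ θ v ^ 2 + (ρ ^ 2 - ‖θ‖ ^ 2) * ‖v‖ ^ 2)) / ‖v‖ ^ 2

omit [FiniteDimensional ℝ V] in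
lemma ITopA_lam_spec {θ v : V} {ρ : ℝ} (h : ‖θ‖ < ρ) (hv : v ≠ 0) : 0 < ITopA_lam θ ρ v ∧
    ∀ t, 0 ≤ t → (t ≤ ITopA_lam θ ρ v → ‖θ + t • v‖ ≤ ρ) ∧
      (ITopA_lam θ ρ v ≤ t → ρ ≤ ‖θ + t • v‖) := by
  have ha : 0 < ‖v‖ ^ 2 := pow_pos (norm_pos_iff.2 hv) 2
  have he : 0 < ρ ^ 2 - ‖θ‖ ^ 2 := sub_pos.2 (pow_lt_pow_left₀ h (norm_nonneg _) two_ne_zero)
  have hρ : 0 ≤ ρ := (norm_nonneg _).trans h.le
  have hq : ∀ t : ℝ, ‖θ + t • v‖ ^ 2 = ‖θ‖ ^ 2 + 2 * (t * inner ℝ θ v) + t ^ 2 * ‖v‖ ^ 2 := fun t => by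
    rw [norm_add_sq_real, real_inner_smul_right, norm_smul, mul_pow, Real.norm_eq_abs, sq_abs]
  have hl : ITopA_lam θ ρ v * ‖v‖ ^ 2 =
      -inner ℝ θ v + √(inner ℝ θ v ^ 2 + (ρ ^ 2 - ‖θ‖ ^ 2) * ‖v‖ ^ 2) := div_mul_cancel₀ _ ha.ne'
  have hD := Real.sq_sqrt (show 0 ≤ inner ℝ θ v ^ 2 + (ρ ^ 2 - ‖θ‖ ^ 2) * ‖v‖ ^ 2 by positivity)
  have hD' := abs_lt.1 (Real.lt_sqrt_of_sq_lt (show |inner ℝ θ v| ^ 2 <
    inner ℝ θ v ^ 2 + (ρ ^ 2 - ‖θ‖ ^ 2) * ‖v‖ ^ 2 by rw [sq_abs]; linarith [mul_pos he ha]))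
  generalize √(inner ℝ θ v ^ 2 + (ρ ^ 2 - ‖θ‖ ^ 2) * ‖v‖ ^ 2) = D at hl hD hD'
  generalize ITopA_lam θ ρ v = l at hl
  generalize inner ℝ θ v = b at hq hl hD hD'
  generalize ‖v‖ ^ 2 = a at ha hq hl hD
  have h1 : l * (b + D) = ρ ^ 2 - ‖θ‖ ^ 2 :=
    mul_right_cancel₀ ha.ne' (by linear_combination (b + D) * hl + hD)
  have h2 : ∀ t : ℝ, ‖θ + t • v‖ ^ 2 - ρ ^ 2 = (t - l) * (a * t + (b + D)) := fun t => by
    linear_combination hq t + t * hl + h1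
  refine ⟨pos_of_mul_pos_left (by linarith [hD'.2]) ha.le, fun t ht => ?_⟩
  have h3 : 0 ≤ a * t + (b + D) := by linarith [mul_nonneg ha.le ht, hD'.1]
  constructor
  · intro h4
    refine (pow_le_pow_iff_left₀ (norm_nonneg _) hρ two_ne_zero).1 (sub_nonpos.1 ?_)
    rw [h2]
    exact mul_nonpos_of_nonpos_of_nonneg (sub_nonpos.2 h4) h3
  · intro h4
    refine (pow_le_pow_iff_left₀ hρ (norm_nonneg _) two_ne_zero).1 (sub_nonneg.1 ?_)
    rw [h2]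
    exact mul_nonneg (sub_nonneg.2 h4) h3

omit [FiniteDimensional ℝ V] in
/-- Sketch. For `y` on the round sphere let `v = A.symm (y - p) ≠ 0`, `θ = x₀ - c`, and let `lam y > 0` be the
positive root of `‖θ + t v‖ = ρ`, `lam = (-⟪θ,v⟫ + √(⟪θ,v⟫^2 + (ρ^2 - ‖θ‖^2) ‖v‖^2)) / ‖v‖^2`. The map
`y ↦ x₀ + lam y • v` goes continuously to `Sph c ρ N`, and `p + ((1-u) + u lam y) • (y - p)` stays in `Btw`
(for `t ≥ 0`, `‖θ + t v‖ ≤ ρ` iff `t ≤ lam`). Then `NZ.homotopy`, `NZ.of_comp_right`. -/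
lemma nz_radial (A : V ≃L[ℝ] V) {c : V} {ρ : ℝ} {N : Submodule ℝ V} {x₀ : V} (h1 : x₀ - c ∈ N)
    (h2 : ‖x₀ - c‖ < ρ) {r : ℝ} (hr : 0 < r) {Y : Set V} (hY : Btw A c ρ N (A x₀) r ⊆ Y)
    (hS : ∀ x ∈ Sph c ρ N, A x ∈ Y)
    (h : NZ k (Subtype.val : Sph (A x₀) r (N.map (A : V →ₗ[ℝ] V)) → V) Y) :
    NZ k (fun x : Sph c ρ N => A x) Y := by
  have hvN : ∀ y : Sph (A x₀) r (N.map (A : V →ₗ[ℝ] V)), A.symm (y.1 - A x₀) ∈ N := fun y => by
    obtain ⟨n, hn, h3⟩ := y.2.1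
    rw [← h3]
    exact (A.symm_apply_apply n).symm ▸ hn
  have hv0 : ∀ y : Sph (A x₀) r (N.map (A : V →ₗ[ℝ] V)), A.symm (y.1 - A x₀) ≠ 0 := fun y h3 => by
    have h4 := y.2.2
    rw [A.symm.map_eq_zero_iff.1 h3, norm_zero] at h4
    exact hr.ne h4
  have hl : Continuous fun y : Sph (A x₀) r (N.map (A : V →ₗ[ℝ] V)) =>
      ITopA_lam (x₀ - c) ρ (A.symm (y.1 - A x₀)) := by
    unfold ITopA_lam
    exact Continuous.div (by fun_prop) (by fun_prop) fun y => pow_ne_zero 2 (norm_ne_zero_iff.2 (hv0 y))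
  have hm : ∀ y : Sph (A x₀) r (N.map (A : V →ₗ[ℝ] V)),
      x₀ + ITopA_lam (x₀ - c) ρ (A.symm (y.1 - A x₀)) • A.symm (y.1 - A x₀) ∈ Sph c ρ N := fun y => by
    obtain ⟨h3, h4⟩ := ITopA_lam_spec h2 (hv0 y)
    refine ⟨?_, ?_⟩ <;> rw [add_sub_right_comm]
    · exact N.add_mem h1 (N.smul_mem _ (hvN y))
    · exact le_antisymm ((h4 _ h3.le).1 le_rfl) ((h4 _ h3.le).2 le_rfl)
  refine NZ.of_comp_right (by fun_prop) (fun x => hS x.1 x.2) (ρ := fun y => ⟨_, hm y⟩)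
    (Continuous.subtype_mk (by fun_prop) hm) (h.homotopy (fun z => A x₀ + (1 - (z.1 : ℝ) + z.1 *
      ITopA_lam (x₀ - c) ρ (A.symm (z.2.1 - A x₀))) • (z.2.1 - A x₀)) ?_ ?_ (by simp) (by simp))
  · have h3 := hl.comp (continuous_snd (X := unitInterval))
    exact continuous_const.add (Continuous.smul
      (Continuous.add (by fun_prop) (Continuous.mul (by fun_prop) h3)) (by fun_prop))
  · rintro ⟨u, y⟩
    obtain ⟨h3, h4⟩ := ITopA_lam_spec h2 (hv0 y)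
    have h5 := hvN y
    have h6 := y.2.2
    obtain ⟨u, hu0, hu1⟩ := u
    apply hY
    simp only [Btw, mem_ofPred_eq]
    generalize ITopA_lam (x₀ - c) ρ (A.symm (y.1 - A x₀)) = l at h3 h4
    have h7 : 0 ≤ 1 - u + u * l := by nlinarith
    rw [map_add, map_smul, A.symm_apply_apply, add_sub_right_comm, add_sub_cancel_left, norm_smul,
      h6, Real.norm_of_nonneg h7]
    refine ⟨N.add_mem h1 (N.smul_mem _ h5), ?_⟩
    rcases le_total 1 l with h8 | h8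
    · exact Or.inl ⟨(h4 _ h7).1 (by nlinarith),
        le_mul_of_one_le_left hr.le (by nlinarith)⟩
    · exact Or.inr ⟨(h4 _ h7).2 (by nlinarith),
        mul_le_of_le_one_left hr.le (by nlinarith)⟩

/-- Sketch. `E = ⋃ i, P i` is a cone containing `0`. `Btw` is compact and misses `0`, so for some `s ≥ 1` the set
`Btw (s A) c ρ N (s A x₀) (s r) = s • Btw ..` lies in `Y = {z | R ≤ ‖z‖ ∧ z ∉ E} ⊆ Fᶜ`. The round sphere
`Sph (s A x₀) (s r) (N.map (s A))` lies in that `Btw`, is nonzero in `Eᶜ` by `nonzeroIn_of_disc`, hence in `Fᶜ`;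
`nz_radial` for `s A`; finally the homotopy `((1-u) s + u) • A x` in `Y`. -/
lemma nz_of_ball {P : Fin m → Submodule ℝ V} (hP : ∀ i, finrank ℝ (P i) + (k + 1) = finrank ℝ V)
    {F : Set V} {R : ℝ} (hF1 : ∀ z ∈ F, R ≤ ‖z‖ → z ∈ ⋃ i, (P i : Set V))
    (hF2 : ∀ S, IsRoundSphere k S → (∀ z ∈ S, R ≤ ‖z‖) → NonzeroIn k S (⋃ i, (P i : Set V))ᶜ →
      NonzeroIn k S Fᶜ)
    (A : V ≃L[ℝ] V) {c : V} {ρ : ℝ} {N : Submodule ℝ V} (hN : finrank ℝ N = k + 1)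
    (hS : ∀ x ∈ Sph c ρ N, R ≤ ‖A x‖ ∧ A x ∉ ⋃ i, (P i : Set V))
    {x₀ : V} (h1 : x₀ - c ∈ N) (h2 : ‖x₀ - c‖ < ρ) {i : Fin m} (hi : A x₀ ∈ P i) {r : ℝ}
    (hr : 0 < r) (hB : Disjoint (Btw A c ρ N (A x₀) r) (⋃ i, (P i : Set V))) :
    NZ k (fun x : Sph c ρ N => A x) Fᶜ := by
  have hcl : IsClosed (Btw A c ρ N (A x₀) r) := by
    have h3 : IsClosed (N : Set V) := N.closed_of_finiteDimensional
    have h4 : Continuous fun z => ‖A.symm z - c‖ := by fun_prop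
    have h5 : Continuous fun z => ‖z - A x₀‖ := by fun_prop
    exact (h3.preimage (f := fun z => A.symm z - c) (by fun_prop)).inter (IsClosed.union
      ((isClosed_le h4 continuous_const).inter (isClosed_le continuous_const h5))
      ((isClosed_le continuous_const h4).inter (isClosed_le h5 continuous_const)))
  obtain ⟨δ, hδ, hδ'⟩ := Metric.isOpen_iff.1 hcl.isOpen_compl 0
    (Set.disjoint_right.1 hB (mem_iUnion.2 ⟨i, (P i).zero_mem⟩))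
  have hE : ∀ t : ℝ, 0 < t → ∀ w, w ∉ ⋃ i, (P i : Set V) → t • w ∉ ⋃ i, (P i : Set V) := by
    intro t ht w hw h
    obtain ⟨j, hj⟩ := mem_iUnion.1 h
    exact hw (mem_iUnion.2 ⟨j, ((P j).smul_mem_iff ht.ne').1 hj⟩)
  have hT : ∀ t : ℝ, 1 ≤ t → ∀ x ∈ Sph c ρ N, t • A x ∈ Fᶜ := fun t ht x hx h =>
    hE t (by linarith) _ (hS x hx).2 (hF1 _ h (by
      rw [norm_smul, Real.norm_of_nonneg (by linarith)]
      exact (hS x hx).1.trans (le_mul_of_one_le_left (norm_nonneg _) ht)))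
  obtain ⟨s, hs, hsR⟩ : ∃ s : ℝ, 1 ≤ s ∧ R ≤ s * δ := ⟨1 + |R| / δ,
    le_add_of_nonneg_right (by positivity), by
      rw [add_mul, div_mul_cancel₀ _ hδ.ne']
      linarith [le_abs_self R]⟩
  have hs0 : 0 < s := by linarith
  obtain ⟨B, hB1, hB2⟩ : ∃ B : V ≃L[ℝ] V, (∀ x, B x = s • A x) ∧
      ∀ z, B.symm z = A.symm (s⁻¹ • z) :=
    ⟨ContinuousLinearEquiv.equivOfInverse (s • (A : V →L[ℝ] V)) (s⁻¹ • (A.symm : V →L[ℝ] V))
      (fun x => by simp [smul_smul, hs0.ne']) (fun x => by simp [smul_smul, hs0.ne']),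
      fun x => rfl, fun z => by rw [map_smul]; rfl⟩
  have hsub : ∀ z ∈ Btw B c ρ N (B x₀) (s * r), R ≤ ‖z‖ ∧ z ∉ ⋃ i, (P i : Set V) := by
    intro z hz
    obtain ⟨w, rfl⟩ : ∃ w, z = s • w := ⟨s⁻¹ • z, (smul_inv_smul₀ hs0.ne' z).symm⟩
    have hw : w ∈ Btw A c ρ N (A x₀) r := by
      simp only [Btw, mem_ofPred_eq] at hz ⊢
      rwa [hB2, inv_smul_smul₀ hs0.ne', hB1, ← smul_sub, norm_smul, Real.norm_of_nonneg hs0.le,
        mul_le_mul_iff_right₀ hs0, mul_le_mul_iff_right₀ hs0] at hz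
    refine ⟨?_, hE s hs0 w (Set.disjoint_left.1 hB hw)⟩
    have h3 : δ ≤ ‖w‖ := not_lt.1 fun h => hδ' (mem_ball_zero_iff.2 h) hw
    rw [norm_smul, Real.norm_of_nonneg hs0.le]
    exact hsR.trans (mul_le_mul_of_nonneg_left h3 hs0.le)
  have hS' : Sph (B x₀) (s * r) (N.map (B : V →ₗ[ℝ] V)) ⊆ Btw B c ρ N (B x₀) (s * r) := by
    rintro z ⟨⟨n, hn, h3⟩, h4⟩
    refine ⟨?_, (le_total _ _).imp (fun h => ⟨h, h4.ge⟩) fun h => ⟨h, h4.le⟩⟩
    have h5 : z = B (n + x₀) := by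
      rw [map_add]
      exact (eq_sub_iff_add_eq.1 h3).symm
    rw [h5, B.symm_apply_apply, add_sub_assoc]
    exact N.add_mem hn h1
  have hN' : finrank ℝ (N.map (B : V →ₗ[ℝ] V)) = k + 1 :=
    (B.toLinearEquiv.finrank_map_eq N).trans hN
  have hsr : 0 < s * r := mul_pos hs0 hr
  have h3 := hF2 _ ⟨_, _, _, hsr, hN', rfl⟩ (fun z hz => (hsub z (hS' hz)).1)
    (nonzeroIn_of_disc hsr hN' (hP i) (fun z hz => (hsub z (hS' hz)).2)
      (Set.disjoint_left.2 fun z hz h => hz (mem_iUnion.2 ⟨i, h⟩)) (x := B x₀)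
      ⟨by simp, by simpa using hsr.le⟩ (hB1 x₀ ▸ (P i).smul_mem s hi))
  have h4 := nz_radial B h1 h2 hsr (fun z hz h => (hsub z hz).2 (hF1 z h (hsub z hz).1))
    (fun x hx => hB1 x ▸ hT s hs x hx) (nonzeroIn_iff_NZ.1 h3)
  refine h4.homotopy (fun z => ((1 - (z.1 : ℝ)) * s + z.1) • A z.2.1) (by fun_prop)
    (fun z => hT _ ?_ _ z.2.2) (by simp [hB1]) (by simp)
  nlinarith [z.1.2.2]

end

end Pool.Agent.Lib.MP_b07a76_an
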