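import Pool.Agent.Lib.MP_b07a76_an.ITopA

/-! An ellipsoid whose disc meets the planes stays nonzero. -/

namespace Pool.Agent.Lib.MP_b07a76_an

noncomputable section
open MeasureTheory Module Metric Set Filter
open scoped NNReal ENNReal Topology

variable {V : Type} [NormedAddCommGroup V] [InnerProductSpace ℝ V] [FiniteDimensional ℝ V]
  {k d m : ℕ}

omit [FiniteDimensional ℝ V] in
lemma ITopB_uniq {Q : Submodule ℝ V} (A : V ≃L[ℝ] V) {c : V} {ρ : ℝ} {N : Submodule ℝ V}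
    (hS : ∀ x ∈ Sph c ρ N, A x ∉ Q) {x₀ : V} (hx : x₀ ∈ Dsc c ρ N) (hQ : A x₀ ∈ Q) :
    ‖x₀ - c‖ < ρ ∧ ∀ y, y - c ∈ N → A y ∈ Q → y = x₀ := by
  refine ⟨lt_of_le_of_ne hx.2 fun h => hS x₀ ⟨hx.1, h⟩ hQ, fun y hy hyQ => ?_⟩
  have hd : Disjoint (Sph c ρ N) (Q.comap (A : V →ₗ[ℝ] V) : Set V) :=
    Set.disjoint_left.2 fun x hx hxQ => hS x hx hxQ
  have hb := inf_eq_bot_of_disc hd hx hQ
  have h1 : y - x₀ ∈ N := by
    have := N.sub_mem hy hx.1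
    rwa [sub_sub_sub_cancel_right] at this
  have h2 : y - x₀ ∈ Q.comap (A : V →ₗ[ℝ] V) := Submodule.sub_mem _ hyQ hQ
  have h3 : y - x₀ ∈ N ⊓ Q.comap (A : V →ₗ[ℝ] V) := ⟨h1, h2⟩
  rw [hb, Submodule.mem_bot] at h3
  exact sub_eq_zero.1 h3

omit [FiniteDimensional ℝ V] in
lemma ITopB_btw {P : Fin m → Submodule ℝ V} (A : V ≃L[ℝ] V) {c : V} {ρ : ℝ} {N : Submodule ℝ V}
    {p : V} {r : ℝ} (h : ∀ j y, y - c ∈ N → A y ∈ P j →
      (‖y - c‖ ≤ ρ → ‖A y - p‖ < r) ∧ (ρ ≤ ‖y - c‖ → r < ‖A y - p‖)) :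
    Disjoint (Btw A c ρ N p r) (⋃ i, (P i : Set V)) := by
  refine Set.disjoint_left.2 fun z hz hzP => ?_
  obtain ⟨j, hj⟩ := mem_iUnion.1 hzP
  have h' := h j (A.symm z) hz.1 (by simpa using hj)
  rw [A.apply_symm_apply] at h'
  rcases hz.2 with ⟨h1, h2⟩ | ⟨h1, h2⟩
  · exact absurd (h'.1 h1) (not_lt.2 h2)
  · exact absurd (h'.2 h1) (not_lt.2 h2)

omit [FiniteDimensional ℝ V] in
lemma ITopB_diam (A : V ≃L[ℝ] V) {c : V} {ρ : ℝ} {x y : V} (hx : ‖x - c‖ ≤ ρ) (hy : ‖y - c‖ ≤ ρ) :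
    ‖A y - A x‖ < ‖(A : V →L[ℝ] V)‖ * (2 * ρ) + 1 := by
  have h1 : ‖y - x‖ ≤ 2 * ρ := by
    have := norm_sub_le (y - c) (x - c)
    rw [sub_sub_sub_cancel_right] at this
    linarith
  have h2 : ‖A y - A x‖ ≤ ‖(A : V →L[ℝ] V)‖ * ‖y - x‖ := by
    rw [← map_sub]
    exact (A : V →L[ℝ] V).le_opNorm _
  have h3 := mul_le_mul_of_nonneg_left h1 (norm_nonneg (A : V →L[ℝ] V))
  linarith

lemma ITopB_proj {P : Fin m → Submodule ℝ V} (h : DirectSum.IsInternal P) (I : Set (Fin m)) :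
    ∃ q : V →L[ℝ] V, (∀ j ∈ I, ∀ z ∈ P j, q z = 0) ∧ (∀ j ∉ I, ∀ z ∈ P j, q z = z) ∧
      ∀ z, q (q z) = q z := by
  classical
  let e := LinearEquiv.ofBijective (DirectSum.coeLinearMap P) h
  let q₀ : V →ₗ[ℝ] V :=
    (DirectSum.toModule ℝ (Fin m) V (fun j => if j ∈ I then 0 else (P j).subtype)) ∘ₗ e.symm
  have he : ∀ j (z : V) (hz : z ∈ P j), e.symm z = DirectSum.lof ℝ (Fin m) (fun j => P j) j ⟨z, hz⟩ := by
    intro j z hz
    rw [LinearEquiv.symm_apply_eq]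
    simp [e, DirectSum.lof_eq_of]
  have h1 : ∀ j ∈ I, ∀ z ∈ P j, q₀ z = 0 := by
    intro j hj z hz
    simp [q₀, he j z hz, hj]
  have h2 : ∀ j ∉ I, ∀ z ∈ P j, q₀ z = z := by
    intro j hj z hz
    simp [q₀, he j z hz, hj]
  refine ⟨LinearMap.toContinuousLinearMap q₀, h1, h2, fun z => ?_⟩
  have hz : z ∈ ⨆ j, P j := by rw [h.submodule_iSup_eq_top]; trivial
  change q₀ (q₀ z) = q₀ z
  refine Submodule.iSup_induction P (motive := fun z => q₀ (q₀ z) = q₀ z) hz ?_ (by simp) ?_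
  · intro j z hz
    by_cases hj : j ∈ I
    · rw [h1 j hj z hz, map_zero]
    · rw [h2 j hj z hz, h2 j hj z hz]
  · intro x y hx hy
    rw [map_add, map_add, hx, hy]

omit [FiniteDimensional ℝ V] in
lemma ITopB_inv {q : V →L[ℝ] V} (hq : ∀ z, q (q z) = q z) {t : ℝ} (ht : 0 ≤ t) (z : V) :
    (z + t • q z) - (t / (1 + t)) • q (z + t • q z) = z := by
  have h : (1 + t) ≠ 0 := by positivity
  rw [map_add, map_smul, hq]
  have : (t / (1 + t)) • (q z + t • q z) = t • q z := by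
    rw [show q z + t • q z = (1 + t) • q z by rw [add_smul, one_smul], smul_smul,
      div_mul_cancel₀ _ h]
  rw [this, add_sub_cancel_right]

omit [FiniteDimensional ℝ V] in
lemma ITopB_norm {q : V →L[ℝ] V} (hq : ∀ z, q (q z) = q z) {t : ℝ} (ht : 0 ≤ t) (z : V) :
    ‖z‖ ≤ ‖(1 + t * ‖q‖) • (z + t • q z)‖ := by
  have h0 : 0 ≤ 1 + t * ‖q‖ := by positivity
  rw [norm_smul, Real.norm_of_nonneg h0]
  have h1 := norm_sub_le (z + t • q z) ((t / (1 + t)) • q (z + t • q z))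
  rw [ITopB_inv hq ht, norm_smul, Real.norm_of_nonneg (by positivity : 0 ≤ t / (1 + t))] at h1
  have h2 : t / (1 + t) ≤ t := div_le_self ht (by linarith)
  have h3 := q.le_opNorm (z + t • q z)
  have h4 : t / (1 + t) * ‖q (z + t • q z)‖ ≤ t * (‖q‖ * ‖z + t • q z‖) :=
    mul_le_mul h2 h3 (norm_nonneg _) ht
  nlinarith

omit [FiniteDimensional ℝ V] in
lemma ITopB_mem {q : V →L[ℝ] V} (hq : ∀ z, q (q z) = q z) {Q : Submodule ℝ V}
    (hQ : ∀ z ∈ Q, q z ∈ Q) {t : ℝ} (ht : 0 ≤ t) {z : V}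
    (h : (1 + t * ‖q‖) • (z + t • q z) ∈ Q) : z ∈ Q := by
  have h0 : (1 + t * ‖q‖) ≠ 0 := by positivity
  rw [Q.smul_mem_iff h0] at h
  rw [← ITopB_inv hq ht z]
  exact Q.sub_mem h (Q.smul_mem _ (hQ _ h))

lemma ITopB_equiv {q : V →L[ℝ] V} (hq : ∀ z, q (q z) = q z) {t : ℝ} (ht : 0 ≤ t) (A : V ≃L[ℝ] V) :
    ∃ B : V ≃L[ℝ] V, ∀ x, B x = (1 + t * ‖q‖) • (A x + t • q (A x)) := by
  let L : V →ₗ[ℝ] V := (1 + t * ‖q‖) • (LinearMap.id + t • (q : V →ₗ[ℝ] V))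
  have hL : ∀ z, L z = (1 + t * ‖q‖) • (z + t • q z) := fun z => rfl
  have hinj : Function.Injective L := by
    rw [injective_iff_map_eq_zero]
    intro z hz
    have := ITopB_norm hq ht z
    rw [← hL, hz, norm_zero] at this
    exact norm_le_zero_iff.1 this
  exact ⟨A.trans (LinearEquiv.ofInjectiveEndo L hinj).toContinuousLinearEquiv, fun x => rfl⟩

/-- Sketch. Let `I` be the set of `i` such that `A '' Dsc` meets `P i`. For `i ∈ I`, `inf_eq_bot_of_disc` (for the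
plane `(P i).comap A`) shows that `A (c + N)` meets `P i` in a single point `p i`, interior to the disc.
If all `i` lie in `I`, take `r` larger than the diameter of `A '' Dsc`; if `I = {i}` take `r` so small that the
round disc of radius `r` at `p i` lies in the image of the open disc. For `m = 2` one of the two cases holds. -/
lemma ball_two {P : Fin 2 → Submodule ℝ V} (A : V ≃L[ℝ] V) {c : V} {ρ : ℝ} {N : Submodule ℝ V}
    (hS : ∀ x ∈ Sph c ρ N, A x ∉ ⋃ i, (P i : Set V))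
    (hD : ∃ x ∈ Dsc c ρ N, A x ∈ ⋃ i, (P i : Set V)) :
    ∃ (x₀ : V) (i : Fin 2) (r : ℝ), x₀ - c ∈ N ∧ ‖x₀ - c‖ < ρ ∧ A x₀ ∈ P i ∧ 0 < r ∧
      Disjoint (Btw A c ρ N (A x₀) r) (⋃ i, (P i : Set V)) := by
  obtain ⟨x₀, hx₀, hxP⟩ := hD
  obtain ⟨i, hi⟩ := mem_iUnion.1 hxP
  have hS' : ∀ j, ∀ x ∈ Sph c ρ N, A x ∉ P j := fun j x hx h => hS x hx (mem_iUnion.2 ⟨j, h⟩)
  obtain ⟨hlt, hu⟩ := ITopB_uniq A (hS' i) hx₀ hi
  have hρ : 0 < ρ := (norm_nonneg _).trans_lt hlt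
  by_cases hall : ∀ j, ∃ x ∈ Dsc c ρ N, A x ∈ P j
  · refine ⟨x₀, i, ‖(A : V →L[ℝ] V)‖ * (2 * ρ) + 1, hx₀.1, hlt, hi, by positivity, ?_⟩
    refine ITopB_btw A fun j y hy hyP => ⟨fun h => ITopB_diam A hx₀.2 h, fun h => ?_⟩
    obtain ⟨x, hx, hxj⟩ := hall j
    obtain ⟨h1, h2⟩ := ITopB_uniq A (hS' j) hx hxj
    rw [h2 y hy hyP] at h
    exact absurd h1 (not_lt.2 h)
  · push Not at hall
    obtain ⟨j₀, hj₀⟩ := hall
    have hne : j₀ ≠ i := fun h => hj₀ x₀ hx₀ (h ▸ hi)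
    have hK : 0 < ‖(A.symm : V →L[ℝ] V)‖ + 1 := by positivity
    refine ⟨x₀, i, (ρ - ‖x₀ - c‖) / (‖(A.symm : V →L[ℝ] V)‖ + 1), hx₀.1, hlt, hi,
      div_pos (sub_pos.2 hlt) hK, ?_⟩
    refine ITopB_btw A fun j y hy hyP => ?_
    by_cases hj : j = i
    · subst hj
      rw [hu y hy hyP]
      refine ⟨fun _ => ?_, fun h => absurd hlt (not_lt.2 h)⟩
      rw [sub_self, norm_zero]
      exact div_pos (sub_pos.2 hlt) hK
    · have hjj : j = j₀ := by omega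
      subst hjj
      have hy' : ρ < ‖y - c‖ := not_le.1 fun h => hj₀ y ⟨hy, h⟩ hyP
      refine ⟨fun h => absurd hy' (not_lt.2 h), fun _ => ?_⟩
      rw [div_lt_iff₀ hK]
      have h1 := norm_sub_norm_le (y - c) (x₀ - c)
      rw [sub_sub_sub_cancel_right] at h1
      have h2 : ‖y - x₀‖ ≤ ‖(A.symm : V →L[ℝ] V)‖ * ‖A y - A x₀‖ := by
        have := (A.symm : V →L[ℝ] V).le_opNorm (A y - A x₀)
        simpa using this
      have h3 := norm_nonneg (A y - A x₀)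
      nlinarith

/-- Sketch. For `m = 2` use `ball_two` and `nz_of_ball`. For an internal direct sum let `I`, `p i` be as in `ball_two`, `π` the
projection onto the sum of the `P j`, `j ∉ I`, along the others (`π` maps `P j` identically for `j ∉ I` and kills it for `j ∈ I`), and
`T t = id + t π` (`t ≥ 0`, inverse `id - t/(1+t) π`); `T t` preserves every `P j`. For `j ∉ I` the closed set
`A (c + N) ∩ P j` misses `0` (else `0 ∈ P i` forces `p i = 0`, which lies in the disc and in `P j`), so its points have norm `≥ δ > 0`.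
Take `r > ‖p i - p i₀‖` for all `i ∈ I` and `t` with `(1 + t) δ > ‖p i₀‖ + r`; then `Btw (T t ∘ A) c ρ N (p i₀) r` misses
the planes. To respect `R`, choose `s ≥ 1` with `R ≤ ‖s • T (u t) (A x)‖` for all `u ∈ [0,1]`, `x ∈ Sph` (compactness),
apply `nz_of_ball` to `s • T t ∘ A` (centre `s p i₀`, radius `s r`), and come back by the homotopies
`s • T (u t) (A x)` and `((1-u) s + u) • A x`. -/
theorem nz_ellipsoid {P : Fin m → Submodule ℝ V} (hfam : Fam P)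
    (hP : ∀ i, finrank ℝ (P i) + (k + 1) = finrank ℝ V)
    {F : Set V} {R : ℝ} (hF1 : ∀ z ∈ F, R ≤ ‖z‖ → z ∈ ⋃ i, (P i : Set V))
    (hF2 : ∀ S, IsRoundSphere k S → (∀ z ∈ S, R ≤ ‖z‖) → NonzeroIn k S (⋃ i, (P i : Set V))ᶜ →
      NonzeroIn k S Fᶜ)
    (A : V ≃L[ℝ] V) {c : V} {ρ : ℝ} {N : Submodule ℝ V} (hN : finrank ℝ N = k + 1)
    (hS : ∀ x ∈ Sph c ρ N, R ≤ ‖A x‖ ∧ A x ∉ ⋃ i, (P i : Set V))
    (hD : ∃ x ∈ Dsc c ρ N, A x ∈ ⋃ i, (P i : Set V)) :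
    NZ k (fun x : Sph c ρ N => A x) Fᶜ := by
  classical
  rcases hfam with rfl | hint
  · obtain ⟨x₀, i, r, h1, h2, hi, hr, hB⟩ := ball_two A (fun x hx => (hS x hx).2) hD
    exact nz_of_ball hP hF1 hF2 A hN hS h1 h2 hi hr hB
  obtain ⟨x₀, hx₀, hxP⟩ := hD
  obtain ⟨i, hi⟩ := mem_iUnion.1 hxP
  have hS' : ∀ j, ∀ x ∈ Sph c ρ N, A x ∉ P j := fun j x hx h => (hS x hx).2 (mem_iUnion.2 ⟨j, h⟩)
  obtain ⟨hlt, hu⟩ := ITopB_uniq A (hS' i) hx₀ hi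
  have hρ : 0 < ρ := (norm_nonneg _).trans_lt hlt
  set I : Set (Fin m) := {j | ∃ x ∈ Dsc c ρ N, A x ∈ P j} with hI
  have hiI : i ∈ I := ⟨x₀, hx₀, hi⟩
  obtain ⟨q, hq0, hq1, hq⟩ := ITopB_proj hint I
  have hqP : ∀ j, ∀ z ∈ P j, q z ∈ P j := by
    intro j z hz
    by_cases hj : j ∈ I
    · rw [hq0 j hj z hz]; exact (P j).zero_mem
    · rw [hq1 j hj z hz]; exact hz
  obtain ⟨δ, hδ, hδ'⟩ : ∃ δ : ℝ, 0 < δ ∧ ∀ j ∉ I, ∀ y, y - c ∈ N → δ ≤ ‖A y‖ := by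
    by_cases h0 : (0 : V) - c ∈ N
    · refine ⟨1, one_pos, fun j hj => (hj ⟨0, ?_, by simp⟩).elim⟩
      rw [hu 0 h0 (by simp)]
      exact hx₀
    · have hcl : IsClosed {z : V | A.symm z - c ∈ N} :=
        N.closed_of_finiteDimensional.preimage (A.symm.continuous.sub continuous_const)
      have h0' : (0 : V) ∈ {z : V | A.symm z - c ∈ N}ᶜ := by simpa using h0
      obtain ⟨δ, hδ, hb⟩ := Metric.isOpen_iff.1 hcl.isOpen_compl 0 h0'
      refine ⟨δ, hδ, fun j _ y hy => not_lt.1 fun h => hb (mem_ball_zero_iff.2 h) ?_⟩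
      simpa using hy
  obtain ⟨r, hr⟩ : ∃ r, r = ‖(A : V →L[ℝ] V)‖ * (2 * ρ) + 1 := ⟨_, rfl⟩
  have hr0 : 0 < r := by rw [hr]; positivity
  obtain ⟨t, ht⟩ : ∃ t, t = (‖A x₀‖ + r) / δ := ⟨_, rfl⟩
  have ht0 : 0 ≤ t := by rw [ht]; positivity
  have htδ : t * δ = ‖A x₀‖ + r := by rw [ht, div_mul_cancel₀ _ hδ.ne']
  obtain ⟨B, hB⟩ := ITopB_equiv hq ht0 A
  have hs : 0 < 1 + t * ‖q‖ := by positivity
  have hgood : ∀ τ : ℝ, 0 ≤ τ → ∀ x ∈ Sph c ρ N, R ≤ ‖(1 + τ * ‖q‖) • (A x + τ • q (A x))‖ ∧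
      (1 + τ * ‖q‖) • (A x + τ • q (A x)) ∉ ⋃ i, (P i : Set V) := by
    intro τ hτ x hx
    refine ⟨(hS x hx).1.trans (ITopB_norm hq hτ _), fun h => ?_⟩
    obtain ⟨j, hj⟩ := mem_iUnion.1 h
    exact hS' j x hx (ITopB_mem hq (hqP j) hτ hj)
  have hBI : ∀ j ∈ I, ∀ y, A y ∈ P j → B y = (1 + t * ‖q‖) • A y := by
    intro j hj y hy
    rw [hB, hq0 j hj _ hy, smul_zero, add_zero]
  have hdis : Disjoint (Btw B c ρ N (B x₀) ((1 + t * ‖q‖) * r)) (⋃ i, (P i : Set V)) := by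
    refine ITopB_btw B fun j y hy hyB => ?_
    have hyP : A y ∈ P j := ITopB_mem hq (hqP j) ht0 (by rw [← hB]; exact hyB)
    refine ⟨fun h => ?_, fun h => ?_⟩
    · rw [hBI j ⟨y, ⟨hy, h⟩, hyP⟩ y hyP, hBI i hiI x₀ hi, ← smul_sub, norm_smul,
        Real.norm_of_nonneg hs.le, hr]
      exact mul_lt_mul_of_pos_left (ITopB_diam A hx₀.2 h) hs
    · by_cases hj : j ∈ I
      · obtain ⟨x, hx, hxj⟩ := hj
        obtain ⟨h1, h2⟩ := ITopB_uniq A (hS' j) hx hxj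
        rw [h2 y hy hyP] at h
        exact absurd h1 (not_lt.2 h)
      · rw [hB y, hq1 j hj _ hyP, hBI i hiI x₀ hi, ← smul_sub, norm_smul,
          Real.norm_of_nonneg hs.le]
        refine mul_lt_mul_of_pos_left ?_ hs
        have h1 := norm_sub_norm_le (A y + t • A y) (A x₀)
        have h2 : ‖A y + t • A y‖ = (1 + t) * ‖A y‖ := by
          rw [show A y + t • A y = (1 + t) • A y by rw [add_smul, one_smul], norm_smul,
            Real.norm_of_nonneg (by positivity)]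
        have h3 := hδ' j hj y hy
        have h4 : t * δ ≤ t * ‖A y‖ := mul_le_mul_of_nonneg_left h3 ht0
        nlinarith
  have hNZ := nz_of_ball hP hF1 hF2 B hN (fun x hx => by rw [hB]; exact hgood t ht0 x hx)
    hx₀.1 hlt (i := i) (by rw [hBI i hiI x₀ hi]; exact (P i).smul_mem _ hi) (mul_pos hs hr0) hdis
  refine NZ.homotopy (fun z : unitInterval × Sph c ρ N =>
    (1 + t * (1 - (z.1 : ℝ)) * ‖q‖) • (A z.2 + (t * (1 - (z.1 : ℝ))) • q (A z.2)))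
    (by fun_prop) (fun z => ?_) (fun x => ?_) (fun x => ?_) hNZ
  · have h := hgood (t * (1 - (z.1 : ℝ))) (mul_nonneg ht0 (sub_nonneg.2 z.1.2.2)) z.2 z.2.2
    exact fun hF => h.2 (hF1 _ hF h.1)
  · simp [hB]
  · simp

end

end Pool.Agent.Lib.MP_b07a76_an
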