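import Pool.Agent.Lib.MP_b07a76_an.ITopB

/-! Images of topological competitors. -/

namespace Pool.Agent.Lib.MP_b07a76_an

noncomputable section
open MeasureTheory Module Metric Set Filter
open scoped NNReal ENNReal Topology

variable {V : Type} [NormedAddCommGroup V] [InnerProductSpace ℝ V] [FiniteDimensional ℝ V]
  {d m : ℕ}

/-- Sketch. Enlarge the ball so that it contains `K` and `φ '' K`. `φ '' F` is closed: it is the union of the compact
`φ '' (F ∩ closedBall)` and `F \ ball`. For a sphere `S` apply `NZ.of_compact` with `σ = σ' = val`: a compact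
`K' ⊆ (φ '' F)ᶜ` has positive distance `> ε` from `φ '' F`, so `g = h.symm` maps `S ∪ K'` into `Fᶜ` and fixes `S`. -/
theorem top_collapse {E F : Set V} (hF : TopCompetitor d E F) {φ : V → V} (hφ : Continuous φ)
    {K : Set V} (hK : IsCompact K) (h1 : ∀ x, x ∉ K → φ x = x)
    (h2 : ∀ ε : ℝ, 0 < ε → ∃ h : V ≃ₜ V, (∀ x, x ∉ K → h x = x) ∧ ∀ x, dist (h x) (φ x) ≤ ε) :
    TopCompetitor d E (φ '' F) := by
  obtain ⟨hFc, c, r, hr, hFE, hS⟩ := hF
  obtain ⟨r₁, hr₁⟩ := (hK.union (hK.image hφ)).isBounded.subset_ball c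
  set r' := max r r₁ with hr'
  have hb1 : ball c r ⊆ ball c r' := ball_subset_ball (le_max_left _ _)
  have hb2 : ball c r₁ ⊆ ball c r' := ball_subset_ball (le_max_right _ _)
  have hKb : K ⊆ ball c r' := fun x hx => hb2 (hr₁ (Or.inl hx))
  have hout : ∀ y, y ∉ ball c r' → (y ∈ φ '' F ↔ y ∈ F) := by
    intro y hy
    constructor
    · rintro ⟨x, hx, rfl⟩
      by_cases hxK : x ∈ K
      · exact absurd (hb2 (hr₁ (Or.inr ⟨x, hxK, rfl⟩))) hy
      · rw [h1 x hxK]; exact hx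
    · intro hyF
      exact ⟨y, hyF, h1 y fun h => hy (hKb h)⟩
  have hFE' : ∀ y, y ∉ ball c r' → (y ∈ F ↔ y ∈ E) := by
    intro y hy
    have hy' : y ∉ ball c r := fun h => hy (hb1 h)
    have := Set.ext_iff.1 hFE y
    simp only [Set.mem_sdiff] at this
    tauto
  have hcl : IsClosed (φ '' F) := by
    have e : φ '' F = φ '' (F ∩ closedBall c r') ∪ F \ ball c r' := by
      apply Subset.antisymm
      · rintro _ ⟨x, hx, rfl⟩
        by_cases hxb : x ∈ ball c r'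
        · exact Or.inl ⟨x, ⟨hx, ball_subset_closedBall hxb⟩, rfl⟩
        · rw [h1 x fun h => hxb (hKb h)]
          exact Or.inr ⟨hx, hxb⟩
      · rintro y (⟨x, hx, rfl⟩ | hy)
        · exact ⟨x, hx.1, rfl⟩
        · exact (hout y hy.2).2 hy.1
    rw [e]
    exact (((isCompact_closedBall c r').inter_left hFc).image hφ).isClosed.union
      (hFc.sdiff isOpen_ball)
  refine ⟨hcl, c, r', lt_max_of_lt_left hr, ?_, fun S hSr hSb hSE => ?_⟩
  · ext y
    simp only [Set.mem_sdiff]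
    constructor
    · rintro ⟨h, hy⟩
      exact ⟨(hFE' y hy).1 ((hout y hy).1 h), hy⟩
    · rintro ⟨h, hy⟩
      exact ⟨(hout y hy).2 ((hFE' y hy).2 h), hy⟩
  have hSb1 : ∀ y ∈ S, y ∉ ball c r' := fun y hy h => hSb hy (Or.inl h)
  have hSF := hS S hSr (fun y hy h => hSb hy (h.imp_left fun h => hb1 h)) hSE
  have hSF' : S ⊆ Fᶜ := hSF.1
  rw [nonzeroIn_iff_NZ] at hSF ⊢
  refine NZ.of_compact continuous_subtype_val
    (fun x h => hSF' x.2 ((hout _ (hSb1 _ x.2)).1 h)) hSF fun K' hK' hK'X => ?_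
  obtain ⟨ε, hε, hεK⟩ := hK'.exists_cthickening_subset_open hcl.isOpen_compl hK'X
  obtain ⟨h, hh1, hh2⟩ := h2 ε hε
  have hfix : ∀ y ∈ S, h.symm y = y := fun y hy => by
    rw [Homeomorph.symm_apply_eq, hh1 y fun h => hSb1 y hy (hKb h)]
  refine ⟨h.symm, fun z => z.2, h.symm.continuous.continuousOn, ?_, by fun_prop,
    fun z => hSF' z.2.2, fun x => rfl, fun x => (hfix _ x.2).symm⟩
  rintro y (⟨x, rfl⟩ | hy)
  · rw [hfix _ x.2]; exact hSF' x.2
  · intro hyF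
    refine hεK (mem_cthickening_of_dist_le (φ (h.symm y)) y ε K' hy ?_) ⟨_, hyF, rfl⟩
    have := hh2 (h.symm y)
    rwa [Homeomorph.apply_symm_apply, dist_comm] at this

lemma ITopC_closed (L : V →L[ℝ] V) {F : Set V} (hF : IsClosed F) {R : ℝ}
    (h : ∀ z ∈ F, R ≤ ‖z‖ → ‖L z‖ = ‖z‖) : IsClosed (L '' F) := by
  refine isClosed_of_closure_subset fun y hy => ?_
  have h1 : y ∈ closure (ball y 1 ∩ L '' F) :=
    isOpen_ball.inter_closure ⟨mem_ball_self one_pos, hy⟩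
  have h2 : ball y 1 ∩ L '' F ⊆ L '' (F ∩ closedBall 0 (max R (‖y‖ + 1))) := by
    rintro _ ⟨hb, x, hx, rfl⟩
    refine ⟨x, ⟨hx, ?_⟩, rfl⟩
    rw [mem_closedBall, dist_zero_right]
    by_cases hR : R ≤ ‖x‖
    · refine le_max_of_le_right ?_
      rw [← h x hx hR]
      rw [mem_ball, dist_eq_norm] at hb
      have := norm_le_norm_add_norm_sub' (L x) y
      linarith
    · exact le_max_of_le_left (not_le.1 hR).le
  have h3 : IsClosed (L '' (F ∩ closedBall 0 (max R (‖y‖ + 1)))) :=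
    (((isCompact_closedBall _ _).inter_left hF).image L.continuous).isClosed
  exact image_mono inter_subset_left (closure_minimal h2 h3 h1)

lemma ITopC_miss (L T : V →L[ℝ] V) (hT : ∀ x, ‖T x‖ = ‖x‖) {F : Set V} (hF : IsClosed F) {R : ℝ}
    (h : ∀ z ∈ F, R ≤ ‖z‖ → ‖L z‖ = ‖z‖) {K : Set V} (hK : IsCompact K) (hKF : K ⊆ (L '' F)ᶜ) :
    ∃ η₀ : ℝ, 0 < η₀ ∧ ∀ η, 0 ≤ η → η ≤ η₀ → ∀ x ∈ F, (L + η • T) x ∉ K := by
  obtain ⟨δ, hδ, hδK⟩ :=
    hK.exists_cthickening_subset_open (ITopC_closed L hF h).isOpen_compl hKF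
  obtain ⟨M, hM0, hM⟩ := hK.isBounded.exists_pos_norm_le
  set M' := max R (2 * M) with hM'
  have hM'0 : 0 < M' := lt_max_of_lt_right (by linarith)
  refine ⟨min (1 / 2) (δ / M'), by positivity, fun η h0 h1 x hx hxK => ?_⟩
  have h2 : η ≤ 1 / 2 := h1.trans (min_le_left _ _)
  have h3 : η * M' ≤ δ := (le_div_iff₀ hM'0).1 (h1.trans (min_le_right _ _))
  have h4 : dist (L x) ((L + η • T) x) = η * ‖x‖ := by
    rw [dist_comm, dist_eq_norm]
    simp [norm_smul, hT, abs_of_nonneg h0]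
  have h5 : ‖x‖ ≤ M' := by
    by_cases hR : R ≤ ‖x‖
    · refine le_max_of_le_right ?_
      have a1 := h x hx hR
      have a2 := hM _ hxK
      have a3 := norm_le_norm_add_norm_sub' (L x) ((L + η • T) x)
      rw [← dist_eq_norm, h4] at a3
      nlinarith [norm_nonneg x]
    · exact le_max_of_le_left (not_le.1 hR).le
  refine hδK (mem_cthickening_of_dist_le (L x) _ δ K hxK ?_) ⟨x, hx, rfl⟩
  rw [h4]
  nlinarith

lemma ITopC_unit (L : V →L[ℝ] V) (T : V ≃ₗᵢ[ℝ] V) :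
    ∃ η₁ : ℝ, 0 < η₁ ∧ ∀ η, 0 < η → η ≤ η₁ →
      IsUnit (L + η • (T.toContinuousLinearEquiv : V →L[ℝ] V)) := by
  let f : Module.End ℝ V := (T.symm.toLinearEquiv : V →ₗ[ℝ] V) ∘ₗ (L : V →ₗ[ℝ] V)
  have h1 : {η : ℝ | f.HasEigenvalue (-η)}.Finite :=
    (Module.End.finite_hasEigenvalue f).preimage (f := fun η : ℝ => -η) neg_injective.injOn
  have h2 : {η : ℝ | f.HasEigenvalue (-η)}ᶜ ∈ 𝓝[≠] (0 : ℝ) :=
    nhdsNE_le_cofinite 0 h1.compl_mem_cofinite
  obtain ⟨ε, hε, h3⟩ := Metric.mem_nhdsWithin_iff.1 h2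
  refine ⟨ε / 2, by positivity, fun η h0 h4 => ?_⟩
  have h5 : ¬ f.HasEigenvalue (-η) := h3 ⟨by
    rw [mem_ball, dist_zero_right, Real.norm_eq_abs, abs_of_pos h0]; linarith, h0.ne'⟩
  have h6 : Function.Injective (L + η • (T.toContinuousLinearEquiv : V →L[ℝ] V)) := by
    rw [injective_iff_map_eq_zero]
    intro x hx
    by_contra hx0
    refine h5 (Module.End.hasEigenvalue_of_hasEigenvector (x := x)
      ⟨Module.End.mem_eigenspace_iff.2 ?_, hx0⟩)
    have : L x = (-η) • T x := by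
      rw [neg_smul]
      exact eq_neg_of_add_eq_zero_left (by simpa using hx)
    simp [f, this]
  have := FiniteDimensional.complete ℝ V
  exact ContinuousLinearMap.isUnit_iff_bijective.2
    ⟨h6, (LinearMap.injective_iff_surjective
      (f := ((L + η • (T.toContinuousLinearEquiv : V →L[ℝ] V) : V →L[ℝ] V) : V →ₗ[ℝ] V))).1 h6⟩

/-- Sketch. `E = ⋃ P i`, ball `(c, r)` of `F` inside `ball 0 R`; use `ball 0 ((‖L‖ + 1) R)` for the image.
`L '' F = L '' (F ∩ closedBall 0 R) ∪ ⋃ i, L '' (P i \ ball 0 R)` is closed (`L` is isometric on `P i`).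
Let `S = Sph c₀ ρ N` be nonzero in `(L '' E)ᶜ`. By `not_nonzeroIn` the disc contains a point `L v₀`, `v₀ ∈ P i`.
Take an isometry `T` with `T v₀ = L v₀` (`Submodule.reflection_sub`), `L η = (1 - η) L + η T`; it fixes the value at `v₀`, is
invertible for `η ∈ (0, η₁)` (`T⁻¹ L` has finitely many eigenvalues), `‖L η‖ ≤ ‖L‖ + 1`, and `‖L η v‖ ≥ ‖v‖ / 2` on `E` for
`η ≤ 1/4`. For compact `K'` disjoint from the closed set `L '' F'` (`F' = F` or `E`), `L η '' F'` misses `K'` for small `η` (bounded part: uniform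
convergence; unbounded part lies in `E`). So for small `η₀`, `nz_ellipsoid` with `A = (L η₀)⁻¹` gives
`NZ (A ∘ val) Fᶜ`; conclude by `NZ.of_compact` with `g = (L η)⁻¹` and the homotopy `(L η')⁻¹ x`, `η' ∈ [η, η₀]`
(`NormedRing.inverse_continuousAt`). -/
theorem top_transfer {P : Fin m → Submodule ℝ V} (hfam : Fam P) (hP : ∀ i, finrank ℝ (P i) = d)
    (hk : d + 2 ≤ finrank ℝ V) (L : V →L[ℝ] V) (hL : ∀ i, ∀ v ∈ P i, ‖L v‖ = ‖v‖) {F : Set V}
    (hF : TopCompetitor d (⋃ i, (P i : Set V)) F) :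
    TopCompetitor d (L '' ⋃ i, (P i : Set V)) (L '' F) := by
  obtain ⟨hFc, c, r, hr, hFE, hS⟩ := hF
  set E : Set V := ⋃ i, (P i : Set V) with hE
  set R := ‖c‖ + r with hR
  have hR0 : 0 < R := by positivity
  have hb : ∀ z : V, R ≤ ‖z‖ → z ∉ ball c r := by
    intro z hz h
    rw [mem_ball, dist_eq_norm] at h
    have := norm_le_norm_add_norm_sub' z c
    linarith
  have hFE' : ∀ z : V, R ≤ ‖z‖ → (z ∈ F ↔ z ∈ E) := by
    intro z hz
    have h1 := hb z hz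
    have := Set.ext_iff.1 hFE z
    simp only [Set.mem_sdiff] at this
    tauto
  have hLE : ∀ z ∈ E, ‖L z‖ = ‖z‖ := by
    intro z hz
    obtain ⟨i, hi⟩ := mem_iUnion.1 hz
    exact hL i z hi
  have hLF : ∀ z ∈ F, R ≤ ‖z‖ → ‖L z‖ = ‖z‖ := fun z hz h => hLE z ((hFE' z h).1 hz)
  have hEc : IsClosed E := isClosed_iUnion_of_finite fun i => (P i).closed_of_finiteDimensional
  have hbig : ∀ (A : V →L[ℝ] V), ‖A‖ ≤ ‖L‖ + 1 / 2 → ∀ z, A z ∉ ball (0 : V) ((‖L‖ + 1) * R) →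
      R ≤ ‖z‖ := by
    intro A hA z hz
    rw [mem_ball, dist_zero_right, not_lt] at hz
    by_contra h
    have h1 := A.le_opNorm z
    have h2 := norm_nonneg L
    have h3 := norm_nonneg z
    have h4 := mul_le_mul_of_nonneg_right hA h3
    nlinarith [not_le.1 h]
  have hout : ∀ y, y ∉ ball (0 : V) ((‖L‖ + 1) * R) → (y ∈ L '' F ↔ y ∈ L '' E) := by
    intro y hy
    constructor
    · rintro ⟨x, hx, rfl⟩
      exact ⟨x, (hFE' x (hbig L (by linarith) x hy)).1 hx, rfl⟩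
    · rintro ⟨x, hx, rfl⟩
      exact ⟨x, (hFE' x (hbig L (by linarith) x hy)).2 hx, rfl⟩
  refine ⟨ITopC_closed L hFc hLF, 0, (‖L‖ + 1) * R, by positivity, ?_, fun S hSr hSb hSE => ?_⟩
  · ext y
    simp only [Set.mem_sdiff]
    constructor
    · rintro ⟨h, hy⟩
      exact ⟨(hout y hy).1 h, hy⟩
    · rintro ⟨h, hy⟩
      exact ⟨(hout y hy).2 h, hy⟩
  set k := finrank ℝ V - d - 1 with hk'
  obtain ⟨c₀, ρ, N, hρ, hN, rfl⟩ := hSr
  change Sph c₀ ρ N ⊆ _ at hSb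
  change NonzeroIn k (Sph c₀ ρ N) _ at hSE
  change NonzeroIn k (Sph c₀ ρ N) _
  have hS1 : ∀ y ∈ Sph c₀ ρ N, y ∉ ball (0 : V) ((‖L‖ + 1) * R) := fun y hy h => hSb hy (Or.inl h)
  have hS2 : Sph c₀ ρ N ⊆ (L '' E)ᶜ := fun y hy h => hSb hy (Or.inr h)
  have hS3 : Sph c₀ ρ N ⊆ (L '' F)ᶜ := fun y hy h => hS2 hy ((hout y (hS1 y hy)).1 h)
  have hSc : IsCompact (Sph c₀ ρ N) := by
    have e : Sph c₀ ρ N = (fun x => x - c₀) ⁻¹' (N : Set V) ∩ sphere c₀ ρ := by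
      ext x; simp [Sph]
    rw [e]
    exact (isCompact_sphere c₀ ρ).inter_left
      (N.closed_of_finiteDimensional.preimage (by fun_prop))
  obtain ⟨y₀, hy₀, v₀, hv₀, rfl⟩ : ∃ y ∈ Dsc c₀ ρ N, y ∈ L '' E := by
    by_contra hcon
    push Not at hcon
    refine not_nonzeroIn k (by omega) _ _ (fun z => c₀ + (z.1 : ℝ) • ((z.2 : V) - c₀))
      (by fun_prop) (fun z => hcon _ ⟨?_, ?_⟩) c₀ (hcon _ ⟨by simp, by simpa using hρ.le⟩)
      (fun x => by simp) (fun x => by simp) hSE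
    · rw [add_sub_cancel_left]
      exact N.smul_mem _ z.2.2.1
    · rw [add_sub_cancel_left, norm_smul, z.2.2.2, Real.norm_eq_abs, abs_of_nonneg z.1.2.1]
      nlinarith [z.1.2.2]
  let T₀ : V ≃ₗᵢ[ℝ] V := (ℝ ∙ (v₀ - L v₀))ᗮ.reflection
  have hT₀ : T₀ v₀ = L v₀ := Submodule.reflection_sub (hLE v₀ hv₀).symm
  obtain ⟨η₁, hη₁, hu⟩ := ITopC_unit L T₀
  set T : V →L[ℝ] V := (T₀.toContinuousLinearEquiv : V →L[ℝ] V) with hT'
  have hT : ∀ x, ‖T x‖ = ‖x‖ := fun x => T₀.norm_map x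
  have hTv : T v₀ = L v₀ := hT₀
  obtain ⟨η₂, hη₂, hm⟩ := ITopC_miss L T hT hEc (R := R) (fun z hz _ => hLE z hz) hSc hS2
  set η₀ := min (1 / 2) (min η₁ η₂) with hη₀'
  have hη₀ : 0 < η₀ := by positivity
  have e1 : η₀ ≤ 1 / 2 := min_le_left _ _
  have e2 : η₀ ≤ η₁ := (min_le_right _ _).trans (min_le_left _ _)
  have e3 : η₀ ≤ η₂ := (min_le_right _ _).trans (min_le_right _ _)
  let J : ℝ → V →L[ℝ] V := fun η => Ring.inverse (L + η • T)
  have hJ1 : ∀ η, 0 < η → η ≤ η₀ → ∀ x, (L + η • T) (J η x) = x := by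
    intro η h0 h1 x
    have := Ring.mul_inverse_cancel _ (hu η h0 (h1.trans e2))
    exact congrArg (fun A : V →L[ℝ] V => A x) this
  have hJ2 : ∀ η, 0 < η → η ≤ η₀ → ∀ x, J η ((L + η • T) x) = x := by
    intro η h0 h1 x
    have := Ring.inverse_mul_cancel _ (hu η h0 (h1.trans e2))
    exact congrArg (fun A : V →L[ℝ] V => A x) this
  have hJ3 : ∀ η, 0 < η → η ≤ η₀ → ∀ x ∈ Sph c₀ ρ N, R ≤ ‖J η x‖ ∧ J η x ∉ E := by
    intro η h0 h1 x hx
    constructor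
    · refine hbig (L + η • T) ?_ _ (by rw [hJ1 η h0 h1]; exact hS1 x hx)
      refine (L + η • T).opNorm_le_bound (by positivity) fun z => ?_
      have a1 := norm_add_le (L z) (η • T z)
      rw [norm_smul, hT, Real.norm_eq_abs, abs_of_pos h0] at a1
      have a2 := L.le_opNorm z
      have a3 := norm_nonneg z
      change ‖L z + η • T z‖ ≤ _
      nlinarith
    · intro h
      exact hm η h0.le (h1.trans e3) _ h (by rw [hJ1 η h0 h1]; exact hx)
  have hJ4 : ∀ η, 0 < η → η ≤ η₀ → ∀ x ∈ Sph c₀ ρ N, J η x ∈ Fᶜ := fun η h0 h1 x hx h =>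
    (hJ3 η h0 h1 x hx).2 ((hFE' _ (hJ3 η h0 h1 x hx).1).1 h)
  have hJc : ∀ η, 0 < η → η ≤ η₀ → ContinuousAt J η := by
    intro η h0 h1
    have := FiniteDimensional.complete ℝ V
    obtain ⟨u, hu'⟩ := hu η h0 (h1.trans e2)
    have a1 := NormedRing.inverse_continuousAt u
    rw [hu'] at a1
    exact ContinuousAt.comp (f := fun η : ℝ => L + η • T) a1 (by fun_prop)
  let A : V ≃L[ℝ] V := ContinuousLinearEquiv.equivOfInverse (J η₀) (L + η₀ • T)
    (hJ1 η₀ hη₀ le_rfl) (hJ2 η₀ hη₀ le_rfl)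
  have hA : ∀ x, A x = J η₀ x := fun x => rfl
  have hNZ : NZ k (fun x : Sph c₀ ρ N => A x) Fᶜ := by
    refine nz_ellipsoid hfam (fun i => by rw [hP i]; omega) (R := R)
      (fun z hz h => (hFE' z h).1 hz) (fun S hS1 hS2 hS3 => hS S hS1 ?_ hS3) A hN
      (fun x hx => hJ3 η₀ hη₀ le_rfl x hx) ⟨L v₀, hy₀, ?_⟩
    · rintro z hz (h | h)
      · exact hb z (hS2 z hz) h
      · exact hS3.1 hz h
    · have a1 : L v₀ = (L + η₀ • T) ((1 + η₀)⁻¹ • v₀) := by
        rw [map_smul, add_apply, smul_apply, hTv]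
        have : L v₀ + η₀ • L v₀ = (1 + η₀) • L v₀ := by rw [add_smul, one_smul]
        rw [this, smul_smul, inv_mul_cancel₀ (by positivity), one_smul]
      rw [hA, a1, hJ2 η₀ hη₀ le_rfl]
      obtain ⟨i, hi⟩ := mem_iUnion.1 hv₀
      exact mem_iUnion.2 ⟨i, (P i).smul_mem _ hi⟩
  rw [nonzeroIn_iff_NZ]
  refine NZ.of_compact continuous_subtype_val (fun x => hS3 x.2) hNZ fun K hK hKX => ?_
  obtain ⟨η₃, hη₃, hm'⟩ := ITopC_miss L T hT hFc hLF hK hKX
  set η := min η₀ η₃ with hη'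
  have hη : 0 < η := by positivity
  have e4 : η ≤ η₀ := min_le_left _ _
  have e5 : η ≤ η₃ := min_le_right _ _
  have hs : ∀ t : unitInterval, 0 < η₀ + (t : ℝ) * (η - η₀) ∧ η₀ + (t : ℝ) * (η - η₀) ≤ η₀ := by
    intro t
    constructor <;> nlinarith [t.2.1, t.2.2]
  refine ⟨J η, fun z => J (η₀ + (z.1 : ℝ) * (η - η₀)) z.2, (J η).continuous.continuousOn, ?_, ?_,
    fun z => hJ4 _ (hs z.1).1 (hs z.1).2 _ z.2.2, fun x => by simp [hA], fun x => by simp⟩
  · rintro y (⟨x, rfl⟩ | hy)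
    · exact hJ4 η hη e4 _ x.2
    · intro h
      exact hm' η hη.le e5 _ h (by rw [hJ1 η hη e4]; exact hy)
  · have a1 : Continuous fun t : unitInterval => J (η₀ + (t : ℝ) * (η - η₀)) :=
      continuous_iff_continuousAt.2 fun t =>
        ContinuousAt.comp (f := fun t : unitInterval => η₀ + (t : ℝ) * (η - η₀))
          (hJc _ (hs t).1 (hs t).2) (by fun_prop)
    exact (a1.comp continuous_fst).clm_apply (continuous_subtype_val.comp continuous_snd)

end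

end Pool.Agent.Lib.MP_b07a76_an
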