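import Mathlib

/-! Maps into `d`-space with Jacobian at most one do not increase `d`-dimensional measure. -/

namespace Pool.Agent.Lib.MP_b07a76_an

open MeasureTheory Module Filter Set
open scoped NNReal ENNReal Topology

lemma tsum_inter_le {X ι : Type*} [MeasurableSpace X] [Countable ι] (μ : Measure X) (A : Set X)
    (D : ι → Set X) (hD : ∀ i, MeasurableSet (D i)) (hd : Pairwise (Function.onFun Disjoint D)) :
    ∑' i, μ (A ∩ D i) ≤ μ A := by
  calc ∑' i, μ (A ∩ D i) ≤ ∑' i, μ (toMeasurable μ A ∩ D i) :=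
        ENNReal.tsum_le_tsum fun i => measure_mono
          (inter_subset_inter_left _ (subset_toMeasurable _ _))
    _ = μ (⋃ i, toMeasurable μ A ∩ D i) := by
        rw [measure_iUnion]
        · exact fun i j hij => (hd hij).mono inter_subset_right inter_subset_right
        · exact fun i => (measurableSet_toMeasurable _ _).inter (hD i)
    _ ≤ μ (toMeasurable μ A) := measure_mono (iUnion_subset fun _ => inter_subset_left)
    _ = μ A := measure_toMeasurable _

lemma le_of_forall_pow_mul {x y : ℝ≥0∞} (n : ℕ) (h : ∀ c : ℝ≥0, 1 < c → x ≤ (c : ℝ≥0∞) ^ n * y) :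
    x ≤ y := by
  have h1 : Tendsto (fun c : ℝ≥0 => (c : ℝ≥0∞) ^ n * y) (𝓝[>] 1) (𝓝 y) := by
    have h2 : Tendsto (fun c : ℝ≥0 => (c : ℝ≥0∞) ^ n) (𝓝[>] 1) (𝓝 1) := by
      have : Continuous fun c : ℝ≥0 => ((c ^ n : ℝ≥0) : ℝ≥0∞) :=
        ENNReal.continuous_coe.comp (continuous_pow n)
      have := (this.tendsto 1).mono_left (nhdsWithin_le_nhds (s := Ioi 1))
      simpa using this
    simpa using ENNReal.Tendsto.mul_const (b := y) h2 (Or.inl one_ne_zero)
  exact ge_of_tendsto h1 (eventually_nhdsWithin_of_forall h)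

/-- A local bound for images of subsets globalises. -/
lemma image_le_of_local {X Y : Type*} [TopologicalSpace X] [SecondCountableTopology X]
    [MeasurableSpace X] [BorelSpace X] [MeasurableSpace Y] (μ : Measure X) (ν : Measure Y)
    (f : X → Y) (c : ℝ≥0∞) (A : Set X)
    (h : ∀ z ∈ A, ∃ O ∈ 𝓝 z, ∀ B ⊆ O, ν (f '' B) ≤ c * μ B) : ν (f '' A) ≤ c * μ A := by
  rcases A.eq_empty_or_nonempty with rfl | hA
  · simp
  choose! O hO hO' using h
  obtain ⟨s, hs1, hs2, hs3⟩ := TopologicalSpace.countable_cover_nhdsWithin (s := A)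
    (f := fun z => interior (O z))
    (fun z hz => mem_nhdsWithin_of_mem_nhds (interior_mem_nhds.2 (hO z hz)))
  have hsne : s.Nonempty := by
    obtain ⟨a, ha⟩ := hA
    obtain ⟨z, hz, -⟩ := mem_iUnion₂.1 (hs3 ha)
    exact ⟨z, hz⟩
  obtain ⟨e, rfl⟩ := hs2.exists_eq_range hsne
  let D := disjointed fun n => interior (O (e n))
  have hD : ∀ n, MeasurableSet (D n) :=
    MeasurableSet.disjointed fun n => isOpen_interior.measurableSet
  have hcov : A = ⋃ n, A ∩ D n := by
    rw [← inter_iUnion, iUnion_disjointed, eq_comm, inter_eq_left]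
    simpa using hs3
  calc ν (f '' A) = ν (⋃ n, f '' (A ∩ D n)) := by rw [← image_iUnion, ← hcov]
    _ ≤ ∑' n, ν (f '' (A ∩ D n)) := measure_iUnion_le _
    _ ≤ ∑' n, c * μ (A ∩ D n) := ENNReal.tsum_le_tsum fun n =>
        hO' (e n) (hs1 (mem_range_self n)) _
          (inter_subset_right.trans ((disjointed_subset _ n).trans interior_subset))
    _ = c * ∑' n, μ (A ∩ D n) := ENNReal.tsum_mul_left
    _ ≤ c * μ A := by
        gcongr
        exact tsum_inter_le μ A D hD (disjoint_disjointed _)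

variable {V U : Type*} [NormedAddCommGroup V] [InnerProductSpace ℝ V] [FiniteDimensional ℝ V]
  [MeasurableSpace V] [BorelSpace V]
  [NormedAddCommGroup U] [InnerProductSpace ℝ U] [FiniteDimensional ℝ U]
  [MeasurableSpace U] [BorelSpace U]

lemma image_le_of_jac {d : ℕ} (hd : finrank ℝ U = d) (f : V → U) (A : Set V)
    (h : ∀ z ∈ A, ∃ (K : U →ₗ[ℝ] U) (R : V →L[ℝ] U) (M : V →L[ℝ] U), LinearMap.det K ≠ 0 ∧
      |LinearMap.det K| ≤ 1 ∧ ‖R‖ ≤ 1 ∧ (∀ w, M w = K (R w)) ∧ HasStrictFDerivAt f M z) :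
    μH[d] (f '' A) ≤ μH[d] A := by
  apply le_of_forall_pow_mul d
  intro c hc
  apply image_le_of_local
  intro z hz
  obtain ⟨K, R, M, h0, h1, h2, h3, h4⟩ := h z hz
  let K' := (LinearMap.equivOfDetNeZero K h0).toContinuousLinearEquiv
  have hK : ∀ u, K' u = K u := fun u => rfl
  have h5 : HasStrictFDerivAt (fun x => K'.symm (f x)) R z := by
    have := K'.symm.hasStrictFDerivAt.comp z h4
    have e : (K'.symm : U →L[ℝ] U).comp M = R := by
      ext1 w
      simp [h3, ← hK]
    rwa [e] at this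
  obtain ⟨O, hO, hL⟩ := h5.exists_lipschitzOnWith_of_nnnorm_lt c
    (lt_of_le_of_lt (by exact_mod_cast h2) hc)
  refine ⟨O, hO, fun B hB => ?_⟩
  have e : f '' B = K '' ((fun x => K'.symm (f x)) '' B) := by
    rw [image_image]
    apply image_congr
    intro x _
    rw [← hK, K'.apply_symm_apply]
  have h6 := LinearMap.hausdorffMeasure_image K ((fun x => K'.symm (f x)) '' B)
  rw [hd, LinearMap.normDet_eq_abs_det] at h6
  rw [e, h6]
  have h7 := (hL.mono hB).hausdorffMeasure_image_le (d := d) (by positivity)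
  rw [ENNReal.rpow_natCast] at h7
  calc _ ≤ 1 * ((c : ℝ≥0∞) ^ d * μH[d] B) := by
        gcongr
        exact ENNReal.ofReal_le_one.2 h1
    _ = _ := one_mul _

end Pool.Agent.Lib.MP_b07a76_an
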