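import Pool.Agent.Lib.MP_b07a76_an.NDefs
import Pool.Agent.Lib.MP_b07a76_an.IFrame

/-! The lower and the upper datum force disjoint wedges. -/

namespace Pool.Agent.Lib.MP_b07a76_an

noncomputable section
open Module Set Real

variable {V : Type} [NormedAddCommGroup V] [InnerProductSpace ℝ V] [FiniteDimensional ℝ V] {k : ℕ}

lemma NAlpha_one {P : Submodule ℝ V} (hP : finrank ℝ P = k + 4) {b e : Fin (k + 4) → V}
    (hb : Orthonormal ℝ b) (hbP : ∀ r, b r ∈ P) (he : Orthonormal ℝ e) (heP : ∀ r, e r ∈ P)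
    (k' : ℕ) (h2 : ∀ l r : Fin (k + 4), (l : ℕ) < k' → k ≤ r → inner ℝ (e l) (b r) = 0) (z : V) :
    qq b z ≤ ∑ l : Fin (k + 4), (if k' ≤ (l : ℕ) then 4 / 3 else 1) * inner ℝ (e l) z ^ 2 := by
  have h0 : ∀ r l : Fin (k + 4), (l : ℕ) < (if (r : ℕ) < k then 0 else k') →
      inner ℝ (e l) (b r) = 0 := by
    intro r l hl
    split_ifs at hl with hr
    · omega
    · exact h2 l r hl (by omega)
  have h3 := bessel_flag hP hb hbP he heP _ h0 z 0
  have h4 := bessel_flag hP hb hbP he heP _ h0 z k'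
  simp only [Nat.zero_le, if_true] at h3
  have h5 : qq b z ≤ ∑ r, inner ℝ (b r) z ^ 2 + 1 / 3 * ∑ r : Fin (k + 4),
      (if k' ≤ (if (r : ℕ) < k then 0 else k') then inner ℝ (b r) z ^ 2 else 0) := by
    rw [qq, Finset.mul_sum, ← Finset.sum_add_distrib]
    refine Finset.sum_le_sum fun r _ => ?_
    have := sq_nonneg (inner ℝ (b r) z)
    by_cases hr : (r : ℕ) < k
    · simp only [if_pos hr]
      split_ifs <;> linarith
    · simp only [if_neg hr, le_refl, if_true]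
      linarith
  have h6 : ∑ l : Fin (k + 4), (if k' ≤ (l : ℕ) then 4 / 3 else 1) * inner ℝ (e l) z ^ 2 =
      ∑ l, inner ℝ (e l) z ^ 2 + 1 / 3 * ∑ l : Fin (k + 4),
        (if k' ≤ (l : ℕ) then inner ℝ (e l) z ^ 2 else 0) := by
    rw [Finset.mul_sum, ← Finset.sum_add_distrib]
    refine Finset.sum_congr rfl fun l _ => ?_
    split_ifs <;> ring
  linarith

/-- Sketch. `qq b z = ∑ r, ⟪b r, z⟫ ^ 2 + (1/3) ∑ r ≥ k, ⟪b r, z⟫ ^ 2 ≤ ∑ l, ⟪e l, z⟫ ^ 2 + (1/3) ∑ l ≥ k', ⟪e l, z⟫ ^ 2` by two uses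
of `bessel_flag` (Angles.lean) with `φ r = if r < k then 0 else k'` and the thresholds `0`, `k'`; the same for `b'`, `f`. Then
`pair_ineq`: `(1 + c l)⁻¹ ≥ 1/2` always (`c l = ⟪e l, f l⟫ ≤ 1`) and `≥ 2/3` for `k' ≤ l`. -/
lemma pair_qq {P Q : Submodule ℝ V} (hP : finrank ℝ P = k + 4) (hQ : finrank ℝ Q = k + 4)
    {b b' e f : Fin (k + 4) → V} {c : Fin (k + 4) → ℝ} (hb : Orthonormal ℝ b) (hbP : ∀ r, b r ∈ P)
    (hb' : Orthonormal ℝ b') (hbQ : ∀ r, b' r ∈ Q) (h : Fr P Q e f c) (hc : ∀ l, 0 ≤ c l) (k' : ℕ)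
    (h1 : ∀ l : Fin (k + 4), k' ≤ l → c l ≤ 1 / 2)
    (h2 : ∀ l r : Fin (k + 4), (l : ℕ) < k' → k ≤ r →
      inner ℝ (e l) (b r) = 0 ∧ inner ℝ (f l) (b' r) = 0) (z : V) :
    qq b z + qq b' z ≤ 2 * ‖z‖ ^ 2 := by
  have h3 := NAlpha_one hP hb hbP h.1 h.2.2.1 k' (fun l r hl hr => (h2 l r hl hr).1) z
  have h4 := NAlpha_one hQ hb' hbQ h.2.1 h.2.2.2.1 k' (fun l r hl hr => (h2 l r hl hr).2) z
  have h5 := pair_ineq h.1 h.2.1 hc h.2.2.2.2 z
  have h6 : ∑ l : Fin (k + 4), (if k' ≤ (l : ℕ) then 4 / 3 else 1) * inner ℝ (e l) z ^ 2 +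
      ∑ l : Fin (k + 4), (if k' ≤ (l : ℕ) then 4 / 3 else 1) * inner ℝ (f l) z ^ 2 ≤
      2 * ∑ l, (1 + c l)⁻¹ * (inner ℝ (e l) z ^ 2 + inner ℝ (f l) z ^ 2) := by
    rw [Finset.mul_sum, ← Finset.sum_add_distrib]
    refine Finset.sum_le_sum fun l _ => ?_
    rw [← mul_add, ← mul_assoc]
    refine mul_le_mul_of_nonneg_right ?_ (by positivity)
    have h7 : 0 < 1 + c l := by linarith [hc l]
    have h8 : c l ≤ 1 := by
      have h9 := h.2.2.2.2 l l
      rw [if_pos rfl] at h9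
      have h10 := real_inner_le_norm (e l) (f l)
      rw [h.1.1 l, h.2.1.1 l] at h10
      linarith
    rw [← div_eq_mul_inv, le_div_iff₀ h7]
    split_ifs with hl
    · linarith [h1 l hl]
    · linarith
  linarith

/-- Any frames (`exists_frame`), `exists_principal`, `pair_qq` with `k' = 0`. -/
theorem beta_frames {m : ℕ} {P : Fin m → Submodule ℝ V}
    (hP : Realises P (fun (_ _ : Fin m) (_ : Fin (k + 4)) => π / 2)) :
    ∃ b : Fin m → Fin (k + 4) → V, (∀ i, Orthonormal ℝ (b i) ∧ ∀ r, b i r ∈ P i) ∧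
      ∀ i j, i ≠ j → ∀ z, qq (b i) z + qq (b j) z ≤ 2 * ‖z‖ ^ 2 := by
  have h0 := fun i => exists_flag (P i) (hP.1 i) (fun _ => ∅) (fun _ => by simp)
  choose b h1 h2 _ using h0
  have key : ∀ i j, i < j → ∀ z, qq (b i) z + qq (b j) z ≤ 2 * ‖z‖ ^ 2 := by
    intro i j hij z
    obtain ⟨e, f, h⟩ := exists_principal (hP.1 i) (hP.1 j) (hP.2 i j hij)
    exact pair_qq (hP.1 i) (hP.1 j) (h1 i) (h2 i) (h1 j) (h2 j) h (fun l => by simp) 0
      (fun l _ => by simp) (fun l r hl => absurd hl (Nat.not_lt_zero _)) z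
  refine ⟨b, fun i => ⟨h1 i, h2 i⟩, fun i j hij z => ?_⟩
  rcases lt_or_gt_of_ne hij with hlt | hlt
  · exact key i j hlt z
  · linarith [key j i hlt z]

lemma NAlpha_span {d : ℕ} [DecidableEq V] {P : Submodule ℝ V} (hP : finrank ℝ P = d)
    {e : Fin d → V} (he : Orthonormal ℝ e) (heP : ∀ r, e r ∈ P) (S : Finset (Fin d)) {v : V}
    (hv : v ∈ P) (h : ∀ l, l ∉ S → inner ℝ (e l) v = 0) :
    v ∈ Submodule.span ℝ ((S.image e : Finset V) : Set V) := by
  rw [eq_sum_of_mem hP he heP hv]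
  refine Submodule.sum_mem _ fun j _ => ?_
  by_cases hj : j ∈ S
  · exact Submodule.smul_mem _ _ (Submodule.subset_span
      (Finset.mem_coe.2 (Finset.mem_image_of_mem _ hj)))
  · rw [h j hj, zero_smul]
    exact Submodule.zero_mem _

lemma NAlpha_cosA (l : Fin (k + 4)) :
    cos (angA k (π / 3) l) = if (l : ℕ) < k then 1 else 1 / 2 := by
  unfold angA
  split_ifs
  · exact cos_zero
  · exact cos_pi_div_three

lemma NAlpha_cosB (l : Fin (k + 4)) :
    cos (angB k (π / 3) l) = if (l : ℕ) < 4 then 1 / 2 else 0 := by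
  unfold angB
  split_ifs
  · exact cos_pi_div_three
  · exact cos_pi_div_two

lemma NAlpha_core {P Q : Submodule ℝ V} (hP : finrank ℝ P = k + 4) (hQ : finrank ℝ Q = k + 4)
    {e f : Fin (k + 4) → V} (h : Fr P Q e f fun l => cos (angA k (π / 3) l)) :
    (∀ l : Fin (k + 4), (l : ℕ) < k → e l ∈ P ⊓ Q ∧ f l ∈ P ⊓ Q) ∧
      finrank ℝ (P ⊓ Q : Submodule ℝ V) = k := by
  classical
  have h1 : ∀ l : Fin (k + 4), (l : ℕ) < k → e l = f l := by
    intro l hl
    have h2 := h.2.2.2.2 l l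
    simp only [NAlpha_cosA, if_pos hl, if_true] at h2
    exact (inner_eq_one_iff_of_norm_eq_one (h.1.1 l) (h.2.1.1 l)).1 h2
  have h2 : ∀ l : Fin (k + 4), (l : ℕ) < k → e l ∈ P ⊓ Q := fun l hl =>
    ⟨h.2.2.1 l, h1 l hl ▸ h.2.2.2.1 l⟩
  refine ⟨fun l hl => ⟨h2 l hl, h1 l hl ▸ h2 l hl⟩, le_antisymm ?_ ?_⟩
  · have h3 : P ⊓ Q ≤ Submodule.span ℝ
        (((Finset.univ.filter fun l : Fin (k + 4) => (l : ℕ) < k).image e : Finset V) : Set V) := by
      intro v hv
      refine NAlpha_span hP h.1 h.2.2.1 _ hv.1 fun l hl => h.zero hP hQ ?_ hv.1 hv.2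
      have hl' : ¬ (l : ℕ) < k := by simpa using hl
      rw [NAlpha_cosA, if_neg hl', abs_lt]
      constructor <;> norm_num
    refine (Submodule.finrank_mono h3).trans ((finrank_span_finset_le_card _).trans
      (Finset.card_image_le.trans ?_))
    rw [Fin.card_filter_val_lt]
    exact min_le_right _ _
  · let v : Fin k → (P ⊓ Q : Submodule ℝ V) := fun l => ⟨e (Fin.castAdd 4 l), h2 _ l.2⟩
    have hv : Orthonormal ℝ v :=
      (P ⊓ Q).subtypeₗᵢ.orthonormal_comp_iff.1 (h.1.comp _ (Fin.castAdd_injective _ _))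
    simpa using hv.linearIndependent.fintype_card_le_finrank

/-- Sketch. `U = P (last)`. Let `(e⁰, f⁰)` be principal frames (`exists_principal`, it gives `Fr`) of `(P 0, U)` and
`K = span {e⁰ r | 4 ≤ r}`, of dimension `k`. `P 0 ⊓ Uᗮ ≤ K` (`Fr.left`, `eq_sum_of_mem`). For a core index `i ≥ 1`, `P i ⟂ U` (`Fr.inner_eq`);
for frames `(e, f)` of `(P 0, P i)` and `r < k`, `⟪e r, f r⟫ = 1` gives `e r = f r ∈ P 0 ⊓ P i ≤ K` (`inner_eq_one_iff_of_norm_eq_one`); these `k`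
orthonormal vectors span `K` (`Submodule.eq_of_le_of_finrank_le`), so `K ≤ P i`. For core `i < j` with frames `(e, f)`:
`K ≤ P i ⊓ P j ≤ span {e r | r < k}` (`Fr.zero`), so these are equal and `e r = f r ∈ K` for `r < k`. Take `b i` from `exists_flag` with
`c r = if r < k then ∅ else image e⁰ {r | 4 ≤ r}` for every `i`; then `b i r ⟂ K` for `k ≤ r`. `pair_qq` with `k' = k` for core pairs,
`k' = 0` for pairs with `U`. -/
theorem alpha_frames {N : ℕ} {P : Fin (N + 3) → Submodule ℝ V} (hP : Realises P (alphaN k N)) :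
    ∃ b : Fin (N + 3) → Fin (k + 4) → V, (∀ i, Orthonormal ℝ (b i) ∧ ∀ r, b i r ∈ P i) ∧
      ∀ i j, i ≠ j → ∀ z, qq (b i) z + qq (b j) z ≤ 2 * ‖z‖ ^ 2 := by
  classical
  have hA : ∀ i j : Fin (N + 3), i < j → (j : ℕ) < N + 2 →
      ∃ e f, Fr (P i) (P j) e f fun l => cos (angA k (π / 3) l) := by
    intro i j hij hj
    have h := hP.2 i j hij
    rw [alphaN, if_pos hj] at h
    exact exists_principal (hP.1 i) (hP.1 j) h
  have hU : ¬ ((Fin.last (N + 2) : Fin (N + 3)) : ℕ) < N + 2 := by simp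
  have hB : ∃ e f, Fr (P 0) (P (Fin.last (N + 2))) e f fun l => cos (angB k (π / 3) l) := by
    have h := hP.2 0 (Fin.last (N + 2)) Fin.last_pos
    rw [alphaN, if_neg hU, if_pos (Fin.val_zero _)] at h
    exact exists_principal (hP.1 _) (hP.1 _) h
  have hC : ∀ i : Fin (N + 3), (i : ℕ) ≠ 0 → (i : ℕ) < N + 2 →
      ∃ e f, Fr (P i) (P (Fin.last (N + 2))) e f fun _ : Fin (k + 4) => cos (π / 2) := by
    intro i hi0 hi
    have h := hP.2 i (Fin.last (N + 2)) (by rw [Fin.lt_def]; simpa using hi)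
    rw [alphaN, if_neg hU, if_neg hi0] at h
    exact exists_principal (hP.1 _) (hP.1 _) h
  obtain ⟨e0, f0, h0⟩ := hB
  set S : Finset V := (Finset.univ.filter fun l : Fin (k + 4) => ¬ (l : ℕ) < 4).image e0 with hS
  have hcard : S.card ≤ k := by
    refine Finset.card_image_le.trans ?_
    have h1 := Finset.card_filter_add_card_filter_not (s := Finset.univ)
      (fun l : Fin (k + 4) => (l : ℕ) < 4)
    rw [Fin.card_filter_val_lt, Finset.card_univ, Fintype.card_fin] at h1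
    omega
  set K := Submodule.span ℝ (S : Set V) with hK
  have hKk : finrank ℝ K ≤ k := (finrank_span_finset_le_card _).trans hcard
  have h1 : ∀ i : Fin (N + 3), (i : ℕ) ≠ 0 → (i : ℕ) < N + 2 → P 0 ⊓ P i = K := by
    intro i hi0 hi
    obtain ⟨e, f, h⟩ := hA 0 i (by rw [Fin.lt_def]; simp only [Fin.val_zero]; omega) hi
    obtain ⟨e', f', h'⟩ := hC i hi0 hi
    refine Submodule.eq_of_le_of_finrank_le (fun v hv => ?_)
      (hKk.trans (NAlpha_core (hP.1 _) (hP.1 _) h).2.ge)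
    refine NAlpha_span (hP.1 0) h0.1 h0.2.2.1 _ hv.1 fun l hl => ?_
    have hl' : (l : ℕ) < 4 := by simpa using hl
    have h2 := h0.left (hP.1 0) hv.1 l
    have h3 := h'.inner_eq (hP.1 _) (hP.1 _) hv.2 (h0.2.2.2.1 l)
    simp only [cos_pi_div_two, zero_mul, Finset.sum_const_zero] at h3
    rw [real_inner_comm, h3, NAlpha_cosB, if_pos hl'] at h2
    linarith
  have h11 : P 0 ⊓ P 1 = K := h1 1 (by simp) (by simp)
  have hkK : k ≤ finrank ℝ K := by
    obtain ⟨e, f, h⟩ := hA 0 1 (by simp) (by simp)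
    rw [← h11]
    exact (NAlpha_core (hP.1 _) (hP.1 _) h).2.ge
  have h2 : ∀ i : Fin (N + 3), (i : ℕ) < N + 2 → K ≤ P i := by
    intro i hi
    by_cases hi0 : (i : ℕ) = 0
    · rw [show i = 0 from Fin.ext hi0, ← h11]
      exact inf_le_left
    · rw [← h1 i hi0 hi]
      exact inf_le_right
  have h3 := fun i => exists_flag (P i) (hP.1 i) (fun r => if (r : ℕ) < k then ∅ else S)
    (fun r => by
      split_ifs with hr
      · simp
      · omega)
  choose b h3 h4 h5 using h3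
  have h6 : ∀ i (r : Fin (k + 4)), k ≤ r → ∀ v ∈ K, inner ℝ v (b i r) = 0 := by
    intro i r hr v hv
    induction hv using Submodule.span_induction with
    | mem x hx => exact h5 i r x (by rw [if_neg (by omega)]; exact hx)
    | zero => exact inner_zero_left _
    | add x y _ _ hx hy => rw [inner_add_left, hx, hy, add_zero]
    | smul a x _ hx => rw [inner_smul_left, hx, mul_zero]
  have key : ∀ i j, i < j → ∀ z, qq (b i) z + qq (b j) z ≤ 2 * ‖z‖ ^ 2 := by
    intro i j hij z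
    have hij' : (i : ℕ) < j := hij
    by_cases hj : (j : ℕ) < N + 2
    · obtain ⟨e, f, h⟩ := hA i j hij hj
      obtain ⟨h7, h8⟩ := NAlpha_core (hP.1 _) (hP.1 _) h
      have h9 : K = P i ⊓ P j := Submodule.eq_of_le_of_finrank_le
        (le_inf (h2 i (by omega)) (h2 j hj)) (h8.le.trans hkK)
      refine pair_qq (hP.1 i) (hP.1 j) (h3 i) (h4 i) (h3 j) (h4 j) h (fun l => ?_) k
        (fun l hl => ?_) (fun l r hl hr => ⟨h6 i r hr _ (h9 ▸ (h7 l hl).1),
          h6 j r hr _ (h9 ▸ (h7 l hl).2)⟩) z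
      · rw [NAlpha_cosA]
        split_ifs <;> norm_num
      · rw [NAlpha_cosA, if_neg (by omega)]
    · have hj' : j = Fin.last (N + 2) := Fin.ext (by have := j.2; simp only [Fin.val_last]; omega)
      subst hj'
      by_cases hi0 : (i : ℕ) = 0
      · rw [show i = 0 from Fin.ext hi0]
        refine pair_qq (hP.1 _) (hP.1 _) (h3 _) (h4 _) (h3 _) (h4 _) h0 (fun l => ?_) 0
          (fun l _ => ?_) (fun l r hl => absurd hl (Nat.not_lt_zero _)) z
        · rw [NAlpha_cosB]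
          split_ifs <;> norm_num
        · rw [NAlpha_cosB]
          split_ifs <;> norm_num
      · obtain ⟨e, f, h⟩ := hC i hi0 (by simpa using hij')
        exact pair_qq (hP.1 _) (hP.1 _) (h3 _) (h4 _) (h3 _) (h4 _) h (fun l => by simp) 0
          (fun l _ => by simp) (fun l r hl => absurd hl (Nat.not_lt_zero _)) z
  refine ⟨b, fun i => ⟨h3 i, h4 i⟩, fun i j hij z => ?_⟩
  rcases lt_or_gt_of_ne hij with hlt | hlt
  · exact key i j hlt z
  · linarith [key j i hlt z]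

end

end Pool.Agent.Lib.MP_b07a76_an
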