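import Pool.Agent.Lib.MP_b07a76_an.NDefs
import Pool.Agent.Lib.MP_b07a76_an.IFrame

/-! Computing the angles of pairs of planes with a block structure. -/

namespace Pool.Agent.Lib.MP_b07a76_an

noncomputable section
open Module Set Real

variable {V : Type} [NormedAddCommGroup V] [InnerProductSpace ℝ V] [FiniteDimensional ℝ V] {k : ℕ}

/-- `stdOrthonormalBasis` composed with an embedding `I ↪ Fin (finrank ℝ V)`. -/
lemma exists_on_family (I : Type) [Fintype I] (h : Fintype.card I ≤ finrank ℝ V) :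
    ∃ ε : I → V, Orthonormal ℝ ε := by
  rw [← Fintype.card_fin (finrank ℝ V)] at h
  obtain ⟨φ⟩ := Function.Embedding.nonempty_of_card_le h
  exact ⟨_, (stdOrthonormalBasis ℝ V).orthonormal.comp _ φ.injective⟩

lemma angA_ok {θ : ℝ} (h : θ ∈ Icc 0 (π / 2)) :
    Monotone (angA k θ) ∧ ∀ r, angA k θ r ∈ Icc 0 (π / 2) := by
  refine ⟨fun r l hrl => ?_, fun r => ?_⟩
  · have : (r : ℕ) ≤ l := hrl
    simp only [angA]
    split_ifs with h1 h2 h2
    · exact le_rfl
    · exact h.1
    · omega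
    · exact le_rfl
  · simp only [angA]
    split_ifs
    · exact ⟨le_rfl, h.1.trans h.2⟩
    · exact h

lemma angB_ok {θ : ℝ} (h : θ ∈ Icc 0 (π / 2)) :
    Monotone (angB k θ) ∧ ∀ r, angB k θ r ∈ Icc 0 (π / 2) := by
  refine ⟨fun r l hrl => ?_, fun r => ?_⟩
  · have : (r : ℕ) ≤ l := hrl
    simp only [angB]
    split_ifs with h1 h2 h2
    · exact le_rfl
    · exact h.2
    · omega
    · exact le_rfl
  · simp only [angB]
    split_ifs
    · exact h
    · exact ⟨h.1.trans h.2, le_rfl⟩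

/-- Any frames (`exists_frame`), `Fr.hasAngles` with `c = 0`. -/
lemma hasAngles_orth {d : ℕ} {P Q : Submodule ℝ V} (hP : finrank ℝ P = d) (hQ : finrank ℝ Q = d)
    (h : ∀ u ∈ P, ∀ v ∈ Q, inner ℝ u v = 0) : HasAngles P Q (fun _ : Fin d => π / 2) := by
  obtain ⟨e, he, heP⟩ := exists_frame P hP
  obtain ⟨f, hf, hfQ⟩ := exists_frame Q hQ
  have hF : Fr P Q e f (fun _ => 0) :=
    ⟨he, hf, heP, hfQ, fun r l => by rw [h _ (heP r) _ (hfQ l), ite_self]⟩
  exact hF.hasAngles hP hQ monotone_const (fun _ => ⟨by positivity, le_rfl⟩) (fun _ => by simp)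

lemma NAng_compl {P : Submodule ℝ V} (hP : finrank ℝ P = k + 4) (x : Fin 4 → V) :
    ∃ t : Fin k → V, Orthonormal ℝ t ∧ (∀ r, t r ∈ P) ∧ ∀ s r, inner ℝ (x s) (t r) = 0 := by
  classical
  obtain ⟨b, h1, h2, h3⟩ := exists_flag P hP
    (fun r => if (r : ℕ) < 4 then ∅ else Finset.univ.image x) (by
      intro r
      split_ifs with h
      · simp
      · refine Finset.card_image_le.trans ?_
        simp only [Finset.card_univ, Fintype.card_fin]
        omega)
  refine ⟨fun r => b (r.addNat 4), h1.comp _ fun r r' h => ?_, fun r => h2 _, fun s r => ?_⟩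
  · have := congrArg Fin.val h
    simp only [Fin.val_addNat] at this
    exact Fin.ext (by omega)
  · refine h3 _ _ ?_
    rw [if_neg (by simp)]
    exact Finset.mem_image_of_mem _ (Finset.mem_univ _)

omit [FiniteDimensional ℝ V] in
lemma NAng_gram {m n : ℕ} {u u' : Fin m → V} {w w' : Fin n → V} {a b : ℝ}
    (h1 : ∀ i j, inner ℝ (u i) (u' j) = if i = j then a else 0)
    (h2 : ∀ i j, inner ℝ (w i) (w' j) = if i = j then b else 0)
    (h3 : ∀ i j, inner ℝ (u i) (w' j) = 0) (h4 : ∀ i j, inner ℝ (w i) (u' j) = 0)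
    (r l : Fin (m + n)) : inner ℝ (Fin.append u w r) (Fin.append u' w' l) =
      if r = l then (if (r : ℕ) < m then a else b) else 0 := by
  refine Fin.addCases (fun i => ?_) (fun i => ?_) r <;>
    refine Fin.addCases (fun j => ?_) (fun j => ?_) l
  · simp [h1]
  · rw [Fin.append_left, Fin.append_right, h3, if_neg]
    intro h
    have := congrArg Fin.val h
    simp only [Fin.val_castAdd, Fin.val_natAdd] at this
    omega
  · rw [Fin.append_left, Fin.append_right, h4, if_neg]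
    intro h
    have := congrArg Fin.val h
    simp only [Fin.val_castAdd, Fin.val_natAdd] at this
    omega
  · simp [h2]

omit [FiniteDimensional ℝ V] in
lemma NAng_on {m n : ℕ} {u : Fin m → V} {w : Fin n → V} (hu : Orthonormal ℝ u)
    (hw : Orthonormal ℝ w) (h : ∀ i j, inner ℝ (u i) (w j) = 0) :
    Orthonormal ℝ (Fin.append u w) := by
  rw [orthonormal_iff_ite] at hu hw ⊢
  intro r l
  rw [NAng_gram hu hw h (fun i j => by rw [real_inner_comm, h]), ite_self]

omit [FiniteDimensional ℝ V] in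
lemma NAng_mem {m n : ℕ} {u : Fin m → V} {w : Fin n → V} {P : Submodule ℝ V}
    (hu : ∀ i, u i ∈ P) (hw : ∀ i, w i ∈ P) (r : Fin (m + n)) : Fin.append u w r ∈ P := by
  refine Fin.addCases (fun i => ?_) (fun i => ?_) r
  · rw [Fin.append_left]; exact hu i
  · rw [Fin.append_right]; exact hw i

/-- Sketch. `exists_flag` with `c r = if r < 4 then ∅ else image x univ` gives `k` orthonormal vectors `t r ∈ P` orthogonal
to all `x s`; frames `Fin.append t x`, `Fin.append t y` (or `Fin.addCases`), `Fr.hasAngles`. -/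
lemma hasAngles_A {P Q : Submodule ℝ V} (hP : finrank ℝ P = k + 4) (hQ : finrank ℝ Q = k + 4)
    {x y : Fin 4 → V} (hx : Orthonormal ℝ x) (hy : Orthonormal ℝ y) (hxP : ∀ s, x s ∈ P)
    (hyQ : ∀ s, y s ∈ Q) {g θ : ℝ} (hxy : ∀ s t, inner ℝ (x s) (y t) = if s = t then g else 0)
    (hθ : θ ∈ Icc 0 (π / 2)) (hg : |g| = cos θ)
    (h : ∀ v ∈ P, (∀ s, inner ℝ (x s) v = 0) → v ∈ Q ∧ ∀ s, inner ℝ (y s) v = 0) :
    HasAngles P Q (angA k θ) := by
  obtain ⟨t, ht, htP, htx⟩ := NAng_compl hP x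
  have h' := fun r => h (t r) (htP r) fun s => htx s r
  have hF : Fr P Q (Fin.append t x) (Fin.append t y) (fun r => if (r : ℕ) < k then 1 else g) :=
    ⟨NAng_on ht hx fun i j => by rw [real_inner_comm, htx],
      NAng_on ht hy fun i j => by rw [real_inner_comm, (h' i).2],
      NAng_mem htP hxP, NAng_mem (fun r => (h' r).1) hyQ,
      NAng_gram (orthonormal_iff_ite.1 ht) hxy (fun i j => by rw [real_inner_comm, (h' i).2]) htx⟩
  refine hF.hasAngles hP hQ (angA_ok hθ).1 (angA_ok hθ).2 fun r => ?_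
  simp only [angA]
  split_ifs
  · simp
  · exact hg

/-- Sketch. As before, with `t r ∈ P`, `t' r ∈ Q`, and the frames `fun r => if r < 4 then x r else b r` (`b` from `exists_flag`). -/
lemma hasAngles_B {P Q : Submodule ℝ V} (hP : finrank ℝ P = k + 4) (hQ : finrank ℝ Q = k + 4)
    {x y : Fin 4 → V} (hx : Orthonormal ℝ x) (hy : Orthonormal ℝ y) (hxP : ∀ s, x s ∈ P)
    (hyQ : ∀ s, y s ∈ Q) {g θ : ℝ} (hxy : ∀ s t, inner ℝ (x s) (y t) = if s = t then g else 0)
    (hθ : θ ∈ Icc 0 (π / 2)) (hg : |g| = cos θ)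
    (h1 : ∀ v ∈ P, (∀ s, inner ℝ (x s) v = 0) → ∀ w ∈ Q, inner ℝ v w = 0)
    (h2 : ∀ w ∈ Q, (∀ s, inner ℝ (y s) w = 0) → ∀ v ∈ P, inner ℝ v w = 0) :
    HasAngles P Q (angB k θ) := by
  obtain ⟨t, ht, htP, htx⟩ := NAng_compl hP x
  obtain ⟨t', ht', htQ, hty⟩ := NAng_compl hQ y
  let φ : Fin (k + 4) → Fin (4 + k) := Fin.cast (Nat.add_comm k 4)
  have hφ : Function.Injective φ := Fin.cast_injective _
  have hG := NAng_gram (w := t) (w' := t') (b := 0) hxy
    (fun i j => by rw [h1 _ (htP i) (fun s => htx s i) _ (htQ j), ite_self])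
    (fun i j => h2 _ (htQ j) (fun s => hty s j) _ (hxP i))
    (fun i j => h1 _ (htP i) (fun s => htx s i) _ (hyQ j))
  have hF : Fr P Q (Fin.append x t ∘ φ) (Fin.append y t' ∘ φ)
      (fun r => if (r : ℕ) < 4 then g else 0) := by
    refine ⟨(NAng_on hx ht htx).comp _ hφ, (NAng_on hy ht' hty).comp _ hφ,
      fun r => NAng_mem hxP htP _, fun r => NAng_mem hyQ htQ _, fun r l => ?_⟩
    rw [Function.comp_apply, Function.comp_apply, hG]
    simp only [hφ.eq_iff, φ, Fin.val_cast]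
  refine hF.hasAngles hP hQ (angB_ok hθ).1 (angB_ok hθ).2 fun r => ?_
  simp only [angB]
  split_ifs
  · exact hg
  · simp

end

end Pool.Agent.Lib.MP_b07a76_an
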