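import Pool.Agent.Lib.MP_b07a76_an.NHh

/-! Averaging over the shift of the grid. -/

namespace Pool.Agent.Lib.MP_b07a76_an

noncomputable section
open MeasureTheory Set Real Metric
open scoped NNReal ENNReal

lemma NAvg_cont : Continuous yy :=
  (LipschitzWith.of_dist_le' (K := 2) fun t t' => by
    rw [Real.dist_eq, Real.dist_eq]; exact yy_lip t t').continuous

lemma NAvg_open {Z : Type} [TopologicalSpace Z] {n : ℕ} {u : Fin n → Z → ℝ} {s : Z → ℝ}
    (hu : ∀ j, Continuous (u j)) (hs : Continuous s) :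
    IsOpen {z | ∃ J : Finset (Fin n), J.card = 3 ∧ ∀ j, j ∉ J → yy (u j z) < s z} := by
  have e : {z | ∃ J : Finset (Fin n), J.card = 3 ∧ ∀ j, j ∉ J → yy (u j z) < s z} =
      ⋃ J : Finset (Fin n), ⋃ _ : J.card = 3, ⋂ j, ⋂ _ : j ∉ J, {z | yy (u j z) < s z} := by
    ext z
    simp
  rw [e]
  exact isOpen_iUnion fun J => isOpen_iUnion fun _ => isOpen_iInter_of_finite fun j =>
    isOpen_iInter_of_finite fun _ => isOpen_lt (NAvg_cont.comp (hu j)) hs

/-- `yy` is continuous by `yy_lip`; finite union of finite intersections. -/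
lemma isOpen_Bad {n : ℕ} (a : Fin n → ℝ) {s : Ed n → ℝ} (hs : Continuous s) : IsOpen (Bad a s) :=
  NAvg_open (u := fun j (x : Ed n) => x j + a j) (fun j => by fun_prop) hs

/-- Sketch: `yy u = 2 ‖(u : UnitAddCircle)‖` (`UnitAddCircle.norm_eq`), `AddCircle.measurePreserving_mk 1 0`,
`AddCircle.volume_closedBall`. -/
lemma vol_yy (t σ : ℝ) : volume.restrict (Ioc (0 : ℝ) 1) {u | yy (t + u) < σ} ≤ ENNReal.ofReal σ := by
  have h := UnitAddCircle.measurePreserving_mk 0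
  rw [zero_add] at h
  have h1 : {u | yy (t + u) < σ} ⊆
      ((↑) : ℝ → UnitAddCircle) ⁻¹' closedBall (-(t : UnitAddCircle)) (σ / 2) := by
    intro u hu
    have h2 : 2 * |t + u - round (t + u)| < σ := hu
    rw [mem_preimage, mem_closedBall, dist_eq_norm, sub_neg_eq_add, add_comm, ← AddCircle.coe_add,
      UnitAddCircle.norm_eq]
    linarith
  refine (measure_mono h1).trans ?_
  rw [h.measure_preimage measurableSet_closedBall.nullMeasurableSet, AddCircle.volume_closedBall]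
  exact ENNReal.ofReal_le_ofReal ((min_le_right _ _).trans (by linarith))

lemma NAvg_slice {d : ℕ} (x : Fin (d + 4) → ℝ) (σ : ℝ) :
    (Measure.pi fun _ : Fin (d + 4) => volume.restrict (Ioc (0 : ℝ) 1))
      {a | ∃ J : Finset (Fin (d + 4)), J.card = 3 ∧ ∀ j, j ∉ J → yy (x j + a j) < σ}
      ≤ ((d + 4 : ℕ) : ℝ≥0∞) ^ 3 * ENNReal.ofReal σ ^ (d + 1) := by
  have hp : IsProbabilityMeasure (volume.restrict (Ioc (0 : ℝ) 1)) := ⟨by simp⟩
  have h1 : {a : Fin (d + 4) → ℝ | ∃ J : Finset (Fin (d + 4)), J.card = 3 ∧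
      ∀ j, j ∉ J → yy (x j + a j) < σ} ⊆
      ⋃ J ∈ Finset.powersetCard 3 (Finset.univ : Finset (Fin (d + 4))),
        ((Jᶜ : Finset (Fin (d + 4))) : Set (Fin (d + 4))).pi fun j => {u | yy (x j + u) < σ} := by
    rintro a ⟨J, hJ, h⟩
    refine mem_iUnion₂.2 ⟨J, Finset.mem_powersetCard.2 ⟨Finset.subset_univ _, hJ⟩, fun j hj => ?_⟩
    exact h j (Finset.mem_compl.1 hj)
  refine (measure_mono h1).trans ((measure_biUnion_finset_le _ _).trans ?_)
  refine (Finset.sum_le_card_nsmul _ _ (ENNReal.ofReal σ ^ (d + 1)) fun J hJ => ?_).trans ?_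
  · rw [Measure.pi_pi_finset]
    refine (Finset.prod_le_pow_card _ _ _ fun j _ => vol_yy (x j) σ).trans (le_of_eq ?_)
    rw [Finset.card_compl, Fintype.card_fin, (Finset.mem_powersetCard.1 hJ).2]
    rfl
  · rw [nsmul_eq_mul, Finset.card_powersetCard, Finset.card_univ, Fintype.card_fin]
    refine mul_le_mul_left ?_ _
    exact_mod_cast Nat.choose_le_pow (d + 4) 3

/-- Sketch. Let `ν = Measure.pi fun _ => volume.restrict (Ioc 0 1)`, a probability measure. For fixed `x`,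
`ν {a | x ∈ Bad a s} ≤ ∑ J ∈ powersetCard 3 univ, ofReal (s x) ^ (d + 1)` by `Measure.pi_pi` and `vol_yy`
(`Nat.choose_le_pow`). The set `{(a, x) | x ∈ Bad a s}` is open; `lintegral_lintegral_swap`;
`(s x)⁻¹ ^ d * s x ^ (d + 1) = s x`; `exists_notMem_null_le_lintegral` with the null set `(univ.pi fun _ => Icc 0 1)ᶜ`. -/
theorem exists_shift {d : ℕ} (μ : Measure (Ed (d + 4))) [IsFiniteMeasure μ] {s : Ed (d + 4) → ℝ}
    (hs : Continuous s) (h0 : ∀ x, 0 < s x) :
    ∃ a : Fin (d + 4) → ℝ, (∀ j, a j ∈ Icc (0 : ℝ) 1) ∧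
      ∫⁻ x in Bad a s, ENNReal.ofReal ((s x)⁻¹ ^ d) ∂μ
        ≤ ((d + 4 : ℕ) : ℝ≥0∞) ^ 3 * ∫⁻ x, ENNReal.ofReal (s x) ∂μ := by
  have hp : IsProbabilityMeasure (volume.restrict (Ioc (0 : ℝ) 1)) := ⟨by simp⟩
  set ν : Measure (Fin (d + 4) → ℝ) := Measure.pi fun _ => volume.restrict (Ioc (0 : ℝ) 1) with hν
  set U : Set ((Fin (d + 4) → ℝ) × Ed (d + 4)) := {p | p.2 ∈ Bad p.1 s} with hU
  have hUo : IsOpen U :=
    NAvg_open (u := fun j (p : (Fin (d + 4) → ℝ) × Ed (d + 4)) => p.2 j + p.1 j)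
      (fun j => by fun_prop) (hs.comp continuous_snd)
  have hw : Measurable fun x => ENNReal.ofReal ((s x)⁻¹ ^ d) :=
    (hs.measurable.inv.pow_const d).ennreal_ofReal
  have hF : Measurable (U.indicator fun p => ENNReal.ofReal ((s p.2)⁻¹ ^ d)) :=
    (hw.comp measurable_snd).indicator hUo.measurableSet
  have e1 : ∀ a, ∫⁻ x in Bad a s, ENNReal.ofReal ((s x)⁻¹ ^ d) ∂μ =
      ∫⁻ x, U.indicator (fun p => ENNReal.ofReal ((s p.2)⁻¹ ^ d)) (a, x) ∂μ := by
    intro a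
    rw [← lintegral_indicator (isOpen_Bad a hs).measurableSet]
    rfl
  have hN : ν (univ.pi fun _ => Icc (0 : ℝ) 1)ᶜ = 0 := by
    rw [prob_compl_eq_zero_iff (MeasurableSet.univ_pi fun _ => measurableSet_Icc), hν,
      Measure.pi_pi]
    refine Finset.prod_eq_one fun j _ => ?_
    rw [Measure.restrict_apply measurableSet_Icc, inter_eq_right.2 Ioc_subset_Icc_self]
    simp
  obtain ⟨a, ha, h1⟩ := exists_notMem_null_le_lintegral (μ := ν)
    (hF.lintegral_prod_right' (ν := μ)).aemeasurable hN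
  refine ⟨a, fun j => not_notMem.1 ha j (mem_univ j), ?_⟩
  rw [e1]
  refine h1.trans ?_
  rw [lintegral_lintegral_swap (f := fun a x =>
    U.indicator (fun p => ENNReal.ofReal ((s p.2)⁻¹ ^ d)) (a, x)) hF.aemeasurable,
    ← lintegral_const_mul _ hs.measurable.ennreal_ofReal]
  refine lintegral_mono fun x => ?_
  have hV : MeasurableSet {a : Fin (d + 4) → ℝ | x ∈ Bad a s} :=
    measurable_prodMk_right hUo.measurableSet
  have e2 : ∫⁻ a, U.indicator (fun p => ENNReal.ofReal ((s p.2)⁻¹ ^ d)) (a, x) ∂ν =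
      ENNReal.ofReal ((s x)⁻¹ ^ d) * ν {a | x ∈ Bad a s} := by
    rw [← lintegral_indicator_const hV]
    rfl
  rw [e2]
  refine (mul_le_mul_right (NAvg_slice (fun j => x j) (s x)) _).trans (le_of_eq ?_)
  have hx := h0 x
  rw [mul_left_comm, ← ENNReal.ofReal_pow hx.le, ← ENNReal.ofReal_mul (by positivity)]
  congr 2
  rw [pow_succ, ← mul_assoc, ← mul_pow, inv_mul_cancel₀ hx.ne', one_pow, one_mul]

end

end Pool.Agent.Lib.MP_b07a76_an
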