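import Mathlib

/-! Many almost orthogonal unit vectors. -/

namespace Pool.Agent.Lib.MP_b07a76_an

open Set

theorem NCode_inner {p q : ℕ} [Fact p.Prime] (e : Fin q ≃ ZMod p × ZMod p)
    (f g : ZMod p → ZMod p) :
    inner ℝ (WithLp.toLp 2 fun k => if (e k).2 = f (e k).1 then (√p)⁻¹ else 0 :
        EuclideanSpace ℝ (Fin q))
      (WithLp.toLp 2 fun k => if (e k).2 = g (e k).1 then (√p)⁻¹ else 0) =
      ((Finset.univ.filter fun x => f x = g x).card : ℝ) / p := by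
  have hp : (0 : ℝ) ≤ p := Nat.cast_nonneg p
  have h : ((√p)⁻¹ * (√p)⁻¹ : ℝ) = (p : ℝ)⁻¹ := by rw [← mul_inv, Real.mul_self_sqrt hp]
  simp only [PiLp.inner_apply, RCLike.inner_apply, conj_trivial]
  rw [e.sum_comp fun z : ZMod p × ZMod p => (if z.2 = g z.1 then ((√p)⁻¹ : ℝ) else 0) *
    (if z.2 = f z.1 then (√p)⁻¹ else 0), Fintype.sum_prod_type, Finset.card_filter]
  push_cast
  rw [Finset.sum_div]
  refine Finset.sum_congr rfl fun x _ => ?_
  rw [Finset.sum_eq_single (f x) (fun y _ hy => by simp [hy]) (by simp)]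
  by_cases hx : f x = g x <;> simp [hx, h]

/-- Sketch (Reed-Solomon). Take a prime `p ≥ 200` (`Nat.exists_infinite_primes`, keep it a variable), `q = p * p`, `N = p ^ 70`.
For `c : Fin 70 → ZMod p` let `F c = Polynomial.ofFn 70 c` (degree `≤ 69`, injective in `c`) and
`w c : EuclideanSpace ℝ (ZMod p × ZMod p)` the vector with entries `1/√p` on the graph `y = eval x (F c)` and `0` elsewhere;
`⟪w c, w c'⟫ = card {x | eval x (F c) = eval x (F c')} / p ≤ 69 / p` for `c ≠ c'`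
(`Polynomial.card_le_degree_of_subset_roots`). Reindex `ZMod p × ZMod p ≃ Fin q` and `(Fin 70 → ZMod p) ≃ Fin N`
(`Fintype.equivFinOfCardEq`), `v i = if h : i < N then .. else 0`. Finally `10 ^ 15 * 4 ^ 28 ≤ 200 ^ 14 ≤ p ^ 14`. -/
theorem exists_code : ∃ (q N : ℕ) (v : ℕ → EuclideanSpace ℝ (Fin q)), 3 ≤ q ∧
    10 ^ 15 * (4 * q) ^ 28 ≤ N ∧ (∀ i, i < N → ‖v i‖ = 1) ∧
    ∀ i j, i < N → j < N → i ≠ j → inner ℝ (v i) (v j) ∈ Icc (0 : ℝ) (1 / 2) := by
  classical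
  obtain ⟨p, hp, hpp⟩ := Nat.exists_infinite_primes 200
  have : Fact p.Prime := ⟨hpp⟩
  have hp0 : (200 : ℝ) ≤ p := by exact_mod_cast hp
  let e : Fin (p * p) ≃ ZMod p × ZMod p := (Fintype.equivFinOfCardEq (by simp)).symm
  let c : Fin (p ^ 70) ≃ (Fin 70 → ZMod p) := (Fintype.equivFinOfCardEq (by simp)).symm
  obtain ⟨w, hw⟩ : ∃ w : (ZMod p → ZMod p) → EuclideanSpace ℝ (Fin (p * p)), ∀ f g,
      inner ℝ (w f) (w g) = ((Finset.univ.filter fun x => f x = g x).card : ℝ) / p :=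
    ⟨fun f => WithLp.toLp 2 fun k => if (e k).2 = f (e k).1 then (√p)⁻¹ else 0, NCode_inner e⟩
  refine ⟨p * p, p ^ 70, fun i => if h : i < p ^ 70 then
    w fun x => (Polynomial.ofFn 70 (c ⟨i, h⟩)).eval x else 0, by nlinarith, ?_, fun i hi => ?_,
    fun i j hi hj hij => ?_⟩
  · have h1 : 10 ^ 15 * 4 ^ 28 ≤ p ^ 14 := le_trans (by norm_num) (Nat.pow_le_pow_left hp 14)
    calc 10 ^ 15 * (4 * (p * p)) ^ 28 = 10 ^ 15 * 4 ^ 28 * p ^ 56 := by ring
      _ ≤ p ^ 14 * p ^ 56 := Nat.mul_le_mul_right _ h1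
      _ = p ^ 70 := by ring
  · simp only [dif_pos hi]
    rw [← sq_eq_sq₀ (norm_nonneg _) zero_le_one, ← real_inner_self_eq_norm_sq, hw]
    simp [hpp.ne_zero]
  · simp only [dif_pos hi, dif_pos hj]
    rw [hw]
    refine ⟨by positivity, ?_⟩
    have hne : Polynomial.ofFn 70 (c ⟨i, hi⟩) - Polynomial.ofFn 70 (c ⟨j, hj⟩) ≠ 0 := fun h =>
      hij (congrArg Fin.val (c.injective (Polynomial.injective_ofFn 70 (sub_eq_zero.1 h))))
    have h1 := Polynomial.card_le_degree_of_subset_roots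
      (Z := Finset.univ.filter fun x => (Polynomial.ofFn 70 (c ⟨i, hi⟩)).eval x =
        (Polynomial.ofFn 70 (c ⟨j, hj⟩)).eval x)
      (p := Polynomial.ofFn 70 (c ⟨i, hi⟩) - Polynomial.ofFn 70 (c ⟨j, hj⟩)) fun x hx => by
        rw [Polynomial.mem_roots hne]
        simpa [sub_eq_zero] using hx
    have h2 := Polynomial.natDegree_sub_le (Polynomial.ofFn 70 (c ⟨i, hi⟩))
      (Polynomial.ofFn 70 (c ⟨j, hj⟩))
    have h3 := Polynomial.ofFn_natDegree_lt (by norm_num : 1 ≤ 70) (c ⟨i, hi⟩)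
    have h4 := Polynomial.ofFn_natDegree_lt (by norm_num : 1 ≤ 70) (c ⟨j, hj⟩)
    have h5 : ((Finset.univ.filter fun x => (Polynomial.ofFn 70 (c ⟨i, hi⟩)).eval x =
        (Polynomial.ofFn 70 (c ⟨j, hj⟩)).eval x).card : ℝ) ≤ 70 := by
      exact_mod_cast (by omega : _ ≤ 70)
    rw [div_le_iff₀ (by linarith)]
    linarith

end Pool.Agent.Lib.MP_b07a76_an
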