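import Pool.Agent.Lib.MP_b07a76_an.NDisc

/-! The measure of the skeleton. -/

namespace Pool.Agent.Lib.MP_b07a76_an

noncomputable section
open MeasureTheory Module Set Real Metric
open scoped NNReal ENNReal

variable {d : ℕ}

/-- The measure of one piece of the skeleton. -/
lemma NSkel_piece (f : Fin 4 ↪ Fin (d + 4)) (c : Fin 4 → ℝ) {T : ℝ} (hT : 0 ≤ T) :
    μH[d] ({x : Ed (d + 4) | ∀ r, x (f r) = c r} ∩ closedBall 0 T)
      ≤ ENNReal.ofReal (T ^ d) * kap d := by
  classical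
  set φ : Ed (d + 4) →ₗ[ℝ] (Fin 4 → ℝ) :=
    LinearMap.pi fun r => (EuclideanSpace.proj (f r) : Ed (d + 4) →L[ℝ] ℝ).toLinearMap with hφ
  have hφa : ∀ x r, φ x r = x (f r) := fun x r => rfl
  have hs : LinearMap.range φ = ⊤ := by
    rw [LinearMap.range_eq_top]
    intro v
    refine ⟨WithLp.toLp 2 (Function.extend f v 0), ?_⟩
    ext r
    rw [hφa]
    exact f.injective.extend_apply v 0 r
  have hk : finrank ℝ (LinearMap.ker φ) = d := by
    have := φ.finrank_range_add_finrank_ker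
    rw [hs, finrank_top, finrank_euclideanSpace_fin, finrank_fintype_fun_eq_card,
      Fintype.card_fin] at this
    omega
  set p : Ed (d + 4) := WithLp.toLp 2 (Function.extend f c 0) with hp
  rw [← disc_eq hk hT, ← (isometry_add_right p).hausdorffMeasure_image (Or.inl (Nat.cast_nonneg d))
    ((LinearMap.ker φ : Set (Ed (d + 4))) ∩ closedBall 0 T)]
  apply measure_mono
  rintro x ⟨hx, hb⟩
  have h0 : ∀ r, (x - p) (f r) = 0 := by
    intro r
    have : p (f r) = c r := f.injective.extend_apply c 0 r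
    rw [PiLp.sub_apply, this, hx r, sub_self]
  refine ⟨x - p, ⟨?_, ?_⟩, sub_add_cancel x p⟩
  · show φ (x - p) = 0
    ext r
    exact h0 r
  · rw [mem_closedBall_zero_iff] at hb ⊢
    refine le_trans ?_ hb
    rw [EuclideanSpace.norm_eq, EuclideanSpace.norm_eq]
    refine Real.sqrt_le_sqrt (Finset.sum_le_sum fun j _ => ?_)
    by_cases hj : ∃ r, f r = j
    · obtain ⟨r, rfl⟩ := hj
      rw [h0 r, norm_zero]
      simpa using sq_nonneg (x (f r))
    · have : p j = 0 := Function.extend_apply' c (0 : Fin (d + 4) → ℝ) j hj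
      rw [PiLp.sub_apply, this, sub_zero]

/-- Sketch. For `f : Fin 4 ↪ Fin (d + 4)` and `z : Fin 4 → ℤ` with `z r ∈ Finset.Icc (-T) T`, the piece
`{x | ∀ r, x (f r) + a (f r) = z r + 1/2} ∩ closedBall 0 T` lies in `p +ᵥ (Q f ∩ closedBall 0 T)`, where
`Q f = {x | ∀ r, x (f r) = 0}` has dimension `d` (kernel of a surjective linear map onto `Fin 4 → ℝ`) and
`p = ∑ r, single (f r) (z r + 1/2 - a (f r))` (killing coordinates decreases the norm). There are at most `(d+4)^4`
embeddings. Use `disc_eq`. -/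
lemma skel_le (a : Fin (d + 4) → ℝ) (ha : ∀ j, a j ∈ Icc (0 : ℝ) 1) (T : ℕ) :
    μH[d] (Skel a ∩ closedBall (0 : Ed (d + 4)) T)
      ≤ (((d + 4) ^ 4 * (2 * T + 1) ^ 4 : ℕ) : ℝ≥0∞) * (ENNReal.ofReal ((T : ℝ) ^ d) * kap d) := by
  classical
  set Z : Finset (Fin 4 → ℤ) := Fintype.piFinset fun _ => Finset.Icc (-(T : ℤ)) T with hZ
  set S : Finset ((Fin 4 ↪ Fin (d + 4)) × (Fin 4 → ℤ)) := Finset.univ ×ˢ Z with hS
  have sub : Skel a ∩ closedBall (0 : Ed (d + 4)) T ⊆ ⋃ q ∈ S,
      ({x : Ed (d + 4) | ∀ r, x (q.1 r) = q.2 r + 1 / 2 - a (q.1 r)} ∩ closedBall 0 T) := by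
    rintro x ⟨⟨f, hf⟩, hb⟩
    choose z hz using hf
    refine mem_iUnion₂.2 ⟨(f, z), ?_, fun r => by linarith [hz r], hb⟩
    simp only [hS, hZ, Finset.mem_product, Finset.mem_univ, true_and, Fintype.mem_piFinset,
      Finset.mem_Icc]
    intro r
    have h1 : |x (f r)| ≤ T := (PiLp.norm_apply_le x (f r)).trans (mem_closedBall_zero_iff.1 hb)
    obtain ⟨h2, h3⟩ := abs_le.1 h1
    obtain ⟨h4, h5⟩ := ha (f r)
    have h6 : ((-(T : ℤ) - 1 : ℤ) : ℝ) < z r := by push_cast; linarith [hz r]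
    have h7 : (z r : ℝ) < ((T : ℤ) + 1 : ℤ) := by push_cast; linarith [hz r]
    have h8 := Int.cast_lt.1 h6
    have h9 := Int.cast_lt.1 h7
    omega
  have card : S.card ≤ (d + 4) ^ 4 * (2 * T + 1) ^ 4 := by
    rw [hS, Finset.card_product]
    refine Nat.mul_le_mul ?_ (le_of_eq ?_)
    · rw [Finset.card_univ]
      have := Fintype.card_le_of_injective (fun f : Fin 4 ↪ Fin (d + 4) => (f : Fin 4 → Fin (d + 4)))
        DFunLike.coe_injective
      simpa using this
    · rw [hZ, Fintype.card_piFinset]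
      simp only [Int.card_Icc, Finset.prod_const, Finset.card_univ, Fintype.card_fin]
      congr 1
      omega
  refine (measure_mono sub).trans ((measure_biUnion_finset_le _ _).trans ?_)
  refine (Finset.sum_le_card_nsmul _ _ _ fun q _ => NSkel_piece q.1 _ (Nat.cast_nonneg T)).trans ?_
  rw [nsmul_eq_mul]
  gcongr

end

end Pool.Agent.Lib.MP_b07a76_an
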