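import Pool.Agent.Lib.MP_b07a76_an.NDefs

/-! Images under maps with a variable Lipschitz constant. -/

namespace Pool.Agent.Lib.MP_b07a76_an

noncomputable section
open MeasureTheory Set Real Metric
open scoped NNReal ENNReal

/-- Sketch. `le_of_forall_pow_mul (2 * d)`: fix `c > 1`. Apply `image_le_of_local` to the measure
`μ' = μH[d].withDensity w`, `w x = ofReal ((s x)⁻¹ ^ d)`, with the constant `c ^ (2 d) * ofReal (C ^ d)`: near `z`
(open set `O`) `s z / c < s x < c * s z`; for `B ⊆ O` the map is `C c / s z`-Lipschitz on `B`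
(`LipschitzOnWith.hausdorffMeasure_image_le`), and `μ' B ≥ ∫⁻ x in B, w x` (`withDensity_apply_le`)
`≥ ofReal ((c * s z)⁻¹ ^ d) * μH[d] B` (`μH[d].restrict B` is carried by the measurable set `O`). Finally
`withDensity_apply` for the measurable set `A`. -/
theorem image_le_weight {X Y : Type} [MetricSpace X] [SecondCountableTopology X] [MeasurableSpace X]
    [BorelSpace X] [MetricSpace Y] [MeasurableSpace Y] [BorelSpace Y] (d : ℕ) {s : X → ℝ}
    (hs : Continuous s) (h0 : ∀ x, 0 < s x) {φ : X → Y} {C : ℝ} (hC : 0 ≤ C)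
    (h : ∀ σ : ℝ, 0 < σ → ∀ x y, σ ≤ s x → σ ≤ s y → dist (φ x) (φ y) ≤ C / σ * dist x y)
    {A : Set X} (hA : MeasurableSet A) :
    μH[d] (φ '' A) ≤ ENNReal.ofReal (C ^ d) * ∫⁻ x in A, ENNReal.ofReal ((s x)⁻¹ ^ d) ∂μH[d] := by
  refine le_of_forall_pow_mul (2 * d) fun c hc => ?_
  have hc1 : (1 : ℝ) < c := by exact_mod_cast hc
  have hc0 : (0 : ℝ) < c := one_pos.trans hc1
  rw [← withDensity_apply _ hA, ← mul_assoc]
  refine image_le_of_local _ _ φ _ A fun z _ => ?_
  have hz := h0 z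
  have hO : IsOpen {x | s z / c < s x ∧ s x < c * s z} :=
    (isOpen_lt continuous_const hs).inter (isOpen_lt hs continuous_const)
  refine ⟨_, hO.mem_nhds ⟨div_lt_self hz hc1, lt_mul_of_one_lt_left hz hc1⟩, fun B hB => ?_⟩
  have hσ : 0 < s z / c := div_pos hz hc0
  have hK : 0 ≤ C / (s z / c) := div_nonneg hC hσ.le
  have hL : LipschitzOnWith (Real.toNNReal (C / (s z / c))) φ B :=
    LipschitzOnWith.of_dist_le' fun x hx y hy => h _ hσ x y (hB hx).1.le (hB hy).1.le
  have h1 := hL.hausdorffMeasure_image_le (d := d) (Nat.cast_nonneg d)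
  have h2 : ENNReal.ofReal ((c * s z)⁻¹ ^ d) * μH[d] B ≤
      ∫⁻ x in B, ENNReal.ofReal ((s x)⁻¹ ^ d) ∂μH[d] := by
    rw [← setLIntegral_const]
    refine lintegral_mono_ae ?_
    have h3 : ∀ᵐ x ∂(μH[d] : Measure X).restrict B, x ∈ {x | s z / c < s x ∧ s x < c * s z} :=
      ae_mono (Measure.restrict_mono hB le_rfl) (ae_restrict_mem hO.measurableSet)
    filter_upwards [h3] with x hx
    refine ENNReal.ofReal_le_ofReal (pow_le_pow_left₀ (by positivity) ?_ d)
    exact inv_anti₀ (h0 x) hx.2.le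
  refine h1.trans (le_trans ?_ (mul_le_mul_right (h2.trans (withDensity_apply_le _ B)) _))
  rw [← mul_assoc]
  refine mul_le_mul_left (le_of_eq ?_) _
  have e1 : ((c : ℝ≥0∞)) ^ (2 * d) = ENNReal.ofReal ((c : ℝ) ^ (2 * d)) := by
    rw [ENNReal.ofReal_pow hc0.le, ENNReal.ofReal_coe_nnreal]
  rw [ENNReal.rpow_natCast, e1, ← ENNReal.ofReal_mul (by positivity),
    ← ENNReal.ofReal_mul (by positivity)]
  change ENNReal.ofReal (C / (s z / c)) ^ d = _
  rw [← ENNReal.ofReal_pow hK, pow_mul, ← mul_pow, ← mul_pow]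
  congr 2
  field_simp

end

end Pool.Agent.Lib.MP_b07a76_an
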