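import Pool.Agent.Lib.MP_b07a76_an.NMap
import Pool.Agent.Lib.MP_b07a76_an.NWeight
import Pool.Agent.Lib.MP_b07a76_an.NAvg
import Pool.Agent.Lib.MP_b07a76_an.NSkel

/-! Very many planes of codimension four can be pushed onto a grid with less measure. -/

namespace Pool.Agent.Lib.MP_b07a76_an

noncomputable section
open MeasureTheory Module Set Real Metric
open scoped NNReal ENNReal

lemma NCore_three {x : ℝ} {d : ℕ} (h0 : 0 ≤ x) (h : d * x ≤ 1) : (1 + x) ^ d ≤ 3 := by
  calc (1 + x) ^ d ≤ exp x ^ d := pow_le_pow_left₀ (by linarith) (by linarith [add_one_le_exp x]) d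
    _ = exp (d * x) := (exp_nat_mul x d).symm
    _ ≤ exp 1 := exp_le_exp.2 h
    _ ≤ 3 := by linarith [exp_one_lt_d9]

lemma NCore_three' {R y : ℝ} {d : ℕ} (hR : 0 < R) (h0 : 0 ≤ y) (h : d * y ≤ R) :
    (R + y) ^ d ≤ 3 * R ^ d := by
  have e : R + y = (1 + y / R) * R := by field_simp
  rw [e, mul_pow]
  refine mul_le_mul_of_nonneg_right (NCore_three (by positivity) ?_) (by positivity)
  rwa [← mul_div_assoc, div_le_one hR]

/-- The cut-off function. -/
lemma NCore_cut {V : Type} [NormedAddCommGroup V] (Y : Set V) {R σ : ℝ} (L : ℝ≥0) (hL : 0 < L)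
    (h1 : σ ≤ 1) : ∃ s : V → ℝ, LipschitzWith L⁻¹ s ∧ (∀ x, σ ≤ s x) ∧ (∀ x, s x ≤ 1) ∧
      (∀ x, R ≤ ‖x‖ → s x = 1) ∧ (∀ x ∈ Y, s x = 1) ∧
      ∀ x, ‖x‖ ≤ R - L → L ≤ infDist x Y → 0 ≤ σ → s x = σ := by
  have hL' : (0 : ℝ) < L := hL
  have l1 : LipschitzWith L⁻¹ fun x : V => 1 - (R - ‖x‖) / L := by
    refine LipschitzWith.of_dist_le_mul fun x y => ?_
    have e : 1 - (R - ‖x‖) / L - (1 - (R - ‖y‖) / L) = (L : ℝ)⁻¹ * (‖x‖ - ‖y‖) := by
      field_simp; ring
    rw [Real.dist_eq, e, abs_mul, abs_of_pos (inv_pos.2 hL'), NNReal.coe_inv, dist_eq_norm]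
    exact mul_le_mul_of_nonneg_left (abs_norm_sub_norm_le x y) (inv_pos.2 hL').le
  have l2 : LipschitzWith L⁻¹ fun x : V => 1 - infDist x Y / L := by
    refine LipschitzWith.of_dist_le_mul fun x y => ?_
    have e : 1 - infDist x Y / L - (1 - infDist y Y / L)
        = (L : ℝ)⁻¹ * (infDist y Y - infDist x Y) := by
      field_simp; ring
    rw [Real.dist_eq, e, abs_mul, abs_of_pos (inv_pos.2 hL'), NNReal.coe_inv]
    refine mul_le_mul_of_nonneg_left ?_ (inv_pos.2 hL').le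
    have := (lipschitz_infDist_pt Y).dist_le_mul y x
    rwa [Real.dist_eq, NNReal.coe_one, one_mul, dist_comm] at this
  refine ⟨fun x => min 1 (max σ (max (1 - (R - ‖x‖) / L) (1 - infDist x Y / L))), ?_,
    fun x => le_min h1 (le_max_left _ _), fun x => min_le_left _ _, fun x hx => ?_,
    fun x hx => ?_, fun x h2 h3 h0 => ?_⟩
  · have := ((l1.max l2).const_max σ).const_min 1
    rwa [max_self] at this
  · refine min_eq_left (le_max_of_le_right (le_max_of_le_left ?_))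
    have : (R - ‖x‖) / L ≤ 0 := div_nonpos_of_nonpos_of_nonneg (by linarith) hL'.le
    linarith
  · refine min_eq_left (le_max_of_le_right (le_max_of_le_right ?_))
    simp [infDist_zero_of_mem hx]
  · have a1 : 1 ≤ (R - ‖x‖) / L := by rw [le_div_iff₀ hL']; linarith
    have a2 : 1 ≤ infDist x Y / L := by rw [le_div_iff₀ hL']; linarith
    simp only
    rw [max_eq_left (max_le (by linarith) (by linarith)), min_eq_right h1]

theorem ff_core {d N : ℕ} (hd : 4 ≤ d) (hN : 10 ^ 15 * (d + 4) ^ 28 ≤ N)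
    {P : Fin N → Submodule ℝ (Ed (d + 4))} (hP : ∀ i, finrank ℝ (P i) = d)
    (hinj : Function.Injective P) (Y : Submodule ℝ (Ed (d + 4)))
    (hY : ∀ i, ∃ v ∈ P i, ‖v‖ = 1 ∧ ∀ y ∈ Y, inner ℝ v y = 0) :
    ∃ (ψ : Ed (d + 4) → Ed (d + 4)) (K : ℝ≥0) (R : ℝ), LipschitzWith K ψ ∧
      (∀ x, R ≤ ‖x‖ → ψ x = x) ∧ (∀ x ∈ Y, ψ x = x) ∧
      μH[d] (ψ '' ((⋃ i, (P i : Set (Ed (d + 4)))) ∩ closedBall 0 R))
        < μH[d] ((⋃ i, (P i : Set (Ed (d + 4)))) ∩ closedBall 0 R) := by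
  obtain ⟨κ, hκ0, hκ⟩ : ∃ κ : ℝ, 0 < κ ∧ kap d = ENNReal.ofReal κ :=
    ⟨_, ENNReal.toReal_pos (kap_pos d).ne' (kap_ne_top d), (ENNReal.ofReal_toReal (kap_ne_top d)).symm⟩
  obtain ⟨n, hn⟩ : ∃ n : ℝ, n = ((d + 4 : ℕ) : ℝ) := ⟨_, rfl⟩
  have hdn : (d : ℝ) ≤ n := by rw [hn]; push_cast; linarith
  have hn1 : 1 ≤ n := by rw [hn]; push_cast; linarith [(Nat.cast_nonneg d : (0 : ℝ) ≤ d)]
  have hn0 : 0 < n := by linarith
  have hd0 : (0 : ℝ) ≤ d := Nat.cast_nonneg d
  have hNr : 10 ^ 15 * n ^ 28 ≤ N := by rw [hn]; exact_mod_cast hN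
  have hN0 : (0 : ℝ) < N := lt_of_lt_of_le (by positivity) hNr
  set R : ℝ := 1000 * n ^ 6 with hR
  have hR0 : 0 < R := by positivity
  have p26 : n ^ 2 ≤ n ^ 6 := pow_le_pow_right₀ hn1 (by norm_num)
  have p12 : n ≤ n ^ 2 := by nlinarith
  have p03 : 1 ≤ n ^ 3 := one_le_pow₀ hn1
  let L : ℝ≥0 := ⟨n ^ 2, by positivity⟩
  have hL : (L : ℝ) = n ^ 2 := rfl
  have hσ : 0 < (100 * n ^ 3)⁻¹ := by positivity
  obtain ⟨s, s1, s2, s3, s4, s5, s6⟩ := NCore_cut (Y : Set (Ed (d + 4))) (R := R)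
    (σ := (100 * n ^ 3)⁻¹) L (by rw [← NNReal.coe_pos, hL]; positivity)
    (inv_le_one_of_one_le₀ (by linarith))
  set A := (⋃ i, (P i : Set (Ed (d + 4)))) ∩ closedBall 0 R with hA
  set x : ℝ := R ^ d * κ with hx
  have hx0 : 0 < x := by positivity
  have hAm : MeasurableSet A := ((isClosed_iUnion_of_finite fun i =>
    (P i).closed_of_finiteDimensional).inter isClosed_closedBall).measurableSet
  have hAμ : μH[d] A = ENNReal.ofReal (N * x) := by
    rw [hA, union_disc_eq hP hinj hR0.le, hκ, ← ENNReal.ofReal_mul (by positivity),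
      ENNReal.ofReal_mul (Nat.cast_nonneg N), ENNReal.ofReal_natCast]
  have : IsFiniteMeasure (μH[d].restrict A) :=
    ⟨by rw [Measure.restrict_apply_univ, hAμ]; exact ENNReal.ofReal_lt_top⟩
  have s0 : ∀ x, 0 < s x := fun x => hσ.trans_le (s2 x)
  obtain ⟨a, ha, havg⟩ := exists_shift (μH[d].restrict A) s1.continuous s0
  obtain ⟨ψ, φ, K, h1, h2, h3, h4, h5⟩ := exists_collapse (by omega) a s1 hσ s2 s3
  refine ⟨ψ, K, R, h1, fun x hx => h2 x (s4 x hx), fun x hx => h2 x (s5 x hx), ?_⟩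
  choose v hvP hv1 hvY using hY
  have hsum : ∀ (S : Set (Ed (d + 4))) (T : Fin N → Set (Ed (d + 4))) (y : ℝ), 0 ≤ y →
      (∀ i, S ⊆ T i) → (∀ i, μH[d] ((P i : Set (Ed (d + 4))) ∩ closedBall 0 R ∩ T i)
        ≤ ENNReal.ofReal y) → μH[d] (S ∩ A) ≤ ENNReal.ofReal (N * y) := by
    intro S T y hy hT h
    have : S ∩ A ⊆ ⋃ i, (P i : Set (Ed (d + 4))) ∩ closedBall 0 R ∩ T i := by
      rintro z ⟨z1, z2, z3⟩
      obtain ⟨i, hi⟩ := mem_iUnion.1 z2
      exact mem_iUnion.2 ⟨i, ⟨hi, z3⟩, hT i z1⟩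
    refine (measure_mono this).trans ((measure_iUnion_fintype_le _ _).trans ?_)
    refine (Finset.sum_le_sum fun i _ => h i).trans (le_of_eq ?_)
    rw [Finset.sum_const, Finset.card_univ, Fintype.card_fin, nsmul_eq_mul,
      ENNReal.ofReal_mul (Nat.cast_nonneg N), ENNReal.ofReal_natCast]
  have m1 : μH[d] ({z | R - L < ‖z‖} ∩ A) ≤ ENNReal.ofReal (N * ((100 * n ^ 3)⁻¹ * x)) := by
    refine hsum _ (fun _ => {z | R - L < ‖z‖}) _ (by positivity) (fun _ => le_rfl) fun i => ?_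
    refine (shell_le (hP i) L.coe_nonneg (by rw [hL]; nlinarith) hR0).trans ?_
    rw [hκ, ← ENNReal.ofReal_mul (by positivity), mul_assoc]
    refine ENNReal.ofReal_le_ofReal (mul_le_mul_of_nonneg_right ?_ hx0.le)
    rw [hL, inv_eq_one_div, div_le_div_iff₀ hR0 (by positivity), hR]
    have : (d : ℝ) * n ^ 5 ≤ n * n ^ 5 := by gcongr
    nlinarith [pow_pos hn0 6]
  have m2 : μH[d] ({z | infDist z Y < L} ∩ A)
      ≤ ENNReal.ofReal (N * (3 * (100 * n ^ 3)⁻¹ * x)) := by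
    refine hsum _ (fun i => {z | |inner ℝ (v i) z| < L}) _ (by positivity) (fun i z hz => ?_)
      fun i => ?_
    · obtain ⟨y, hy, hzy⟩ := (infDist_lt_iff ⟨0, Y.zero_mem⟩).1 hz
      have e : inner ℝ (v i) z = inner ℝ (v i) (z - y) := by
        rw [inner_sub_right, hvY i y hy, sub_zero]
      have := abs_real_inner_le_norm (v i) (z - y)
      rw [hv1, one_mul, ← e, ← dist_eq_norm] at this
      exact this.trans_lt hzy
    · have hM : ((100 * (d + 4) ^ 3 : ℕ) : ℝ) = 100 * n ^ 3 := by rw [hn]; push_cast; ring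
      have h6 := slab_le (hP i) (hvP i) (hv1 i) hR0.le L.coe_nonneg (100 * (d + 4) ^ 3)
      rw [← ENNReal.ofReal_natCast, hM] at h6
      have h7 : (R + 2 * (100 * n ^ 3) * L) ^ d ≤ 3 * R ^ d := by
        refine NCore_three' hR0 (by positivity) ?_
        rw [hL, hR]
        have : (d : ℝ) * n ^ 5 ≤ n * n ^ 5 := by gcongr
        nlinarith [pow_pos hn0 6]
      rw [← ENNReal.mul_le_mul_iff_right (a := ENNReal.ofReal (100 * n ^ 3))
        (by simp; positivity) ENNReal.ofReal_ne_top]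
      refine h6.trans ?_
      rw [hκ, ← ENNReal.ofReal_mul (by positivity), ← ENNReal.ofReal_mul (by positivity)]
      refine ENNReal.ofReal_le_ofReal ?_
      have e : 100 * n ^ 3 * (3 * (100 * n ^ 3)⁻¹ * x) = 3 * R ^ d * κ := by
        rw [hx]; field_simp
      rw [e]
      exact mul_le_mul_of_nonneg_right h7 hκ0.le
  have o1 : MeasurableSet {z : Ed (d + 4) | R - L < ‖z‖} :=
    (isOpen_lt continuous_const continuous_norm).measurableSet
  have o2 : MeasurableSet {z : Ed (d + 4) | infDist z Y < L} :=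
    (isOpen_lt (continuous_infDist_pt _) continuous_const).measurableSet
  have m3 : ∫⁻ z, ENNReal.ofReal (s z) ∂(μH[d].restrict A)
      ≤ ENNReal.ofReal (N * (5 * (100 * n ^ 3)⁻¹ * x)) := by
    calc _ ≤ ∫⁻ z, (ENNReal.ofReal (100 * n ^ 3)⁻¹ + ({z | R - L < ‖z‖}.indicator 1 z
          + {z | infDist z Y < L}.indicator 1 z)) ∂(μH[d].restrict A) := by
          refine lintegral_mono fun z => ?_
          have t1 : ENNReal.ofReal (s z) ≤ 1 := ENNReal.ofReal_le_one.2 (s3 z)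
          by_cases c1 : R - L < ‖z‖
          · refine t1.trans (le_add_left (le_add_right ?_))
            rw [indicator_of_mem (show z ∈ {z | R - L < ‖z‖} from c1), Pi.one_apply]
          by_cases c2 : infDist z Y < L
          · refine t1.trans (le_add_left (le_add_left ?_))
            rw [indicator_of_mem (show z ∈ {z | infDist z Y < L} from c2), Pi.one_apply]
          simp only
          rw [s6 z (not_lt.1 c1) (not_lt.1 c2) hσ.le]
          exact le_self_add
      _ = ENNReal.ofReal (100 * n ^ 3)⁻¹ * μH[d] A + (μH[d] ({z | R - L < ‖z‖} ∩ A)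
          + μH[d] ({z | infDist z Y < L} ∩ A)) := by
          rw [lintegral_add_left measurable_const,
            lintegral_add_left (measurable_one.indicator o1), lintegral_const,
            lintegral_indicator_one o1, lintegral_indicator_one o2, Measure.restrict_apply_univ,
            Measure.restrict_apply o1, Measure.restrict_apply o2]
      _ ≤ ENNReal.ofReal (100 * n ^ 3)⁻¹ * ENNReal.ofReal (N * x)
          + (ENNReal.ofReal (N * ((100 * n ^ 3)⁻¹ * x))
            + ENNReal.ofReal (N * (3 * (100 * n ^ 3)⁻¹ * x))) := by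
          rw [hAμ]
          exact add_le_add le_rfl (add_le_add m1 m2)
      _ = _ := by
          rw [← ENNReal.ofReal_mul hσ.le, ← ENNReal.ofReal_add (by positivity) (by positivity),
            ← ENNReal.ofReal_add (by positivity) (by positivity)]
          congr 1
          ring
  have hB := (isOpen_Bad a s1.continuous).measurableSet
  have m4 : μH[d] (φ '' (Bad a s ∩ A)) ≤ ENNReal.ofReal (N * (15 / 100 * x)) := by
    refine (image_le_weight d s1.continuous s0 (by positivity) h5 (hB.inter hAm)).trans ?_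
    rw [← Measure.restrict_restrict hB]
    have c1 : (1 + ((d + 4 : ℕ) : ℝ) * (L⁻¹ : ℝ≥0)) ^ d ≤ 3 := by
      refine NCore_three (by positivity) ?_
      rw [← hn, NNReal.coe_inv, hL, ← mul_assoc, ← div_eq_mul_inv, div_le_one (by positivity)]
      nlinarith
    refine (mul_le_mul' (ENNReal.ofReal_le_ofReal c1) (havg.trans (mul_le_mul' le_rfl m3))).trans ?_
    rw [← ENNReal.ofReal_natCast, ← hn, ← ENNReal.ofReal_pow hn0.le,
      ← ENNReal.ofReal_mul (by positivity), ← ENNReal.ofReal_mul (by positivity)]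
    refine ENNReal.ofReal_le_ofReal (le_of_eq ?_)
    field_simp
    ring
  have hT : ((1000 * (d + 4) ^ 6 + (d + 4) : ℕ) : ℝ) = R + n := by
    rw [hR, hn]; push_cast; ring
  have m5 : μH[d] (Skel a ∩ closedBall (0 : Ed (d + 4)) (R + n))
      ≤ ENNReal.ofReal (N * (1 / 4 * x)) := by
    have h6 := skel_le a ha (1000 * (d + 4) ^ 6 + (d + 4))
    rw [← ENNReal.ofReal_natCast, Nat.cast_mul, Nat.cast_pow, Nat.cast_pow, Nat.cast_add (2 * _),
      Nat.cast_mul, hT, ← hn, Nat.cast_one, Nat.cast_ofNat] at h6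
    refine h6.trans ?_
    rw [hκ, ← ENNReal.ofReal_mul (by positivity), ← ENNReal.ofReal_mul (by positivity)]
    refine ENNReal.ofReal_le_ofReal ?_
    have h7 : (R + n) ^ d ≤ 3 * R ^ d := NCore_three' hR0 hn0.le (by nlinarith)
    have h8 : (2 * (R + n) + 1) ^ 4 ≤ (3 * R) ^ 4 :=
      pow_le_pow_left₀ (by positivity) (by nlinarith) 4
    calc _ ≤ n ^ 4 * (3 * R) ^ 4 * (3 * R ^ d * κ) := by gcongr
      _ = 972 * 10 ^ 12 * n ^ 28 * (1 / 4 * x) := by rw [hx]; nth_rewrite 1 [hR]; ring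
      _ ≤ _ := mul_le_mul_of_nonneg_right (by nlinarith [pow_pos hn0 28]) (by positivity)
  have hcov : ψ '' A ⊆ Skel a ∩ closedBall (0 : Ed (d + 4)) (R + n) ∪ φ '' (Bad a s ∩ A) := by
    rintro _ ⟨z, hz, rfl⟩
    rcases h4 z with h | ⟨h, h'⟩
    · refine Or.inl ⟨h, ?_⟩
      have := dist_triangle (ψ z) z 0
      have := h3 z
      have := mem_closedBall.1 hz.2
      rw [mem_closedBall, hn]
      linarith
    · exact Or.inr ⟨z, ⟨h, hz⟩, h'.symm⟩
  refine ((measure_mono hcov).trans ((measure_union_le _ _).trans (add_le_add m5 m4))).trans_lt ?_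
  rw [hAμ, ← ENNReal.ofReal_add (by positivity) (by positivity),
    ENNReal.ofReal_lt_ofReal_iff (by positivity)]
  nlinarith [mul_pos hN0 hx0]

end

end Pool.Agent.Lib.MP_b07a76_an
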