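import Pool.Agent.Lib.MP_b07a76_an.IDefs

/-! Definitions for the counterexample to interpolation of minimal angles. -/

namespace Pool.Agent.Lib.MP_b07a76_an

noncomputable section
open MeasureTheory Module Metric Set Real
open scoped NNReal ENNReal

/-- The angles `(0, …, 0, θ, θ, θ, θ)`. -/
def angA (k : ℕ) (θ : ℝ) : Fin (k + 4) → ℝ := fun r => if (r : ℕ) < k then 0 else θ

/-- The angles `(θ, θ, θ, θ, π/2, …, π/2)`. -/
def angB (k : ℕ) (θ : ℝ) : Fin (k + 4) → ℝ := fun r => if (r : ℕ) < 4 then θ else π / 2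

/-- The lower datum: `N + 2` core planes and one forcing plane (the last one). -/
def alphaN (k N : ℕ) : Fin (N + 3) → Fin (N + 3) → Fin (k + 4) → ℝ := fun i j =>
  if (j : ℕ) < N + 2 then angA k (π / 3)
  else if (i : ℕ) = 0 then angB k (π / 3) else fun _ => π / 2

/-- The middle datum. -/
def gammaN (k N : ℕ) (g : ℕ → ℕ → ℝ) : Fin (N + 3) → Fin (N + 3) → Fin (k + 4) → ℝ := fun i j =>
  if (j : ℕ) < N then angA k (arccos (g i j))
  else if (j : ℕ) = N then angB k (arcsin (g 0 i))
  else if (i : ℕ) = N ∧ (j : ℕ) = N + 1 then angA k (π / 2) else fun _ => π / 2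

/-- The quadratic form of the wedge around the plane with frame `b`. -/
def qq {V : Type} [NormedAddCommGroup V] [InnerProductSpace ℝ V] {k : ℕ} (b : Fin (k + 4) → V)
    (z : V) : ℝ :=
  ∑ r : Fin (k + 4), (if (r : ℕ) < k then 1 else 4 / 3) * inner ℝ (b r) z ^ 2

/-- Twice the distance to the nearest integer. -/
def yy (t : ℝ) : ℝ := 2 * |t - round t|

/-- Dilation by `1 / σ` around the nearest integer, cut off at the half-integers. -/
def hh (σ t : ℝ) : ℝ := round t + max (-1 / 2) (min (1 / 2) ((t - round t) / σ))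

/-- Points with all but three coordinates close to the centre of their cell. -/
def Bad {n : ℕ} (a : Fin n → ℝ) (s : Ed n → ℝ) : Set (Ed n) :=
  {x | ∃ J : Finset (Fin n), J.card = 3 ∧ ∀ j, j ∉ J → yy (x j + a j) < s x}

/-- The codimension four skeleton of the shifted unit grid. -/
def Skel {n : ℕ} (a : Fin n → ℝ) : Set (Ed n) :=
  {x | ∃ f : Fin 4 ↪ Fin n, ∀ s, ∃ z : ℤ, x (f s) + a (f s) = z + 1 / 2}

/-- The measure of the unit `d`-disc. -/
def kap (d : ℕ) : ℝ≥0∞ := μH[d] (ball (0 : Ed d) 1)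

end

end Pool.Agent.Lib.MP_b07a76_an
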