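import Pool.Agent.Lib.MP_b07a76_an.NDefs

/-! Measures of discs, shells, slabs and skeleta. -/

namespace Pool.Agent.Lib.MP_b07a76_an

noncomputable section
open MeasureTheory Module Set Real Metric
open scoped NNReal ENNReal

lemma kap_pos (d : ℕ) : 0 < kap d :=
  measure_ball_pos μH[d] (0 : Ed d) one_pos

lemma kap_ne_top (d : ℕ) : kap d ≠ ⊤ :=
  (measure_ball_lt_top (μ := μH[d]) (x := (0 : Ed d)) (r := 1)).ne

variable {V : Type} [NormedAddCommGroup V] [InnerProductSpace ℝ V] [FiniteDimensional ℝ V]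
  [MeasurableSpace V] [BorelSpace V] {d : ℕ}

omit [FiniteDimensional ℝ V] [MeasurableSpace V] [BorelSpace V] in
lemma NDisc_norm_emb {b : Fin d → V} (hb : Orthonormal ℝ b) (x : Ed d) : ‖emb b x‖ = ‖x‖ := by
  have h := (isometry_emb hb).dist_eq x 0
  simpa [emb] using h

omit [FiniteDimensional ℝ V] [MeasurableSpace V] [BorelSpace V] in
lemma NDisc_emb_mem {P : Submodule ℝ V} {b : Fin d → V} (hbP : ∀ r, b r ∈ P) (x : Ed d) :
    emb b x ∈ P :=
  P.sum_mem fun j _ => P.smul_mem _ (hbP j)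

/-- Sketch: `exists_frame`, the set is `emb b '' closedBall 0 r`, `isometry_emb`, `Measure.addHaar_closedBall`
(see `union_closed_finite` in TopMain). -/
lemma disc_eq {P : Submodule ℝ V} (hP : finrank ℝ P = d) {r : ℝ} (hr : 0 ≤ r) :
    μH[d] ((P : Set V) ∩ closedBall 0 r) = ENNReal.ofReal (r ^ d) * kap d := by
  obtain ⟨b, hb, hbP⟩ := exists_frame P hP
  have h1 : (P : Set V) ∩ closedBall 0 r = emb b '' closedBall 0 r := by
    ext z
    constructor
    · rintro ⟨h1, h2⟩
      refine ⟨xc b z, ?_, emb_xc hP hb hbP h1⟩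
      rw [mem_closedBall_zero_iff] at h2 ⊢
      rw [← NDisc_norm_emb hb, emb_xc hP hb hbP h1]
      exact h2
    · rintro ⟨x, hx, rfl⟩
      refine ⟨NDisc_emb_mem hbP x, ?_⟩
      rw [mem_closedBall_zero_iff] at hx ⊢
      rwa [NDisc_norm_emb hb]
  rw [h1, (isometry_emb hb).hausdorffMeasure_image (Or.inl (by positivity)),
    Measure.addHaar_closedBall μH[d] (0 : Ed d) hr, finrank_euclideanSpace_fin]
  rfl

/-- Two different planes of the same dimension meet in a null set. -/
lemma NDisc_inter_null {P Q : Submodule ℝ V} (hP : finrank ℝ P = d) (hQ : finrank ℝ Q = d)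
    (hne : P ≠ Q) : μH[d] ((P : Set V) ∩ (Q : Set V)) = 0 := by
  obtain ⟨b, hb, hbP⟩ := exists_frame P hP
  let L : Ed d →ₗ[ℝ] V :=
    { toFun := emb b
      map_add' := fun x y => by simp [emb, add_smul, Finset.sum_add_distrib]
      map_smul' := fun c x => by simp [emb, mul_smul, Finset.smul_sum] }
  have h1 : (P : Set V) ∩ (Q : Set V) ⊆ emb b '' (Q.comap L : Set (Ed d)) := by
    rintro z ⟨h1, h2⟩
    refine ⟨xc b z, ?_, emb_xc hP hb hbP h1⟩
    show emb b (xc b z) ∈ Q
    rw [emb_xc hP hb hbP h1]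
    exact h2
  refine measure_mono_null h1 ?_
  rw [(isometry_emb hb).hausdorffMeasure_image (Or.inl (by positivity))]
  refine Measure.addHaar_submodule μH[d] (Q.comap L) fun h => hne ?_
  refine Submodule.eq_of_le_of_finrank_eq (fun z hz => ?_) (hP.trans hQ.symm)
  have h2 : xc b z ∈ Q.comap L := by rw [h]; trivial
  have h3 : emb b (xc b z) ∈ Q := h2
  rwa [emb_xc hP hb hbP hz] at h3

/-- Sketch: `P i ⊓ P j` has dimension `< d`, so it is null (`dimH` of a subspace, or `Measure.addHaar_submodule` after `emb`);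
`measure_iUnion₀`. -/
lemma union_disc_eq {N : ℕ} {P : Fin N → Submodule ℝ V} (hP : ∀ i, finrank ℝ (P i) = d)
    (hinj : Function.Injective P) {r : ℝ} (hr : 0 ≤ r) :
    μH[d] ((⋃ i, (P i : Set V)) ∩ closedBall 0 r) = N * (ENNReal.ofReal (r ^ d) * kap d) := by
  rw [iUnion_inter, measure_iUnion₀]
  · simp only [disc_eq (hP _) hr, tsum_fintype, Finset.sum_const, Finset.card_univ,
      Fintype.card_fin, nsmul_eq_mul]
  · intro i j hij
    refine measure_mono_null ?_ (NDisc_inter_null (hP i) (hP j) fun h => hij (hinj h))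
    rintro z ⟨⟨h1, -⟩, ⟨h2, -⟩⟩
    exact ⟨h1, h2⟩
  · intro i
    exact ((P i).closed_of_finiteDimensional.inter isClosed_closedBall).measurableSet.nullMeasurableSet

/-- Sketch: `measure_diff` of the two discs and Bernoulli `R ^ d - d L R ^ (d-1) ≤ (R - L) ^ d` (`one_add_mul_le_pow`). -/
lemma shell_le {P : Submodule ℝ V} (hP : finrank ℝ P = d) {R L : ℝ} (hL : 0 ≤ L) (hR : L ≤ R)
    (hR0 : 0 < R) :
    μH[d] ((P : Set V) ∩ closedBall 0 R ∩ {x | R - L < ‖x‖})
      ≤ ENNReal.ofReal (d * L / R * R ^ d) * kap d := by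
  have hRL : 0 ≤ R - L := sub_nonneg.2 hR
  have h1 : (P : Set V) ∩ closedBall 0 R ∩ {x | R - L < ‖x‖}
      = ((P : Set V) ∩ closedBall 0 R) \ ((P : Set V) ∩ closedBall 0 (R - L)) := by
    ext z
    simp only [mem_inter_iff, mem_closedBall_zero_iff, mem_ofPred_eq, mem_sdiff, not_and, not_le]
    tauto
  have h2 : (P : Set V) ∩ closedBall 0 (R - L) ⊆ (P : Set V) ∩ closedBall 0 R :=
    inter_subset_inter_right _ (closedBall_subset_closedBall (by linarith))
  have h3 : μH[d] ((P : Set V) ∩ closedBall 0 (R - L)) ≠ ⊤ := by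
    rw [disc_eq hP hRL]
    exact ENNReal.mul_ne_top ENNReal.ofReal_ne_top (kap_ne_top d)
  rw [h1, measure_sdiff h2
    (P.closed_of_finiteDimensional.inter isClosed_closedBall).measurableSet.nullMeasurableSet h3,
    disc_eq hP hRL, disc_eq hP hR0.le, ← ENNReal.sub_mul (fun _ _ => kap_ne_top d),
    ← ENNReal.ofReal_sub _ (pow_nonneg hRL d)]
  refine mul_le_mul_left (ENNReal.ofReal_le_ofReal ?_) _
  have h4 : 1 + d * (-(L / R)) ≤ (1 + -(L / R)) ^ d := by
    refine one_add_mul_le_pow ?_ d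
    have : L / R ≤ 1 := (div_le_one hR0).2 hR
    linarith
  have h5 : (R - L) ^ d = R ^ d * (1 + -(L / R)) ^ d := by
    rw [← mul_pow]
    congr 1
    field_simp
    ring
  have h6 : 0 ≤ R ^ d := pow_nonneg hR0.le d
  have h7 := mul_le_mul_of_nonneg_left h4 h6
  rw [h5]
  have h8 : d * L / R * R ^ d = R ^ d * (d * (L / R)) := by ring
  rw [h8]
  nlinarith

/-- Sketch: the translates by `(2 j L) • v`, `j < M`, are pairwise disjoint measurable subsets of
`P ∩ closedBall 0 (R + 2 M L)` of the same measure (`hausdorffMeasure_vadd` or `Isometry.hausdorffMeasure_image`). -/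
lemma slab_le {P : Submodule ℝ V} (hP : finrank ℝ P = d) {v : V} (hv : v ∈ P) (hv1 : ‖v‖ = 1)
    {R L : ℝ} (hR : 0 ≤ R) (hL : 0 ≤ L) (M : ℕ) :
    (M : ℝ≥0∞) * μH[d] ((P : Set V) ∩ closedBall 0 R ∩ {x | |inner ℝ v x| < L})
      ≤ ENNReal.ofReal ((R + 2 * M * L) ^ d) * kap d := by
  set S : Set V := (P : Set V) ∩ closedBall 0 R ∩ {x | |inner ℝ v x| < L} with hS
  have hSm : MeasurableSet S :=
    (P.closed_of_finiteDimensional.inter isClosed_closedBall).measurableSet.inter
      (isOpen_lt (by fun_prop) continuous_const).measurableSet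
  let T : Fin M → Set V := fun j => (fun x => x - (2 * (j : ℝ) * L) • v) ⁻¹' S
  have hTm : ∀ j, MeasurableSet (T j) := fun j =>
    hSm.preimage (by fun_prop : Continuous fun x : V => x - (2 * (j : ℝ) * L) • v).measurable
  have hT : ∀ j, μH[d] (T j) = μH[d] S := by
    intro j
    have hi : Isometry fun x : V => x + (2 * (j : ℝ) * L) • v :=
      Isometry.of_dist_eq fun x y => by simp
    rw [← hi.hausdorffMeasure_image (Or.inl (by positivity)) S]
    congr 1
    ext z
    constructor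
    · intro hz
      exact ⟨_, hz, by simp⟩
    · rintro ⟨x, hx, rfl⟩
      show x + (2 * (j : ℝ) * L) • v - (2 * (j : ℝ) * L) • v ∈ S
      simpa using hx
  have hin : ∀ (j : Fin M) (x : V), inner ℝ v (x - (2 * (j : ℝ) * L) • v)
      = inner ℝ v x - 2 * (j : ℝ) * L := by
    intro j x
    rw [inner_sub_right, inner_smul_right, real_inner_self_eq_norm_sq, hv1]
    ring
  have hdis : Pairwise (Function.onFun Disjoint T) := by
    intro i j hij
    refine Set.disjoint_left.2 fun z hi hj => ?_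
    have h1 : |inner ℝ v (z - (2 * (i : ℝ) * L) • v)| < L := hi.2
    have h2 : |inner ℝ v (z - (2 * (j : ℝ) * L) • v)| < L := hj.2
    rw [hin, abs_lt] at h1 h2
    have hne : (i : ℕ) ≠ j := fun h => hij (Fin.ext h)
    rcases lt_or_gt_of_ne hne with h | h
    · have : (i : ℝ) + 1 ≤ j := by exact_mod_cast h
      nlinarith [h1.1, h1.2, h2.1, h2.2]
    · have : (j : ℝ) + 1 ≤ i := by exact_mod_cast h
      nlinarith [h1.1, h1.2, h2.1, h2.2]
  have hsub : (⋃ j, T j) ⊆ (P : Set V) ∩ closedBall 0 (R + 2 * M * L) := by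
    intro z hz
    obtain ⟨j, hj⟩ := mem_iUnion.1 hz
    have h1 : z - (2 * (j : ℝ) * L) • v ∈ P := hj.1.1
    have h2 : ‖z - (2 * (j : ℝ) * L) • v‖ ≤ R := mem_closedBall_zero_iff.1 hj.1.2
    refine ⟨?_, mem_closedBall_zero_iff.2 ?_⟩
    · have := P.add_mem h1 (P.smul_mem (2 * (j : ℝ) * L) hv)
      simpa using this
    · have h3 := norm_add_le (z - (2 * (j : ℝ) * L) • v) ((2 * (j : ℝ) * L) • v)
      rw [sub_add_cancel, norm_smul, hv1, mul_one, Real.norm_of_nonneg (by positivity)] at h3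
      have h4 : (j : ℝ) ≤ M := by exact_mod_cast j.2.le
      nlinarith
  have h := measure_mono (μ := μH[d]) hsub
  rw [measure_iUnion hdis hTm, disc_eq hP (by positivity)] at h
  simpa only [hT, tsum_fintype, Finset.sum_const, Finset.card_univ, Fintype.card_fin,
    nsmul_eq_mul] using h

end

end Pool.Agent.Lib.MP_b07a76_an
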