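import Pool.Agent.Lib.MP_b07a76_an.NDefs
import Pool.Agent.Lib.MP_b07a76_an.IFrame

/-! The middle datum forces the first `N` planes into a space of dimension `d + 4`. -/

namespace Pool.Agent.Lib.MP_b07a76_an

noncomputable section
open Module Set Real

variable {V : Type} [NormedAddCommGroup V] [InnerProductSpace ℝ V] [FiniteDimensional ℝ V]

lemma NForce_pars {d : ℕ} {P : Submodule ℝ V} (hP : finrank ℝ P = d) {e e' : Fin d → V}
    (he : Orthonormal ℝ e) (heP : ∀ r, e r ∈ P) (he' : Orthonormal ℝ e') (heP' : ∀ r, e' r ∈ P)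
    (w : V) : ∑ r, inner ℝ (e r) w ^ 2 = ∑ r, inner ℝ (e' r) w ^ 2 := by
  have hu : ∑ l, inner ℝ (e' l) w • e' l ∈ P :=
    Submodule.sum_mem _ fun l _ => P.smul_mem _ (heP' l)
  have h1 : ∀ r, inner ℝ (e r) w = inner ℝ (e r) (∑ l, inner ℝ (e' l) w • e' l) := by
    intro r
    have h2 : inner ℝ (e r) (yc e' w) = 0 := by
      rw [eq_sum_of_mem hP he' heP' (heP r), sum_inner]
      exact Finset.sum_eq_zero fun j _ => by rw [inner_smul_left, inner_yc he', mul_zero]
    rw [yc_apply, inner_sub_right, sub_eq_zero] at h2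
    exact h2
  have h3 := norm_split he (∑ l, inner ℝ (e' l) w • e' l)
  rw [yc_eq_zero hP he heP hu, norm_sum_sq he'] at h3
  simp only [h1]
  rw [h3]
  simp

lemma NForce_hs {d : ℕ} {P Q : Submodule ℝ V} (hP : finrank ℝ P = d) (hQ : finrank ℝ Q = d)
    {e' f' : Fin d → V} {c : Fin d → ℝ} (h : Fr P Q e' f' c) {e f : Fin d → V}
    (he : Orthonormal ℝ e) (heP : ∀ r, e r ∈ P) (hf : Orthonormal ℝ f) (hfQ : ∀ r, f r ∈ Q) :
    ∑ r, ∑ l, inner ℝ (f l) (e r) ^ 2 = ∑ l, c l ^ 2 := by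
  calc ∑ r, ∑ l, inner ℝ (f l) (e r) ^ 2 = ∑ r, ∑ l, inner ℝ (e r) (f' l) ^ 2 := by
        refine Finset.sum_congr rfl fun r _ => ?_
        rw [NForce_pars hQ hf hfQ h.2.1 h.2.2.2.1]
        exact Finset.sum_congr rfl fun l _ => by rw [real_inner_comm]
    _ = ∑ l, ∑ r, inner ℝ (e' r) (f' l) ^ 2 := by
        rw [Finset.sum_comm]
        exact Finset.sum_congr rfl fun l _ => NForce_pars hP he heP h.1 h.2.2.1 _
    _ = ∑ l, c l ^ 2 := by
        refine Finset.sum_congr rfl fun l _ => ?_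
        simp [h.2.2.2.2]

lemma NForce_sumA (k : ℕ) (θ : ℝ) : ∑ r, cos (angA k θ r) ^ 2 = k + 4 * cos θ ^ 2 := by
  rw [Fin.sum_univ_add]
  have h1 : ∀ r : Fin k, angA k θ (Fin.castAdd 4 r) = 0 := fun r => by simp [angA]
  have h2 : ∀ r : Fin 4, angA k θ (Fin.natAdd k r) = θ := fun r => by simp [angA]
  simp [h1, h2]

lemma NForce_sumB (k : ℕ) (θ : ℝ) : ∑ r, cos (angB k θ r) ^ 2 = 4 * cos θ ^ 2 := by
  have h := Fin.sum_univ_eq_sum_range
    (fun r : ℕ => cos (if r < 4 then θ else π / 2) ^ 2) (k + 4)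
  unfold angB
  rw [h, add_comm k 4, Finset.sum_range_add]
  simp [Finset.sum_range_succ]
  ring

lemma NForce_orth {d : ℕ} {P Q : Submodule ℝ V} (hP : finrank ℝ P = d) (hQ : finrank ℝ Q = d)
    {a : Fin d → ℝ} (h : HasAngles P Q a) (ha : ∀ r, a r = π / 2) {u v : V} (hu : u ∈ P)
    (hv : v ∈ Q) : inner ℝ u v = 0 := by
  obtain ⟨e, f, h1⟩ := exists_principal hP hQ h
  have h2 : Fr P Q e f fun r => cos (a r) := h1
  rw [h2.inner_eq hP hQ hu hv]
  simp [ha]

/-- Sketch. Write `P₀ = P 0`, `A = P N`, `B = P (N+1)`, `U = P (N+2)`; `exists_principal` gives `Fr` for each pair `i < j`. Pairs with all cosines zero are orthogonal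
(`Fr.inner_eq`): `P₀ ⟂ A` (as `arcsin 1 = π/2`), `P i ⟂ B`, `P i ⟂ U` for `i < N`. Let `(e'', f'')` be the frames of `(A, B)`: `e'' r = f'' r ∈ B` for `r < k`
(`inner_eq_one_iff_of_norm_eq_one`). Let `f₀` be any frame of `P₀` and `b = Fin.append f₀ (fun s => e'' (Fin.natAdd k s))`. For `1 ≤ i < N`, `g = g 0 i`, take frames `(f, e)` of `(P₀, P i)`
(squared cosines sum to `k + 4 g²`) and `(e', f')` of `(P i, A)` (sum `4 (1 - g²)`). Parseval in `P i` (`eq_sum_of_mem`, or `loewner` with `T = 1`):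
`∑ r, ⟪e r, f' l⟫² = ∑ r, ⟪e' r, f' l⟫² = c' l ²`. So `∑ r, (1 - ∑ l, ⟪f l, e r⟫² - ∑ l, ⟪f' l, e r⟫²) = 0`, each term is `‖yc (Fin.append f f') (e r)‖² ≥ 0` (`norm_split`), so
`e r ∈ P₀ ⊔ A`, `P i ≤ P₀ ⊔ A`. For `v = p + u ∈ P i`, `u = ∑ r, ⟪e'' r, u⟫ • e'' r` and `⟪e'' r, u⟫ = ⟪e'' r, v⟫ - ⟪e'' r, p⟫ = 0` for `r < k`. So `v ∈ span (range b)`, and `emb_xc`
applies to that span. Distinctness: `Fr.ne` at the index `Fin.natAdd k 0`, cosine `cos (arccos g) = g ≤ 1/2`. -/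
theorem gamma_frame {k N : ℕ} (hN : 1 ≤ N) {g : ℕ → ℕ → ℝ} (h0 : g 0 0 = 1)
    (hg : ∀ i j, i < N → j < N → i ≠ j → g i j ∈ Icc (0 : ℝ) (1 / 2))
    {P : Fin (N + 3) → Submodule ℝ V} (hP : Realises P (gammaN k N g)) :
    ∃ b : Fin (k + 4 + 4) → V, Orthonormal ℝ b ∧
      (∀ i : Fin (N + 3), (i : ℕ) < N → ∀ z ∈ P i, emb b (xc b z) = z) ∧
      (∀ i : Fin (N + 3), N ≤ (i : ℕ) → ∀ z ∈ P i, ∀ r : Fin (k + 4),
        inner ℝ (b (Fin.castAdd 4 r)) z = 0) ∧
      ∀ i j : Fin (N + 3), (i : ℕ) < N → (j : ℕ) < N → i ≠ j → P i ≠ P j := by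
  have hF : ∀ i j : Fin (N + 3), i < j →
      ∃ e f, Fr (P i) (P j) e f fun r => cos (gammaN k N g i j r) :=
    fun i j hij => exists_principal (hP.1 i) (hP.1 j) (hP.2 i j hij)
  let i0 : Fin (N + 3) := ⟨0, by omega⟩
  let iA : Fin (N + 3) := ⟨N, by omega⟩
  let iB : Fin (N + 3) := ⟨N + 1, by omega⟩
  have hi0 : (i0 : ℕ) = 0 := rfl
  have hiA : (iA : ℕ) = N := rfl
  have hiB : (iB : ℕ) = N + 1 := rfl
  have ho0 : ∀ i : Fin (N + 3), N ≤ (i : ℕ) → ∀ u ∈ P i0, ∀ v ∈ P i, inner ℝ u v = 0 := by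
    intro i hi u hu v hv
    refine NForce_orth (hP.1 i0) (hP.1 i) (hP.2 i0 i (by rw [Fin.lt_def]; omega)) (fun r => ?_)
      hu hv
    unfold gammaN
    rw [if_neg (by omega)]
    split_ifs with h1 h2
    · simp [angB, hi0, h0]
    · omega
    · rfl
  have hoB : ∀ i : Fin (N + 3), (i : ℕ) < N → ∀ u ∈ P i, ∀ v ∈ P iB, inner ℝ u v = 0 := by
    intro i hi u hu v hv
    refine NForce_orth (hP.1 i) (hP.1 iB) (hP.2 i iB (by rw [Fin.lt_def]; omega)) (fun r => ?_)
      hu hv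
    unfold gammaN
    rw [if_neg (by omega), if_neg (by omega), if_neg (by omega)]
  obtain ⟨a, b', hab⟩ := hF iA iB (by rw [Fin.lt_def]; omega)
  have haB : ∀ r : Fin k, a (Fin.castAdd 4 r) ∈ P iB := by
    intro r
    have h1 := hab.2.2.2.2 (Fin.castAdd 4 r) (Fin.castAdd 4 r)
    have h2 : gammaN k N g iA iB (Fin.castAdd 4 r) = 0 := by
      unfold gammaN
      rw [if_neg (by omega), if_neg (by omega), if_pos ⟨hiA, hiB⟩]
      simp [angA]
    rw [if_pos rfl] at h1
    simp only [h2, cos_zero] at h1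
    rw [(inner_eq_one_iff_of_norm_eq_one (hab.1.1 _) (hab.2.1.1 _)).1 h1]
    exact hab.2.2.2.1 _
  obtain ⟨f₀, hf₀, hf₀P⟩ := exists_frame (P i0) (hP.1 i0)
  have hb : Orthonormal ℝ (Fin.append f₀ fun s : Fin 4 => a (Fin.natAdd k s)) := by
    rw [orthonormal_iff_ite]
    intro i j
    induction i using Fin.addCases with
    | left i =>
      induction j using Fin.addCases with
      | left j =>
        simp only [Fin.append_left, orthonormal_iff_ite.1 hf₀, Fin.castAdd_inj]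
      | right j =>
        rw [Fin.append_left, Fin.append_right, ho0 iA le_rfl _ (hf₀P i) _ (hab.2.2.1 _), if_neg]
        intro h
        have := congrArg Fin.val h
        simp at this
        omega
    | right i =>
      induction j using Fin.addCases with
      | left j =>
        rw [Fin.append_left, Fin.append_right, real_inner_comm,
          ho0 iA le_rfl _ (hf₀P j) _ (hab.2.2.1 _), if_neg]
        intro h
        have := congrArg Fin.val h
        simp at this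
        omega
      | right j =>
        simp only [Fin.append_right, orthonormal_iff_ite.1 hab.1, Fin.natAdd_inj]
  refine ⟨_, hb, fun i hi z hz => ?_, fun i hi z hz r => ?_, fun i j hi hj hij => ?_⟩
  · obtain ⟨e, he, heP⟩ := exists_frame (P i) (hP.1 i)
    have hg1 : g 0 i ∈ Icc (-1 : ℝ) 1 := by
      by_cases h : (i : ℕ) = 0
      · rw [h, h0]
        norm_num
      · have := hg 0 i (by omega) hi (Ne.symm h)
        exact ⟨by linarith [this.1], by linarith [this.2]⟩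
    have s1 : ∑ r, ∑ l, inner ℝ (f₀ l) (e r) ^ 2 = k + 4 * g 0 i ^ 2 := by
      by_cases h : (i : ℕ) = 0
      · have hi' : i = i0 := Fin.ext h
        have hf : Fr (P i) (P i0) f₀ f₀ fun _ => 1 :=
          ⟨hf₀, hf₀, hi' ▸ hf₀P, hf₀P, orthonormal_iff_ite.1 hf₀⟩
        rw [NForce_hs (hP.1 i) (hP.1 i0) hf he heP hf₀ hf₀P, h, h0]
        simp
      · obtain ⟨f, e', hfe⟩ := hF i0 i (by rw [Fin.lt_def]; omega)
        rw [NForce_hs (hP.1 i) (hP.1 i0) hfe.symm he heP hf₀ hf₀P]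
        unfold gammaN
        simp only [if_pos hi]
        rw [NForce_sumA, hi0, cos_arccos hg1.1 hg1.2]
    have s2 : ∑ r, ∑ l, inner ℝ (a l) (e r) ^ 2 = 4 * (1 - g 0 i ^ 2) := by
      obtain ⟨e', f, hfe⟩ := hF i iA (by rw [Fin.lt_def]; omega)
      rw [NForce_hs (hP.1 i) (hP.1 iA) hfe he heP hab.1 hab.2.2.1]
      unfold gammaN
      simp only [hiA, lt_irrefl, if_false, if_true]
      rw [NForce_sumB, cos_sq', sin_arcsin hg1.1 hg1.2]
    have s3 : ∀ r, ‖yc (Fin.append f₀ fun s : Fin 4 => a (Fin.natAdd k s)) (e r)‖ ^ 2 =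
        1 - ∑ l, inner ℝ (f₀ l) (e r) ^ 2 - ∑ l, inner ℝ (a l) (e r) ^ 2 := by
      intro r
      have h1 := norm_split hb (e r)
      rw [Fin.sum_univ_add, he.1 r] at h1
      simp only [Fin.append_left, Fin.append_right] at h1
      have h2 : ∀ l : Fin k, inner ℝ (a (Fin.castAdd 4 l)) (e r) = 0 := fun l => by
        rw [real_inner_comm]
        exact hoB i hi _ (heP r) _ (haB l)
      rw [Fin.sum_univ_add (fun l => inner ℝ (a l) (e r) ^ 2)]
      simp only [h2]
      simp only [ne_eq, OfNat.ofNat_ne_zero, not_false_eq_true, zero_pow, Finset.sum_const_zero,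
        zero_add]
      linarith
    have s4 : ∑ r, ‖yc (Fin.append f₀ fun s : Fin 4 => a (Fin.natAdd k s)) (e r)‖ ^ 2 = 0 := by
      simp only [s3]
      rw [Finset.sum_sub_distrib, Finset.sum_sub_distrib, s1, s2]
      simp
      ring
    have s5 : ∀ r, yc (Fin.append f₀ fun s : Fin 4 => a (Fin.natAdd k s)) (e r) = 0 := by
      intro r
      have := (Finset.sum_eq_zero_iff_of_nonneg fun r _ => sq_nonneg _).1 s4 r (Finset.mem_univ r)
      rwa [sq_eq_zero_iff, norm_eq_zero] at this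
    have s6 : yc (Fin.append f₀ fun s : Fin 4 => a (Fin.natAdd k s)) z = 0 := by
      rw [eq_sum_of_mem (hP.1 i) he heP hz, map_sum]
      simp [s5]
    rw [yc_apply, sub_eq_zero] at s6
    exact s6.symm
  · rw [Fin.append_left]
    exact ho0 i hi _ (hf₀P r) _ hz
  · have key : ∀ i j : Fin (N + 3), (j : ℕ) < N → i < j → P i ≠ P j := by
      intro i j hj hij
      obtain ⟨e, f, hef⟩ := hF i j hij
      rw [Fin.lt_def] at hij
      refine hef.ne (hP.1 i) (hP.1 j) (k := Fin.natAdd k 0) ?_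
      have h1 := hg i j (by omega) hj (by omega)
      have h2 : gammaN k N g i j (Fin.natAdd k 0) = arccos (g i j) := by
        unfold gammaN
        rw [if_pos hj]
        simp [angA]
      simp only [h2]
      rw [cos_arccos (by linarith [h1.1]) (by linarith [h1.2]), abs_of_nonneg h1.1]
      linarith [h1.2]
    rcases lt_or_gt_of_ne hij with h | h
    · exact key i j hj h
    · exact (key j i hi h).symm

end

end Pool.Agent.Lib.MP_b07a76_an
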