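import Pool.Agent.Lib.MP_b07a76_an.NDefs

/-! The one-dimensional dilations. -/

namespace Pool.Agent.Lib.MP_b07a76_an

noncomputable section
open Set Real

lemma NHh_clamp_ge (v : ℝ) : -1 / 2 ≤ max (-1 / 2) (min (1 / 2) v) := le_max_left _ _

lemma NHh_clamp_le (v : ℝ) : max (-1 / 2) (min (1 / 2) v) ≤ 1 / 2 :=
  max_le (by norm_num) (min_le_left _ _)

lemma NHh_clamp_top {v : ℝ} (h : 1 / 2 ≤ v) : max (-1 / 2) (min (1 / 2) v) = 1 / 2 := by
  rw [min_eq_left h, max_eq_right (by norm_num)]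

lemma NHh_clamp_bot {v : ℝ} (h : v ≤ -1 / 2) : max (-1 / 2) (min (1 / 2) v) = -1 / 2 :=
  max_eq_left ((min_le_right _ _).trans h)

lemma NHh_clamp_lip (u v : ℝ) :
    |max (-1 / 2) (min (1 / 2) u) - max (-1 / 2) (min (1 / 2) v)| ≤ |u - v| := by
  have h1 := le_abs_self (u - v)
  have h2 := neg_abs_le (u - v)
  have h3 := abs_nonneg (u - v)
  rw [abs_le]
  constructor <;> simp only [max_def, min_def] <;> split_ifs <;> linarith

lemma NHh_lip_s {σ₀ σ σ' : ℝ} (h0 : 0 < σ₀) (h1 : σ₀ ≤ σ) (h : σ ≤ σ') (ρ : ℝ) :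
    |max (-1 / 2) (min (1 / 2) (ρ / σ)) - max (-1 / 2) (min (1 / 2) (ρ / σ'))| ≤ (σ' - σ) / σ₀ := by
  have hσ : 0 < σ := h0.trans_le h1
  have hσ' : 0 < σ' := hσ.trans_le h
  have hd : 0 ≤ σ' - σ := sub_nonneg.2 h
  by_cases h2 : |ρ| ≤ σ'
  · refine (NHh_clamp_lip _ _).trans ?_
    have e : ρ / σ - ρ / σ' = ρ / σ' * ((σ' - σ) / σ) := by field_simp
    have h3 : |ρ / σ'| ≤ 1 := by
      rw [abs_div, abs_of_pos hσ']
      exact (div_le_one hσ').2 h2
    rw [e, abs_mul, abs_of_nonneg (div_nonneg hd hσ.le)]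
    calc |ρ / σ'| * ((σ' - σ) / σ) ≤ 1 * ((σ' - σ) / σ) :=
          mul_le_mul_of_nonneg_right h3 (div_nonneg hd hσ.le)
      _ ≤ (σ' - σ) / σ₀ := by
          rw [one_mul]
          exact div_le_div_of_nonneg_left hd h0 h1
  · rcases lt_abs.1 (not_le.1 h2) with h3 | h3
    · rw [NHh_clamp_top ((le_div_iff₀ hσ).2 (by linarith)),
        NHh_clamp_top ((le_div_iff₀ hσ').2 (by linarith)), sub_self, abs_zero]
      exact div_nonneg hd h0.le
    · rw [NHh_clamp_bot ((div_le_iff₀ hσ).2 (by linarith)),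
        NHh_clamp_bot ((div_le_iff₀ hσ').2 (by linarith)), sub_self, abs_zero]
      exact div_nonneg hd h0.le

lemma NHh_round_mono {t t' : ℝ} (h : t ≤ t') : round t ≤ round t' := by
  rw [round_eq, round_eq]
  exact Int.floor_mono (by linarith)

lemma NHh_lip_t {σ t t' : ℝ} (h0 : 0 < σ) (h1 : σ ≤ 1) (h : t ≤ t') :
    |hh σ t' - hh σ t| ≤ (t' - t) / σ := by
  unfold hh
  rcases (NHh_round_mono h).eq_or_lt with e | e
  · rw [e, add_sub_add_left_eq_sub]
    refine (NHh_clamp_lip _ _).trans (le_of_eq ?_)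
    rw [← sub_div, abs_div, abs_of_pos h0, sub_sub_sub_cancel_right, abs_of_nonneg (sub_nonneg.2 h)]
  · have e' : (round t : ℝ) + 1 ≤ round t' := by exact_mod_cast e
    have a := abs_le.1 (abs_sub_round t)
    have a' := abs_le.1 (abs_sub_round t')
    have key : ∀ x : ℝ, 0 ≤ x → x ≤ x / σ := fun x hx => le_div_self hx h0 h1
    have b0 := key (1 / 2) (by norm_num)
    have b1 := key (round t' - round t - 1) (by linarith)
    have b2 : 0 ≤ (t' - round t' + 1 / 2) / σ := div_nonneg (by linarith [a'.1]) h0.le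
    have b3 : 0 ≤ (1 / 2 - (t - round t)) / σ := div_nonneg (by linarith [a.2]) h0.le
    have c1 : max (-1 / 2) (min (1 / 2) ((t' - round t') / σ)) ≤
        -1 / 2 + (t' - round t' + 1 / 2) / σ := by
      refine max_le (by linarith) ((min_le_right _ _).trans ?_)
      rw [add_div]
      linarith
    have c2 : 1 / 2 - (1 / 2 - (t - round t)) / σ ≤
        max (-1 / 2) (min (1 / 2) ((t - round t) / σ)) := by
      refine le_max_of_le_right (le_min (by linarith) ?_)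
      rw [sub_div]
      linarith
    have c3 := NHh_clamp_ge ((t' - round t') / σ)
    have c4 := NHh_clamp_le ((t - round t) / σ)
    have e2 : (t' - t) / σ = (round t' - round t - 1) / σ + (t' - round t' + 1 / 2) / σ +
        (1 / 2 - (t - round t)) / σ := by ring
    rw [abs_of_nonneg (by linarith), e2]
    linarith

lemma yy_nonneg (t : ℝ) : 0 ≤ yy t := by
  unfold yy
  positivity

/-- `abs_sub_round`. -/
lemma yy_le_one (t : ℝ) : yy t ≤ 1 := by
  unfold yy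
  linarith [abs_sub_round t]

/-- Sketch: `round_le : |x - round x| ≤ |x - z|` with `z = round t'`. -/
lemma yy_lip (t t' : ℝ) : |yy t - yy t'| ≤ 2 * |t - t'| := by
  unfold yy
  have h1 := round_le t (round t')
  have h2 := round_le t' (round t)
  have h3 : |t - (round t' : ℝ)| ≤ |t - t'| + |t' - round t'| := abs_sub_le _ _ _
  have h4 : |t' - (round t : ℝ)| ≤ |t' - t| + |t - round t| := abs_sub_le _ _ _
  rw [abs_sub_comm t' t] at h4
  rw [abs_le]
  constructor <;> linarith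

lemma hh_one (t : ℝ) : hh 1 t = t := by
  unfold hh
  have h := abs_le.1 (abs_sub_round t)
  rw [div_one, min_eq_right h.2, max_eq_right (by linarith [h.1])]
  ring

lemma hh_near (σ t : ℝ) : |hh σ t - t| ≤ 1 := by
  unfold hh
  have h := abs_le.1 (abs_sub_round t)
  have h1 := NHh_clamp_ge ((t - round t) / σ)
  have h2 := NHh_clamp_le ((t - round t) / σ)
  rw [abs_le]
  constructor <;> linarith [h.1, h.2]

lemma hh_half {σ t : ℝ} (h0 : 0 < σ) (h : σ ≤ yy t) : ∃ z : ℤ, hh σ t = z + 1 / 2 := by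
  unfold yy at h
  unfold hh
  rcases le_total 0 (t - round t) with h1 | h1
  · rw [abs_of_nonneg h1] at h
    refine ⟨round t, ?_⟩
    rw [NHh_clamp_top ((le_div_iff₀ h0).2 (by linarith))]
  · rw [abs_of_nonpos h1] at h
    refine ⟨round t - 1, ?_⟩
    rw [NHh_clamp_bot ((div_le_iff₀ h0).2 (by linarith))]
    push_cast
    ring

/-- Sketch. Let `c v = max (-1/2) (min (1/2) v)`, `ρ = t - round t ∈ [-1/2, 1/2]`.
In `σ`: for `σ ≤ σ'`, if `|ρ| ≤ σ'/2` then `|ρ/σ - ρ/σ'| = |ρ| (σ' - σ)/(σ σ') ≤ (σ' - σ)/(2 σ)` and `c` is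
1-Lipschitz; otherwise both clamp to the same `±1/2`. In `t`, for `t ≤ t'` (`round` is monotone): if the rounds agree, `c` is
1-Lipschitz; if `round t + 1 ≤ round t'`, then `hh σ t' - hh σ t ≥ 1 - 1/2 - 1/2 = 0`, and
`c (ρ'/σ) ≤ -1/2 + (ρ' + 1/2)/σ`, `-c (ρ/σ) ≤ -1/2 + (1/2 - ρ)/σ`, `round t' - round t - 1 ≤ (round t' - round t - 1)/σ`. -/
lemma hh_lip {σ₀ σ σ' : ℝ} (h0 : 0 < σ₀) (h1 : σ₀ ≤ σ) (h2 : σ₀ ≤ σ') (h3 : σ ≤ 1) (h4 : σ' ≤ 1)
    (t t' : ℝ) : |hh σ t - hh σ' t'| ≤ (|t - t'| + |σ - σ'|) / σ₀ := by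
  have hσ : 0 < σ := h0.trans_le h1
  have a1 : |hh σ t - hh σ t'| ≤ |t - t'| / σ₀ := by
    refine le_trans ?_ (div_le_div_of_nonneg_left (abs_nonneg _) h0 h1)
    rcases le_total t t' with h | h
    · rw [abs_sub_comm, abs_sub_comm t, abs_of_nonneg (sub_nonneg.2 h)]
      exact NHh_lip_t hσ h3 h
    · rw [abs_of_nonneg (sub_nonneg.2 h)]
      exact NHh_lip_t hσ h3 h
  have a2 : |hh σ t' - hh σ' t'| ≤ |σ - σ'| / σ₀ := by
    unfold hh
    rw [add_sub_add_left_eq_sub]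
    rcases le_total σ σ' with h | h
    · rw [abs_sub_comm σ, abs_of_nonneg (sub_nonneg.2 h)]
      exact NHh_lip_s h0 h1 h _
    · rw [abs_sub_comm, abs_of_nonneg (sub_nonneg.2 h)]
      exact NHh_lip_s h0 h2 h _
  rw [add_div]
  exact (abs_sub_le _ _ _).trans (add_le_add a1 a2)

end

end Pool.Agent.Lib.MP_b07a76_an
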