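import Pool.Agent.Lib.MP_b07a76_an.NAng

/-! The lower and the upper datum are realisable. -/

namespace Pool.Agent.Lib.MP_b07a76_an

noncomputable section
open Module Set Real

variable {V : Type} [NormedAddCommGroup V] [InnerProductSpace ℝ V] [FiniteDimensional ℝ V]

omit [FiniteDimensional ℝ V] in
private lemma NModelA_rank {d : ℕ} {e : Fin d → V} (he : Orthonormal ℝ e) :
    finrank ℝ (Submodule.span ℝ (range e)) = d := by
  rw [finrank_span_eq_card he.linearIndependent, Fintype.card_fin]

omit [FiniteDimensional ℝ V] in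
private lemma NModelA_append {k : ℕ} {t t' : Fin k → V} {x x' : Fin 4 → V} {a g : ℝ}
    (h1 : ∀ r r', inner ℝ (t r) (t' r') = if r = r' then a else 0)
    (h2 : ∀ s s', inner ℝ (x s) (x' s') = if s = s' then g else 0)
    (h3 : ∀ r s, inner ℝ (t r) (x' s) = 0) (h4 : ∀ s r, inner ℝ (x s) (t' r) = 0)
    (r r' : Fin (k + 4)) :
    inner ℝ (Fin.append t x r) (Fin.append t' x' r') =
      if r = r' then (if (r : ℕ) < k then a else g) else 0 := by
  refine Fin.addCases (fun r => ?_) (fun r => ?_) r <;>
    refine Fin.addCases (fun r' => ?_) (fun r' => ?_) r'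
  · rw [Fin.append_left, Fin.append_left, h1]
    have := r.2
    by_cases h : r = r'
    · simp [h]
    · have h' : Fin.castAdd 4 r ≠ Fin.castAdd 4 r' := fun e => h (Fin.castAdd_injective _ _ e)
      simp [h, h']
  · rw [Fin.append_left, Fin.append_right, h3]
    have h' : Fin.castAdd 4 r ≠ Fin.natAdd k r' := fun e => by
      have h5 := congrArg Fin.val e
      have := r.2
      simp only [Fin.val_castAdd, Fin.val_natAdd] at h5
      omega
    simp [h']
  · rw [Fin.append_right, Fin.append_left, h4]
    have h' : Fin.natAdd k r ≠ Fin.castAdd 4 r' := fun e => by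
      have h5 := congrArg Fin.val e
      have := r'.2
      simp only [Fin.val_castAdd, Fin.val_natAdd] at h5
      omega
    simp [h']
  · rw [Fin.append_right, Fin.append_right, h2]
    by_cases h : r = r'
    · simp [h]
    · have h' : Fin.natAdd k r ≠ Fin.natAdd k r' := fun e => h (Fin.natAdd_injective _ _ e)
      simp [h, h']

private lemma NModelA_frames {k N : ℕ} (hk : 4 ≤ k) (hV : finrank ℝ V = (k + 4) * (N + 3)) :
    ∃ e : Fin 2 → Fin (N + 4) → Fin (N + 4) → Fin (k + 4) → V, ∀ a b c a' b' c' r r',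
      inner ℝ (e a b c r) (e a' b' c' r') = if r = r' then
        (if (r : ℕ) < k then (if a = a' then 1 else 0) else
          ((if b = b' then 1 else 0) + (if b = c' then 1 else 0) + (if c = b' then 1 else 0)
            + (if c = c' then 1 else 0)) / 2) else 0 := by
  classical
  obtain ⟨ε, hε⟩ := exists_on_family (V := V) ((Fin 2 × Fin k) ⊕ (Fin 4 × Fin (N + 4))) (by
    simp only [Fintype.card_sum, Fintype.card_prod, Fintype.card_fin, hV]
    nlinarith [Nat.zero_le (k * N)])
  rw [orthonormal_iff_ite] at hε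
  have h2 : (√2)⁻¹ * (√2)⁻¹ = (1 / 2 : ℝ) := by
    rw [← mul_inv, mul_self_sqrt (by norm_num)]
    norm_num
  refine ⟨fun a b c => Fin.append (fun r => ε (Sum.inl (a, r)))
    (fun s => (√2)⁻¹ • (ε (Sum.inr (s, b)) + ε (Sum.inr (s, c)))), ?_⟩
  intro a b c a' b' c' r r'
  refine NModelA_append (fun r r' => ?_) (fun s s' => ?_) (fun r s => ?_) (fun s r => ?_) r r'
  · rw [hε]
    by_cases h : r = r' <;> by_cases h' : a = a' <;> simp [h, h']
  · rw [inner_smul_left, inner_smul_right, ← mul_assoc, conj_trivial, h2, inner_add_left,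
      inner_add_right, inner_add_right, hε, hε, hε, hε]
    by_cases h : s = s'
    · simp only [h, Sum.inr.injEq, Prod.mk.injEq, true_and, if_true]
      ring
    · simp [h]
  · rw [inner_smul_right, inner_add_right, hε, hε]
    simp
  · rw [inner_smul_left, inner_add_left, hε, hε]
    simp

/-- `exists_on_family (Fin m × Fin d)`, `P i = span (range fun r => ε (i, r))`, `hasAngles_orth`. -/
theorem beta_datum {d m : ℕ} (hV : finrank ℝ V = d * m) :
    IsAngleDatum V (fun (_ _ : Fin m) (_ : Fin d) => π / 2) := by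
  classical
  obtain ⟨ε, hε⟩ := exists_on_family (V := V) (Fin m × Fin d) (by
    simp only [Fintype.card_prod, Fintype.card_fin, hV]
    exact (mul_comm _ _).le)
  have ho : ∀ i : Fin m, Orthonormal ℝ (fun r : Fin d => ε (i, r)) := fun i =>
    hε.comp (fun r : Fin d => (i, r)) (fun _ _ h => (Prod.ext_iff.1 h).2)
  have hpi : π / 2 ∈ Icc 0 (π / 2) := ⟨by linarith [pi_pos], le_rfl⟩
  refine ⟨fun i j _ => ⟨monotone_const, fun _ => hpi⟩,
    fun i => Submodule.span ℝ (range fun r : Fin d => ε (i, r)), fun i => NModelA_rank (ho i),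
    fun i j hij => ?_⟩
  refine Fr.hasAngles (e := fun r : Fin d => ε (i, r)) (f := fun r : Fin d => ε (j, r))
    (c := fun _ => 0) ⟨ho i, ho j, fun r => Submodule.subset_span (mem_range_self r),
      fun r => Submodule.subset_span (mem_range_self r), fun r l => ?_⟩ (NModelA_rank (ho i))
    (NModelA_rank (ho j)) monotone_const (fun _ => hpi) (fun _ => by simp)
  rw [ite_self]
  exact hε.2 fun h => hij.ne (Prod.ext_iff.1 h).1

/-- Sketch. `exists_on_family ((Fin 2 × Fin k) ⊕ (Fin 4 × Fin (N + 4)))` (`2 k + 4 (N + 4) ≤ (k + 4) (N + 3)`). For a core index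
`i < N + 2`: `t i r = ε (inl (0, r))`, `x i s = (√2)⁻¹ • (ε (inr (s, i)) + ε (inr (s, N + 2)))`; for the last index
`t r = ε (inl (1, r))`, `x s = (√2)⁻¹ • (ε (inr (s, 0)) + ε (inr (s, N + 3)))`. `P i = span (range (Fin.append (t i) (x i)))`
(orthonormal, so `finrank = k + 4`). The Gram matrices of the frames are diagonal: `Fr.hasAngles` directly (for the pair
`(0, last)` compose both frames with `Fin.rev`), or `hasAngles_A`, `hasAngles_B`, `hasAngles_orth`; `cos_pi_div_three`. -/
theorem alpha_datum {k N : ℕ} (hk : 4 ≤ k) (hV : finrank ℝ V = (k + 4) * (N + 3)) :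
    IsAngleDatum V (alphaN k N) := by
  classical
  obtain ⟨e, he⟩ := NModelA_frames hk hV
  have hpi : π / 2 ∈ Icc 0 (π / 2) := ⟨by linarith [pi_pos], le_rfl⟩
  have hp3 : π / 3 ∈ Icc 0 (π / 2) := ⟨by linarith [pi_pos], by linarith [pi_pos]⟩
  have hok : ∀ i j : Fin (N + 3), Monotone (alphaN k N i j) ∧
      ∀ r, alphaN k N i j r ∈ Icc 0 (π / 2) := by
    intro i j
    unfold alphaN
    split_ifs
    · exact angA_ok hp3
    · exact angB_ok hp3
    · exact ⟨monotone_const, fun _ => hpi⟩
  let u : Fin (N + 4) := ⟨N + 2, by omega⟩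
  let w : Fin (N + 4) := ⟨N + 3, by omega⟩
  let f : Fin (N + 3) → Fin (k + 4) → V := fun i =>
    if (i : ℕ) < N + 2 then e 0 i.castSucc u else e 1 0 w
  have hcore : ∀ i : Fin (N + 3), (i : ℕ) < N + 2 → f i = e 0 i.castSucc u := fun i hi => if_pos hi
  have hlast : ∀ i : Fin (N + 3), ¬ (i : ℕ) < N + 2 → f i = e 1 0 w := fun i hi => if_neg hi
  have hu : ∀ i : Fin (N + 3), (i : ℕ) < N + 2 → i.castSucc ≠ u := fun i hi h => by
    have h5 := congrArg Fin.val h
    simp only [Fin.val_castSucc, u] at h5
    omega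
  have hw : ∀ i : Fin (N + 3), i.castSucc ≠ w := fun i h => by
    have h5 := congrArg Fin.val h
    have := i.2
    simp only [Fin.val_castSucc, w] at h5
    omega
  have hw0 : (0 : Fin (N + 4)) ≠ w := fun h => by
    have h5 := congrArg Fin.val h
    simp only [Fin.val_zero, w] at h5
    omega
  have hu0 : u ≠ 0 := fun h => by
    have h5 := congrArg Fin.val h
    simp only [Fin.val_zero, u] at h5
    omega
  have huw : u ≠ w := fun h => by
    have h5 := congrArg Fin.val h
    simp only [u, w] at h5
    omega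
  have ho : ∀ i, Orthonormal ℝ (f i) := by
    intro i
    rw [orthonormal_iff_ite]
    intro r r'
    by_cases hi : (i : ℕ) < N + 2
    · rw [hcore i hi, he]
      by_cases h : r = r' <;> simp [h, hu i hi, (hu i hi).symm]
    · rw [hlast i hi, he]
      by_cases h : r = r' <;> simp [h, hw0, hw0.symm]
  have hmem : ∀ i r, f i r ∈ Submodule.span ℝ (range (f i)) := fun i r =>
    Submodule.subset_span ⟨r, rfl⟩
  refine ⟨fun i j _ => hok i j, fun i => Submodule.span ℝ (range (f i)),
    fun i => NModelA_rank (ho i), fun i j hij => ?_⟩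
  have hij' : (i : ℕ) < j := hij
  have hj3 := j.2
  have hi : (i : ℕ) < N + 2 := by omega
  by_cases hj : (j : ℕ) < N + 2
  · refine Fr.hasAngles (e := f i) (f := f j) (c := fun r => if (r : ℕ) < k then 1 else 1 / 2)
      ⟨ho i, ho j, hmem i, hmem j, fun r l => ?_⟩ (NModelA_rank (ho i)) (NModelA_rank (ho j))
      (hok i j).1 (hok i j).2 (fun r => ?_)
    · have hne : i.castSucc ≠ j.castSucc := fun h => hij.ne (Fin.castSucc_injective _ h)
      rw [hcore i hi, hcore j hj, he, if_neg hne, if_neg (hu i hi), if_neg (hu j hj).symm]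
      simp
    · unfold alphaN angA
      rw [if_pos hj]
      by_cases hr : (r : ℕ) < k
      · simp [hr]
      · simp only [hr, if_false, cos_pi_div_three]
        norm_num
  · by_cases hi0 : (i : ℕ) = 0
    · refine Fr.hasAngles (e := f i ∘ Fin.rev) (f := f j ∘ Fin.rev)
        (c := fun r => if (r : ℕ) < 4 then 1 / 2 else 0)
        ⟨(ho i).comp _ Fin.rev_injective, (ho j).comp _ Fin.rev_injective, fun r => hmem i _,
          fun r => hmem j _, fun r l => ?_⟩ (NModelA_rank (ho i)) (NModelA_rank (ho j))
        (hok i j).1 (hok i j).2 (fun r => ?_)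
      · have h0 : i.castSucc = 0 := Fin.ext (by simpa using hi0)
        rw [Function.comp_apply, Function.comp_apply, hcore i hi, hlast j hj, he, if_pos h0,
          if_neg (hw i), if_neg hu0, if_neg huw]
        have hr := r.2
        by_cases h : r = l
        · rw [if_pos h, if_pos (congrArg Fin.rev h), Fin.val_rev]
          by_cases h4 : (r : ℕ) < 4
          · rw [if_neg (by omega)]
            simp [h4]
          · rw [if_pos (by omega)]
            simp [h4]
        · rw [if_neg h, if_neg (fun e => h (Fin.rev_injective e))]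
      · unfold alphaN angB
        rw [if_neg hj, if_pos hi0]
        by_cases hr : (r : ℕ) < 4
        · simp only [hr, if_true, cos_pi_div_three]
          norm_num
        · simp [hr]
    · refine Fr.hasAngles (e := f i) (f := f j) (c := fun _ => 0)
        ⟨ho i, ho j, hmem i, hmem j, fun r l => ?_⟩ (NModelA_rank (ho i)) (NModelA_rank (ho j))
        (hok i j).1 (hok i j).2 (fun r => ?_)
      · have h0 : i.castSucc ≠ 0 := fun h => hi0 (by simpa using congrArg Fin.val h)
        rw [hcore i hi, hlast j hj, he, if_neg h0, if_neg (hw i), if_neg hu0, if_neg huw]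
        simp
      · unfold alphaN
        rw [if_neg hj, if_neg hi0]
        simp

end

end Pool.Agent.Lib.MP_b07a76_an
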