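import Pool.Agent.Lib.MP_b07a76_an.NAng

/-! The middle datum is realisable. -/

namespace Pool.Agent.Lib.MP_b07a76_an

noncomputable section
open Module Set Real

variable {V : Type} [NormedAddCommGroup V] [InnerProductSpace ℝ V] [FiniteDimensional ℝ V]

omit [FiniteDimensional ℝ V] in
lemma NModelG_orth {ι : Type} {f : ι → V} {x : V} (h : ∀ a, inner ℝ x (f a) = 0) :
    ∀ w ∈ Submodule.span ℝ (range f), inner ℝ x w = 0 := by
  intro w hw
  induction hw using Submodule.span_induction with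
  | mem w hw => obtain ⟨a, rfl⟩ := hw; exact h a
  | zero => simp
  | add a b _ _ ha hb => rw [inner_add_right, ha, hb, add_zero]
  | smul c a _ ha => rw [inner_smul_right, ha, mul_zero]

omit [FiniteDimensional ℝ V] in
lemma NModelG_orth2 {ι κ : Type} {f : ι → V} {g : κ → V} (h : ∀ a b, inner ℝ (f a) (g b) = 0) :
    ∀ x ∈ Submodule.span ℝ (range f), ∀ w ∈ Submodule.span ℝ (range g), inner ℝ x w = 0 := by
  intro x hx
  refine NModelG_orth fun b => ?_
  rw [real_inner_comm]
  exact NModelG_orth (fun a => by rw [real_inner_comm]; exact h a b) x hx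

omit [FiniteDimensional ℝ V] in
lemma NModelG_on_sum {ι κ : Type} {f : ι → V} {g : κ → V} (hf : Orthonormal ℝ f)
    (hg : Orthonormal ℝ g) (h : ∀ a b, inner ℝ (f a) (g b) = 0) :
    Orthonormal ℝ (Sum.elim f g) := by
  refine ⟨?_, ?_⟩
  · rintro (a | b)
    · exact hf.1 a
    · exact hg.1 b
  · rintro (a | b) (a' | b') hne
    · exact hf.2 fun e => hne (congrArg Sum.inl e)
    · exact h a b'
    · simp only [Sum.elim_inr, Sum.elim_inl]
      rw [real_inner_comm]
      exact h a' b
    · exact hg.2 fun e => hne (congrArg Sum.inr e)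

omit [FiniteDimensional ℝ V] in
lemma NModelG_finrank {ι : Type} [Fintype ι] {f : ι → V} (hf : Orthonormal ℝ f) :
    finrank ℝ (Submodule.span ℝ (range f)) = Fintype.card ι :=
  finrank_span_eq_card hf.linearIndependent

omit [FiniteDimensional ℝ V] in
lemma NModelG_left {ι κ : Type} [Fintype ι] [Fintype κ] {f : ι → V} {g : κ → V}
    (hg : Orthonormal ℝ g) (h : ∀ a b, inner ℝ (f a) (g b) = 0) {w : V}
    (hw : w ∈ Submodule.span ℝ (range (Sum.elim f g))) (h0 : ∀ b, inner ℝ (g b) w = 0) :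
    w ∈ Submodule.span ℝ (range f) := by
  classical
  obtain ⟨c, rfl⟩ := (Submodule.mem_span_range_iff_exists_fun ℝ).mp hw
  rw [Fintype.sum_sum_type] at h0 ⊢
  simp only [Sum.elim_inl, Sum.elim_inr] at h0 ⊢
  have hA : ∑ a, c (Sum.inl a) • f a ∈ Submodule.span ℝ (range f) :=
    Submodule.sum_mem _ fun a _ => Submodule.smul_mem _ _ (Submodule.subset_span ⟨a, rfl⟩)
  have hc : ∀ b, c (Sum.inr b) = 0 := by
    intro b
    have h1 := h0 b
    rw [inner_add_right, NModelG_orth (fun a => by rw [real_inner_comm]; exact h a b) _ hA,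
      zero_add, hg.inner_right_fintype] at h1
    exact h1
  simpa [hc] using hA

/-- The vectors `a i j s` of the sketch. -/
def NModelG_a (g : ℝ) (x y : Fin 4 → V) (s : Fin 4) : V := (√(1 - g ^ 2))⁻¹ • (y s - g • x s)

omit [FiniteDimensional ℝ V] in
lemma NModelG_a_facts {g : ℝ} (hg : g ∈ Icc (0 : ℝ) (1 / 2)) {x y : Fin 4 → V}
    (hxx : ∀ s t, inner ℝ (x s) (x t) = if s = t then (1 : ℝ) else 0)
    (hyy : ∀ s t, inner ℝ (y s) (y t) = if s = t then (1 : ℝ) else 0)
    (hxy : ∀ s t, inner ℝ (x s) (y t) = if s = t then g else 0) :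
    Orthonormal ℝ (NModelG_a g x y) ∧ (∀ s t, inner ℝ (x s) (NModelG_a g x y t) = 0) ∧
      (∀ s t, inner ℝ (NModelG_a g x y s) (y t) = if s = t then √(1 - g ^ 2) else 0) ∧
      (∀ s t, inner ℝ (NModelG_a g x y s) (NModelG_a g y x t) = if s = t then -g else 0) ∧
      ∀ v, (∀ s, inner ℝ (x s) v = 0) → (∀ s, inner ℝ (NModelG_a g x y s) v = 0) →
        ∀ s, inner ℝ (y s) v = 0 := by
  have hpos : 0 < 1 - g ^ 2 := by nlinarith [hg.1, hg.2]
  have hs : 0 < √(1 - g ^ 2) := Real.sqrt_pos.mpr hpos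
  have hss : √(1 - g ^ 2) * √(1 - g ^ 2) = 1 - g ^ 2 := Real.mul_self_sqrt hpos.le
  have hyx : ∀ s t, inner ℝ (y s) (x t) = if s = t then g else 0 := by
    intro s t
    rw [real_inner_comm, hxy]
    simp only [eq_comm]
  generalize hr : √(1 - g ^ 2) = r at hs hss
  refine ⟨?_, ?_, ?_, ?_, ?_⟩
  · rw [orthonormal_iff_ite]
    intro s t
    simp only [NModelG_a, hr, inner_smul_left, inner_smul_right, inner_sub_left, inner_sub_right,
      hxx, hyy, hxy, hyx, conj_trivial]
    split_ifs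
    · field_simp
      nlinarith
    · simp
  · intro s t
    simp only [NModelG_a, inner_smul_right, inner_sub_right, hxx, hxy]
    split_ifs <;> simp
  · intro s t
    simp only [NModelG_a, hr, inner_smul_left, inner_sub_left, hyy, hxy, conj_trivial]
    split_ifs
    · field_simp
      nlinarith
    · simp
  · intro s t
    simp only [NModelG_a, hr, inner_smul_left, inner_smul_right, inner_sub_left, inner_sub_right,
      hxx, hyy, hxy, hyx, conj_trivial]
    split_ifs
    · field_simp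
      linear_combination g * hss
    · simp
  · intro v hx ha s
    have h1 := ha s
    simp only [NModelG_a, hr, inner_smul_left, inner_sub_left, hx, conj_trivial, mul_zero,
      sub_zero] at h1
    exact (mul_eq_zero.mp h1).resolve_left (inv_ne_zero hs.ne')

lemma NModelG_main {k N : ℕ} (hN : 1 ≤ N) {W : Submodule ℝ V} (hW : finrank ℝ W = k + 8)
    {g : ℕ → ℕ → ℝ} {ν : ℕ → Fin 4 → V} {y : Fin k → V} {z : Fin 4 → V} {u : Fin (k + 4) → V}
    (hνW : ∀ i s, ν i s ∈ W)
    (hν : ∀ i j s t, inner ℝ (ν i s) (ν j t) = if s = t then g i j else 0)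
    (hy : Orthonormal ℝ y) (hz : Orthonormal ℝ z) (hu : Orthonormal ℝ u)
    (hWy : ∀ x ∈ W, ∀ r, inner ℝ x (y r) = 0) (hWz : ∀ x ∈ W, ∀ r, inner ℝ x (z r) = 0)
    (hWu : ∀ x ∈ W, ∀ r, inner ℝ x (u r) = 0) (hyz : ∀ r s, inner ℝ (y r) (z s) = 0)
    (hyu : ∀ r s, inner ℝ (y r) (u s) = 0) (hzu : ∀ r s, inner ℝ (z r) (u s) = 0)
    (h1 : ∀ i, i < N → g i i = 1)
    (h2 : ∀ i j, i < N → j < N → i ≠ j → g i j ∈ Icc (0 : ℝ) (1 / 2)) :
    IsAngleDatum V (gammaN k N g) := by
  have hsymm : ∀ i j, g i j = g j i := by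
    intro i j
    have a := hν i j 0 0
    have b := hν j i 0 0
    rw [real_inner_comm] at b
    simp only [if_true] at a b
    rw [← a, ← b]
  have hpi : π / 2 ∈ Icc (0 : ℝ) (π / 2) := ⟨by positivity, le_rfl⟩
  have hνν : ∀ i, i < N → ∀ s t, inner ℝ (ν i s) (ν i t) = if s = t then (1 : ℝ) else 0 := by
    intro i hi s t
    rw [hν, h1 i hi]
  have hνon : ∀ i, i < N → Orthonormal ℝ (ν i) := fun i hi =>
    orthonormal_iff_ite.mpr (hνν i hi)
  have hyν : ∀ r s, inner ℝ (y r) (ν 0 s) = 0 := fun r s => by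
    rw [real_inner_comm]; exact hWy _ (hνW 0 s) r
  have hg0 : ∀ i, i < N → g 0 i ∈ Icc (0 : ℝ) 1 := by
    intro i hi
    rcases Nat.eq_zero_or_pos i with rfl | hp
    · rw [h1 0 hi]; exact ⟨zero_le_one, le_rfl⟩
    · have := h2 0 i hN hi hp.ne
      exact ⟨this.1, this.2.trans (by norm_num)⟩
  let A : ℕ → Submodule ℝ V := fun i => (Submodule.span ℝ (range (ν i)))ᗮ ⊓ W
  let B : Submodule ℝ V := Submodule.span ℝ (range (Sum.elim y (ν 0)))
  let C : Submodule ℝ V := Submodule.span ℝ (range (Sum.elim y z))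
  let D : Submodule ℝ V := Submodule.span ℝ (range u)
  have memA : ∀ i x, x ∈ A i ↔ (∀ s, inner ℝ (ν i s) x = 0) ∧ x ∈ W := by
    intro i x
    refine and_congr_left fun _ => ⟨fun h s => ?_, fun h => ?_⟩
    · exact (Submodule.mem_orthogonal _ _).mp h _ (Submodule.subset_span ⟨s, rfl⟩)
    · refine (Submodule.mem_orthogonal' _ _).mpr ?_
      exact NModelG_orth fun s => by rw [real_inner_comm]; exact h s
  have dA : ∀ i, i < N → finrank ℝ (A i) = k + 4 := by
    intro i hi
    have hle : Submodule.span ℝ (range (ν i)) ≤ W :=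
      Submodule.span_le.mpr (by rintro _ ⟨s, rfl⟩; exact hνW i s)
    have h := Submodule.finrank_add_inf_finrank_orthogonal hle
    rw [NModelG_finrank (hνon i hi), hW, Fintype.card_fin] at h
    change finrank ℝ ((Submodule.span ℝ (range (ν i)))ᗮ ⊓ W : Submodule ℝ V) = k + 4
    omega
  have dB : finrank ℝ B = k + 4 := by
    simpa using NModelG_finrank (NModelG_on_sum hy (hνon 0 hN) hyν)
  have dC : finrank ℝ C = k + 4 := by
    simpa using NModelG_finrank (NModelG_on_sum hy hz hyz)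
  have dD : finrank ℝ D = k + 4 := by simpa using NModelG_finrank hu
  have aA : ∀ i j c, (∀ s t, inner ℝ (ν i s) (NModelG_a c (ν i) (ν j) t) = 0) →
      ∀ s, NModelG_a c (ν i) (ν j) s ∈ A i := fun i j c h s =>
    (memA i _).mpr ⟨fun t => h t s,
      W.smul_mem _ (W.sub_mem (hνW j s) (W.smul_mem _ (hνW i s)))⟩
  have hAA : ∀ i j, i < N → j < N → i ≠ j →
      HasAngles (A i) (A j) (angA k (arccos (g i j))) := by
    intro i j hi hj hij
    have hg := h2 i j hi hj hij
    obtain ⟨f1, f2, -, f4, f5⟩ := NModelG_a_facts hg (hνν i hi) (hνν j hj) (hν i j)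
    obtain ⟨e1, e2, -, -, -⟩ := NModelG_a_facts hg (hνν j hj) (hνν i hi)
      (fun s t => by rw [hν, hsymm j i])
    refine hasAngles_A (dA i hi) (dA j hj) f1 e1 (aA i j _ f2) (aA j i _ e2) f4
      ⟨arccos_nonneg _, arccos_le_pi_div_two.mpr hg.1⟩ ?_ ?_
    · rw [abs_neg, abs_of_nonneg hg.1, cos_arccos (by linarith [hg.1]) (by linarith [hg.2])]
    · intro x hx ha
      obtain ⟨hx1, hx2⟩ := (memA i x).mp hx
      have hj' := f5 x hx1 ha
      refine ⟨(memA j x).mpr ⟨hj', hx2⟩, fun s => ?_⟩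
      simp [NModelG_a, inner_smul_left, inner_sub_left, hx1, hj']
  have hAB : ∀ i, i < N → HasAngles (A i) B (angB k (arcsin (g 0 i))) := by
    intro i hi
    have key : ∀ x ∈ W, (∀ s, inner ℝ (ν 0 s) x = 0) → ∀ w ∈ B, inner ℝ x w = 0 := by
      intro x hx h0
      refine NModelG_orth ?_
      rintro (r | s)
      · exact hWy x hx r
      · simp only [Sum.elim_inr]
        rw [real_inner_comm]
        exact h0 s
    rcases Nat.eq_zero_or_pos i with rfl | hp
    · have he : angB k (arcsin (g 0 0)) = fun _ => π / 2 := by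
        funext r
        simp [angB, h1 0 hi]
      rw [he]
      refine hasAngles_orth (dA 0 hi) dB fun x hx => ?_
      obtain ⟨hx1, hx2⟩ := (memA 0 x).mp hx
      exact key x hx2 hx1
    · have hg := h2 0 i hN hi hp.ne
      obtain ⟨f1, f2, f3, -, f5⟩ := NModelG_a_facts hg (hνν i hi) (hνν 0 hN)
        (fun s t => by rw [hν, hsymm i 0])
      refine hasAngles_B (dA i hi) dB f1 (hνon 0 hN) (aA i 0 _ f2)
        (fun s => Submodule.subset_span ⟨Sum.inr s, rfl⟩) f3
        ⟨arcsin_nonneg.mpr hg.1, arcsin_le_pi_div_two _⟩ ?_ ?_ ?_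
      · rw [cos_arcsin, abs_of_nonneg (Real.sqrt_nonneg _)]
      · intro x hx ha
        obtain ⟨hx1, hx2⟩ := (memA i x).mp hx
        exact key x hx2 (f5 x hx1 ha)
      · intro w hw h0 x hx
        exact NModelG_orth (hWy x ((memA i x).mp hx).2) w
          (NModelG_left (hνon 0 hN) hyν hw h0)
  have hAC : ∀ i, i < N → HasAngles (A i) C (fun _ : Fin (k + 4) => π / 2) := by
    intro i hi
    refine hasAngles_orth (dA i hi) dC fun x hx => NModelG_orth ?_
    rintro (r | s)
    · exact hWy x ((memA i x).mp hx).2 r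
    · exact hWz x ((memA i x).mp hx).2 s
  have hAD : ∀ i, i < N → HasAngles (A i) D (fun _ : Fin (k + 4) => π / 2) := fun i hi =>
    hasAngles_orth (dA i hi) dD fun x hx => NModelG_orth (hWu x ((memA i x).mp hx).2)
  have hBC : HasAngles B C (angA k (π / 2)) := by
    refine hasAngles_A (g := 0) dB dC (hνon 0 hN) hz
      (fun s => Submodule.subset_span ⟨Sum.inr s, rfl⟩)
      (fun s => Submodule.subset_span ⟨Sum.inr s, rfl⟩)
      (fun s t => by rw [hWz _ (hνW 0 s)]; simp) hpi (by simp) ?_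
    intro x hx h0
    have hx' := NModelG_left (hνon 0 hN) hyν hx h0
    refine ⟨Submodule.span_mono ?_ hx', fun s => ?_⟩
    · rintro _ ⟨r, rfl⟩
      exact ⟨Sum.inl r, rfl⟩
    · exact NModelG_orth (fun r => by rw [real_inner_comm]; exact hyz r s) x hx'
  have hBD : HasAngles B D (fun _ : Fin (k + 4) => π / 2) := by
    refine hasAngles_orth dB dD (NModelG_orth2 ?_)
    rintro (r | s) b
    · exact hyu r b
    · exact hWu _ (hνW 0 s) b
  have hCD : HasAngles C D (fun _ : Fin (k + 4) => π / 2) := by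
    refine hasAngles_orth dC dD (NModelG_orth2 ?_)
    rintro (r | s) b
    · exact hyu r b
    · exact hzu s b
  refine ⟨fun i j hij => ?_, fun i => if (i : ℕ) < N then A i else if (i : ℕ) = N then B
    else if (i : ℕ) = N + 1 then C else D, fun i => ?_, fun i j hij => ?_⟩
  · have hij' : (i : ℕ) < j := hij
    unfold gammaN
    split_ifs with c1 c2 c3
    · have hg := h2 i j (by omega) c1 (by omega)
      exact angA_ok ⟨arccos_nonneg _, arccos_le_pi_div_two.mpr hg.1⟩
    · exact angB_ok ⟨arcsin_nonneg.mpr (hg0 i (by omega)).1, arcsin_le_pi_div_two _⟩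
    · exact angA_ok hpi
    · exact ⟨monotone_const, fun _ => hpi⟩
  · have key : ∀ P : Submodule ℝ V, P = (if (i : ℕ) < N then A i else if (i : ℕ) = N then B
        else if (i : ℕ) = N + 1 then C else D) → finrank ℝ P = k + 4 := by
      intro P hP
      split_ifs at hP with c1 c2 c3 <;> subst hP
      exacts [dA i c1, dB, dC, dD]
    exact key _ rfl
  · have hij' : (i : ℕ) < j := hij
    have hj3 : (j : ℕ) < N + 3 := j.2
    unfold gammaN
    dsimp only
    by_cases c1 : (j : ℕ) < N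
    · rw [if_pos c1, if_pos c1, if_pos (by omega : (i : ℕ) < N)]
      exact hAA i j (by omega) c1 (by omega)
    rw [if_neg c1, if_neg c1]
    by_cases c2 : (j : ℕ) = N
    · rw [if_pos c2, if_pos c2, if_pos (by omega : (i : ℕ) < N)]
      exact hAB i (by omega)
    rw [if_neg c2, if_neg c2]
    by_cases c3 : (j : ℕ) = N + 1
    · rw [if_pos c3]
      by_cases d1 : (i : ℕ) < N
      · rw [if_pos d1, if_neg (by omega)]
        exact hAC i d1
      · rw [if_neg d1, if_pos (by omega : (i : ℕ) = N), if_pos ⟨by omega, c3⟩]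
        exact hBC
    · rw [if_neg c3, if_neg (by omega : ¬ ((i : ℕ) = N ∧ (j : ℕ) = N + 1))]
      by_cases d1 : (i : ℕ) < N
      · rw [if_pos d1]
        exact hAD i d1
      · rw [if_neg d1]
        by_cases d2 : (i : ℕ) = N
        · rw [if_pos d2]
          exact hBD
        · rw [if_neg d2, if_pos (by omega : (i : ℕ) = N + 1)]
          exact hCD

/-- Sketch. `exists_on_family ((Fin 4 × Fin q) ⊕ Fin k ⊕ Fin 4 ⊕ Fin (k + 4))` (`4 q + 2 k + 8 = 3 k + 16`). Let `W` be the span of the first block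
(dimension `4 q = k + 8`), `ν i s = ∑ a, v i a • ε (inl (s, a)) ∈ W`, `⟪ν i s, ν j t⟫ = if s = t then ⟪v i, v j⟫ else 0`; let `y r`, `z s`, `u r` be the
other blocks. Planes: `P i = (span (range (ν i)))ᗮ ⊓ W` for `i < N` (`Submodule.finrank_add_inf_finrank_orthogonal`),
`P N = span (range (Fin.append y (ν 0)))`, `P (N+1) = span (range (Fin.append y z))`, `P (N+2) = span (range u)`.
For `i ≠ j` below `N`, `g = ⟪v i, v j⟫`, `a i j s = (√(1 - g ^ 2))⁻¹ • (ν j s - g • ν i s) ∈ P i` is orthonormal, `⟪a i j s, a j i t⟫ = -g δ`, and a vector of `P i`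
orthogonal to all `a i j s` is orthogonal to all `ν j s`: `hasAngles_A`. For `(i, N)`, `1 ≤ i < N`: `hasAngles_B` with `x = a i 0`, `y = ν 0`, cosine `√(1 - g ^ 2) = cos (arcsin g)`
(`cos_arcsin`; a vector of `P N` orthogonal to all `ν 0 s` lies in the span of `y`). For `(0, N)`: `arcsin 1 = π / 2`, `angB k (π/2) = fun _ => π / 2`, `hasAngles_orth`.
For `(N, N+1)`: `hasAngles_A` with `x = ν 0`, `y = z`, `g = 0`. All other pairs are orthogonal. -/
theorem gamma_datum {k N q : ℕ} (hq : k + 8 = 4 * q) (hN : 1 ≤ N)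
    (hV : finrank ℝ V = (k + 4) * (N + 3)) (v : ℕ → EuclideanSpace ℝ (Fin q))
    (h1 : ∀ i, i < N → ‖v i‖ = 1)
    (h2 : ∀ i j, i < N → j < N → i ≠ j → inner ℝ (v i) (v j) ∈ Icc (0 : ℝ) (1 / 2)) :
    IsAngleDatum V (gammaN k N fun i j => inner ℝ (v i) (v j)) := by
  classical
  obtain ⟨ε, hε⟩ := exists_on_family (V := V) ((Fin 4 × Fin q) ⊕ Fin k ⊕ Fin 4 ⊕ Fin (k + 4)) (by
    simp only [Fintype.card_sum, Fintype.card_prod, Fintype.card_fin, hV]
    nlinarith)
  have hw : Orthonormal ℝ fun p : Fin 4 × Fin q => ε (Sum.inl p) :=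
    hε.comp _ Sum.inl_injective
  have hne : ∀ a b, a ≠ b → inner ℝ (ε a) (ε b) = 0 := fun a b h => hε.2 h
  have hWo : ∀ b, ∀ x ∈ Submodule.span ℝ (range fun p : Fin 4 × Fin q => ε (Sum.inl p)),
      inner ℝ x (ε (Sum.inr b)) = 0 := by
    intro b x hx
    rw [real_inner_comm]
    exact NModelG_orth (fun a => hne _ _ (by simp)) x hx
  refine NModelG_main hN (W := Submodule.span ℝ (range fun p : Fin 4 × Fin q => ε (Sum.inl p)))
    (ν := fun i s => ∑ a, v i a • ε (Sum.inl (s, a)))
    (y := fun r => ε (Sum.inr (Sum.inl r))) (z := fun r => ε (Sum.inr (Sum.inr (Sum.inl r))))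
    (u := fun r => ε (Sum.inr (Sum.inr (Sum.inr r)))) ?_ ?_ ?_
    (hε.comp _ fun a b h => by simpa using h) (hε.comp _ fun a b h => by simpa using h)
    (hε.comp _ fun a b h => by simpa using h) (fun x hx r => hWo _ x hx)
    (fun x hx r => hWo _ x hx) (fun x hx r => hWo _ x hx) (fun r s => hne _ _ (by simp))
    (fun r s => hne _ _ (by simp)) (fun r s => hne _ _ (by simp)) ?_ h2
  · rw [NModelG_finrank hw]
    simp [hq]
  · intro i s
    exact Submodule.sum_mem _ fun a _ =>
      Submodule.smul_mem _ _ (Submodule.subset_span ⟨(s, a), rfl⟩)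
  · intro i j s t
    have h := orthonormal_iff_ite.mp hw
    simp only [sum_inner, inner_sum, inner_smul_left, inner_smul_right, h, Prod.mk.injEq,
      conj_trivial]
    split_ifs with hst
    · simp [hst, PiLp.inner_apply]
    · simp [hst]
  · intro i hi
    simp [h1 i hi]

end

end Pool.Agent.Lib.MP_b07a76_an
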