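import Pool.Agent.Lib.MP_b07a76_an.IHom

/-! Continuous images are topological competitors when the ambient space is large. -/

namespace Pool.Agent.Lib.MP_b07a76_an

noncomputable section
open Module Metric Set

variable {V : Type} [NormedAddCommGroup V] [InnerProductSpace ℝ V] [FiniteDimensional ℝ V]

lemma NShear_maps (W : Submodule ℝ V) (hW : 2 * finrank ℝ W ≤ finrank ℝ V) :
    ∃ J J' : V →L[ℝ] V, (∀ x, W.starProjection (J x) = 0) ∧ (∀ w ∈ W, J' w = 0) ∧
      ∀ w ∈ W, J' (J w) = w := by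
  have h1 : finrank ℝ W ≤ finrank ℝ Wᗮ := by
    have := W.finrank_add_finrank_orthogonal
    omega
  obtain ⟨i, hi⟩ := finrank_le_iff_exists_linearMap.1 h1
  obtain ⟨j, hj⟩ := i.exists_leftInverse_of_injective (LinearMap.ker_eq_bot.2 hi)
  refine ⟨Wᗮ.subtypeL ∘L (LinearMap.toContinuousLinearMap i) ∘L W.orthogonalProjectionOnto,
    W.subtypeL ∘L (LinearMap.toContinuousLinearMap j) ∘L Wᗮ.orthogonalProjectionOnto, ?_, ?_, ?_⟩
  · intro x
    exact (Submodule.starProjection_apply_eq_zero_iff W).2 (Subtype.prop _)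
  · intro w hw
    have : Wᗮ.orthogonalProjectionOnto w = 0 :=
      Submodule.orthogonalProjectionOnto_apply_of_mem_orthogonal (W.le_orthogonal_orthogonal hw)
    simp [this]
  · intro w hw
    have h2 : W.orthogonalProjectionOnto w = ⟨w, hw⟩ :=
      Submodule.orthogonalProjectionOnto_mem_subspace_eq_self (⟨w, hw⟩ : W)
    have h3 := LinearMap.congr_fun hj ⟨w, hw⟩
    simp only [LinearMap.comp_apply, LinearMap.id_apply] at h3
    simp [h2, h3]

theorem top_of_small (d : ℕ) {E : Set V} (hE : IsClosed E) (W : Submodule ℝ V)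
    (hW : 2 * finrank ℝ W ≤ finrank ℝ V) (hEW : E ⊆ W) {φ : V → V} (hφ : Continuous φ)
    (hφW : MapsTo φ E W) {R : ℝ} (h : ∀ x ∈ E, R ≤ ‖x‖ → φ x = x) :
    TopCompetitor d E (φ '' E) := by
  obtain ⟨J, J', hJ1, hJ2, hJ3⟩ := NShear_maps W hW
  set p := W.starProjection with hp
  have hpW : ∀ w ∈ W, p w = w := fun w hw => Submodule.starProjection_eq_self_iff.2 hw
  let u : V → V := fun x => p (φ x - x)
  have hu : Continuous u := by fun_prop
  have huW : ∀ x, u x ∈ W := fun x => W.starProjection_apply_mem _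
  have huE : ∀ e ∈ E, e + u e = φ e := fun e he => by
    simp only [u]
    rw [hpW _ (W.sub_mem (hφW he) (hEW he))]
    abel
  have hu0 : ∀ e ∈ E, R ≤ ‖e‖ → u e = 0 := fun e he hR => by simp [u, h e he hR]
  obtain ⟨M, hM0, hM⟩ : ∃ M, 0 < M ∧ ∀ e ∈ E, ‖u e‖ ≤ M := by
    obtain ⟨M, hM0, hM⟩ := ((isCompact_closedBall (0 : V) R).image hu).isBounded.exists_pos_norm_le
    refine ⟨M, hM0, fun e he => ?_⟩
    by_cases hR : R ≤ ‖e‖
    · simp [hu0 e he hR, hM0.le]
    · exact hM _ ⟨e, mem_closedBall_zero_iff.2 (not_le.1 hR).le, rfl⟩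
  have hZ : ∀ e ∈ E, ∀ a : ℝ, 0 ≤ a → a ≤ 1 → e + a • u e ∈ E ∪ closedBall 0 (|R| + M) := by
    intro e he a h0 h1
    by_cases hR : R ≤ ‖e‖
    · left; simpa [hu0 e he hR] using he
    · right
      rw [mem_closedBall_zero_iff]
      have h2 := norm_add_le e (a • u e)
      rw [norm_smul, Real.norm_of_nonneg h0] at h2
      have := hM e he
      have := le_abs_self R
      nlinarith [norm_nonneg (u e)]
  have hout : ∀ y, y ∉ ball (0 : V) (|R| + M + 1) → (y ∈ φ '' E ↔ y ∈ E) := by
    intro y hy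
    rw [mem_ball_zero_iff, not_lt] at hy
    constructor
    · rintro ⟨e, he, rfl⟩
      have := hZ e he 1 zero_le_one le_rfl
      rw [one_smul, huE e he] at this
      exact this.resolve_right fun h => by linarith [mem_closedBall_zero_iff.1 h]
    · exact fun hyE => ⟨y, hyE, h y hyE (by linarith [le_abs_self R])⟩
  have hcl : IsClosed (φ '' E) := by
    have e : φ '' E = φ '' (E ∩ closedBall 0 R) ∪ E \ ball 0 R := by
      apply Subset.antisymm
      · rintro _ ⟨x, hx, rfl⟩
        by_cases hR : R ≤ ‖x‖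
        · rw [h x hx hR]
          exact Or.inr ⟨hx, fun h => by linarith [mem_ball_zero_iff.1 h]⟩
        · exact Or.inl ⟨x, ⟨hx, mem_closedBall_zero_iff.2 (not_le.1 hR).le⟩, rfl⟩
      · rintro y (⟨x, hx, rfl⟩ | hy)
        · exact ⟨x, hx.1, rfl⟩
        · exact ⟨y, hy.1, h y hy.1 (not_lt.1 fun h => hy.2 (mem_ball_zero_iff.2 h))⟩
    rw [e]
    exact (((isCompact_closedBall _ _).inter_left hE).image hφ).isClosed.union
      (hE.sdiff isOpen_ball)
  refine ⟨hcl, 0, |R| + M + 1, by positivity, ?_, fun S hSr hSb hSE => ?_⟩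
  · ext y
    simp only [Set.mem_sdiff]
    exact ⟨fun h => ⟨(hout y h.2).1 h.1, h.2⟩, fun h => ⟨(hout y h.2).2 h.1, h.2⟩⟩
  have hSc : IsCompact S := by
    obtain ⟨c, r, N, -, -, rfl⟩ := hSr
    refine (isCompact_closedBall c r).of_isClosed_subset ?_ fun x hx => ?_
    · exact (N.closed_of_finiteDimensional.preimage (by fun_prop)).inter
        (isClosed_eq (by fun_prop) continuous_const)
    · rw [mem_closedBall, dist_eq_norm]; exact hx.2.le
  have hSF : S ⊆ (φ '' E)ᶜ := fun x hx h =>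
    hSb hx (Or.inr ((hout x fun h => hSb hx (Or.inl h)).1 h))
  rw [nonzeroIn_iff_NZ] at hSE ⊢
  refine NZ.of_compact continuous_subtype_val (fun x => hSF x.2) hSE fun K hK hKX => ?_
  obtain ⟨ε₁, hε₁, h1⟩ := (hSc.union hK).exists_cthickening_subset_open hcl.isOpen_compl
    (union_subset hSF hKX)
  obtain ⟨ε₂, hε₂, h2⟩ := hSc.exists_cthickening_subset_open
    (t := (E ∪ closedBall 0 (|R| + M))ᶜ) (hE.union isClosed_closedBall).isOpen_compl (by
      rintro x hx (h | h)
      · exact hSb hx (Or.inr h)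
      · exact hSb hx (Or.inl (closedBall_subset_ball (by linarith) h)))
  obtain ⟨B, hB0, hB⟩ := (hSc.union hK).isBounded.exists_pos_norm_le
  obtain ⟨η, hη0, hη1, hη2⟩ : ∃ η : ℝ, 0 < η ∧ η * ‖J‖ ≤ 1 / 2 ∧
      η * ‖J‖ * (2 * (B + M)) ≤ min ε₁ ε₂ := by
    have hc : Continuous fun η : ℝ => η * ‖J‖ := by fun_prop
    have hc' : Continuous fun η : ℝ => η * ‖J‖ * (2 * (B + M)) := by fun_prop
    have e1 := (hc.continuousAt (x := 0)).eventually_lt (continuousAt_const (y := (1 / 2 : ℝ)))
      (by simp)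
    have e2 := (hc'.continuousAt (x := 0)).eventually_lt (continuousAt_const (y := min ε₁ ε₂))
      (by simp [hε₁, hε₂])
    obtain ⟨η, ⟨h3, h4⟩, h5⟩ := (((e1.and e2).filter_mono (nhdsWithin_le_nhds (s := Ioi 0))).and
      self_mem_nhdsWithin).exists
    exact ⟨η, h5, h3.le, h4.le⟩
  let G : ℝ → ℝ → V → V := fun a b x =>
    (x - a • u (η⁻¹ • J' x)) - (b * η) • J (p (x - a • u (η⁻¹ • J' x)))
  have key : ∀ a b x, (a = 0 ∨ b = 1) → 0 ≤ a → a ≤ 1 → 0 ≤ b → b ≤ 1 → ‖x‖ ≤ B → G a b x ∈ E →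
      ∃ e ∈ E, dist (e + a • u e) x ≤ min ε₁ ε₂ := by
    intro a b x hab a0 a1 b0 b1 hx hG
    set e := G a b x with he
    have e1 : p (x - a • u (η⁻¹ • J' x)) = e := by
      rw [← hpW e (hEW hG), he]
      simp only [G]
      rw [map_sub p _ ((b * η) • _), map_smul p (b * η), hJ1, smul_zero, sub_zero]
    have e2 : x = e + (b * η) • J e + a • u (η⁻¹ • J' x) := by
      have : e = (x - a • u (η⁻¹ • J' x)) - (b * η) • J e := by
        conv_lhs => rw [he]
        simp only [G]
        rw [e1]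
      linear_combination (norm := module) -this
    have e3 : x = e + (b * η) • J e + a • u e := by
      rcases hab with rfl | rfl
      · simpa using e2
      · have : η⁻¹ • J' x = e := by
          conv_lhs => rw [e2]
          rw [map_add, map_add, map_smul, map_smul, hJ2 e (hEW hG), hJ3 e (hEW hG),
            hJ2 _ (huW _), smul_zero, zero_add, add_zero, smul_smul, one_mul,
            inv_mul_cancel₀ hη0.ne', one_smul]
        rwa [this] at e2
    have n1 : ‖(b * η) • J e‖ ≤ η * ‖J‖ * ‖e‖ := by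
      rw [norm_smul, Real.norm_of_nonneg (by positivity), mul_assoc η]
      exact mul_le_mul (mul_le_of_le_one_left hη0.le b1) (J.le_opNorm e) (norm_nonneg _) hη0.le
    have n2 : ‖a • u e‖ ≤ M := by
      rw [norm_smul, Real.norm_of_nonneg a0]
      exact (mul_le_of_le_one_left (norm_nonneg _) a1).trans (hM e hG)
    have n3 : ‖e‖ ≤ 2 * (B + M) := by
      have e4 : e = x - (b * η) • J e - a • u e := by linear_combination (norm := module) -e3
      have h3 := norm_sub_le (x - (b * η) • J e) (a • u e)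
      have h4 := norm_sub_le x ((b * η) • J e)
      rw [← e4] at h3
      nlinarith [norm_nonneg e]
    refine ⟨e, hG, ?_⟩
    have e5 : x - (e + a • u e) = (b * η) • J e := by linear_combination (norm := module) e3
    rw [dist_comm, dist_eq_norm, e5]
    exact n1.trans ((mul_le_mul_of_nonneg_left n3 (by positivity)).trans hη2)
  refine ⟨G 1 1, fun z => G (max 0 (2 * z.1 - 1)) (min 1 (2 * z.1)) z.2, ?_, ?_, ?_, ?_, ?_, ?_⟩
  · refine Continuous.continuousOn ?_
    simp only [G]
    fun_prop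
  · intro x hx hG
    rw [Subtype.range_coe] at hx
    obtain ⟨e, he, h3⟩ := key 1 1 x (Or.inr rfl) zero_le_one le_rfl zero_le_one le_rfl (hB x hx) hG
    rw [one_smul, huE e he] at h3
    exact h1 (mem_cthickening_of_dist_le _ x ε₁ _ hx (h3.trans (min_le_left _ _))) ⟨e, he, rfl⟩
  · simp only [G]
    fun_prop
  · rintro ⟨t, x⟩ hG
    have t0 := t.2.1
    have t1 := t.2.2
    have a1 : max 0 (2 * (t : ℝ) - 1) ≤ 1 := max_le zero_le_one (by linarith)
    obtain ⟨e, he, h3⟩ := key _ _ x (by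
      rcases le_total (2 * (t : ℝ)) 1 with h | h
      · exact Or.inl (max_eq_left (by linarith))
      · exact Or.inr (min_eq_left h)) (le_max_left _ _) a1 (le_min zero_le_one (by linarith))
      (min_le_left _ _) (hB x (Or.inl x.2)) hG
    exact h2 (mem_cthickening_of_dist_le _ (x : V) ε₂ S x.2 (h3.trans (min_le_right _ _)))
      (hZ e he _ (le_max_left _ _) a1)
  · intro x
    simp [G]
  · intro x
    norm_num [G]

end

end Pool.Agent.Lib.MP_b07a76_an
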