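import Pool.Agent.Lib.MP_b07a76_an.NDefs

/-! Minimality from disjoint wedges, for both classes of competitors. -/

namespace Pool.Agent.Lib.MP_b07a76_an

noncomputable section
open MeasureTheory Module Set Real Metric

variable {V : Type} [NormedAddCommGroup V] [InnerProductSpace ℝ V] [FiniteDimensional ℝ V] {d : ℕ}

/-- The analogue of `fibre` (TopMain) for Almgren competitors. Sketch. Put
`u z = cos (π / 2 * min 1 √(‖yc b z‖ ^ 2 * (Dd b τ z)⁻¹))` and `Π z = toLp 2 fun j => u' z j * ⟪b j, z⟫` with `u' z j = u z ^ e j` if `0 < Dd b τ z`,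
and `u' z j = if e j = 0 then 1 else 0` otherwise; `0 ≤ u' ≤ 1`. `Π` is continuous: for `e j = 0` the coordinate is `⟪b j, z⟫`;
for `0 < e j` (so `τ j ≠ 0`) it is continuous on the open set `0 < Dd`, and at a point with `Dd = 0` one has `⟪b j, z⟫ = 0` and
`|Π z j| ≤ |⟪b j, z⟫|` (squeeze). On `P`, `yc = 0` and `Π z = xc b z`. So `g = Π ∘ f ∘ emb b` is the identity far out and onto by
`surj_of_eq_id` (Sphere.lean). Take `z = f (emb b x)` with `Π z = xc b p`. The coordinate `j0` is nonzero, so `0 < Dd` and `u z ≠ 0`, hence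
`‖yc b z‖ ^ 2 < Dd`; if `yc b z = 0` then `z = emb b (xc b z) = emb b (Π z) = p ∈ F`. -/
lemma fibre_alm {P : Submodule ℝ V} (hP : finrank ℝ P = d) (hd : 2 ≤ d) {b : Fin d → V}
    (hb : Orthonormal ℝ b) (hbP : ∀ r, b r ∈ P) (τ e : Fin d → ℝ) (he0 : ∀ j, 0 ≤ e j)
    (heτ : ∀ j, 0 < e j → τ j ≠ 0) (j0 : Fin d) (he : 0 < e j0) {E F : Set V}
    (hPE : (P : Set V) ⊆ E) (hF : AlmgrenCompetitor E F) {p : V} (hp : p ∈ P) (hpF : p ∉ F)
    (hp0 : inner ℝ (b j0) p ≠ 0) : ∃ z ∈ F ∩ Wd b τ, proj b τ e z = xc b p := by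
  obtain ⟨f, K, c, r, hf, hout, -, rfl⟩ := hF
  let u : V → ℝ := fun z => cos (π / 2 * min 1 √(‖yc b z‖ ^ 2 * (Dd b τ z)⁻¹))
  have hu : ∀ z, 0 ≤ u z := fun z => by
    have h1 : 0 ≤ min 1 √(‖yc b z‖ ^ 2 * (Dd b τ z)⁻¹) := le_min zero_le_one (sqrt_nonneg _)
    have h2 := min_le_left 1 √(‖yc b z‖ ^ 2 * (Dd b τ z)⁻¹)
    exact cos_nonneg_of_mem_Icc ⟨by nlinarith [pi_pos], by nlinarith [pi_pos]⟩
  have hD : ∀ z j, 0 < e j → inner ℝ (b j) z ≠ 0 → 0 < Dd b τ z := fun z j h1 h2 =>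
    Finset.sum_pos' (fun j _ => by positivity) ⟨j, Finset.mem_univ _, by
      have := heτ j h1
      positivity⟩
  let Q : V → EuclideanSpace ℝ (Fin d) := fun z =>
    WithLp.toLp 2 fun j => u z ^ e j * inner ℝ (b j) z
  have hQ : Continuous Q := by
    refine (PiLp.continuous_toLp 2 _).comp (continuous_pi fun j => ?_)
    have h0 : Continuous fun z : V => inner ℝ (b j) z := by fun_prop
    rcases (he0 j).eq_or_lt with h | h
    · simpa [← h] using h0
    refine continuous_iff_continuousAt.2 fun z => ?_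
    by_cases h1 : inner ℝ (b j) z = 0
    · rw [ContinuousAt, h1, mul_zero]
      refine squeeze_zero_norm (a := fun w => ‖inner ℝ (b j) w‖) (fun w => ?_) ?_
      · rw [norm_mul, Real.norm_of_nonneg (rpow_nonneg (hu w) _)]
        exact mul_le_of_le_one_left (norm_nonneg _) (rpow_le_one (hu w) (cos_le_one _) h.le)
      · simpa [h1] using h0.norm.tendsto z
    · have h2 : ContinuousAt (Dd b τ) z := by
        unfold Dd
        fun_prop
      have h3 := (hD z j h h1).ne'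
      have h4 : ContinuousAt u z := by fun_prop (disch := assumption)
      exact (h4.rpow_const (Or.inr h.le)).mul h0.continuousAt
  have hQ0 : ∀ z, yc b z = 0 → Q z = xc b z := by
    intro z hz
    ext j
    simp [Q, u, hz]
  have hemb : ∀ x, emb b x ∈ P := fun x => P.sum_mem fun j _ => P.smul_mem _ (hbP j)
  obtain ⟨x, hx⟩ := surj_of_eq_id (by simpa using hd) (fun x => Q (f (emb b x)))
    (hQ.comp (hf.continuous.comp (isometry_emb hb).continuous)) (‖c‖ + |r| + 1) (fun x hx => by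
      have h1 : ‖emb b x‖ = ‖x‖ := by
        simpa [emb] using (isometry_emb hb).dist_eq x 0
      rw [hout _ fun h => ?_, hQ0 _ (yc_eq_zero hP hb hbP (hemb x))]
      · ext j
        exact hb.inner_right_fintype _ _
      · have := norm_le_norm_add_norm_sub' (emb b x) c
        rw [mem_closedBall, dist_eq_norm] at h
        linarith [le_abs_self r]) (xc b p)
  set z := f (emb b x)
  replace hx : Q z = xc b p := hx
  have hz : z ∈ f '' E := ⟨_, hPE (hemb x), rfl⟩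
  have h1 : u z ^ e j0 * inner ℝ (b j0) z = inner ℝ (b j0) p := congrArg (· j0) hx
  rw [← h1, mul_ne_zero_iff] at hp0
  have h2 := hD z j0 he hp0.2
  have h3 : √(‖yc b z‖ ^ 2 * (Dd b τ z)⁻¹) < 1 := by
    by_contra h
    apply hp0.1
    simp only [u, min_eq_left (not_lt.1 h), mul_one, cos_pi_div_two, zero_rpow he.ne']
  refine ⟨z, ⟨hz, ?_, ?_⟩, ?_⟩
  · refine pow_pos (norm_pos_iff.2 fun h => hpF ?_) 2
    have h4 : z = emb b (xc b z) := sub_eq_zero.1 ((yc_apply b z).symm.trans h)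
    rwa [← emb_xc hP hb hbP hp, ← hx, hQ0 z h, ← h4]
  · rwa [sqrt_lt' one_pos, one_pow, mul_inv_lt_iff₀ h2, one_mul] at h3
  · rw [← hx]
    simp only [proj, uu, Q, u, min_eq_right h3.le]

variable [MeasurableSpace V] [BorelSpace V]

lemma NWedge_aux {m : ℕ} {P : Fin m → Submodule ℝ V} (hP : ∀ i, finrank ℝ (P i) = d)
    (b : Fin m → Fin d → V) (hb : ∀ i, Orthonormal ℝ (b i) ∧ ∀ r, b i r ∈ P i) (τ e : Fin d → ℝ)
    (he0 : ∀ j, 0 ≤ e j) (he1 : ∀ j, e j ≤ 1 / 2)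
    (he : ∀ j, π ^ 2 / 4 * e j ^ 2 + 2 * τ j ^ 2 * e j ≤ τ j ^ 2) (hsum : ∑ j, e j = 1) (j0 : Fin d)
    (hEW : ∀ i, ∀ z ∈ Wd (b i) τ, z ∉ ⋃ i, (P i : Set V))
    (hdisj : Pairwise (Function.onFun Disjoint fun i => Wd (b i) τ)) {F : Set V}
    (hF : ∀ i, ∀ p ∈ P i, p ∉ F → inner ℝ (b i j0) p ≠ 0 →
      ∃ z ∈ F ∩ Wd (b i) τ, proj (b i) τ e z = xc (b i) p) :
    μH[d] ((⋃ i, (P i : Set V)) \ F) ≤ μH[d] (F \ ⋃ i, (P i : Set V)) := by
  set E := ⋃ i, (P i : Set V) with hE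
  have hcov : E \ F ⊆ ⋃ i, emb (b i) '' ({x | x j0 = 0} ∪
      proj (b i) τ e '' ((F \ E) ∩ Wd (b i) τ)) := by
    rintro p ⟨h1, h2⟩
    obtain ⟨i, hi⟩ := mem_iUnion.1 h1
    refine mem_iUnion.2 ⟨i, xc (b i) p, ?_, emb_xc (hP i) (hb i).1 (hb i).2 hi⟩
    by_cases h0 : inner ℝ (b i j0) p = 0
    · exact Or.inl h0
    · obtain ⟨z, hz, hz'⟩ := hF i p hi h2 h0
      exact Or.inr ⟨z, ⟨⟨hz.1, hEW i z hz.2⟩, hz.2⟩, hz'⟩
  calc μH[d] (E \ F) ≤ ∑' i, μH[d] (emb (b i) '' ({x | x j0 = 0} ∪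
        proj (b i) τ e '' ((F \ E) ∩ Wd (b i) τ))) :=
        (measure_mono hcov).trans (measure_iUnion_le _)
    _ ≤ ∑' i, μH[d] ((F \ E) ∩ Wd (b i) τ) := by
        refine ENNReal.tsum_le_tsum fun i => ?_
        rw [(isometry_emb (hb i).1).hausdorffMeasure_image (Or.inl (by positivity))]
        refine (measure_union_le _ _).trans ?_
        rw [null_coord, zero_add]
        exact proj_image_le (hb i).1 τ e he0 he1 he hsum _ inter_subset_right
    _ ≤ μH[d] (F \ E) := tsum_inter_le _ _ _ (fun i => (isOpen_Wd _ _).measurableSet) hdisj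

/-- Sketch: the last part of the proof of `top_minimal` (TopMain, from `set E` on; copy it into one lemma whose hypothesis is the
conclusion of `fibre` / `fibre_alm`), with `τ r = if r < k then 0 else (√3)⁻¹`, `e r = if r < k then 0 else 1 / 4`
(`π ^ 2 ≤ 32 / 3`, `Fin.sum_univ_add`), `j0 = Fin.natAdd k 0`. By `norm_split`,
`qq b z - ‖z‖ ^ 2 = Dd b τ z - ‖yc b z‖ ^ 2`, so `hq` gives the disjointness of the wedges. -/
theorem wedge_minimal {k m : ℕ} {P : Fin m → Submodule ℝ V} (hP : ∀ i, finrank ℝ (P i) = k + 4)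
    (hV : k + 6 ≤ finrank ℝ V) (b : Fin m → Fin (k + 4) → V)
    (hb : ∀ i, Orthonormal ℝ (b i) ∧ ∀ r, b i r ∈ P i)
    (hq : ∀ i j, i ≠ j → ∀ z, qq (b i) z + qq (b j) z ≤ 2 * ‖z‖ ^ 2) :
    IsMinimal (k + 4) (TopCompetitor (k + 4)) (⋃ i, (P i : Set V)) ∧
      IsMinimal (k + 4) AlmgrenCompetitor (⋃ i, (P i : Set V)) := by
  let τ : Fin (k + 4) → ℝ := fun r => if (r : ℕ) < k then 0 else (√3)⁻¹
  let e : Fin (k + 4) → ℝ := fun r => if (r : ℕ) < k then 0 else 1 / 4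
  have h3 : (√3)⁻¹ ^ 2 = (1 / 3 : ℝ) := by rw [inv_pow, sq_sqrt (by norm_num), one_div]
  have he0 : ∀ j, 0 ≤ e j := fun j => by simp only [e]; split_ifs <;> norm_num
  have he1 : ∀ j, e j ≤ 1 / 2 := fun j => by simp only [e]; split_ifs <;> norm_num
  have he : ∀ j, π ^ 2 / 4 * e j ^ 2 + 2 * τ j ^ 2 * e j ≤ τ j ^ 2 := fun j => by
    simp only [e, τ]
    split_ifs
    · norm_num
    · rw [h3]
      nlinarith [pi_lt_d2, pi_pos]
  have hsum : ∑ j, e j = 1 := by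
    simp [e, Fin.sum_univ_add]
  have heτ : ∀ j, 0 < e j → τ j ≠ 0 := fun j => by
    simp only [e, τ]
    split_ifs <;> simp
  have hj0 : 0 < e (Fin.natAdd k 0) := by simp [e]
  have hq' : ∀ i j, i ≠ j → ∀ z, Dd (b i) τ z - ‖yc (b i) z‖ ^ 2 +
      (Dd (b j) τ z - ‖yc (b j) z‖ ^ 2) ≤ 0 := by
    have h1 : ∀ i z, qq (b i) z = ∑ r, inner ℝ (b i r) z ^ 2 + Dd (b i) τ z := by
      intro i z
      rw [qq, Dd, ← Finset.sum_add_distrib]
      refine Finset.sum_congr rfl fun r _ => ?_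
      simp only [τ]
      split_ifs
      · ring
      · rw [h3]
        ring
    intro i j hij z
    linarith [hq i j hij z, h1 i z, h1 j z, norm_split (hb i).1 z, norm_split (hb j).1 z]
  have hEW : ∀ i, ∀ z ∈ Wd (b i) τ, z ∉ ⋃ i, (P i : Set V) := by
    intro i z hz hzE
    obtain ⟨j, hj⟩ := mem_iUnion.1 hzE
    have h0 := yc_eq_zero (hP j) (hb j).1 (hb j).2 hj
    by_cases hij : i = j
    · subst hij
      simpa [h0] using hz.1
    · have h1 := hq' i j hij z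
      have h2 : 0 ≤ Dd (b j) τ z := Finset.sum_nonneg fun r _ => by positivity
      rw [h0, norm_zero] at h1
      linarith [hz.2]
  have hdisj : Pairwise (Function.onFun Disjoint fun i => Wd (b i) τ) := fun i j hij =>
    Set.disjoint_left.2 fun z h1 h2 => by linarith [hq' i j hij z, h1.2, h2.2]
  obtain ⟨c1, c2⟩ := union_closed_finite hP
  have hPE := subset_iUnion fun i => (P i : Set V)
  exact ⟨⟨c1, c2, fun F hF => NWedge_aux hP b hb τ e he0 he1 he hsum _ hEW hdisj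
      fun i p h1 h2 h3 => fibre (hP i) (hb i).1 (hb i).2 τ e _ hj0 (heτ _ hj0) hV (hPE i) (hEW i)
        hF h1 h2 h3⟩,
    c1, c2, fun F hF => NWedge_aux hP b hb τ e he0 he1 he hsum _ hEW hdisj
      fun i p h1 h2 h3 => fibre_alm (hP i) (by omega) (hb i).1 (hb i).2 τ e he0 heτ _ hj0 (hPE i)
        hF h1 h2 h3⟩

end

end Pool.Agent.Lib.MP_b07a76_an
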