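import Pool.Agent.Lib.MP_b07a76_an.NCore
import Pool.Agent.Lib.MP_b07a76_an.NShear
import Pool.Agent.Lib.MP_b07a76_an.NForce
import Pool.Agent.Lib.MP_b07a76_an.NWedge
import Pool.Agent.Lib.MP_b07a76_an.NAlpha
import Pool.Agent.Lib.MP_b07a76_an.NModelA
import Pool.Agent.Lib.MP_b07a76_an.NModelG
import Pool.Agent.Lib.MP_b07a76_an.NCode
import Pool.Agent.Lib.MP_b07a76_an.IExt

/-! Interpolation of minimal angles fails. -/

namespace Pool.Agent.Lib.MP_b07a76_an

noncomputable section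
open MeasureTheory Module Set Real Metric
open scoped NNReal ENNReal

lemma NMain_cmp {X : Type} [MeasurableSpace X] (μ : Measure X) {E A : Set X} (hE : MeasurableSet E)
    (hA : A ⊆ E) {G : X → X} (h : ∀ x ∈ E, x ∉ A → G x = x) (hlt : μ (G '' A) < μ A) :
    ¬ μ (E \ G '' E) ≤ μ (G '' E \ E) := by
  intro hle
  have h1 : A ⊆ E \ G '' E ∪ G '' A ∩ E := by
    intro x hx
    by_cases hF : x ∈ G '' E
    · obtain ⟨y, hy, rfl⟩ := hF
      by_cases hyA : y ∈ A
      · exact Or.inr ⟨⟨y, hyA, rfl⟩, hA hx⟩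
      · exact absurd (h y hy hyA ▸ hx) hyA
    · exact Or.inl ⟨hA hx, hF⟩
  have h2 : G '' E \ E ⊆ G '' A \ E := by
    rintro _ ⟨⟨y, hy, rfl⟩, h3⟩
    refine ⟨⟨y, ?_, rfl⟩, h3⟩
    by_contra hyA
    exact h3 ((h y hy hyA).symm ▸ hy)
  refine hlt.not_ge ((measure_mono h1).trans ((measure_union_le _ _).trans ?_))
  rw [← measure_inter_add_sdiff (G '' A) hE, add_comm]
  exact add_le_add le_rfl (hle.trans (measure_mono h2))

variable {V : Type} [NormedAddCommGroup V] [InnerProductSpace ℝ V] [FiniteDimensional ℝ V]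
  [MeasurableSpace V] [BorelSpace V]

theorem gamma_competitor {k N : ℕ} (hk : 1 ≤ k) (hN : 10 ^ 15 * (k + 4 + 4) ^ 28 ≤ N)
    (hV : finrank ℝ V = (k + 4) * (N + 3)) {g : ℕ → ℕ → ℝ} (h0 : g 0 0 = 1)
    (hg : ∀ i j, i < N → j < N → i ≠ j → g i j ∈ Icc (0 : ℝ) (1 / 2))
    {P : Fin (N + 3) → Submodule ℝ V} (hP : Realises P (gammaN k N g)) :
    ∃ F, TopCompetitor (k + 4) (⋃ i, (P i : Set V)) F ∧ AlmgrenCompetitor (⋃ i, (P i : Set V)) F ∧
      ¬ μH[(k + 4 : ℕ)] ((⋃ i, (P i : Set V)) \ F) ≤ μH[(k + 4 : ℕ)] (F \ ⋃ i, (P i : Set V)) := by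
  have hN7 : 7 ≤ N := by
    have : 1 ≤ (k + 4 + 4) ^ 28 := Nat.one_le_pow _ _ (by omega)
    omega
  obtain ⟨b, hb, h1, h2, h3⟩ := gamma_frame (by omega) h0 hg hP
  let Φ : Ed (k + 4 + 4) →ₗ[ℝ] V :=
    { toFun := emb b
      map_add' := fun x y => by simp [emb, add_smul, Finset.sum_add_distrib]
      map_smul' := fun c x => by simp [emb, Finset.smul_sum, smul_smul] }
  have hΦ : Isometry Φ := isometry_emb hb
  have hxΦ : ∀ x, xc b (Φ x) = x := fun x => by
    ext j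
    exact hb.inner_right_fintype _ _
  let ι : Fin N → Fin (N + 3) := Fin.castAdd 3
  let Q : Fin N → Submodule ℝ (Ed (k + 4 + 4)) := fun i => (P (ι i)).comap Φ
  have hQ : ∀ i, (Q i).map Φ = P (ι i) := fun i =>
    Submodule.map_comap_eq_of_le fun z hz => ⟨xc b z, h1 (ι i) i.2 z hz⟩
  have hQd : ∀ i, finrank ℝ (Q i) = k + 4 := fun i => by
    have := ((Q i).equivMapOfInjective Φ hΦ.injective).finrank_eq
    rwa [hQ, hP.1] at this
  have hinj : Function.Injective Q := fun i j hij => by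
    by_contra hne
    refine h3 (ι i) (ι j) i.2 j.2 (fun h => hne (Fin.castAdd_injective _ _ h)) ?_
    rw [← hQ, ← hQ, hij]
  let Y : Submodule ℝ (Ed (k + 4 + 4)) :=
    ⨅ r : Fin (k + 4), LinearMap.ker (EuclideanSpace.projₗ (𝕜 := ℝ) (Fin.castAdd 4 r))
  have hYm : ∀ y, y ∈ Y ↔ ∀ r : Fin (k + 4), y (Fin.castAdd 4 r) = 0 := fun y => by simp [Y]
  obtain ⟨ψ, K, R, k1, k2, k3, k4⟩ := ff_core (by omega) hN hQd hinj Y fun i => by
    classical
    obtain ⟨v, v1, v2, v3⟩ := exists_unit_orth (Q i) (Finset.univ.image fun s : Fin 4 =>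
      EuclideanSpace.single (Fin.natAdd (k + 4) s) (1 : ℝ))
      (Finset.card_image_le.trans_lt (by rw [hQd]; simp; omega))
    refine ⟨v, v1, v2, fun y hy => ?_⟩
    have v4 : ∀ s : Fin 4, v (Fin.natAdd (k + 4) s) = 0 := fun s => by
      simpa [EuclideanSpace.inner_single_left] using
        v3 _ (Finset.mem_image_of_mem _ (Finset.mem_univ s))
    rw [PiLp.inner_apply, Fin.sum_univ_add]
    simp [(hYm y).1 hy, v4]
  set E := ⋃ i, (P i : Set V) with hE
  set A₀ := (⋃ i, (Q i : Set (Ed (k + 4 + 4)))) ∩ closedBall 0 R with hA₀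
  let G : V → V := fun x => x + Φ (ψ (xc b x) - xc b x)
  obtain ⟨K', hG⟩ : ∃ K', LipschitzWith K' G :=
    ⟨_, LipschitzWith.id.add (hΦ.lipschitz.comp
      ((k1.comp (xc b).lipschitz).sub (xc b).lipschitz))⟩
  have hEc : IsClosed E := (union_closed_finite hP.1).1
  have hAE : Φ '' A₀ ⊆ E := by
    rintro _ ⟨x, ⟨hx, -⟩, rfl⟩
    obtain ⟨i, hi⟩ := mem_iUnion.1 hx
    exact mem_iUnion.2 ⟨ι i, hi⟩
  have hfix : ∀ x ∈ E, x ∉ Φ '' A₀ → G x = x := by
    intro x hx hxA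
    obtain ⟨i, hi⟩ := mem_iUnion.1 hx
    have : ψ (xc b x) = xc b x := by
      rcases lt_or_ge (i : ℕ) N with h | h
      · have e : Φ (xc b x) = x := h1 i h x hi
        refine k2 _ (not_lt.1 fun hR => hxA ⟨xc b x, ⟨mem_iUnion.2 ⟨⟨i, h⟩, ?_⟩,
          mem_closedBall_zero_iff.2 hR.le⟩, e⟩)
        change Φ (xc b x) ∈ P i
        rwa [e]
      · exact k3 _ ((hYm _).2 fun r => h2 i h x hi r)
    simp [G, this]
  have hfar : ∀ x ∈ E, R + 1 ≤ ‖x‖ → G x = x := by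
    refine fun x hx hR => hfix x hx ?_
    rintro ⟨y, ⟨-, hy⟩, rfl⟩
    have := hΦ.norm_map_of_map_zero (map_zero Φ) y
    linarith [mem_closedBall_zero_iff.1 hy]
  refine ⟨G '' E, ?_, almgren_of_lipschitzOn hG.lipschitzOnWith hfar,
    NMain_cmp _ hEc.measurableSet hAE hfix ?_⟩
  · let W : Submodule ℝ V := ((LinearMap.range Φ ⊔ P (Fin.natAdd N 0)) ⊔ P (Fin.natAdd N 1))
      ⊔ P (Fin.natAdd N 2)
    have hR : LinearMap.range Φ ≤ W := le_sup_of_le_left (le_sup_of_le_left le_sup_left)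
    have hEW : E ⊆ W := by
      intro x hx
      obtain ⟨i, hi⟩ := mem_iUnion.1 hx
      induction i using Fin.addCases with
      | left i => exact hR ⟨xc b x, h1 _ i.2 x hi⟩
      | right i =>
        fin_cases i
        · exact (le_sup_of_le_left (le_sup_of_le_left le_sup_right) : _ ≤ W) hi
        · exact (le_sup_of_le_left le_sup_right : _ ≤ W) hi
        · exact (le_sup_right : _ ≤ W) hi
    refine top_of_small _ hEc W ?_ hEW hG.continuous
      (fun x hx => W.add_mem (hEW hx) (hR ⟨_, rfl⟩)) hfar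
    have d0 : finrank ℝ (LinearMap.range Φ) ≤ k + 4 + 4 := Φ.finrank_range_le.trans (by simp)
    have d1 := Submodule.finrank_add_le_finrank_add_finrank (LinearMap.range Φ) (P (Fin.natAdd N 0))
    have d2 := Submodule.finrank_add_le_finrank_add_finrank
      (LinearMap.range Φ ⊔ P (Fin.natAdd N 0)) (P (Fin.natAdd N 1))
    have d3 := Submodule.finrank_add_le_finrank_add_finrank
      ((LinearMap.range Φ ⊔ P (Fin.natAdd N 0)) ⊔ P (Fin.natAdd N 1)) (P (Fin.natAdd N 2))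
    rw [hP.1] at d1 d2 d3
    have d4 : (k + 4) * 10 ≤ (k + 4) * (N + 3) := Nat.mul_le_mul_left _ (by omega)
    rw [hV]
    change 2 * finrank ℝ ↥(((LinearMap.range Φ ⊔ P (Fin.natAdd N 0)) ⊔ P (Fin.natAdd N 1))
      ⊔ P (Fin.natAdd N 2)) ≤ _
    omega
  · have e : G '' (Φ '' A₀) = Φ '' (ψ '' A₀) := by
      rw [image_image, image_image]
      exact image_congr fun x _ => by simp [G, hxΦ]
    rw [e, hΦ.hausdorffMeasure_image (Or.inl (by positivity)),
      hΦ.hausdorffMeasure_image (Or.inl (by positivity))]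
    exact k4

lemma alpha_le_gamma {k N : ℕ} (hk : 4 ≤ k) {g : ℕ → ℕ → ℝ}
    (hg : ∀ i j, i < N → j < N → i ≠ j → g i j ∈ Icc (0 : ℝ) (1 / 2))
    (hγ : ∀ i j, i < j → ∀ r, 0 ≤ gammaN k N g i j r)
    (i j : Fin (N + 3)) (hij : i < j) (r : Fin (k + 4)) : alphaN k N i j r ≤ gammaN k N g i j r := by
  have hp : π / 3 ≤ π / 2 := by linarith [pi_pos]
  have hp0 : 0 ≤ π / 2 := by linarith [pi_pos]
  have hij' : (i : ℕ) < j := hij
  by_cases hr : (j : ℕ) < N + 2 ∧ (r : ℕ) < k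
  · simpa [alphaN, angA, hr.1, hr.2] using hγ i j hij r
  by_cases hj : (j : ℕ) < N
  · have hr' : ¬ (r : ℕ) < k := fun h => hr ⟨by omega, h⟩
    simp only [alphaN, gammaN, angA, hj, hr', (by omega : (j : ℕ) < N + 2), if_true, if_false]
    rw [← arccos_cos (x := π / 3) (by positivity) (by linarith [pi_pos]), cos_pi_div_three]
    exact arccos_le_arccos (hg i j (by omega) hj hij'.ne).2
  have : gammaN k N g i j r = π / 2 := by
    simp only [gammaN, hj, if_false]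
    split_ifs with c1 c2
    · exact if_neg (by omega)
    · exact if_neg (by omega)
    · rfl
  rw [this, alphaN]
  split_ifs
  · rw [angA]; split_ifs; exacts [hp0, hp]
  · rw [angB]; split_ifs; exacts [hp, le_rfl]
  · exact le_rfl

theorem interp_fails : ∃ d m : ℕ, 4 ≤ d ∧ 2 ≤ m ∧ ∃ α β γ : Fin m → Fin m → Fin d → ℝ,
    (MinimalAngle (V := Ed (d * m)) (TopCompetitor d) α ∧
      MinimalAngle (V := Ed (d * m)) AlmgrenCompetitor α) ∧
    (MinimalAngle (V := Ed (d * m)) (TopCompetitor d) β ∧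
      MinimalAngle (V := Ed (d * m)) AlmgrenCompetitor β) ∧
    IsAngleDatum (Ed (d * m)) γ ∧
    (∀ i j, i < j → ∀ r, α i j r ≤ γ i j r ∧ γ i j r ≤ β i j r) ∧
    (∀ i j, i < j → ∀ r : Fin d, d ≤ r + 4 → π / 3 ≤ α i j r) ∧
    ∀ P : Fin m → Submodule ℝ (Ed (d * m)), Realises P γ →
      ¬ IsMinimal d (TopCompetitor d) (⋃ i, (P i : Set (Ed (d * m)))) ∧
      ¬ IsMinimal d AlmgrenCompetitor (⋃ i, (P i : Set (Ed (d * m)))) := by
  obtain ⟨q, N, v, hq, hN, h1, h2⟩ := exists_code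
  obtain ⟨k, hk⟩ : ∃ k, k + 8 = 4 * q := ⟨4 * q - 8, by omega⟩
  have hk4 : 4 ≤ k := by omega
  have hN1 : 1 ≤ N := by
    have : 1 ≤ (4 * q) ^ 28 := Nat.one_le_pow _ _ (by omega)
    omega
  have hV : finrank ℝ (Ed ((k + 4) * (N + 3))) = (k + 4) * (N + 3) := by simp
  have hV6 : k + 6 ≤ finrank ℝ (Ed ((k + 4) * (N + 3))) := by rw [hV]; nlinarith
  have hγ := gamma_datum hk hN1 hV v h1 h2
  refine ⟨k + 4, N + 3, by omega, by omega, alphaN k N, fun _ _ _ => π / 2,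
    gammaN k N fun i j => inner ℝ (v i) (v j), ?_, ?_, hγ, fun i j hij r => ⟨?_, ?_⟩, ?_, ?_⟩
  · have h := fun P (hP : Realises (V := Ed ((k + 4) * (N + 3))) P (alphaN k N)) =>
      (alpha_frames hP).elim fun b hb => wedge_minimal hP.1 hV6 b hb.1 hb.2
    exact ⟨⟨alpha_datum hk4 hV, fun P hP => (h P hP).1⟩, alpha_datum hk4 hV, fun P hP => (h P hP).2⟩
  · have h := fun P (hP : Realises (V := Ed ((k + 4) * (N + 3))) P
        (fun (_ _ : Fin (N + 3)) (_ : Fin (k + 4)) => π / 2)) =>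
      (beta_frames hP).elim fun b hb => wedge_minimal hP.1 hV6 b hb.1 hb.2
    exact ⟨⟨beta_datum hV, fun P hP => (h P hP).1⟩, beta_datum hV, fun P hP => (h P hP).2⟩
  · exact alpha_le_gamma hk4 h2 (fun i j hij r => ((hγ.1 i j hij).2 r).1) i j hij r
  · exact ((hγ.1 i j hij).2 r).2
  · intro i j _ r hr
    have hp : π / 3 ≤ π / 2 := by linarith [pi_pos]
    have hr' : ¬ (r : ℕ) < k := by omega
    rw [alphaN]
    split_ifs
    · rw [angA, if_neg hr']
    · rw [angB]; split_ifs; exacts [le_rfl, hp]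
    · exact hp
  · intro P hP
    obtain ⟨F, f1, f2, f3⟩ := gamma_competitor (by omega) (by rwa [add_assoc, hk]) hV
      (by rw [real_inner_self_eq_norm_sq, h1 0 hN1, one_pow]) h2 hP
    exact ⟨fun h => f3 (h.2.2 F f1), fun h => f3 (h.2.2 F f2)⟩

end

end Pool.Agent.Lib.MP_b07a76_an
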