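import Pool.Agent.Lib.MP_b07a76_an.NHh

/-! The projection onto the codimension four skeleton. -/

namespace Pool.Agent.Lib.MP_b07a76_an

noncomputable section
open Set Real Metric
open scoped NNReal

lemma NMap_mono {n : ℕ} (v w : Ed n) (h : ∀ j, |v j| ≤ |w j|) : ‖v‖ ≤ ‖w‖ := by
  rw [EuclideanSpace.norm_eq, EuclideanSpace.norm_eq]
  refine Real.sqrt_le_sqrt (Finset.sum_le_sum fun j _ => ?_)
  rw [Real.norm_eq_abs, Real.norm_eq_abs]
  exact pow_le_pow_left₀ (abs_nonneg _) (h j) 2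

lemma NMap_const {n : ℕ} (v : Ed n) {c : ℝ} (hc : 0 ≤ c) (h : ∀ j, |v j| ≤ c) : ‖v‖ ≤ n * c := by
  rw [EuclideanSpace.norm_eq]
  refine Real.sqrt_le_iff.2 ⟨by positivity, ?_⟩
  have h1 : ∑ j, ‖v j‖ ^ 2 ≤ ∑ _j : Fin n, c ^ 2 := Finset.sum_le_sum fun j _ => by
    rw [Real.norm_eq_abs]
    exact pow_le_pow_left₀ (abs_nonneg _) (h j) 2
  rw [Finset.sum_const, Finset.card_univ, Fintype.card_fin, nsmul_eq_mul] at h1
  have h2 : (n : ℝ) ≤ (n : ℝ) ^ 2 := by exact_mod_cast Nat.le_self_pow two_ne_zero n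
  calc _ ≤ (n : ℝ) * c ^ 2 := h1
    _ ≤ (n : ℝ) ^ 2 * c ^ 2 := mul_le_mul_of_nonneg_right h2 (sq_nonneg c)
    _ = _ := by ring

/-- The dilation with parameter `p`. -/
def NMap_Phi {n : ℕ} (a : Fin n → ℝ) (p : ℝ) (x : Ed n) : Ed n :=
  WithLp.toLp 2 fun j => hh p (x j + a j) - a j

lemma NMap_apply {n : ℕ} (a : Fin n → ℝ) (p : ℝ) (x : Ed n) (j : Fin n) :
    NMap_Phi a p x j = hh p (x j + a j) - a j := rfl

lemma NMap_dist {n : ℕ} (a : Fin n → ℝ) {σ p q : ℝ} (h0 : 0 < σ) (h1 : σ ≤ p) (h2 : σ ≤ q)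
    (h3 : p ≤ 1) (h4 : q ≤ 1) (x y : Ed n) :
    dist (NMap_Phi a p x) (NMap_Phi a q y) ≤ (dist x y + n * |p - q|) / σ := by
  rw [dist_eq_norm, dist_eq_norm]
  let w1 : Ed n := WithLp.toLp 2 fun j => |x j - y j|
  let w2 : Ed n := WithLp.toLp 2 fun _ => |p - q|
  have e1 : ‖NMap_Phi a p x - NMap_Phi a q y‖ ≤ ‖σ⁻¹ • (w1 + w2)‖ := by
    refine NMap_mono _ _ fun j => ?_
    have h5 := hh_lip h0 h1 h2 h3 h4 (x j + a j) (y j + a j)
    have h6 : (NMap_Phi a p x - NMap_Phi a q y) j = hh p (x j + a j) - hh q (y j + a j) := by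
      rw [PiLp.sub_apply, NMap_apply, NMap_apply]
      ring
    have h7 : (σ⁻¹ • (w1 + w2)) j = (|x j - y j| + |p - q|) / σ := by
      rw [PiLp.smul_apply, PiLp.add_apply, smul_eq_mul, div_eq_inv_mul]
    rw [h6, h7]
    rw [show x j + a j - (y j + a j) = x j - y j by ring] at h5
    exact h5.trans (le_abs_self _)
  have e2 : ‖w1‖ ≤ ‖x - y‖ := NMap_mono _ _ fun j => by
    rw [PiLp.sub_apply]
    exact (abs_abs _).le
  have e3 : ‖w2‖ ≤ n * |p - q| := NMap_const _ (abs_nonneg _) fun j => (abs_abs _).le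
  have e4 := norm_add_le w1 w2
  rw [norm_smul, Real.norm_eq_abs, abs_of_pos (inv_pos.2 h0)] at e1
  rw [div_eq_inv_mul]
  exact e1.trans (mul_le_mul_of_nonneg_left (by linarith) (inv_pos.2 h0).le)

/-- The fourth largest distance to the centre. -/
def NMap_m {n : ℕ} (a : Fin n → ℝ) (x : Ed n) : ℝ :=
  ⨆ f : Fin 4 ↪ Fin n, ⨅ r, yy (x (f r) + a (f r))

lemma NMap_le_m {n : ℕ} (a : Fin n → ℝ) (x : Ed n) (f : Fin 4 ↪ Fin n) {c : ℝ}
    (h : ∀ r, c ≤ yy (x (f r) + a (f r))) : c ≤ NMap_m a x :=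
  (le_ciInf h).trans (le_ciSup (f := fun f : Fin 4 ↪ Fin n => ⨅ r, yy (x (f r) + a (f r)))
    (Set.finite_range _).bddAbove f)

lemma NMap_exists {n : ℕ} (hn : 4 ≤ n) (a : Fin n → ℝ) (x : Ed n) :
    ∃ f : Fin 4 ↪ Fin n, ∀ r, NMap_m a x ≤ yy (x (f r) + a (f r)) := by
  have : Nonempty (Fin 4 ↪ Fin n) := ⟨Fin.castLEEmb hn⟩
  obtain ⟨f, hf⟩ := exists_eq_ciSup_of_finite
    (f := fun f : Fin 4 ↪ Fin n => ⨅ r, yy (x (f r) + a (f r)))
  refine ⟨f, fun r => ?_⟩
  unfold NMap_m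
  rw [← hf]
  exact ciInf_le (f := fun r => yy (x (f r) + a (f r))) (Set.finite_range _).bddBelow r

lemma NMap_m_le_one {n : ℕ} (hn : 4 ≤ n) (a : Fin n → ℝ) (x : Ed n) : NMap_m a x ≤ 1 := by
  obtain ⟨f, hf⟩ := NMap_exists hn a x
  exact (hf 0).trans (yy_le_one _)

lemma NMap_m_half {n : ℕ} (hn : 4 ≤ n) (a : Fin n → ℝ) (x y : Ed n) :
    NMap_m a x - 2 * dist x y ≤ NMap_m a y := by
  obtain ⟨f, hf⟩ := NMap_exists hn a x
  refine NMap_le_m a y f fun r => ?_
  have h1 := yy_lip (x (f r) + a (f r)) (y (f r) + a (f r))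
  rw [show x (f r) + a (f r) - (y (f r) + a (f r)) = x (f r) - y (f r) by ring] at h1
  have h2 : |x (f r) - y (f r)| ≤ dist x y := by
    rw [dist_eq_norm]
    have := PiLp.norm_apply_le (x - y) (f r)
    rwa [PiLp.sub_apply, Real.norm_eq_abs] at this
  have h3 := le_abs_self (yy (x (f r) + a (f r)) - yy (y (f r) + a (f r)))
  linarith [hf r]

lemma NMap_m_lip {n : ℕ} (hn : 4 ≤ n) (a : Fin n → ℝ) (x y : Ed n) :
    |NMap_m a x - NMap_m a y| ≤ 2 * dist x y := by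
  have h1 := NMap_m_half hn a x y
  have h2 := NMap_m_half hn a y x
  rw [dist_comm] at h2
  rw [abs_le]
  constructor <;> linarith

/-- Sketch. For `u : Ed n → ℝ` put `Φ u x = toLp 2 fun j => hh (u x) (x j + a j) - a j`. By `hh_lip` and the triangle inequality
in `Ed n`, if `σ ≤ u x, u y ≤ 1` then `dist (Φ u x) (Φ u y) ≤ (dist x y + √n |u x - u y|)/σ` (compare with the vector
`toLp 2 fun j => (|x j - y j| + |u x - u y|)/σ`, and `√n ≤ n`). Let
`m x = ⨆ f : Fin 4 ↪ Fin n, ⨅ r, yy (x (f r) + a (f r))` (fourth largest value; finite nonempty index types,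
`exists_eq_ciSup_of_finite`, `le_ciSup`, `ciInf_le`, `le_ciInf`); `m` is 2-Lipschitz, `m ≤ 1`. Take `φ = Φ s`,
`ψ = Φ (max m s)`. If `s x ≤ m x`, the maximising `f` and `hh_half` give `ψ x ∈ Skel a`. If `m x < s x`, the set
`{j | s x ≤ yy (x j + a j)}` has at most three elements (else an embedding `Fin 4 ↪ Fin n` into it gives `s x ≤ m x`);
enlarge it to exactly three (`Finset.exists_subsuperset_card_eq`). -/
theorem exists_collapse {n : ℕ} (hn : 4 ≤ n) (a : Fin n → ℝ) {s : Ed n → ℝ} {L : ℝ≥0}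
    (hs : LipschitzWith L s) {σ₀ : ℝ} (h0 : 0 < σ₀) (h1 : ∀ x, σ₀ ≤ s x) (h2 : ∀ x, s x ≤ 1) :
    ∃ (ψ φ : Ed n → Ed n) (K : ℝ≥0), LipschitzWith K ψ ∧ (∀ x, s x = 1 → ψ x = x) ∧
      (∀ x, dist (ψ x) x ≤ n) ∧ (∀ x, ψ x ∈ Skel a ∨ (x ∈ Bad a s ∧ ψ x = φ x)) ∧
      ∀ σ : ℝ, 0 < σ → ∀ x y, σ ≤ s x → σ ≤ s y →
        dist (φ x) (φ y) ≤ (1 + n * L) / σ * dist x y := by
  have hL : ∀ x y, |s x - s y| ≤ L * dist x y := fun x y => by
    have := hs.dist_le_mul x y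
    rwa [Real.dist_eq] at this
  refine ⟨fun x => NMap_Phi a (max (NMap_m a x) (s x)) x, fun x => NMap_Phi a (s x) x,
    Real.toNNReal ((1 + n * (2 + L)) / σ₀), ?_, ?_, ?_, ?_, ?_⟩
  · refine LipschitzWith.of_dist_le' fun x y => ?_
    have e1 := NMap_dist a h0 ((h1 x).trans (le_max_right (NMap_m a x) _))
      ((h1 y).trans (le_max_right (NMap_m a y) _)) (max_le (NMap_m_le_one hn a x) (h2 x))
      (max_le (NMap_m_le_one hn a y) (h2 y)) x y
    have e2 : |max (NMap_m a x) (s x) - max (NMap_m a y) (s y)| ≤ (2 + L) * dist x y := by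
      refine (abs_max_sub_max_le_max _ _ _ _).trans (max_le ?_ ?_)
      · have : (0 : ℝ) ≤ L * dist x y := by positivity
        linarith [NMap_m_lip hn a x y]
      · linarith [hL x y, dist_nonneg (x := x) (y := y)]
    refine e1.trans ?_
    rw [div_mul_eq_mul_div]
    refine div_le_div_of_nonneg_right ?_ h0.le
    have e3 := mul_le_mul_of_nonneg_left e2 (Nat.cast_nonneg (α := ℝ) n)
    linarith
  · intro x hx
    have e1 : max (NMap_m a x) (s x) = 1 := by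
      rw [hx]
      exact max_eq_right (NMap_m_le_one hn a x)
    ext j
    rw [NMap_apply, e1, hh_one]
    ring
  · intro x
    rw [dist_eq_norm]
    have := NMap_const (NMap_Phi a (max (NMap_m a x) (s x)) x - x) zero_le_one fun j => by
      rw [PiLp.sub_apply, NMap_apply]
      have h5 := hh_near (max (NMap_m a x) (s x)) (x j + a j)
      rwa [show hh (max (NMap_m a x) (s x)) (x j + a j) - (x j + a j) =
        hh (max (NMap_m a x) (s x)) (x j + a j) - a j - x j by ring] at h5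
    rwa [mul_one] at this
  · intro x
    rcases le_or_gt (s x) (NMap_m a x) with h | h
    · left
      obtain ⟨f, hf⟩ := NMap_exists hn a x
      refine ⟨f, fun r => ?_⟩
      obtain ⟨z, hz⟩ := hh_half (h0.trans_le ((h1 x).trans h)) (hf r)
      refine ⟨z, ?_⟩
      show NMap_Phi a (max (NMap_m a x) (s x)) x (f r) + a (f r) = z + 1 / 2
      rw [NMap_apply, max_eq_left h, hz]
      ring
    · right
      refine ⟨?_, by simp only [max_eq_right h.le]⟩
      classical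
      let J : Finset (Fin n) := Finset.univ.filter fun j => s x ≤ yy (x j + a j)
      have hJ : J.card ≤ 3 := by
        by_contra hc
        have h4 : 4 ≤ J.card := by omega
        have := NMap_le_m a x (J.orderEmbOfCardLe h4).toEmbedding (c := s x) fun r =>
          (Finset.mem_filter.1 (J.orderEmbOfCardLe_mem h4 r)).2
        linarith
      obtain ⟨U, hU1, -, hU3⟩ := Finset.exists_subsuperset_card_eq (Finset.subset_univ J) hJ
        (by rw [Finset.card_univ, Fintype.card_fin]; omega)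
      refine ⟨U, hU3, fun j hj => ?_⟩
      by_contra hc
      exact hj (hU1 (Finset.mem_filter.2 ⟨Finset.mem_univ j, not_lt.1 hc⟩))
  · intro σ hσ x y hx hy
    refine (NMap_dist a hσ hx hy (h2 x) (h2 y) x y).trans ?_
    rw [div_mul_eq_mul_div]
    refine div_le_div_of_nonneg_right ?_ hσ.le
    have e3 := mul_le_mul_of_nonneg_left (hL x y) (Nat.cast_nonneg (α := ℝ) n)
    linarith

end

end Pool.Agent.Lib.MP_b07a76_an
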