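import Pool.Agent.Lib.MP_b07a76_an.TopMain

namespace Pool.Agent.Lib.MP_b07a76_an.OldTopUpSet

open Pool.Agent.Lib.MP_b07a76_an

theorem result {V : Type} [NormedAddCommGroup V] [InnerProductSpace ℝ V] [FiniteDimensional ℝ V]
    [MeasurableSpace V] [BorelSpace V] (d m : ℕ) (hm : 2 ≤ m) (hV : Module.finrank ℝ V = d * m)
    (γ : Fin m → Fin m → Fin d → ℝ) (hγ : IsAngleDatum V γ)
    (a : ℕ → ℝ) (ha : ∀ l, 0 ≤ a l) (hle : ∀ i j, i < j → ∀ k : Fin d, a k ≤ γ i j k)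
    (hsum : 1 ≤ ∑ r ∈ Finset.range d, Real.tan (a (r / (m - 1)) / 2) /
      (Real.tan (a (r / (m - 1)) / 2)
        + √(Real.tan (a (r / (m - 1)) / 2) ^ 2 + Real.pi ^ 2 / 4))) :
    MinimalAngle (V := V) (TopCompetitor d) γ :=
  top_minimal hm hV hγ a ha hle hsum

end Pool.Agent.Lib.MP_b07a76_an.OldTopUpSet
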