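import Pool.Agent.Lib.MP_b07a76_an.Homology
import Pool.Agent.Lib.MP_b07a76_an.Defs

/-! Round spheres that are nonzero, or zero, in the homology of a set. -/

namespace Pool.Agent.Lib.MP_b07a76_an

noncomputable section
open Classical CategoryTheory Limits AlgebraicTopology Filter Module

variable {V : Type} [NormedAddCommGroup V] [InnerProductSpace ℝ V] [FiniteDimensional ℝ V]

def amax {n : ℕ} (u : Fin (n + 1) → ℝ) : Fin (n + 1) := (Finite.exists_max u).choose

lemma le_amax {n : ℕ} (u : Fin (n + 1) → ℝ) (i : Fin (n + 1)) : u i ≤ u (amax u) :=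
  (Finite.exists_max u).choose_spec i

lemma nonzeroIn_sphere (k : ℕ) (c : V) (r : ℝ) (hr : 0 < r) (N : Submodule ℝ V)
    (hN : finrank ℝ N = k + 1) (X : Set V) (hS : {x | x - c ∈ N ∧ ‖x - c‖ = r} ⊆ X)
    (hX : ∀ x ∈ X, x - c ∉ Nᗮ) : NonzeroIn k {x | x - c ∈ N ∧ ‖x - c‖ = r} X := by
  refine ⟨hS, fun h => ?_⟩
  let b := (stdOrthonormalBasis ℝ N).reindex (finCongr hN)
  let lam : V → Fin (k + 2) → ℝ := fun v => Fin.cons 0 fun j => inner ℝ (b j : V) v
  have hlam : Continuous lam := by
    apply continuous_pi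
    intro j
    refine Fin.cases ?_ (fun j => ?_) j
    · simp only [lam, Fin.cons_zero]; exact continuous_const
    · simp only [lam, Fin.cons_succ]; fun_prop
  let w : Bd k → V := fun x => ∑ j, (x.1.1 j.succ - x.1.1 0) • (b j : V)
  have hw : Continuous w := by
    apply continuous_finsetSum
    intro j _
    have : ∀ i, Continuous fun x : Bd k => x.1.1 i := fun i =>
      (continuous_apply i).comp (continuous_subtype_val.comp continuous_subtype_val)
    exact ((this _).sub (this _)).smul continuous_const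
  have hwN : ∀ x, w x ∈ N := fun x =>
    N.sum_mem fun j _ => N.smul_mem _ (b j).2
  have hbo : Orthonormal ℝ fun j => (b j : V) := N.subtypeₗᵢ.orthonormal_comp_iff.2 b.orthonormal
  have hlw : ∀ x i, lam (w x) i = x.1.1 i - x.1.1 0 := by
    intro x i
    refine Fin.cases ?_ (fun j => ?_) i
    · simp [lam]
    · simp only [lam, Fin.cons_succ, w]
      exact hbo.inner_right_fintype _ _
  have hw0 : ∀ x, w x ≠ 0 := by
    intro x h0
    obtain ⟨i, hi⟩ := x.2
    have h1 : ∀ j, x.1.1 j = 0 := by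
      intro j
      have h2 := hlw x j
      have h3 := hlw x i
      have h4 : ∀ j, lam 0 j = 0 := fun j => by
        refine Fin.cases ?_ (fun j => ?_) j <;> simp [lam]
      rw [h0, h4] at h2 h3
      linarith
    have := x.1.2.2
    simp [h1] at this
  have hG1 : ∀ x, c + (r / ‖w x‖) • w x ∈ {x | x - c ∈ N ∧ ‖x - c‖ = r} := by
    intro x
    have := norm_pos_iff.2 (hw0 x)
    refine ⟨by simpa using N.smul_mem _ (hwN x), ?_⟩
    simp only [add_sub_cancel_left, norm_smul, Real.norm_eq_abs]
    rw [abs_of_pos (by positivity)]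
    field_simp
  have hG2 : Continuous fun x => c + (r / ‖w x‖) • w x := continuous_const.add
    ((continuous_const.div hw.norm fun x => (norm_pos_iff.2 (hw0 x)).ne').smul hw)
  let G : C(Bd k, {x | x - c ∈ N ∧ ‖x - c‖ = r}) :=
    ⟨fun x => ⟨c + (r / ‖w x‖) • w x, hG1 x⟩, hG2.subtype_mk hG1⟩
  refine homology_map_ne_zero k (TopCat.ofHom G ≫
    TopCat.ofHom ⟨Set.inclusion hS, continuous_inclusion hS⟩)
    (fun y : X => (amax (lam (y.1 - c)) : ℕ)) (fun y => Fin.is_lt _) ?_ ?_ ?_
  · intro y
    set u := lam (y.1 - c) with hu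
    obtain ⟨j, hj⟩ : ∃ j, u j < u (amax u) := by
      by_contra hc
      push Not at hc
      apply hX y.1 y.2
      have h0 : ∀ j, u j = 0 := fun j => by
        have h1 := le_antisymm (le_amax u j) (hc j)
        have h2 := le_antisymm (le_amax u 0) (hc 0)
        rw [h1, ← h2]; simp [hu, lam]
      rw [Submodule.mem_orthogonal]
      intro v hv
      have := b.sum_repr ⟨v, hv⟩
      have h3 : v = ∑ j, b.repr ⟨v, hv⟩ j • (b j : V) := by
        have := congrArg Subtype.val this
        simpa using this.symm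
      rw [h3, sum_inner]
      apply Finset.sum_eq_zero
      intro j _
      have := h0 j.succ
      simp only [hu, lam, Fin.cons_succ] at this
      rw [inner_smul_left, this, mul_zero]
    refine ⟨j, j.2, ?_⟩
    have hc : ∀ i, ContinuousAt (fun y' : X => lam (y'.1 - c) i) y := fun i =>
      ((continuous_apply i).comp (hlam.comp (continuous_subtype_val.sub continuous_const))).continuousAt
    filter_upwards [(hc j).eventually_lt (hc (amax u)) hj] with y' hy' h2
    have h3 := le_amax (lam (y'.1 - c)) (amax u)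
    rw [Fin.ext h2] at h3
    exact absurd hy' (not_lt.2 h3)
  · intro x
    refine ⟨_, rfl, fun h0 => ?_⟩
    change x.1.1 (amax (lam (c + (r / ‖w x‖) • w x - c))) = 0 at h0
    have hp : 0 < r / ‖w x‖ := div_pos hr (norm_pos_iff.2 (hw0 x))
    have e : ∀ i, lam (c + (r / ‖w x‖) • w x - c) i = r / ‖w x‖ * (x.1.1 i - x.1.1 0) := by
      intro i
      rw [← hlw]
      refine Fin.cases ?_ (fun j => ?_) i <;> simp [lam, inner_smul_right]
    have h1 : ∀ i, x.1.1 i ≤ 0 := by
      intro i
      have := le_amax (lam (c + (r / ‖w x‖) • w x - c)) i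
      rw [e, e, h0] at this
      have := le_of_mul_le_mul_left this hp
      linarith
    have h2 := x.1.2.2
    have h3 : ∑ i, x.1.1 i ≤ 0 := Finset.sum_nonpos fun i _ => h1 i
    linarith
  · rw [Functor.map_comp, h, comp_zero]

omit [InnerProductSpace ℝ V] [FiniteDimensional ℝ V] in
lemma not_nonzeroIn (k : ℕ) (hk : k ≠ 0) (S X : Set V) (H : unitInterval × S → V)
    (hH : Continuous H) (hX : ∀ z, H z ∈ X) (p : V) (hp : p ∈ X) (h0 : ∀ x, H (0, x) = p)
    (h1 : ∀ x, H (1, x) = x) : ¬ NonzeroIn k S X := by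
  rintro ⟨hS, h⟩
  apply h
  let f : TopCat.of S ⟶ TopCat.of X := TopCat.ofHom ⟨Set.inclusion hS, continuous_inclusion hS⟩
  let a : TopCat.of S ⟶ TopCat.of PUnit.{1} := TopCat.ofHom (ContinuousMap.const _ PUnit.unit)
  let b : TopCat.of PUnit.{1} ⟶ TopCat.of X := TopCat.ofHom (ContinuousMap.const _ ⟨p, hp⟩)
  let T : TopCat.Homotopy (a ≫ b) f :=
    { toFun := fun z => ⟨H z, hX z⟩
      continuous_toFun := hH.subtype_mk _
      map_zero_left := fun x => Subtype.ext (h0 x)
      map_one_left := fun x => Subtype.ext (h1 x) }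
  have e : ((singularHomologyFunctor (ModuleCat.{0} ℤ) k).obj ZZ).map (a ≫ b)
      = ((singularHomologyFunctor (ModuleCat.{0} ℤ) k).obj ZZ).map f :=
    T.congr_homologyMap_singularChainComplexFunctor ZZ k
  change ((singularHomologyFunctor (ModuleCat.{0} ℤ) k).obj ZZ).map f = 0
  rw [← e, Functor.map_comp,
    (isZero_singularHomologyFunctor_of_totallyDisconnectedSpace (ModuleCat.{0} ℤ) k ZZ
      (TopCat.of PUnit.{1}) hk).eq_of_src
      (((singularHomologyFunctor (ModuleCat.{0} ℤ) k).obj ZZ).map b) 0, comp_zero]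

/-- A continuous self-map that is the identity far out is onto. -/
lemma surj_of_eq_id (hV : 2 ≤ finrank ℝ V) (g : V → V) (hg : Continuous g) (R : ℝ)
    (h : ∀ x, R ≤ ‖x‖ → g x = x) : Function.Surjective g := by
  intro p
  by_contra hp
  push Not at hp
  obtain ⟨k, hk⟩ : ∃ k, finrank ℝ V = k + 1 := ⟨finrank ℝ V - 1, by omega⟩
  have hr : 0 < |R| + ‖p‖ + 1 := by positivity
  have h1 := nonzeroIn_sphere k p _ hr ⊤ (by simpa using hk) {p}ᶜ (by
    rintro x ⟨-, hx⟩ rfl
    simp only [sub_self, norm_zero] at hx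
    linarith) (by
    intro x hx
    simpa [sub_eq_zero] using hx)
  refine not_nonzeroIn k (by omega) _ _ (fun z => g (p + (z.1 : ℝ) • (z.2.1 - p))) (by fun_prop)
    (fun z => hp _) (g p) (hp _) (by simp) ?_ h1
  rintro ⟨x, -, hx⟩
  simp only [Set.Icc.coe_one, one_smul, add_sub_cancel]
  apply h
  have := norm_sub_le x p
  linarith [le_abs_self R]

end

end Pool.Agent.Lib.MP_b07a76_an
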