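import Pool.Agent.Lib.MP_b07a76_an.Angles
import Pool.Agent.Lib.MP_b07a76_an.Sphere

/-! Topological minimality from the wedge retractions. -/

namespace Pool.Agent.Lib.MP_b07a76_an

noncomputable section
open MeasureTheory Module Set Real Metric Filter
open scoped Topology ENNReal

variable {V : Type} [NormedAddCommGroup V] [InnerProductSpace ℝ V] [FiniteDimensional ℝ V] {d : ℕ}

def emb (b : Fin d → V) (x : EuclideanSpace ℝ (Fin d)) : V := ∑ j, x j • b j

omit [FiniteDimensional ℝ V] in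
lemma isometry_emb {b : Fin d → V} (hb : Orthonormal ℝ b) : Isometry (emb b) := by
  refine Isometry.of_dist_eq fun x y => ?_
  have e : emb b x - emb b y = ∑ j, (x - y) j • b j := by
    simp [emb, sub_smul, Finset.sum_sub_distrib]
  rw [dist_eq_norm, dist_eq_norm, e]
  refine (pow_left_inj₀ (norm_nonneg _) (norm_nonneg _) two_ne_zero).1 ?_
  rw [norm_sum_sq hb, EuclideanSpace.real_norm_sq_eq]

lemma emb_xc {P : Submodule ℝ V} (hP : finrank ℝ P = d) {b : Fin d → V}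
    (hb : Orthonormal ℝ b) (hbP : ∀ r, b r ∈ P) {z : V} (hz : z ∈ P) : emb b (xc b z) = z :=
  (eq_sum_of_mem hP hb hbP hz).symm

lemma exists_frame (P : Submodule ℝ V) (hP : finrank ℝ P = d) :
    ∃ b : Fin d → V, Orthonormal ℝ b ∧ ∀ r, b r ∈ P := by
  obtain ⟨b, h1, h2, -⟩ := exists_flag P hP (fun _ => ∅) (by simp)
  exact ⟨b, h1, h2⟩

lemma fibre {P : Submodule ℝ V} (hP : finrank ℝ P = d) {b : Fin d → V} (hb : Orthonormal ℝ b)
    (hbP : ∀ r, b r ∈ P) (τ e : Fin d → ℝ) (j0 : Fin d) (he : 0 < e j0) (hτ : τ j0 ≠ 0)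
    (hdim : d + 2 ≤ finrank ℝ V) {E F : Set V} (hPE : (P : Set V) ⊆ E)
    (hEW : ∀ z ∈ Wd b τ, z ∉ E) (hF : TopCompetitor d E F) {p : V} (hp : p ∈ P) (hpF : p ∉ F)
    (hp0 : inner ℝ (b j0) p ≠ 0) : ∃ z ∈ F ∩ Wd b τ, proj b τ e z = xc b p := by
  obtain ⟨-, c0, r0, hr0, -, hS⟩ := hF
  by_contra hcon
  push Not at hcon
  let C : ℝ → ℝ := fun s => cos (π / 2 * s)
  have hC : ∀ s, 0 ≤ s → s < 1 → 0 < C s := fun s h0 h1 =>
    cos_pos_of_mem_Ioo ⟨by nlinarith [pi_pos], by nlinarith [pi_pos]⟩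
  let X : ℝ → V := fun s => ∑ j, (C s ^ (-e j) * inner ℝ (b j) p) • b j
  have hXP : ∀ s, X s ∈ P := fun s => P.sum_mem fun j _ => P.smul_mem _ (hbP j)
  have hX : ∀ s y, y ∈ Pᗮ → ∀ j, inner ℝ (b j) (X s + y) = C s ^ (-e j) * inner ℝ (b j) p := by
    intro s y hy j
    rw [inner_add_right, Submodule.inner_right_of_mem_orthogonal (hbP j) hy, add_zero]
    exact hb.inner_right_fintype _ _
  have hY : ∀ s y, y ∈ Pᗮ → yc b (X s + y) = y := by
    intro s y hy
    rw [map_add, yc_eq_zero hP hb hbP (hXP s), zero_add, yc_apply]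
    simp [Submodule.inner_right_of_mem_orthogonal (hbP _) hy]
  let D : ℝ → ℝ := fun s => ∑ j, τ j ^ 2 * (C s ^ (-e j) * inner ℝ (b j) p) ^ 2
  have hDd : ∀ s y, y ∈ Pᗮ → Dd b τ (X s + y) = D s := by
    intro s y hy
    simp only [Dd, hX s y hy, D]
  have hD : ∀ s, 0 ≤ s → s < 1 → 0 < D s := by
    intro s h0 h1
    refine Finset.sum_pos' (fun j _ => by positivity) ⟨j0, Finset.mem_univ _, ?_⟩
    have := Real.rpow_pos_of_pos (hC s h0 h1) (-e j0)
    positivity
  have key : ∀ s y, 0 < s → s < 1 → y ∈ Pᗮ → ‖y‖ = s * √(D s) →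
      X s + y ∈ Wd b τ ∧ proj b τ e (X s + y) = xc b p := by
    intro s y h0 h1 hy hn
    have hDs := hD s h0.le h1
    have hn2 : ‖y‖ ^ 2 = s ^ 2 * D s := by rw [hn, mul_pow, Real.sq_sqrt hDs.le]
    refine ⟨⟨?_, ?_⟩, ?_⟩
    · rw [hY s y hy, hn2]; positivity
    · rw [hY s y hy, hDd s y hy, hn2]
      have : s ^ 2 < 1 := by nlinarith
      nlinarith
    · ext j
      have hu : uu b τ (X s + y) = C s := by
        rw [uu, hY s y hy, hDd s y hy, hn2, mul_assoc, mul_inv_cancel₀ hDs.ne', mul_one,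
          Real.sqrt_sq h0.le]
      simp only [proj, hu, hX s y hy, xc_apply]
      rw [← mul_assoc, ← Real.rpow_add (hC s h0.le h1), add_neg_cancel, Real.rpow_zero, one_mul]
  obtain ⟨s1, hs0, hs1, hfar⟩ : ∃ s1, 0 < s1 ∧ s1 < 1 ∧
      C s1 ^ e j0 * (‖c0‖ + r0) < |inner ℝ (b j0) p| := by
    have hc : Continuous fun s => C s ^ e j0 * (‖c0‖ + r0) :=
      (Continuous.rpow_const (by fun_prop) fun _ => Or.inr he.le).mul continuous_const
    have h1 : C 1 ^ e j0 * (‖c0‖ + r0) < |inner ℝ (b j0) p| := by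
      simp [C, Real.zero_rpow he.ne', hp0]
    have h2 := (hc.continuousAt.eventually_lt continuousAt_const h1).filter_mono
      (nhdsWithin_le_nhds (s := Iio 1))
    obtain ⟨s, h3, h4⟩ := (h2.and (Ioo_mem_nhdsLT zero_lt_one)).exists
    exact ⟨s, h4.1, h4.2, h3⟩
  set ρ1 := s1 * √(D s1) with hρ1
  have hρ : 0 < ρ1 := mul_pos hs0 (Real.sqrt_pos.2 (hD s1 hs0.le hs1))
  have hN : finrank ℝ Pᗮ = finrank ℝ V - d - 1 + 1 := by
    have := P.finrank_add_finrank_orthogonal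
    omega
  have hSW : ∀ x, x - X s1 ∈ Pᗮ → ‖x - X s1‖ = ρ1 → x ∈ Wd b τ := by
    intro x h1 h2
    simpa using (key s1 _ hs0 hs1 h1 h2).1
  have h1 := hS {x | x - X s1 ∈ Pᗮ ∧ ‖x - X s1‖ = ρ1} ⟨X s1, ρ1, Pᗮ, hρ, hN, rfl⟩ (by
    rintro x ⟨h1, h2⟩ (h3 | h3)
    · have h4 := hX s1 _ h1 j0
      rw [add_sub_cancel] at h4
      have h5 := abs_real_inner_le_norm (b j0) x
      rw [hb.1 j0, one_mul, h4, abs_mul, Real.rpow_neg (hC s1 hs0.le hs1).le,
        abs_of_pos (inv_pos.2 (Real.rpow_pos_of_pos (hC s1 hs0.le hs1) _)),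
        inv_mul_le_iff₀ (Real.rpow_pos_of_pos (hC s1 hs0.le hs1) _)] at h5
      have h6 : ‖x‖ ≤ ‖c0‖ + r0 := by
        have := norm_le_norm_add_norm_sub' x c0
        rw [mem_ball, dist_eq_norm] at h3
        linarith
      have h7 := mul_le_mul_of_nonneg_left h6 (Real.rpow_pos_of_pos (hC s1 hs0.le hs1) (e j0)).le
      linarith
    · exact hEW x (hSW x h1 h2) h3)
    (nonzeroIn_sphere _ _ _ hρ _ hN _ (fun x hx => hEW x (hSW x hx.1 hx.2)) (by
      intro x hx h2
      rw [Submodule.orthogonal_orthogonal] at h2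
      exact hx (hPE (by simpa using P.add_mem h2 (hXP s1)))))
  have ht : ∀ t : unitInterval, 0 ≤ s1 * t ∧ s1 * t < 1 := fun t =>
    ⟨mul_nonneg hs0.le t.2.1, lt_of_le_of_lt (mul_le_of_le_one_right hs0.le t.2.2) hs1⟩
  have hX0 : X 0 = p := by
    simp only [X, C, mul_zero, cos_zero, Real.one_rpow, one_mul]
    exact (eq_sum_of_mem hP hb hbP hp).symm
  refine not_nonzeroIn _ (by omega) _ _
    (fun z => X (s1 * z.1) + (s1 * z.1 * √(D (s1 * z.1)) / ρ1) • (z.2.1 - X s1)) ?_ ?_ p hpF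
    (by simp [hX0]) (by simp [← hρ1, hρ.ne']) h1
  · have hc : ∀ j, Continuous fun t : unitInterval => C (s1 * t) ^ (-e j) := fun j =>
      Continuous.rpow_const (by fun_prop) fun t => Or.inl (hC _ (ht t).1 (ht t).2).ne'
    have hc1 : Continuous fun t : unitInterval => X (s1 * t) :=
      continuous_finsetSum _ fun j _ => ((hc j).mul continuous_const).smul continuous_const
    have hc2 : Continuous fun t : unitInterval => D (s1 * t) :=
      continuous_finsetSum _ fun j _ =>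
        continuous_const.mul (((hc j).mul continuous_const).pow 2)
    have hc3 : Continuous fun t : unitInterval => s1 * t * √(D (s1 * t)) / ρ1 :=
      ((by fun_prop : Continuous fun t : unitInterval => s1 * (t : ℝ)).mul hc2.sqrt).div_const _
    exact (hc1.comp continuous_fst).add ((hc3.comp continuous_fst).smul (by fun_prop))
  · rintro ⟨t, x, hx1, hx2⟩ hF
    rcases (ht t).1.lt_or_eq with h0 | h0
    · have := key (s1 * t) ((s1 * t * √(D (s1 * t)) / ρ1) • (x - X s1)) h0 (ht t).2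
        (Submodule.smul_mem _ _ hx1) (by
          rw [norm_smul, hx2, Real.norm_of_nonneg (by positivity)]
          field_simp)
      exact hcon _ ⟨hF, this.1⟩ this.2
    · simp only [← h0, hX0, zero_mul, zero_div, zero_smul, add_zero] at hF
      exact hpF hF

variable [MeasurableSpace V] [BorelSpace V]

lemma union_closed_finite {m : ℕ} {P : Fin m → Submodule ℝ V} (hP : ∀ i, finrank ℝ (P i) = d) :
    IsClosed (⋃ i, (P i : Set V)) ∧
      ∀ c r, μH[d] ((⋃ i, (P i : Set V)) ∩ ball c r) < ⊤ := by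
  refine ⟨isClosed_iUnion_of_finite fun i => (P i).closed_of_finiteDimensional, fun c r => ?_⟩
  rw [iUnion_inter]
  refine (measure_iUnion_fintype_le _ _).trans_lt (ENNReal.sum_lt_top.2 fun i _ => ?_)
  obtain ⟨b, hb, hbP⟩ := exists_frame (P i) (hP i)
  have h1 : (P i : Set V) ∩ ball c r ⊆ emb b '' closedBall 0 (‖c‖ + r) := by
    rintro z ⟨h1, h2⟩
    refine ⟨xc b z, ?_, emb_xc (hP i) hb hbP h1⟩
    have h3 := (isometry_emb hb).dist_eq (xc b z) 0
    rw [emb_xc (hP i) hb hbP h1] at h3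
    rw [mem_closedBall, ← h3]
    simp only [emb, PiLp.zero_apply, zero_smul, Finset.sum_const_zero, dist_zero_right]
    have := norm_le_norm_add_norm_sub' z c
    rw [mem_ball, dist_eq_norm] at h2
    linarith
  refine (measure_mono h1).trans_lt ?_
  rw [(isometry_emb hb).hausdorffMeasure_image (Or.inl (by positivity))]
  exact measure_closedBall_lt_top

lemma null_coord (j : Fin d) : μH[d] {x : EuclideanSpace ℝ (Fin d) | x j = 0} = 0 := by
  refine Measure.addHaar_submodule μH[d]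
    (LinearMap.ker (EuclideanSpace.projₗ (𝕜 := ℝ) j)) fun h => ?_
  have : EuclideanSpace.single j (1 : ℝ) ∈ LinearMap.ker (EuclideanSpace.projₗ (𝕜 := ℝ) j) := by
    rw [h]; trivial
  simp at this

theorem top_minimal {m : ℕ} (hm : 2 ≤ m) (hV : finrank ℝ V = d * m)
    {γ : Fin m → Fin m → Fin d → ℝ} (hγ : IsAngleDatum V γ)
    (a : ℕ → ℝ) (ha : ∀ l, 0 ≤ a l) (hle : ∀ i j, i < j → ∀ k : Fin d, a k ≤ γ i j k)
    (hsum : 1 ≤ ∑ r ∈ Finset.range d, tan (a (r / (m - 1)) / 2) /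
      (tan (a (r / (m - 1)) / 2) + √(tan (a (r / (m - 1)) / 2) ^ 2 + π ^ 2 / 4))) :
    MinimalAngle (V := V) (TopCompetitor d) γ := by
  refine ⟨hγ, fun P hP => ⟨(union_closed_finite hP.1).1, (union_closed_finite hP.1).2, ?_⟩⟩
  intro F hF
  obtain ⟨b, hb, hdisj⟩ := exists_wedges hP hγ.1 a ha hle
  set τ : Fin d → ℝ := fun r => tan (a (r / (m - 1)) / 2) with hτ
  have hτ0 : ∀ r, 0 ≤ τ r := by
    intro r
    have h01 : (⟨0, by omega⟩ : Fin m) < ⟨1, by omega⟩ := by simp [Fin.lt_def]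
    let k : Fin d := ⟨r / (m - 1), lt_of_le_of_lt (Nat.div_le_self _ _) r.2⟩
    exact (tan_half_mono (ha _) (hle _ _ h01 k) ((hγ.1 _ _ h01).2 k).2).1
  let f : Fin d → ℝ := fun r => τ r / (τ r + √(τ r ^ 2 + π ^ 2 / 4))
  have hf : ∀ r, 0 ≤ f r ∧ f r < 1 / 2 ∧ π ^ 2 / 4 * f r ^ 2 + 2 * τ r ^ 2 * f r = τ r ^ 2 := by
    intro r
    have h0 := hτ0 r
    have h1 : τ r < √(τ r ^ 2 + π ^ 2 / 4) := Real.lt_sqrt_of_sq_lt (by nlinarith [pi_pos])
    have h2 : √(τ r ^ 2 + π ^ 2 / 4) ^ 2 = τ r ^ 2 + π ^ 2 / 4 := Real.sq_sqrt (by positivity)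
    simp only [f]
    generalize √(τ r ^ 2 + π ^ 2 / 4) = g at h1 h2
    have h3 : 0 < τ r + g := by linarith
    refine ⟨by positivity, by rw [div_lt_iff₀ h3]; linarith, ?_⟩
    have h4 : π ^ 2 / 4 = g ^ 2 - τ r ^ 2 := by linarith
    rw [h4]
    field_simp
    ring
  have hF1 : 1 ≤ ∑ r, f r := by
    rw [Finset.sum_range] at hsum
    exact hsum
  let e : Fin d → ℝ := fun r => f r / ∑ r, f r
  have he : ∀ r, 0 ≤ e r ∧ e r ≤ f r := fun r =>
    ⟨div_nonneg (hf r).1 (by linarith), div_le_self (hf r).1 hF1⟩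
  have hesum : ∑ r, e r = 1 := by
    simp only [e]
    rw [← Finset.sum_div, div_self (by linarith)]
  obtain ⟨j0, hj0⟩ : ∃ j0, 0 < e j0 := by
    by_contra hc
    push Not at hc
    have : ∑ r, e r ≤ 0 := Finset.sum_nonpos fun r _ => hc r
    linarith
  have hτj : τ j0 ≠ 0 := by
    intro h0
    have : f j0 = 0 := by simp [f, h0]
    linarith [(he j0).2]
  have hd : 2 ≤ d := by
    by_contra hc
    have : ∑ r, f r ≤ ∑ _r : Fin d, (1 / 2 : ℝ) := Finset.sum_le_sum fun r _ => (hf r).2.1.le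
    rw [Finset.sum_const, Finset.card_univ, Fintype.card_fin, nsmul_eq_mul] at this
    have h2 : (d : ℝ) ≤ 1 := by exact_mod_cast (by omega : d ≤ 1)
    linarith
  set E := ⋃ i, (P i : Set V) with hE
  have hEW : ∀ i, ∀ z ∈ Wd (b i) τ, z ∉ E := by
    intro i z hz hzE
    obtain ⟨j, hj⟩ := mem_iUnion.1 hzE
    have h0 := yc_eq_zero (hP.1 j) (hb j).1 (hb j).2 hj
    by_cases hij : i = j
    · subst hij
      have := hz.1
      simp [h0] at this
    · have h1 := hdisj i j hij z hz.2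
      have h2 : 0 ≤ Dd (b j) τ z := Finset.sum_nonneg fun r _ => by positivity
      rw [h0] at h1
      simp at h1
      linarith
  have hcov : E \ F ⊆ ⋃ i, emb (b i) '' ({x | x j0 = 0} ∪
      proj (b i) τ e '' ((F \ E) ∩ Wd (b i) τ)) := by
    rintro p ⟨h1, h2⟩
    obtain ⟨i, hi⟩ := mem_iUnion.1 h1
    refine mem_iUnion.2 ⟨i, xc (b i) p, ?_, emb_xc (hP.1 i) (hb i).1 (hb i).2 hi⟩
    by_cases h0 : inner ℝ (b i j0) p = 0
    · exact Or.inl h0
    · obtain ⟨z, hz, hz'⟩ := fibre (hP.1 i) (hb i).1 (hb i).2 τ e j0 hj0 hτj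
        (by rw [hV]; nlinarith) (subset_iUnion (fun i => (P i : Set V)) i) (hEW i) hF hi h2 h0
      exact Or.inr ⟨z, ⟨⟨hz.1, hEW i z hz.2⟩, hz.2⟩, hz'⟩
  calc μH[d] (E \ F) ≤ ∑' i, μH[d] (emb (b i) '' ({x | x j0 = 0} ∪
        proj (b i) τ e '' ((F \ E) ∩ Wd (b i) τ))) :=
        (measure_mono hcov).trans (measure_iUnion_le _)
    _ ≤ ∑' i, μH[d] ((F \ E) ∩ Wd (b i) τ) := by
        refine ENNReal.tsum_le_tsum fun i => ?_
        rw [(isometry_emb (hb i).1).hausdorffMeasure_image (Or.inl (by positivity))]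
        refine (measure_union_le _ _).trans ?_
        rw [null_coord, zero_add]
        refine proj_image_le (hb i).1 τ e (fun r => (he r).1)
          (fun r => (he r).2.trans (hf r).2.1.le) (fun r => ?_) hesum _ inter_subset_right
        refine le_trans ?_ (hf r).2.2.le
        have := (he r).1
        have := (he r).2
        gcongr
    _ ≤ μH[d] (F \ E) := by
        refine tsum_inter_le _ _ _ (fun i => (isOpen_Wd _ _).measurableSet) fun i j hij => ?_
        rw [Function.onFun, Set.disjoint_left]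
        intro z h1 h2
        linarith [hdisj i j hij z h1.2, h2.2]

end

end Pool.Agent.Lib.MP_b07a76_an
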