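import Pool.Agent.Lib.MP_b07a76_an.Meas

/-! The anisotropic vanishing retraction onto a plane. -/

namespace Pool.Agent.Lib.MP_b07a76_an

noncomputable section
open MeasureTheory Module Filter Set Real
open scoped NNReal ENNReal Topology

lemma factor {V U : Type*} [NormedAddCommGroup V] [InnerProductSpace ℝ V]
    [NormedAddCommGroup U] [InnerProductSpace ℝ U] [FiniteDimensional ℝ U]
    (X : V →L[ℝ] U) (ν : V →L[ℝ] ℝ) (hX : ∀ w, ‖X w‖ ^ 2 + (ν w) ^ 2 ≤ ‖w‖ ^ 2) (h v : U) (β : ℝ)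
    (ha : 0 < 1 + inner ℝ h v) :
    ∃ (K : U →ₗ[ℝ] U) (R : V →L[ℝ] U),
      LinearMap.det K = √((1 + inner ℝ h v) ^ 2 + ‖v‖ ^ 2 * β ^ 2) ∧ ‖R‖ ≤ 1 ∧
      ∀ w, X w + (inner ℝ h (X w) + β * ν w) • v = K (R w) := by
  by_cases hv : v = 0
  · subst hv
    refine ⟨LinearMap.id, X, by simp, ?_, by simp⟩
    refine X.opNorm_le_bound zero_le_one fun w => ?_
    rw [one_mul]
    exact le_of_sq_le_sq (by nlinarith [hX w, sq_nonneg (ν w)]) (norm_nonneg _)
  set a := 1 + inner ℝ h v with hadef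
  set ρ := √(a ^ 2 + ‖v‖ ^ 2 * β ^ 2) with hρ
  have hρ2 : ρ ^ 2 = a ^ 2 + ‖v‖ ^ 2 * β ^ 2 := Real.sq_sqrt (by positivity)
  have hρ0 : 0 < ρ := Real.sqrt_pos.2 (by positivity)
  have hn : 0 < ‖v‖ := norm_pos_iff.2 hv
  let h' : U := h + ((ρ - a) / ‖v‖ ^ 2) • v
  have hh' : inner ℝ h' v = ρ - 1 := by
    simp only [h', inner_add_left, inner_smul_left, real_inner_self_eq_norm_sq, conj_trivial]
    field_simp
    rw [hadef]; ring
  let ξ : V →L[ℝ] ℝ := (‖v‖ ^ 2)⁻¹ • (innerSL ℝ v).comp X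
  let r : V →L[ℝ] ℝ := ρ⁻¹ • (a • ξ + β • ν)
  refine ⟨LinearMap.transvection (innerₗ U h') v, X + (r - ξ).smulRight v, ?_, ?_, ?_⟩
  · rw [LinearMap.transvection.det]
    simp [hh']
  · refine ContinuousLinearMap.opNorm_le_bound _ zero_le_one fun w => ?_
    rw [one_mul]
    refine le_of_sq_le_sq ?_ (norm_nonneg _)
    have e1 : inner ℝ (X w) v = ξ w * ‖v‖ ^ 2 := by
      simp only [ξ, _root_.smul_apply, ContinuousLinearMap.comp_apply,
        innerSL_apply_apply, smul_eq_mul]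
      rw [real_inner_comm]
      field_simp
    have e2 : ρ * r w = a * ξ w + β * ν w := by
      simp only [r, _root_.smul_apply, _root_.add_apply, smul_eq_mul]
      field_simp
    simp only [_root_.add_apply, ContinuousLinearMap.smulRight_apply,
      _root_.sub_apply]
    rw [norm_add_sq_real, inner_smul_right, e1, norm_smul, mul_pow, Real.norm_eq_abs, sq_abs]
    have h1 : ρ ^ 2 * (r w ^ 2 * ‖v‖ ^ 2) ≤ ρ ^ 2 * (ξ w ^ 2 * ‖v‖ ^ 2 + ν w ^ 2) := by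
      have : ρ ^ 2 * (r w ^ 2 * ‖v‖ ^ 2) = (a * ξ w + β * ν w) ^ 2 * ‖v‖ ^ 2 := by
        rw [← e2]; ring
      rw [this, hρ2]
      nlinarith [sq_nonneg (a * ν w - ‖v‖ ^ 2 * β * ξ w)]
    have h2 := le_of_mul_le_mul_left h1 (by positivity)
    nlinarith [hX w]
  · intro w
    have e1 : inner ℝ v (X w) = ξ w * ‖v‖ ^ 2 := by
      simp only [ξ, _root_.smul_apply, ContinuousLinearMap.comp_apply,
        innerSL_apply_apply, smul_eq_mul]
      field_simp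
    have e2 : ρ * r w = a * ξ w + β * ν w := by
      simp only [r, _root_.smul_apply, _root_.add_apply, smul_eq_mul]
      field_simp
    simp only [LinearMap.transvection.apply, _root_.add_apply,
      ContinuousLinearMap.smulRight_apply, _root_.sub_apply, innerₗ_apply_apply]
    rw [inner_add_right, inner_smul_right, hh', add_assoc, ← add_smul]
    congr 2
    have e3 : inner ℝ h' (X w) = inner ℝ h (X w) + (ρ - a) * ξ w := by
      simp only [h', inner_add_left, inner_smul_left, conj_trivial, e1]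
      field_simp
    rw [e3]
    linarith

lemma mul_cos_le {x : ℝ} (h0 : 0 ≤ x) (h1 : x ≤ 2) : x * cos x ≤ (1 - x ^ 2 / 4) * sin x := by
  have h2 := Real.sin_ge_sub_cube h0
  have h3 := Real.sin_ge_sub_cube (x := x / 2) (by positivity)
  have h4 : cos x = 1 - 2 * sin (x / 2) ^ 2 := by
    have := Real.cos_two_mul (x / 2)
    rw [show 2 * (x / 2) = x by ring] at this
    nlinarith [Real.sin_sq_add_cos_sq (x / 2)]
  have h5 : 0 ≤ x / 2 - (x / 2) ^ 3 / 6 := by nlinarith [mul_nonneg h0 h0]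
  have h6 : (x / 2 - (x / 2) ^ 3 / 6) ^ 2 ≤ sin (x / 2) ^ 2 := by gcongr
  have h7 : cos x ≤ 1 - x ^ 2 / 2 + x ^ 4 / 24 := by
    rw [h4]
    nlinarith [pow_nonneg h0 6]
  have h8 : 0 ≤ 1 - x ^ 2 / 4 := by nlinarith
  calc x * cos x ≤ x * (1 - x ^ 2 / 2 + x ^ 4 / 24) := by gcongr
    _ ≤ (1 - x ^ 2 / 4) * (x - x ^ 3 / 6) := by nlinarith [pow_nonneg h0 3]
    _ ≤ _ := by gcongr

lemma pure_ineq {τ e s : ℝ} (hs0 : 0 ≤ s) (hs1 : s ≤ 1) (he0 : 0 ≤ e) (he1 : e ≤ 1 / 2)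
    (he : π ^ 2 / 4 * e ^ 2 + 2 * τ ^ 2 * e ≤ τ ^ 2) :
    τ ^ 2 * (cos (π / 2 * s) + π / 2 * sin (π / 2 * s) * s * e) ^ 2
      + (π / 2 * sin (π / 2 * s)) ^ 2 * e ^ 2 ≤ τ ^ 2 := by
  set x := π / 2 * s with hx
  have hx0 : 0 ≤ x := by positivity
  have hx1 : x ≤ π / 2 := by nlinarith [pi_pos]
  have h1 := mul_cos_le hx0 (by linarith [pi_le_four])
  have hS : 0 ≤ sin x := sin_nonneg_of_nonneg_of_le_pi hx0 (by linarith [pi_pos])
  have e1 : π / 2 * sin x * s * e = x * sin x * e := by rw [hx]; ring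
  rw [e1]
  have h2 : 2 * (x * cos x) * (sin x * e) ≤ 2 * ((1 - x ^ 2 / 4) * sin x) * (sin x * e) := by
    gcongr
  have h3 : (cos x + x * sin x * e) ^ 2 ≤ cos x ^ 2 + 2 * e * sin x ^ 2 := by
    have : 0 ≤ x ^ 2 * sin x ^ 2 * e * (1 / 2 - e) := by
      have : 0 ≤ 1 / 2 - e := by linarith
      positivity
    nlinarith
  have h4 : sin x ^ 2 * (π ^ 2 / 4 * e ^ 2 + 2 * τ ^ 2 * e) ≤ sin x ^ 2 * τ ^ 2 := by gcongr
  have h5 : τ ^ 2 * (cos x + x * sin x * e) ^ 2 ≤ τ ^ 2 * (cos x ^ 2 + 2 * e * sin x ^ 2) := by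
    gcongr
  have h6 := sin_sq_add_cos_sq x
  have h7 : τ ^ 2 * cos x ^ 2 = τ ^ 2 - τ ^ 2 * sin x ^ 2 := by
    rw [show cos x ^ 2 = 1 - sin x ^ 2 by linarith]; ring
  nlinarith

variable {V : Type*} [NormedAddCommGroup V] [InnerProductSpace ℝ V] {d : ℕ}

/-- Coordinates along the family `b`. -/
def xc (b : Fin d → V) : V →L[ℝ] EuclideanSpace ℝ (Fin d) :=
  (EuclideanSpace.equiv (Fin d) ℝ).symm.toContinuousLinearMap.comp
    (ContinuousLinearMap.pi fun j => innerSL ℝ (b j))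

@[simp] lemma xc_apply (b : Fin d → V) (z : V) (j : Fin d) : xc b z j = inner ℝ (b j) z := rfl

/-- The component orthogonal to the family `b`. -/
def yc (b : Fin d → V) : V →L[ℝ] V :=
  ContinuousLinearMap.id ℝ V - ∑ j, (innerSL ℝ (b j)).smulRight (b j)

lemma yc_apply (b : Fin d → V) (z : V) : yc b z = z - ∑ j, inner ℝ (b j) z • b j := by
  simp [yc]

lemma inner_yc {b : Fin d → V} (hb : Orthonormal ℝ b) (z : V) (j : Fin d) :
    inner ℝ (b j) (yc b z) = 0 := by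
  rw [yc_apply, inner_sub_right, hb.inner_right_fintype, sub_self]

lemma norm_sum_sq {b : Fin d → V} (hb : Orthonormal ℝ b) (c : Fin d → ℝ) :
    ‖∑ j, c j • b j‖ ^ 2 = ∑ j, c j ^ 2 := by
  rw [← real_inner_self_eq_norm_sq, sum_inner]
  apply Finset.sum_congr rfl
  intro j _
  rw [inner_smul_left, hb.inner_right_fintype]
  simp [sq]

lemma norm_split {b : Fin d → V} (hb : Orthonormal ℝ b) (z : V) :
    ‖z‖ ^ 2 = ∑ j, inner ℝ (b j) z ^ 2 + ‖yc b z‖ ^ 2 := by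
  have e : z = ∑ j, inner ℝ (b j) z • b j + yc b z := by rw [yc_apply]; abel
  have h0 : inner ℝ (∑ j, inner ℝ (b j) z • b j) (yc b z) = 0 := by
    rw [sum_inner]
    exact Finset.sum_eq_zero fun j _ => by rw [inner_smul_left, inner_yc hb, mul_zero]
  conv_lhs => rw [e, norm_add_sq_real, h0, norm_sum_sq hb]
  ring

lemma norm_xc (b : Fin d → V) (z : V) : ‖xc b z‖ ^ 2 = ∑ j, inner ℝ (b j) z ^ 2 := by
  simp [EuclideanSpace.real_norm_sq_eq]

def Dd (b : Fin d → V) (τ : Fin d → ℝ) (z : V) : ℝ := ∑ j, τ j ^ 2 * inner ℝ (b j) z ^ 2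

def uu (b : Fin d → V) (τ : Fin d → ℝ) (z : V) : ℝ :=
  cos (π / 2 * √(‖yc b z‖ ^ 2 * (Dd b τ z)⁻¹))

/-- The retraction, in coordinates. -/
def proj (b : Fin d → V) (τ e : Fin d → ℝ) (z : V) : EuclideanSpace ℝ (Fin d) :=
  WithLp.toLp 2 fun j => uu b τ z ^ e j * inner ℝ (b j) z

/-- The open wedge minus the plane. -/
def Wd (b : Fin d → V) (τ : Fin d → ℝ) : Set V :=
  {z | 0 < ‖yc b z‖ ^ 2 ∧ ‖yc b z‖ ^ 2 < Dd b τ z}

lemma isOpen_Wd (b : Fin d → V) (τ : Fin d → ℝ) : IsOpen (Wd b τ) := by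
  have h1 : Continuous fun z => ‖yc b z‖ ^ 2 := by fun_prop
  have h2 : Continuous (Dd b τ) := by unfold Dd; fun_prop
  exact (isOpen_lt continuous_const h1).inter (isOpen_lt h1 h2)

lemma uu_deriv (b : Fin d → V) (τ : Fin d → ℝ) {z : V} (hz : z ∈ Wd b τ) (s : ℝ)
    (hs : s = √(‖yc b z‖ ^ 2 * (Dd b τ z)⁻¹)) :
    ∃ u' : V →L[ℝ] ℝ, HasStrictFDerivAt (uu b τ) u' z ∧ ∀ w, u' w =
      π / 2 * sin (π / 2 * s) * (s * (∑ j, τ j ^ 2 * inner ℝ (b j) z * inner ℝ (b j) w) / Dd b τ z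
        - inner ℝ (yc b z) (yc b w) / (s * Dd b τ z)) := by
  obtain ⟨h1, h2⟩ := hz
  have hD : 0 < Dd b τ z := h1.trans h2
  have hq : 0 < ‖yc b z‖ ^ 2 * (Dd b τ z)⁻¹ := by positivity
  have hs0 : 0 < s := by rw [hs]; exact Real.sqrt_pos.2 hq
  have hs2 : s ^ 2 = ‖yc b z‖ ^ 2 * (Dd b τ z)⁻¹ := by rw [hs]; exact Real.sq_sqrt hq.le
  have hN : HasStrictFDerivAt (fun z => ‖yc b z‖ ^ 2) _ z :=
    (hasStrictFDerivAt_norm_sq (yc b z)).comp z (yc b).hasStrictFDerivAt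
  have hDd : HasStrictFDerivAt (Dd b τ)
      (∑ j, (τ j ^ 2 * (2 * inner ℝ (b j) z)) • innerSL ℝ (b j)) z := by
    unfold Dd
    apply HasStrictFDerivAt.fun_sum
    intro j _
    have h3 := ((hasStrictDerivAt_pow 2 (inner ℝ (b j) z)).const_mul
      (τ j ^ 2)).comp_hasStrictFDerivAt z (innerSL ℝ (b j)).hasStrictFDerivAt
    simp only [Nat.cast_ofNat, Nat.add_one_sub_one, pow_one] at h3
    exact h3
  have hI := (hasStrictDerivAt_inv hD.ne').comp_hasStrictFDerivAt z hDd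
  have hQ := ((hN.mul hI).sqrt hq.ne').const_mul (π / 2)
  refine ⟨_, hQ.cos, fun w => ?_⟩
  simp only [_root_.smul_apply, _root_.add_apply, Pi.mul_apply,
    Function.comp_apply, ContinuousLinearMap.comp_apply, _root_.sum_apply,
    innerSL_apply_apply, smul_eq_mul, ← hs, nsmul_eq_mul, Nat.cast_ofNat]
  have e : ∑ j, τ j ^ 2 * (2 * inner ℝ (b j) z) * inner ℝ (b j) w
      = 2 * ∑ j, τ j ^ 2 * inner ℝ (b j) z * inner ℝ (b j) w := by
    rw [Finset.mul_sum]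
    exact Finset.sum_congr rfl fun j _ => by ring
  have e2 : ‖yc b z‖ ^ 2 = s ^ 2 * Dd b τ z := by rw [hs2]; field_simp
  rw [e, e2]
  field_simp
  ring

lemma proj_jac {b : Fin d → V} (hb : Orthonormal ℝ b) (τ e : Fin d → ℝ) (he0 : ∀ j, 0 ≤ e j)
    (he1 : ∀ j, e j ≤ 1 / 2) (he : ∀ j, π ^ 2 / 4 * e j ^ 2 + 2 * τ j ^ 2 * e j ≤ τ j ^ 2)
    (hsum : ∑ j, e j = 1) {z : V} (hz : z ∈ Wd b τ) :
    ∃ (K : EuclideanSpace ℝ (Fin d) →ₗ[ℝ] EuclideanSpace ℝ (Fin d))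
      (R M : V →L[ℝ] EuclideanSpace ℝ (Fin d)), LinearMap.det K ≠ 0 ∧
      |LinearMap.det K| ≤ 1 ∧ ‖R‖ ≤ 1 ∧ (∀ w, M w = K (R w)) ∧
      HasStrictFDerivAt (proj b τ e) M z := by
  obtain ⟨u', hu', hu''⟩ := uu_deriv b τ hz _ rfl
  obtain ⟨h1, h2⟩ := hz
  set s := √(‖yc b z‖ ^ 2 * (Dd b τ z)⁻¹) with hs
  set D := Dd b τ z with hDdef
  have hD : 0 < D := h1.trans h2
  have hq : 0 < ‖yc b z‖ ^ 2 * D⁻¹ := by positivity
  have hs0 : 0 < s := Real.sqrt_pos.2 hq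
  have hs2 : s ^ 2 = ‖yc b z‖ ^ 2 * D⁻¹ := Real.sq_sqrt hq.le
  have hs1 : s < 1 := by
    rw [hs, Real.sqrt_lt' one_pos, one_pow, ← div_eq_mul_inv, div_lt_one hD]
    exact h2
  have hy : 0 < ‖yc b z‖ := by
    rcases (norm_nonneg (yc b z)).lt_or_eq with h | h
    · exact h
    · rw [← h] at h1; simp at h1
  set u := uu b τ z with hudef
  have hu : u = cos (π / 2 * s) := rfl
  have hu0 : 0 < u := by
    rw [hu]
    apply cos_pos_of_mem_Ioo
    constructor <;> nlinarith [pi_pos]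
  set Q := π / 2 * sin (π / 2 * s) with hQ
  have hQ0 : 0 ≤ Q := by
    have : 0 ≤ sin (π / 2 * s) :=
      sin_nonneg_of_nonneg_of_le_pi (by positivity) (by nlinarith [pi_pos])
    positivity
  let v : EuclideanSpace ℝ (Fin d) := WithLp.toLp 2 fun j => e j * inner ℝ (b j) z
  let h : EuclideanSpace ℝ (Fin d) :=
    WithLp.toLp 2 fun j => Q * s / (u * D) * (τ j ^ 2 * inner ℝ (b j) z)
  let ν : V →L[ℝ] ℝ := ‖yc b z‖⁻¹ • (innerSL ℝ (yc b z)).comp (yc b)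
  let β : ℝ := -(Q * ‖yc b z‖ / (u * s * D))
  set A := ∑ j, τ j ^ 2 * inner ℝ (b j) z ^ 2 * e j with hA
  have hA0 : 0 ≤ A := Finset.sum_nonneg fun j _ => by have := he0 j; positivity
  have hhv : inner ℝ h v = Q * s / (u * D) * A := by
    simp only [h, v, PiLp.inner_apply, hA, Finset.mul_sum]
    exact Finset.sum_congr rfl fun j _ => by simp; ring
  obtain ⟨K', R, hK, hR, hKR⟩ := factor (xc b) ν (by
    intro w
    rw [norm_xc, norm_split hb w]
    have h3 : |ν w| ≤ ‖yc b w‖ := by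
      simp only [ν, _root_.smul_apply, ContinuousLinearMap.comp_apply,
        innerSL_apply_apply, smul_eq_mul, abs_mul, abs_inv, abs_norm]
      rw [inv_mul_le_iff₀ hy]
      exact abs_real_inner_le_norm _ _
    have := sq_le_sq' (abs_le.1 h3).1 (abs_le.1 h3).2
    linarith) h v β (by rw [hhv]; positivity)
  let Λ : EuclideanSpace ℝ (Fin d) →ₗ[ℝ] EuclideanSpace ℝ (Fin d) :=
    Matrix.toLpLin 2 2 (Matrix.diagonal fun j => u ^ e j)
  have hΛ : LinearMap.det Λ = u := by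
    rw [LinearMap.det_toLpLin, Matrix.det_diagonal, ← Real.rpow_sum_of_pos hu0, hsum,
      Real.rpow_one]
  have hΛ' : ∀ x j, Λ x j = u ^ e j * x j := by
    intro x j
    simp [Λ, Matrix.toLpLin_apply, Matrix.mulVec_diagonal]
  set ρ := √((1 + inner ℝ h v) ^ 2 + ‖v‖ ^ 2 * β ^ 2) with hρ
  have hρ0 : 0 < ρ := Real.sqrt_pos.2 (by rw [hhv]; positivity)
  have hρ2 : ρ ^ 2 = (1 + inner ℝ h v) ^ 2 + ‖v‖ ^ 2 * β ^ 2 := Real.sq_sqrt (by positivity)
  have hdet : LinearMap.det (Λ ∘ₗ K') = u * ρ := by rw [LinearMap.det_comp, hΛ, hK]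
  refine ⟨Λ ∘ₗ K', R, (LinearMap.toContinuousLinearMap (Λ ∘ₗ K')).comp R, ?_, ?_, hR,
    fun w => rfl, ?_⟩
  · rw [hdet]; positivity
  · rw [hdet, abs_of_pos (by positivity)]
    refine le_of_sq_le_sq ?_ zero_le_one
    have hv : ‖v‖ ^ 2 = ∑ j, e j ^ 2 * inner ℝ (b j) z ^ 2 := by
      simp only [EuclideanSpace.real_norm_sq_eq, v, mul_pow]
    have hy2 : ‖yc b z‖ ^ 2 = s ^ 2 * D := by rw [hs2]; field_simp
    have e1 : (u * ρ) ^ 2 = ((u * D + Q * s * A) / D) ^ 2 + Q ^ 2 * ‖v‖ ^ 2 / D := by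
      rw [mul_pow, hρ2, hhv]
      simp only [β, neg_sq, div_pow, mul_pow, hy2]
      field_simp
    have e2 : u * D + Q * s * A
        = ∑ j, (τ j * inner ℝ (b j) z) * (τ j * inner ℝ (b j) z * (u + Q * s * e j)) := by
      rw [hA, hDdef, Dd, Finset.mul_sum, Finset.mul_sum, ← Finset.sum_add_distrib]
      exact Finset.sum_congr rfl fun j _ => by ring
    have h3 := Finset.sum_mul_sq_le_sq_mul_sq Finset.univ (fun j => τ j * inner ℝ (b j) z)
      (fun j => τ j * inner ℝ (b j) z * (u + Q * s * e j))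
    have e3 : ∑ j, (τ j * inner ℝ (b j) z) ^ 2 = D := by
      rw [hDdef, Dd]
      exact Finset.sum_congr rfl fun j _ => by ring
    rw [← e2, e3] at h3
    have h4 : ∑ j, (τ j * inner ℝ (b j) z * (u + Q * s * e j)) ^ 2 + Q ^ 2 * ‖v‖ ^ 2 ≤ D := by
      rw [hv, Finset.mul_sum, ← Finset.sum_add_distrib, hDdef, Dd]
      apply Finset.sum_le_sum
      intro j _
      have h5 := pure_ineq hs0.le hs1.le (he0 j) (he1 j) (he j)
      rw [← hu, ← hQ] at h5
      nlinarith [mul_le_mul_of_nonneg_right h5 (sq_nonneg (inner ℝ (b j) z))]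
    rw [e1, div_pow, one_pow, div_add_div _ _ (by positivity) hD.ne', div_le_one (by positivity)]
    nlinarith [mul_le_mul_of_nonneg_right h3 hD.le,
      mul_le_mul_of_nonneg_left h4 (mul_pos hD hD).le]
  · rw [hasStrictFDerivAt_euclidean]
    intro j
    have h3 := (hu'.rpow_const (p := e j) (Or.inl hu0.ne')).mul
      (innerSL ℝ (b j)).hasStrictFDerivAt
    have e1 : PiLp.proj 2 (fun _ : Fin d => ℝ) j ∘L
        (LinearMap.toContinuousLinearMap (Λ ∘ₗ K')).comp R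
        = uu b τ z ^ e j • innerSL ℝ (b j)
          + (innerSL ℝ (b j)) z • (e j * uu b τ z ^ (e j - 1)) • u' := by
      ext w
      simp only [ContinuousLinearMap.comp_apply, LinearMap.coe_toContinuousLinearMap',
        LinearMap.comp_apply, PiLp.proj_apply, ← hKR, hΛ', _root_.add_apply,
        _root_.smul_apply, innerSL_apply_apply, smul_eq_mul, hu'', ← hudef,
        PiLp.add_apply, PiLp.smul_apply, xc_apply]
      have e2 : inner ℝ h (xc b w) = Q * s / (u * D) *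
          ∑ j, τ j ^ 2 * inner ℝ (b j) z * inner ℝ (b j) w := by
        simp only [h, PiLp.inner_apply, Finset.mul_sum]
        exact Finset.sum_congr rfl fun j _ => by simp; ring
      rw [e2, Real.rpow_sub_one hu0.ne']
      simp only [ν, β, v, _root_.smul_apply, ContinuousLinearMap.comp_apply,
        innerSL_apply_apply, smul_eq_mul]
      field_simp
      ring
    rw [e1]
    exact h3

lemma proj_image_le [FiniteDimensional ℝ V] [MeasurableSpace V] [BorelSpace V]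
    {b : Fin d → V} (hb : Orthonormal ℝ b) (τ e : Fin d → ℝ) (he0 : ∀ j, 0 ≤ e j)
    (he1 : ∀ j, e j ≤ 1 / 2) (he : ∀ j, π ^ 2 / 4 * e j ^ 2 + 2 * τ j ^ 2 * e j ≤ τ j ^ 2)
    (hsum : ∑ j, e j = 1) (A : Set V) (hA : A ⊆ Wd b τ) :
    μH[d] (proj b τ e '' A) ≤ μH[d] A :=
  image_le_of_jac (by simp) _ A fun _ hz => proj_jac hb τ e he0 he1 he hsum (hA hz)

end

end Pool.Agent.Lib.MP_b07a76_an
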